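import Mathlib
import Pool.Agent.H7.VojtaBox

/-!
# Average of the gcd height: basic definitions

`PlSys` : a field with weighted absolute values and the product formula; `XSys` : an abelian group
with local heights, together with an `x`-coordinate map to the projective line; `Ten`, `tev` :
multihomogeneous forms of multidegree `(D, …, D)` on `(P¹)^n` and their values; `loc` : the local
term of the gcd height of a family of forms; `Big` : the family spans a subspace of small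
codimension.  See `BLUEPRINT.md` in this folder.
-/

set_option autoImplicit false

open Pool.Agent.H7.Vojta (HtSys box)

namespace Pool.Agent.AG

/-- A family of numbers `≥ 1`, almost all equal to `1`. -/
def IsCst {ι : Type*} (c : ι → ℝ) : Prop := (∀ v, 1 ≤ c v) ∧ {v | c v ≠ 1}.Finite

/-- A field with a family of weighted absolute values that satisfies the product formula. -/
structure PlSys (K : Type*) [Field K] (ι : Type*) where
  w : ι → ℝ
  w_nonneg : ∀ v, 0 ≤ w v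
  av : ι → AbsoluteValue K ℝ
  fin : ∀ a, a ≠ 0 → {v | av v a ≠ 1}.Finite
  prod : ∀ a, a ≠ 0 → ∀ V : Finset ι, (∀ v, av v a ≠ 1 → v ∈ V) →
    ∑ v ∈ V, w v * Real.log (av v a) = 0
  σ : ι → ℝ
  σ_cst : IsCst σ
  add_le : ∀ v a b, av v (a + b) ≤ σ v * max (av v a) (av v b)

/-- Coefficients of a form of multidegree `(D, …, D)` on `(P¹)^n`. -/
abbrev Ten (K : Type*) (n D : ℕ) := (Fin n → Fin (D + 1)) → K

/-- The value of a form of multidegree `(D, …, D)`. -/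
noncomputable def tev {K A : Type*} [Field K] [CommRing A] [Algebra K A] {n D : ℕ}
    (c : Ten K n D) (p : Fin n → Fin 2 → A) : A :=
  ∑ e, algebraMap K A (c e) * ∏ i, (p i 0 ^ (e i : ℕ) * p i 1 ^ (D - (e i : ℕ)))

/-- The value of a binary form. -/
def bf {A : Type*} [CommRing A] {D : ℕ} (c : Fin (D + 1) → A) (p : Fin 2 → A) : A :=
  ∑ k : Fin (D + 1), c k * (p 0 ^ (k : ℕ) * p 1 ^ (D - (k : ℕ)))

/-- The coefficient of `x_0^k` of a form, a form in the other variables. -/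
def sl {K : Type*} {n D : ℕ} (c : Ten K (n + 1) D) (k : Fin (D + 1)) : Ten K n D :=
  fun e => c (Fin.cons k e)

/-- The form `R · x_0^k`. -/
def emb {K : Type*} [Zero K] {n D : ℕ} (k : Fin (D + 1)) (R : Ten K n D) : Ten K (n + 1) D :=
  fun e => if e 0 = k then R (Fin.tail e) else 0

/-- `2 (D + 1) * codimension < (D + 1) ^ n`. -/
def Big {K : Type*} [Field K] {n D : ℕ} {J : Type*} (f : J → Ten K n D) : Prop :=
  2 * (D + 1) * ((D + 1) ^ n - Module.finrank K (Submodule.span K (Set.range f))) < (D + 1) ^ n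

section

variable {K : Type*} [Field K] {ι : Type*} (𝓟 : PlSys K ι)

/-- The maximum norm on `K²` at the place `v`. -/
noncomputable def nm (v : ι) (p : Fin 2 → K) : ℝ := max (𝓟.av v (p 0)) (𝓟.av v (p 1))

/-- Projective distance. -/
noncomputable def pd (v : ι) (p q : Fin 2 → K) : ℝ :=
  𝓟.av v (p 0 * q 1 - p 1 * q 0) / (nm 𝓟 v p * nm 𝓟 v q)

/-- Normalised absolute value of a binary form, relative to the size of its coefficients. -/
noncomputable def bval (v : ι) {D : ℕ} (c : Fin (D + 1) → K) (p : Fin 2 → K) : ℝ :=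
  𝓟.av v (bf c p) / ((⨆ k, 𝓟.av v (c k)) * nm 𝓟 v p ^ D)

/-- Normalised absolute value of a form on `(P¹)^n`. -/
noncomputable def hval (v : ι) {n D : ℕ} (c : Ten K n D) (p : Fin n → Fin 2 → K) : ℝ :=
  𝓟.av v (tev c p) / ∏ i, nm 𝓟 v (p i) ^ D

/-- The local term of the gcd height of a family of forms. -/
noncomputable def loc (v : ι) {n D : ℕ} {J : Type*} (f : J → Ten K n D)
    (p : Fin n → Fin 2 → K) : ℝ :=
  max 0 (-Real.log (⨆ j, hval 𝓟 v (f j) p))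

/-- The truncated local term in one variable: `min m (-log bval)`. -/
noncomputable def tru (v : ι) {D : ℕ} (c : Fin (D + 1) → K) (m : ℝ) (p : Fin 2 → K) : ℝ :=
  max 0 (-Real.log (max (bval 𝓟 v c p) (Real.exp (-m))))

/-- An abelian group with a local height system and an `x`-coordinate. -/
structure XSys (G : Type*) [AddCommGroup G] where
  H : HtSys G ι
  w_eq : ∀ v, H.w v = 𝓟.w v
  ξ : G → Fin 2 → K
  one_le_nm : ∀ v P, 1 ≤ nm 𝓟 v (ξ P)
  ξ_fin : ∀ P, {v | nm 𝓟 v (ξ P) ≠ 1}.Finite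
  ht : ∀ P, ∀ V : Finset ι, (∀ v, nm 𝓟 v (ξ P) ≠ 1 → v ∈ V) →
    ∑ v ∈ V, 𝓟.w v * Real.log (nm 𝓟 v (ξ P)) = H.h P
  inj : ∀ P Q, ξ P 0 * ξ Q 1 - ξ P 1 * ξ Q 0 = 0 → P = Q ∨ P = -Q
  b : ι → ℝ
  b_cst : IsCst b
  near : ∀ v P Q, H.ν v (P + Q) * H.ν v (P - Q) ≤ b v * pd 𝓟 v (ξ P) (ξ Q) ^ 2

/-- The sets `S M`, `M ≥ 1`, grow like boxes of dimension `ρ`, and the one-variable average is
controlled with the exponent `θ`. -/
structure Bx {𝓟 : PlSys K ι} {G : Type*} [AddCommGroup G] (𝓧 : XSys 𝓟 G) (S : ℕ → Finset G)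
    (ρ : ℕ) (θ : ℝ) : Prop where
  card : ∃ C : ℝ, 0 ≤ C ∧ ∀ M : ℕ, 1 ≤ M → ((S M).card : ℝ) ≤ C * (M : ℝ) ^ ρ
  height : ∃ C : ℝ, 0 ≤ C ∧ ∀ M : ℕ, 1 ≤ M → ∀ P ∈ S M, 𝓧.H.h P ≤ C * (M : ℝ) ^ 2
  one : ∀ (D : ℕ) (A : ℝ), 0 ≤ A → ∃ C : ℝ, 0 ≤ C ∧ ∀ M : ℕ, 1 ≤ M → ∀ (V : Finset ι)
    (c : ι → Fin (D + 1) → K) (m : ι → ℝ), (∀ v, c v ≠ 0) → (∀ v, 0 ≤ m v) →
    ∑ v ∈ V, 𝓟.w v * m v ≤ A * (M : ℝ) ^ 2 →
    ∑ P ∈ S M, ∑ v ∈ V, 𝓟.w v * tru 𝓟 v (c v) (m v) (𝓧.ξ P) ≤ C * (M : ℝ) ^ ((ρ : ℝ) + θ)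

end

end Pool.Agent.AG
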