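import Mathlib
import Pool.Agent.AG.Defs

/-! # Linear algebra of forms (module Lin) -/

set_option autoImplicit false

namespace Pool.Agent.AG

section

variable {K A : Type*} [Field K] [CommRing A] [Algebra K A] {n D : ℕ}

/-- `tev` is linear in the coefficients. -/
noncomputable def tevL (p : Fin n → Fin 2 → A) : Ten K n D →ₗ[K] A where
  toFun c := tev c p
  map_add' c c' := by
    simp only [tev, Pi.add_apply, map_add, add_mul, Finset.sum_add_distrib]
  map_smul' a c := by
    simp only [tev, Pi.smul_apply, smul_eq_mul, map_mul, mul_assoc, Finset.mul_sum,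
      RingHom.id_apply, Algebra.smul_def]

lemma tevL_apply (p : Fin n → Fin 2 → A) (c : Ten K n D) : tevL p c = tev c p := rfl

lemma tev_smul (c : Ten K n D) (s : Fin n → A) (p : Fin n → Fin 2 → A) :
    tev c (fun i k => s i * p i k) = (∏ i, s i ^ D) * tev c p := by
  unfold tev
  rw [Finset.mul_sum]
  refine Finset.sum_congr rfl fun e _ => ?_
  rw [mul_left_comm, ← Finset.prod_mul_distrib]
  refine congrArg _ (Finset.prod_congr rfl fun i _ => ?_)
  have he : (e i : ℕ) + (D - (e i : ℕ)) = D := Nat.add_sub_cancel' (Nat.lt_succ_iff.mp (e i).2)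
  have hs : s i ^ D = s i ^ (e i : ℕ) * s i ^ (D - (e i : ℕ)) := by rw [← pow_add, he]
  rw [mul_pow, mul_pow, hs]
  ring

lemma tev_map {B : Type*} [CommRing B] [Algebra K B] (φ : A →ₐ[K] B) (c : Ten K n D)
    (p : Fin n → Fin 2 → A) : φ (tev c p) = tev c (fun i k => φ (p i k)) := by
  simp only [tev, map_sum, map_mul, map_prod, map_pow, AlgHom.commutes]

end

section

variable {K : Type*} [Field K] {n D : ℕ}

lemma tev_zero_dim (c : Ten K 0 D) (p : Fin 0 → Fin 2 → K) : tev c p = c (fun i => i.elim0) := by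
  unfold tev
  rw [Fintype.sum_eq_single (fun i : Fin 0 => i.elim0)]
  · simp
  · intro e he
    exact absurd (Subsingleton.elim _ _) he

lemma tev_succ (c : Ten K (n + 1) D) (x : Fin 2 → K) (p : Fin n → Fin 2 → K) :
    tev c (Fin.cons x p : Fin (n + 1) → Fin 2 → K) = bf (fun k => tev (sl c k) p) x := by
  unfold tev bf sl
  rw [← (Fin.consEquiv (fun _ : Fin (n + 1) => Fin (D + 1))).sum_comp, Fintype.sum_prod_type]
  refine Finset.sum_congr rfl fun k _ => ?_
  rw [Finset.sum_mul]
  refine Finset.sum_congr rfl fun e _ => ?_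
  have h : (Fin.consEquiv (fun _ : Fin (n + 1) => Fin (D + 1))) (k, e) = Fin.cons k e := rfl
  rw [h, Fin.prod_univ_succ]
  simp only [Fin.cons_zero, Fin.cons_succ]
  ring

lemma sl_emb (k k' : Fin (D + 1)) (R : Ten K n D) :
    sl (emb k R) k' = if k' = k then R else 0 := by
  funext e
  by_cases h : k' = k
  · simp [sl, emb, h]
  · simp [sl, emb, h]

lemma tev_emb (k : Fin (D + 1)) (R : Ten K n D) (x : Fin 2 → K) (p : Fin n → Fin 2 → K) :
    tev (emb k R) (Fin.cons x p : Fin (n + 1) → Fin 2 → K) =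
      tev R p * (x 0 ^ (k : ℕ) * x 1 ^ (D - (k : ℕ))) := by
  rw [tev_succ]
  unfold bf
  rw [Fintype.sum_eq_single k]
  · simp only [sl_emb, if_true]
  · intro k' hk'
    have h0 : tev (0 : Ten K n D) p = 0 := by simp [tev]
    simp only [sl_emb, if_neg hk', h0, zero_mul]

lemma exists_sl_ne_zero {c : Ten K (n + 1) D} (hc : c ≠ 0) : ∃ k, sl c k ≠ 0 := by
  by_contra h
  push Not at h
  apply hc
  funext e
  have := congrFun (h (e 0)) (Fin.tail e)
  simpa [sl] using this

lemma finrank_ten : Module.finrank K (Ten K n D) = (D + 1) ^ n := by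
  rw [Module.finrank_fintype_fun_eq_card]
  simp

lemma Big.exists_ne_zero {J : Type*} {f : J → Ten K n D} (hf : Big f) : ∃ j, f j ≠ 0 := by
  by_contra h
  push Not at h
  have h0 : Submodule.span K (Set.range f) = ⊥ := by
    rw [Submodule.span_eq_bot]
    rintro _ ⟨j, rfl⟩
    exact h j
  unfold Big at hf
  rw [h0, finrank_bot, Nat.sub_zero] at hf
  nlinarith [hf, Nat.zero_le ((D + 1) ^ n)]

/-- All the slices of a form. -/
def slL : Ten K (n + 1) D →ₗ[K] (Fin (D + 1) → Ten K n D) where
  toFun c := fun k => sl c k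
  map_add' _ _ := rfl
  map_smul' _ _ := rfl

lemma slL_injective : Function.Injective (slL : Ten K (n + 1) D →ₗ[K] _) := by
  rw [injective_iff_map_eq_zero]
  intro c hc
  by_contra h
  obtain ⟨k, hk⟩ := exists_sl_ne_zero h
  exact hk (congrFun hc k)

theorem Big.sl {J : Type*} {f : J → Ten K (n + 1) D} (hf : Big f) :
    Big (fun jk : J × Fin (D + 1) => AG.sl (f jk.1) jk.2) := by
  unfold Big at hf ⊢
  set V := Submodule.span K (Set.range f) with hV
  set V' := Submodule.span K (Set.range fun jk : J × Fin (D + 1) => AG.sl (f jk.1) jk.2) with hV'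
  have hmap : ∀ c ∈ V, ∀ k, AG.sl c k ∈ V' := by
    intro c hc k
    have hle : V ≤ V'.comap ((LinearMap.proj k).comp slL) := by
      rw [hV, Submodule.span_le]
      rintro _ ⟨j, rfl⟩
      exact Submodule.subset_span ⟨(j, k), rfl⟩
    exact hle hc
  let φ : V →ₗ[K] (Fin (D + 1) → V') :=
    { toFun := fun c k => ⟨AG.sl c.1 k, hmap c.1 c.2 k⟩
      map_add' := fun _ _ => rfl
      map_smul' := fun _ _ => rfl }
  have hφ : Function.Injective φ := by
    intro c c' h
    apply Subtype.ext
    apply slL_injective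
    funext k
    exact congrArg Subtype.val (congrFun h k)
  have h1 : Module.finrank K V ≤ (D + 1) * Module.finrank K V' := by
    have h := LinearMap.finrank_le_finrank_of_injective hφ
    rw [Module.finrank_pi_fintype] at h
    simpa using h
  have h2 : Module.finrank K V' ≤ (D + 1) ^ n := by
    rw [← finrank_ten (K := K)]
    exact Submodule.finrank_le V'
  have h3 : (D + 1) * ((D + 1) ^ n - Module.finrank K V') ≤
      (D + 1) ^ (n + 1) - Module.finrank K V := by
    rw [Nat.mul_sub, pow_succ, mul_comm ((D + 1) ^ n) (D + 1)]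
    omega
  have h4 : 2 * ((D + 1) ^ (n + 1) - Module.finrank K V) < (D + 1) ^ n := by
    have : (D + 1) * (2 * ((D + 1) ^ (n + 1) - Module.finrank K V)) < (D + 1) * (D + 1) ^ n := by
      calc (D + 1) * (2 * ((D + 1) ^ (n + 1) - Module.finrank K V))
          = 2 * (D + 1) * ((D + 1) ^ (n + 1) - Module.finrank K V) := by ring
        _ < (D + 1) ^ (n + 1) := hf
        _ = (D + 1) * (D + 1) ^ n := by ring
    exact lt_of_mul_lt_mul_left this (Nat.zero_le _)
  calc 2 * (D + 1) * ((D + 1) ^ n - Module.finrank K V')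
      = 2 * ((D + 1) * ((D + 1) ^ n - Module.finrank K V')) := by ring
    _ ≤ 2 * ((D + 1) ^ (n + 1) - Module.finrank K V) := Nat.mul_le_mul_left 2 h3
    _ < (D + 1) ^ n := h4

/-- `emb` as a linear map. -/
def embL (k : Fin (D + 1)) : Ten K n D →ₗ[K] Ten K (n + 1) D where
  toFun R := emb k R
  map_add' R R' := by
    funext e
    simp only [emb, Pi.add_apply]
    split_ifs <;> simp
  map_smul' a R := by
    funext e
    simp only [emb, Pi.smul_apply, RingHom.id_apply, smul_eq_mul]
    split_ifs <;> simp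

theorem Big.exists_R {J : Type*} {f : J → Ten K (n + 1) D} (hf : Big f) :
    ∃ R : Ten K n D, R ≠ 0 ∧ emb 0 R ∈ Submodule.span K (Set.range f) ∧
      emb (Fin.last D) R ∈ Submodule.span K (Set.range f) := by
  unfold Big at hf
  set V := Submodule.span K (Set.range f) with hV
  let φ : Ten K n D →ₗ[K] (Ten K (n + 1) D ⧸ V) × (Ten K (n + 1) D ⧸ V) :=
    (V.mkQ.comp (embL 0)).prod (V.mkQ.comp (embL (Fin.last D)))
  have h1 : Module.finrank K V + Module.finrank K (Ten K (n + 1) D ⧸ V) = (D + 1) ^ (n + 1) := by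
    rw [← finrank_ten (K := K), add_comm]
    exact Submodule.finrank_quotient_add_finrank V
  have h2 : Module.finrank K ((Ten K (n + 1) D ⧸ V) × (Ten K (n + 1) D ⧸ V)) <
      Module.finrank K (Ten K n D) := by
    rw [Module.finrank_prod, finrank_ten]
    have h3 : Module.finrank K (Ten K (n + 1) D ⧸ V) =
        (D + 1) ^ (n + 1) - Module.finrank K V := by omega
    rw [h3]
    have : (D + 1) * (((D + 1) ^ (n + 1) - Module.finrank K V) +
        ((D + 1) ^ (n + 1) - Module.finrank K V)) < (D + 1) * (D + 1) ^ n := by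
      calc (D + 1) * (((D + 1) ^ (n + 1) - Module.finrank K V) +
            ((D + 1) ^ (n + 1) - Module.finrank K V))
          = 2 * (D + 1) * ((D + 1) ^ (n + 1) - Module.finrank K V) := by ring
        _ < (D + 1) ^ (n + 1) := hf
        _ = (D + 1) * (D + 1) ^ n := by ring
    exact lt_of_mul_lt_mul_left this (Nat.zero_le _)
  have h4 := LinearMap.ker_ne_bot_of_finrank_lt h2 (f := φ)
  obtain ⟨R, hR, hR0⟩ := Submodule.exists_mem_ne_zero_of_ne_bot h4
  refine ⟨R, hR0, ?_, ?_⟩
  · have := congrArg Prod.fst (LinearMap.mem_ker.mp hR)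
    exact (Submodule.Quotient.mk_eq_zero V).mp this
  · have := congrArg Prod.snd (LinearMap.mem_ker.mp hR)
    exact (Submodule.Quotient.mk_eq_zero V).mp this

end

end Pool.Agent.AG
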