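import Mathlib
import Pool.Agent.AG.Defs
import Pool.Agent.AG.Lin

/-! # Places: constants (module Pl) -/

set_option autoImplicit false

namespace Pool.Agent.AG

section cst

variable {ι : Type*}

lemma IsCst.one_le {c : ι → ℝ} (h : IsCst c) (v : ι) : 1 ≤ c v := h.1 v

lemma IsCst.pos {c : ι → ℝ} (h : IsCst c) (v : ι) : 0 < c v := zero_lt_one.trans_le (h.1 v)

lemma isCst_one : IsCst (fun _ : ι => (1 : ℝ)) := by
  refine ⟨fun _ => le_rfl, ?_⟩
  simp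

lemma IsCst.mul {c c' : ι → ℝ} (h : IsCst c) (h' : IsCst c') : IsCst (fun v => c v * c' v) := by
  refine ⟨fun v => one_le_mul_of_one_le_of_one_le (h.1 v) (h'.1 v), ?_⟩
  refine (h.2.union h'.2).subset fun v hv => ?_
  by_contra hn
  simp only [Set.mem_union, Set.mem_ofPred_eq, not_or, not_not] at hn
  exact hv (by simp [hn.1, hn.2])

lemma IsCst.pow {c : ι → ℝ} (h : IsCst c) (n : ℕ) : IsCst (fun v => c v ^ n) := by
  refine ⟨fun v => one_le_pow₀ (h.1 v), ?_⟩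
  refine h.2.subset fun v hv hn => ?_
  exact hv (by simp [hn])

lemma IsCst.finset_prod {α : Type*} {c : α → ι → ℝ} (s : Finset α) (h : ∀ a ∈ s, IsCst (c a)) :
    IsCst (fun v => ∏ a ∈ s, c a v) := by
  classical
  induction s using Finset.induction_on with
  | empty => simpa using isCst_one
  | insert a s ha ih =>
    have h1 := h a (Finset.mem_insert_self a s)
    have h2 := ih (fun b hb => h b (Finset.mem_insert_of_mem hb))
    have h3 := h1.mul h2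
    simpa only [Finset.prod_insert ha] using h3

lemma le_prod_of_one_le {α : Type*} (s : Finset α) (f : α → ℝ) (h : ∀ a ∈ s, 1 ≤ f a) {a : α}
    (ha : a ∈ s) : f a ≤ ∏ b ∈ s, f b := by
  classical
  rw [← Finset.mul_prod_erase s f ha]
  have h1 : 1 ≤ ∏ b ∈ s.erase a, f b := by
    refine Finset.one_le_prod fun b hb => h b (Finset.mem_of_mem_erase hb)
  have h2 : 0 ≤ f a := zero_le_one.trans (h a ha)
  nlinarith

/-- A finite family of families of constants has a common bound. -/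
lemma exists_common {α : Type*} [Finite α] {Φ : α → ι → ℝ → Prop}
    (hmono : ∀ a v c c', c ≤ c' → Φ a v c → Φ a v c')
    (h : ∀ a, ∃ C : ι → ℝ, IsCst C ∧ ∀ v, Φ a v (C v)) :
    ∃ C : ι → ℝ, IsCst C ∧ ∀ a v, Φ a v (C v) := by
  classical
  cases nonempty_fintype α
  choose C hC hΦ using h
  refine ⟨fun v => ∏ a, C a v, IsCst.finset_prod _ (fun a _ => hC a), fun a v => ?_⟩
  refine hmono a v _ _ ?_ (hΦ a v)
  exact le_prod_of_one_le Finset.univ (fun a => C a v) (fun b _ => (hC b).1 v) (Finset.mem_univ a)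

end cst

section

variable {K : Type*} [Field K] {ι : Type*} (𝓟 : PlSys K ι)

/-- The total contribution of a constant. -/
lemma exists_sum_log_le {C : ι → ℝ} (hC : IsCst C) :
    ∃ κ : ℝ, 0 ≤ κ ∧ ∀ V : Finset ι, ∑ v ∈ V, 𝓟.w v * Real.log (C v) ≤ κ := by
  classical
  have hnn : ∀ v, 0 ≤ 𝓟.w v * Real.log (C v) := fun v =>
    mul_nonneg (𝓟.w_nonneg v) (Real.log_nonneg (hC.1 v))
  refine ⟨∑ v ∈ hC.2.toFinset, 𝓟.w v * Real.log (C v), Finset.sum_nonneg fun v _ => hnn v,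
    fun V => ?_⟩
  have h1 : ∑ v ∈ V, 𝓟.w v * Real.log (C v) ≤
      ∑ v ∈ V ∪ hC.2.toFinset, 𝓟.w v * Real.log (C v) :=
    Finset.sum_le_sum_of_subset_of_nonneg Finset.subset_union_left fun v _ _ => hnn v
  refine h1.trans (le_of_eq ?_)
  symm
  refine Finset.sum_subset Finset.subset_union_right fun v _ hv => ?_
  have : C v = 1 := by
    by_contra hne
    exact hv (by simpa using hne)
  rw [this, Real.log_one, mul_zero]

lemma exists_av_le (a : K) : ∃ C : ι → ℝ, IsCst C ∧ ∀ v, 𝓟.av v a ≤ C v := by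
  refine ⟨fun v => max 1 (𝓟.av v a), ⟨fun v => le_max_left _ _, ?_⟩, fun v => le_max_right _ _⟩
  by_cases ha : a = 0
  · simp [ha]
  · refine (𝓟.fin a ha).subset fun v hv hn => ?_
    exact hv (by simp [hn])

lemma exists_av_ge {a : K} (ha : a ≠ 0) : ∃ C : ι → ℝ, IsCst C ∧ ∀ v, 1 ≤ C v * 𝓟.av v a := by
  refine ⟨fun v => max 1 (𝓟.av v a)⁻¹, ⟨fun v => le_max_left _ _, ?_⟩, fun v => ?_⟩
  · refine (𝓟.fin a ha).subset fun v hv hn => ?_
    exact hv (by simp [hn])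
  · have hpos : 0 < 𝓟.av v a := (𝓟.av v).pos ha
    calc (1 : ℝ) = (𝓟.av v a)⁻¹ * 𝓟.av v a := (inv_mul_cancel₀ hpos.ne').symm
      _ ≤ max 1 (𝓟.av v a)⁻¹ * 𝓟.av v a :=
        mul_le_mul_of_nonneg_right (le_max_right _ _) hpos.le

lemma av_sum_le {α : Type*} (s : Finset α) (a : α → K) (v : ι) {B : ℝ} (hB : 0 ≤ B)
    (h : ∀ i ∈ s, 𝓟.av v (a i) ≤ B) : 𝓟.av v (∑ i ∈ s, a i) ≤ 𝓟.σ v ^ s.card * B := by
  classical
  have hσ : 1 ≤ 𝓟.σ v := 𝓟.σ_cst.1 v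
  have hσ0 : 0 ≤ 𝓟.σ v := zero_le_one.trans hσ
  induction s using Finset.induction_on with
  | empty => simpa using hB
  | insert b s hb ih =>
    have ih' := ih (fun i hi => h i (Finset.mem_insert_of_mem hi))
    have hb' := h b (Finset.mem_insert_self b s)
    rw [Finset.sum_insert hb, Finset.card_insert_of_notMem hb, pow_succ, mul_comm (𝓟.σ v ^ s.card),
      mul_assoc]
    refine (𝓟.add_le v _ _).trans (mul_le_mul_of_nonneg_left (max_le ?_ ih') hσ0)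
    refine hb'.trans ?_
    have h1 : 1 ≤ 𝓟.σ v ^ s.card := one_le_pow₀ hσ
    nlinarith

lemma nm_nonneg (v : ι) (p : Fin 2 → K) : 0 ≤ nm 𝓟 v p :=
  le_max_of_le_left ((𝓟.av v).nonneg _)

lemma prod_nm_nonneg (v : ι) {n D : ℕ} (p : Fin n → Fin 2 → K) :
    0 ≤ ∏ i, nm 𝓟 v (p i) ^ D :=
  Finset.prod_nonneg fun i _ => pow_nonneg (nm_nonneg 𝓟 v (p i)) D

lemma hval_nonneg (v : ι) {n D : ℕ} (c : Ten K n D) (p : Fin n → Fin 2 → K) :
    0 ≤ hval 𝓟 v c p :=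
  div_nonneg ((𝓟.av v).nonneg _) (prod_nm_nonneg 𝓟 v p)

lemma hval_zero (v : ι) {n D : ℕ} (p : Fin n → Fin 2 → K) : hval 𝓟 v (0 : Ten K n D) p = 0 := by
  have h : tev (0 : Ten K n D) p = 0 := by simp [tev]
  rw [hval, h, map_zero, zero_div]

lemma av_monomial_le (v : ι) {n D : ℕ} (e : Fin n → Fin (D + 1)) (p : Fin n → Fin 2 → K) :
    𝓟.av v (∏ i, (p i 0 ^ (e i : ℕ) * p i 1 ^ (D - (e i : ℕ)))) ≤ ∏ i, nm 𝓟 v (p i) ^ D := by
  rw [map_prod]
  refine Finset.prod_le_prod (fun i _ => (𝓟.av v).nonneg _) fun i _ => ?_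
  rw [map_mul, map_pow, map_pow]
  have he : (e i : ℕ) + (D - (e i : ℕ)) = D := Nat.add_sub_cancel' (Nat.lt_succ_iff.mp (e i).2)
  calc 𝓟.av v (p i 0) ^ (e i : ℕ) * 𝓟.av v (p i 1) ^ (D - (e i : ℕ))
      ≤ nm 𝓟 v (p i) ^ (e i : ℕ) * nm 𝓟 v (p i) ^ (D - (e i : ℕ)) :=
        mul_le_mul (pow_le_pow_left₀ ((𝓟.av v).nonneg _) (le_max_left _ _) _)
          (pow_le_pow_left₀ ((𝓟.av v).nonneg _) (le_max_right _ _) _)
          (pow_nonneg ((𝓟.av v).nonneg _) _) (pow_nonneg (nm_nonneg 𝓟 v _) _)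
    _ = nm 𝓟 v (p i) ^ D := by rw [← pow_add, he]

/-- Normalised values of a form are bounded. -/
theorem exists_hval_le {n D : ℕ} (c : Ten K n D) :
    ∃ C : ι → ℝ, IsCst C ∧ ∀ v p, hval 𝓟 v c p ≤ C v := by
  obtain ⟨C, hC, hle⟩ := exists_common (α := Fin n → Fin (D + 1))
    (Φ := fun e v t => 𝓟.av v (c e) ≤ t) (fun _ _ _ _ h h' => h'.trans h)
    (fun e => exists_av_le 𝓟 (c e))
  refine ⟨fun v => 𝓟.σ v ^ (Finset.univ : Finset (Fin n → Fin (D + 1))).card * C v,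
    (𝓟.σ_cst.pow _).mul hC, fun v p => ?_⟩
  have hC0 : 0 ≤ C v := (hC.pos v).le
  have hσ0 : 0 ≤ 𝓟.σ v := (𝓟.σ_cst.pos v).le
  refine div_le_of_le_mul₀ (prod_nm_nonneg 𝓟 v p) (mul_nonneg (pow_nonneg hσ0 _) hC0) ?_
  rw [mul_assoc]
  unfold tev
  refine av_sum_le 𝓟 _ _ v (mul_nonneg hC0 (prod_nm_nonneg 𝓟 v p)) fun e _ => ?_
  rw [map_mul]
  exact mul_le_mul (hle e v) (av_monomial_le 𝓟 v e p) ((𝓟.av v).nonneg _) hC0

theorem exists_span_le {n D : ℕ} {J : Type*} [Finite J] (f : J → Ten K n D) (g : Ten K n D)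
    (hg : g ∈ Submodule.span K (Set.range f)) :
    ∃ C : ι → ℝ, IsCst C ∧ ∀ v p, hval 𝓟 v g p ≤ C v * ⨆ j, hval 𝓟 v (f j) p := by
  classical
  cases nonempty_fintype J
  obtain ⟨a, rfl⟩ := (Submodule.mem_span_range_iff_exists_fun K).mp hg
  obtain ⟨C, hC, hle⟩ := exists_common (α := J)
    (Φ := fun j v t => 𝓟.av v (a j) ≤ t) (fun _ _ _ _ h h' => h'.trans h)
    (fun j => exists_av_le 𝓟 (a j))
  refine ⟨fun v => 𝓟.σ v ^ (Finset.univ : Finset J).card * C v,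
    (𝓟.σ_cst.pow _).mul hC, fun v p => ?_⟩
  have hC0 : 0 ≤ C v := (hC.pos v).le
  have hσ0 : 0 ≤ 𝓟.σ v := (𝓟.σ_cst.pos v).le
  have hsup0 : 0 ≤ ⨆ j, hval 𝓟 v (f j) p := Real.iSup_nonneg fun j => hval_nonneg 𝓟 v (f j) p
  have hP := prod_nm_nonneg 𝓟 v p (D := D)
  rcases hP.eq_or_lt with h0 | hpos
  · have : hval 𝓟 v (∑ i, a i • f i) p = 0 := by
      rw [hval, ← h0, div_zero]
    rw [this]
    exact mul_nonneg (mul_nonneg (pow_nonneg hσ0 _) hC0) hsup0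
  refine div_le_of_le_mul₀ hP (mul_nonneg (mul_nonneg (pow_nonneg hσ0 _) hC0) hsup0) ?_
  have hlin : tev (∑ i, a i • f i) p = ∑ i, a i * tev (f i) p := by
    rw [← tevL_apply, map_sum]
    refine Finset.sum_congr rfl fun i _ => ?_
    rw [map_smul, tevL_apply, smul_eq_mul]
  rw [hlin, mul_assoc, mul_assoc]
  refine av_sum_le 𝓟 _ _ v (mul_nonneg hC0 (mul_nonneg hsup0 hP)) fun j _ => ?_
  rw [map_mul]
  refine mul_le_mul (hle j v) ?_ ((𝓟.av v).nonneg _) hC0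
  have h1 : hval 𝓟 v (f j) p ≤ ⨆ j, hval 𝓟 v (f j) p :=
    le_ciSup (f := fun j => hval 𝓟 v (f j) p) (Set.finite_range _).bddAbove j
  have h2 : 𝓟.av v (tev (f j) p) = hval 𝓟 v (f j) p * ∏ i, nm 𝓟 v (p i) ^ D := by
    rw [hval, div_mul_cancel₀ _ hpos.ne']
  rw [h2]
  exact mul_le_mul_of_nonneg_right h1 hP

/-- The product formula gives an upper bound for the total closeness to the zero set of a form. -/
theorem exists_sum_neg_log_le {n D : ℕ} (c : Ten K n D) :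
    ∃ κ : ℝ, 0 ≤ κ ∧ ∀ (p : Fin n → Fin 2 → K) (h : Fin n → ℝ),
      (∀ v i, 1 ≤ nm 𝓟 v (p i)) → (∀ i, {v | nm 𝓟 v (p i) ≠ 1}.Finite) →
      (∀ i, ∀ V : Finset ι, (∀ v, nm 𝓟 v (p i) ≠ 1 → v ∈ V) →
        ∑ v ∈ V, 𝓟.w v * Real.log (nm 𝓟 v (p i)) = h i) →
      tev c p ≠ 0 → ∀ V : Finset ι,
        ∑ v ∈ V, 𝓟.w v * max 0 (-Real.log (hval 𝓟 v c p)) ≤ D * ∑ i, h i + κ := by
  classical
  obtain ⟨C, hC, hle⟩ := exists_hval_le 𝓟 c
  obtain ⟨κ, hκ0, hκ⟩ := exists_sum_log_le 𝓟 hC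
  refine ⟨κ, hκ0, fun p h hnm hfin hh htev V => ?_⟩
  have hPpos : ∀ v, 0 < ∏ i, nm 𝓟 v (p i) ^ D := fun v =>
    Finset.prod_pos fun i _ => pow_pos (zero_lt_one.trans_le (hnm v i)) D
  have htpos : ∀ v, 0 < 𝓟.av v (tev c p) := fun v => (𝓟.av v).pos htev
  have hvpos : ∀ v, 0 < hval 𝓟 v c p := fun v => div_pos (htpos v) (hPpos v)
  have hlog : ∀ v, Real.log (hval 𝓟 v c p) =
      Real.log (𝓟.av v (tev c p)) - ∑ i, D * Real.log (nm 𝓟 v (p i)) := by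
    intro v
    rw [hval, Real.log_div (htpos v).ne' (hPpos v).ne', Real.log_prod]
    · simp only [Real.log_pow]
    · intro i _
      exact (pow_pos (zero_lt_one.trans_le (hnm v i)) D).ne'
  have hterm : ∀ v, 𝓟.w v * max 0 (-Real.log (hval 𝓟 v c p)) ≤
      𝓟.w v * (-Real.log (hval 𝓟 v c p) + Real.log (C v)) := by
    intro v
    refine mul_le_mul_of_nonneg_left (max_le ?_ ?_) (𝓟.w_nonneg v)
    · have := Real.log_le_log (hvpos v) (hle v p)
      linarith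
    · have := Real.log_nonneg (hC.1 v)
      linarith
  have hnn : ∀ v, 0 ≤ 𝓟.w v * (-Real.log (hval 𝓟 v c p) + Real.log (C v)) := by
    intro v
    refine le_trans (mul_nonneg (𝓟.w_nonneg v) (le_max_left _ _)) (hterm v)
  let V' : Finset ι := V ∪ ((𝓟.fin _ htev).toFinset ∪ Finset.univ.biUnion fun i => (hfin i).toFinset)
  have hV1 : ∀ v, 𝓟.av v (tev c p) ≠ 1 → v ∈ V' := by
    intro v hv
    simp only [V', Finset.mem_union]
    exact Or.inr (Or.inl (by simpa using hv))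
  have hV2 : ∀ i v, nm 𝓟 v (p i) ≠ 1 → v ∈ V' := by
    intro i v hv
    simp only [V', Finset.mem_union]
    refine Or.inr (Or.inr ?_)
    simp only [Finset.mem_biUnion]
    exact ⟨i, Finset.mem_univ i, by simpa using hv⟩
  have hsplit : ∑ v ∈ V', 𝓟.w v * (-Real.log (hval 𝓟 v c p) + Real.log (C v)) =
      -(∑ v ∈ V', 𝓟.w v * Real.log (𝓟.av v (tev c p))) +
        (∑ i, D * ∑ v ∈ V', 𝓟.w v * Real.log (nm 𝓟 v (p i))) +
        ∑ v ∈ V', 𝓟.w v * Real.log (C v) := by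
    have h1 : (∑ i, (D : ℝ) * ∑ v ∈ V', 𝓟.w v * Real.log (nm 𝓟 v (p i))) =
        ∑ v ∈ V', 𝓟.w v * ∑ i, D * Real.log (nm 𝓟 v (p i)) := by
      simp only [Finset.mul_sum]
      rw [Finset.sum_comm]
      refine Finset.sum_congr rfl fun v _ => Finset.sum_congr rfl fun i _ => ?_
      ring
    rw [h1, ← Finset.sum_neg_distrib, ← Finset.sum_add_distrib, ← Finset.sum_add_distrib]
    refine Finset.sum_congr rfl fun v _ => ?_
    rw [hlog v]
    ring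
  calc ∑ v ∈ V, 𝓟.w v * max 0 (-Real.log (hval 𝓟 v c p))
      ≤ ∑ v ∈ V, 𝓟.w v * (-Real.log (hval 𝓟 v c p) + Real.log (C v)) :=
        Finset.sum_le_sum fun v _ => hterm v
    _ ≤ ∑ v ∈ V', 𝓟.w v * (-Real.log (hval 𝓟 v c p) + Real.log (C v)) :=
        Finset.sum_le_sum_of_subset_of_nonneg Finset.subset_union_left fun v _ _ => hnn v
    _ = -(∑ v ∈ V', 𝓟.w v * Real.log (𝓟.av v (tev c p))) +
        (∑ i, D * ∑ v ∈ V', 𝓟.w v * Real.log (nm 𝓟 v (p i))) +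
        ∑ v ∈ V', 𝓟.w v * Real.log (C v) := hsplit
    _ ≤ D * ∑ i, h i + κ := by
        rw [𝓟.prod _ htev V' hV1, neg_zero, zero_add]
        have h2 : (∑ i, (D : ℝ) * ∑ v ∈ V', 𝓟.w v * Real.log (nm 𝓟 v (p i))) =
            D * ∑ i, h i := by
          rw [Finset.mul_sum]
          refine Finset.sum_congr rfl fun i _ => ?_
          rw [hh i V' (hV2 i)]
        rw [h2]
        have := hκ V'
        linarith

end

end Pool.Agent.AG
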