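import Mathlib
import Pool.Agent.AG.Lin
import Pool.Agent.AG.Pl
import Pool.Agent.GE.Defs
import Pool.Agent.GE.Dim
import Pool.Agent.GE.Local

/-! # Forms in the `x`-coordinates that vanish on `Y` (module Geo) -/

set_option autoImplicit false

open MvPolynomial WeierstrassCurve WeierstrassCurve.Affine
open Pool.Agent.GE (coords MultiHom DimLE wt)

namespace Pool.Agent.AG

universe u

section

variable {K : Type u} [Field K] {n : ℕ}

/-- The equation of the `i`-th curve (general Weierstrass form). -/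
noncomputable def curveEq (W : Fin n → Affine K) (i : Fin n) : MvPolynomial (Fin n × Fin 3) K :=
  X (i, 1) ^ 2 * X (i, 2) + C (W i).a₁ * X (i, 0) * X (i, 1) * X (i, 2) +
    C (W i).a₃ * X (i, 1) * X (i, 2) ^ 2 - X (i, 0) ^ 3 - C (W i).a₂ * X (i, 0) ^ 2 * X (i, 2) -
    C (W i).a₄ * X (i, 0) * X (i, 2) ^ 2 - C (W i).a₆ * X (i, 2) ^ 3

/-- Four representations of the `x`-coordinate `E_i → P¹` by quadratic forms. -/
noncomputable def xr (W : Fin n → Affine K) (i : Fin n) (s : Fin 4) :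
    Fin 2 → MvPolynomial (Fin n × Fin 3) K :=
  ![![X (i, 0) * X (i, 0), X (i, 2) * X (i, 0)], ![X (i, 0) * X (i, 1), X (i, 2) * X (i, 1)],
    ![X (i, 0) * X (i, 2), X (i, 2) * X (i, 2)],
    ![X (i, 1) ^ 2 + C (W i).a₁ * X (i, 0) * X (i, 1) + C (W i).a₃ * X (i, 1) * X (i, 2) -
        C (W i).a₂ * X (i, 0) ^ 2 - C (W i).a₄ * X (i, 0) * X (i, 2) -
        C (W i).a₆ * X (i, 2) ^ 2, X (i, 0) ^ 2]] s

/-- The ideal of `Y ⊂ ∏ E_i`. -/
noncomputable def centreIdeal (W : Fin n → Affine K) {t : ℕ}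
    (F : Fin t → MvPolynomial (Fin n × Fin 3) K) : Ideal (MvPolynomial (Fin n × Fin 3) K) :=
  Ideal.span (Set.range F ∪ Set.range (curveEq W))

/-- How close `P` is to `Y`. -/
noncomputable def closeness (W : Fin n → Affine K) {t : ℕ}
    (F : Fin t → MvPolynomial (Fin n × Fin 3) K) (Dg : Fin t → Fin n → ℕ)
    (P : ∀ i, (W i).Point) (v : K → ℝ) : ℝ :=
  ⨆ j, v (aeval (fun q : Fin n × Fin 3 => coords (P q.1) q.2) (F j)) /
    ∏ i, (⨆ k, v (coords (P i) k)) ^ Dg j i

/-! ### Dimension count -/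

private lemma geo_hom_X2 (i : Fin n) (a b : Fin 3) :
    MultiHom (X (i, a) * X (i, b) : MvPolynomial (Fin n × Fin 3) K) (2 • Pi.single i 1) := by
  have h := (isWeightedHomogeneous_X K (wt n) (i, a)).mul (isWeightedHomogeneous_X K (wt n) (i, b))
  rw [two_smul]
  exact h

private lemma geo_hom_CX2 (c : K) (i : Fin n) (a b : Fin 3) :
    MultiHom (C c * X (i, a) * X (i, b) : MvPolynomial (Fin n × Fin 3) K)
      (2 • Pi.single i 1) := by
  have h := (isWeightedHomogeneous_C (wt n) c).mul (geo_hom_X2 (K := K) i a b)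
  rw [zero_add] at h
  rw [mul_assoc]
  exact h

private lemma geo_hom_xr (W : Fin n → Affine K) (i : Fin n) (s : Fin 4) (k : Fin 2) :
    MultiHom (xr W i s k) (2 • Pi.single i 1) := by
  have hadd : ∀ p q : MvPolynomial (Fin n × Fin 3) K, MultiHom p (2 • Pi.single i 1) →
      MultiHom q (2 • Pi.single i 1) → MultiHom (p + q) (2 • Pi.single i 1) := by
    intro p q hp hq
    exact (weightedHomogeneousSubmodule K (wt n) (2 • Pi.single i 1)).add_mem hp hq
  have hsub : ∀ p q : MvPolynomial (Fin n × Fin 3) K, MultiHom p (2 • Pi.single i 1) →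
      MultiHom q (2 • Pi.single i 1) → MultiHom (p - q) (2 • Pi.single i 1) := by
    intro p q hp hq
    exact (weightedHomogeneousSubmodule K (wt n) (2 • Pi.single i 1)).sub_mem hp hq
  fin_cases s <;> fin_cases k
  · exact geo_hom_X2 i 0 0
  · exact geo_hom_X2 i 2 0
  · exact geo_hom_X2 i 0 1
  · exact geo_hom_X2 i 2 1
  · exact geo_hom_X2 i 0 2
  · exact geo_hom_X2 i 2 2
  · have e : xr W i 3 0 = X (i, 1) * X (i, 1) + C (W i).a₁ * X (i, 0) * X (i, 1) +
        C (W i).a₃ * X (i, 1) * X (i, 2) - C (W i).a₂ * X (i, 0) * X (i, 0) -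
        C (W i).a₄ * X (i, 0) * X (i, 2) - C (W i).a₆ * X (i, 2) * X (i, 2) := by
      simp only [xr, Matrix.cons_val]
      ring
    show MultiHom (xr W i 3 0) _
    rw [e]
    exact hsub _ _ (hsub _ _ (hsub _ _ (hadd _ _ (hadd _ _ (geo_hom_X2 i 1 1)
      (geo_hom_CX2 _ i 0 1)) (geo_hom_CX2 _ i 1 2)) (geo_hom_CX2 _ i 0 0))
      (geo_hom_CX2 _ i 0 2)) (geo_hom_CX2 _ i 2 2)
  · have e : xr W i 3 1 = X (i, 0) * X (i, 0) := by
      simp only [xr, Matrix.cons_val]
      ring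
    show MultiHom (xr W i 3 1) _
    rw [e]
    exact geo_hom_X2 i 0 0

lemma geo_hom_tev (W : Fin n → Affine K) {D : ℕ} (c : Ten K n D) (s : Fin n → Fin 4) :
    MultiHom (tev c (fun i => xr W i (s i))) (fun _ => 2 * D) := by
  unfold MultiHom tev
  refine IsWeightedHomogeneous.sum _ _ _ fun e _ => ?_
  have h1 : IsWeightedHomogeneous (wt n) (algebraMap K (MvPolynomial (Fin n × Fin 3) K) (c e))
      0 := by
    rw [MvPolynomial.algebraMap_eq]
    exact isWeightedHomogeneous_C _ _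
  have h2 : IsWeightedHomogeneous (wt n)
      (∏ i, (xr W i (s i) 0 ^ (e i : ℕ) * xr W i (s i) 1 ^ (D - (e i : ℕ))))
      (∑ i, D • (2 • Pi.single i 1 : Fin n → ℕ)) := by
    refine IsWeightedHomogeneous.prod _ _ _ fun i _ => ?_
    have hj : (e i : ℕ) ≤ D := Nat.lt_succ_iff.mp (e i).2
    have h3 := ((geo_hom_xr W i (s i) 0).pow (e i : ℕ)).mul
      ((geo_hom_xr W i (s i) 1).pow (D - (e i : ℕ)))
    rw [← add_smul, Nat.add_sub_cancel' hj] at h3
    exact h3
  have h4 := h1.mul h2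
  rw [zero_add] at h4
  have e5 : (∑ i, D • (2 • Pi.single i 1 : Fin n → ℕ)) = fun _ => 2 * D := by
    funext j
    rw [Finset.sum_apply, Finset.sum_eq_single j]
    · simp [mul_comm]
    · intro b _ hb
      simp [Pi.single_eq_of_ne hb.symm]
    · intro h; exact absurd (Finset.mem_univ j) h
  rwa [e5] at h4

/-- Dimension count. -/
theorem exists_forms (hn : 2 ≤ n) (W : Fin n → Affine K)
    (I : Ideal (MvPolynomial (Fin n × Fin 3) K)) (hI : DimLE I (n - 2)) :
    ∃ (D N : ℕ) (f : Fin N → Ten K n D), Big f ∧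
      ∀ j (s : Fin n → Fin 4), tev (f j) (fun i => xr W i (s i)) ∈ I := by
  classical
  obtain ⟨A, hA⟩ := hI
  set D : ℕ := 2 * 8 ^ n * A with hD
  let Wp : Submodule K (MvPolynomial (Fin n × Fin 3) K ⧸ I) :=
    (weightedHomogeneousSubmodule K (wt n) (fun _ => 2 * D)).map
      (Ideal.Quotient.mkₐ K I).toLinearMap
  let Φ : Ten K n D →ₗ[K] ((Fin n → Fin 4) → Wp) := LinearMap.pi fun s =>
    LinearMap.codRestrict _ ((Ideal.Quotient.mkₐ K I).toLinearMap ∘ₗ
      (tevL (fun i => xr W i (s i)))) (fun c => ⟨_, geo_hom_tev W c s, rfl⟩)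
  have hfin : Module.Finite K Wp := by
    have := Pool.Agent.GE.finite_forms (K := K) (n := n) (2 * D)
    exact Module.Finite.map _ _
  have hfree : Module.Free K Wp := Module.Free.of_divisionRing K Wp
  set N := Module.finrank K (LinearMap.ker Φ) with hN
  let B := Module.finBasis K (LinearMap.ker Φ)
  refine ⟨D, N, fun j => (B j : Ten K n D), ?_, ?_⟩
  · have hspan : Submodule.span K (Set.range fun j => (B j : Ten K n D)) = LinearMap.ker Φ := by
      have h1 : (Set.range fun j => (B j : Ten K n D)) =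
          (LinearMap.ker Φ).subtype '' (Set.range B) := by
        rw [← Set.range_comp]; rfl
      rw [h1, Submodule.span_image, B.span_eq, Submodule.map_top, Submodule.range_subtype]
    have hrn := LinearMap.finrank_range_add_finrank_ker Φ
    have hT : Module.finrank K (Ten K n D) = (D + 1) ^ n := by
      rw [Module.finrank_fintype_fun_eq_card, Fintype.card_fun, Fintype.card_fin, Fintype.card_fin]
    have hr : Module.finrank K (LinearMap.range Φ) ≤ 4 ^ n * (A * (2 * D + 1) ^ (n - 2)) := by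
      refine (Submodule.finrank_le _).trans ?_
      rw [Module.finrank_pi_fintype, Finset.sum_const, Finset.card_univ, Fintype.card_fun,
        Fintype.card_fin, Fintype.card_fin, smul_eq_mul]
      exact Nat.mul_le_mul_left _ (hA (2 * D))
    unfold Big
    rw [hspan]
    rw [hT] at hrn
    have h2 : (D + 1) ^ n - Module.finrank K (LinearMap.ker Φ) ≤
        4 ^ n * (A * (2 * D + 1) ^ (n - 2)) := by omega
    have h3 : (2 * D + 1) ^ (n - 2) ≤ 2 ^ n * (D + 1) ^ (n - 2) := by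
      calc (2 * D + 1) ^ (n - 2) ≤ (2 * (D + 1)) ^ (n - 2) := Nat.pow_le_pow_left (by omega) _
        _ = 2 ^ (n - 2) * (D + 1) ^ (n - 2) := mul_pow _ _ _
        _ ≤ _ := Nat.mul_le_mul_right _ (Nat.pow_le_pow_right (by norm_num) (by omega))
    have h4 : (D + 1) ^ n = (D + 1) * ((D + 1) * (D + 1) ^ (n - 2)) := by
      obtain ⟨m, rfl⟩ : ∃ m, n = m + 2 := ⟨n - 2, by omega⟩
      rw [Nat.add_sub_cancel]; ring
    have h8 : (4 : ℕ) ^ n * 2 ^ n = 8 ^ n := by rw [← mul_pow]; norm_num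
    have hpos : 0 < (D + 1) ^ (n - 2) := Nat.pow_pos (Nat.succ_pos _)
    calc 2 * (D + 1) * ((D + 1) ^ n - Module.finrank K (LinearMap.ker Φ))
        ≤ 2 * (D + 1) * (4 ^ n * (A * (2 ^ n * (D + 1) ^ (n - 2)))) := by
          refine Nat.mul_le_mul_left _ (h2.trans ?_)
          exact Nat.mul_le_mul_left _ (Nat.mul_le_mul_left _ h3)
      _ = (D + 1) * (D * (D + 1) ^ (n - 2)) := by
          have : D = 2 * (4 ^ n * 2 ^ n) * A := by rw [h8]
          calc 2 * (D + 1) * (4 ^ n * (A * (2 ^ n * (D + 1) ^ (n - 2))))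
              = (D + 1) * ((2 * (4 ^ n * 2 ^ n) * A) * (D + 1) ^ (n - 2)) := by ring
            _ = _ := by rw [← this]
      _ < (D + 1) ^ n := by
          rw [h4]
          exact Nat.mul_lt_mul_of_pos_left (Nat.mul_lt_mul_of_pos_right (Nat.lt_succ_self D) hpos)
            (Nat.succ_pos D)
  · intro j s
    have h1 : Φ (B j : Ten K n D) = 0 := (B j).2
    have h2 : (Ideal.Quotient.mkₐ K I) (tev (B j : Ten K n D) (fun i => xr W i (s i))) = 0 :=
      congrArg Subtype.val (congrFun h1 s)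
    exact Ideal.Quotient.eq_zero_iff_mem.mp h2

/-! ### Values -/

/-- The values of the representations at a point of the curve. -/
lemma aeval_xr (W : Fin n → Affine K) (P : ∀ i, (W i).Point) (i : Fin n) (s : Fin 4) :
    ∃ l : K, ∀ k, aeval (fun q : Fin n × Fin 3 => coords (P q.1) q.2) (xr W i s k) =
      l * (P i).xRep k := by
  set x : Fin n × Fin 3 → K := fun q => coords (P q.1) q.2 with hx
  have hx3 : ∀ k, x (i, k) = coords (P i) k := fun k => rfl
  match hP : P i with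
  | 0 =>
    have h0 : x (i, 0) = 0 := by rw [hx3, hP]; rfl
    have h1 : x (i, 1) = 1 := by rw [hx3, hP]; rfl
    have h2 : x (i, 2) = 0 := by rw [hx3, hP]; rfl
    have hz : (0 : (W i).Point).xRep = ![1, 0] := Point.xRep_zero
    rw [hz]
    fin_cases s
    · exact ⟨0, fun k => by fin_cases k <;> simp [xr, h0, h2]⟩
    · exact ⟨0, fun k => by fin_cases k <;> simp [xr, h0, h2]⟩
    · exact ⟨0, fun k => by fin_cases k <;> simp [xr, h0, h2]⟩
    · exact ⟨1, fun k => by fin_cases k <;> simp [xr, h0, h1, h2]⟩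
  | .some a b hab =>
    have h0 : x (i, 0) = a := by rw [hx3, hP]; rfl
    have h1 : x (i, 1) = b := by rw [hx3, hP]; rfl
    have h2 : x (i, 2) = 1 := by rw [hx3, hP]; rfl
    rw [Point.xRep_some]
    have h4 := (equation_iff _ _).mp hab.1
    fin_cases s
    · exact ⟨a, fun k => by fin_cases k <;> simp [xr, h0, h2]⟩
    · exact ⟨b, fun k => by fin_cases k <;> simp [xr, h0, h1, h2, mul_comm]⟩
    · exact ⟨1, fun k => by fin_cases k <;> simp [xr, h0, h2]⟩
    · refine ⟨a ^ 2, fun k => ?_⟩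
      fin_cases k
      · simp only [xr, Matrix.cons_val, map_sub, map_add, map_mul, map_pow, aeval_X, aeval_C,
          h0, h1, h2, Algebra.algebraMap_self, RingHom.id_apply, Fin.zero_eta, Fin.reduceFinMk,
          Matrix.cons_val_zero]
        linear_combination h4
      · simp [xr, h0]

private lemma geo_curveEq (W : Fin n → Affine K) (P : ∀ i, (W i).Point) (x : Fin n × Fin 3 → K)
    (i : Fin n) (hx : ∃ s : K, ∀ k, x (i, k) = s * coords (P i) k) :
    aeval x (curveEq W i) = 0 := by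
  obtain ⟨s, h⟩ := hx
  simp only [curveEq, map_sub, map_add, map_mul, map_pow, aeval_X, aeval_C, h,
    Algebra.algebraMap_self, RingHom.id_apply]
  match hP : P i with
  | 0 =>
    have h0 : coords (0 : (W i).Point) 0 = 0 := rfl
    have h1 : coords (0 : (W i).Point) 1 = 1 := rfl
    have h2 : coords (0 : (W i).Point) 2 = 0 := rfl
    rw [h0, h1, h2]; ring
  | .some a b hab =>
    have h0 : coords (Point.some a b hab : (W i).Point) 0 = a := rfl
    have h1 : coords (Point.some a b hab : (W i).Point) 1 = b := rfl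
    have h2 : coords (Point.some a b hab : (W i).Point) 2 = 1 := rfl
    have h4 := (equation_iff _ _).mp hab.1
    rw [h0, h1, h2]
    linear_combination s ^ 3 * h4

variable {ι : Type*} (𝓟 : PlSys K ι)

private lemma geo_sup_eq (v : AbsoluteValue K ℝ) {W : Affine K} (P : W.Point) :
    ∃ T, (∀ k, v (coords P k) ≤ v (coords P T)) ∧ (⨆ k, v (coords P k)) = v (coords P T) ∧
      1 ≤ v (coords P T) := by
  obtain ⟨T, hT⟩ := Finite.exists_max fun k => v (coords P k)
  refine ⟨T, hT, ?_, ?_⟩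
  · exact le_antisymm (ciSup_le hT) (Finite.le_ciSup (fun k => v (coords P k)) T)
  · obtain ⟨k, hk⟩ := Pool.Agent.GE.coords_ne_zero P
    have := hT k
    rwa [hk, map_one] at this

/-- At every place some representation is large. -/
lemma exists_xr_ge (W : Fin n → Affine K) (i : Fin n) :
    ∃ C : ι → ℝ, IsCst C ∧ ∀ v (P : ∀ i, (W i).Point), ∃ s : Fin 4,
      (⨆ k, 𝓟.av v (coords (P i) k)) ^ 2 ≤ C v *
        nm 𝓟 v (fun k => aeval (fun q : Fin n × Fin 3 => coords (P q.1) q.2) (xr W i s k)) := by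
  obtain ⟨A, hA, hAv⟩ := exists_common (Φ := fun (j : Fin 5) v c =>
      𝓟.av v (![(W i).a₁, (W i).a₂, (W i).a₃, (W i).a₄, (W i).a₆] j) ≤ c)
    (fun a v c c' hc h => h.trans hc) (fun j => exists_av_le 𝓟 _)
  refine ⟨fun v => 𝓟.σ v ^ 6 * A v, (𝓟.σ_cst.pow 6).mul hA, ?_⟩
  intro v P
  have hA1 : 1 ≤ A v := hA.one_le v
  have hσ1 : 1 ≤ 𝓟.σ v := 𝓟.σ_cst.one_le v
  have hC1 : 1 ≤ 𝓟.σ v ^ 6 * A v := one_le_mul_of_one_le_of_one_le (one_le_pow₀ hσ1) hA1
  set x : Fin n × Fin 3 → K := fun q => coords (P q.1) q.2 with hx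
  have hx3 : ∀ k, coords (P i) k = x (i, k) := fun k => rfl
  obtain ⟨s, hs⟩ := Finite.exists_max fun s : Fin 4 => nm 𝓟 v (fun k => aeval x (xr W i s k))
  refine ⟨s, ?_⟩
  set m := nm 𝓟 v (fun k => aeval x (xr W i s k)) with hm
  have hm0 : 0 ≤ m := nm_nonneg 𝓟 v _
  have hent : ∀ (s' : Fin 4) (k : Fin 2), 𝓟.av v (aeval x (xr W i s' k)) ≤ m := by
    intro s' k
    refine le_trans ?_ (hs s')
    fin_cases k
    · exact le_max_left _ _
    · exact le_max_right _ _
  have e00 : 𝓟.av v (x (i, 0) * x (i, 0)) ≤ m := by simpa [xr] using hent 0 0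
  have e01 : 𝓟.av v (x (i, 0) * x (i, 1)) ≤ m := by simpa [xr] using hent 1 0
  have e21 : 𝓟.av v (x (i, 2) * x (i, 1)) ≤ m := by simpa [xr] using hent 1 1
  have e02 : 𝓟.av v (x (i, 0) * x (i, 2)) ≤ m := by simpa [xr] using hent 2 0
  have e22 : 𝓟.av v (x (i, 2) * x (i, 2)) ≤ m := by simpa [xr] using hent 2 1
  have eN : 𝓟.av v (aeval x (xr W i 3 0)) ≤ m := hent 3 0
  have e11 : 𝓟.av v (x (i, 1) * x (i, 1)) ≤ 𝓟.σ v ^ 6 * (A v * m) := by
    have hsum : x (i, 1) * x (i, 1) = ∑ j : Fin 6, ![aeval x (xr W i 3 0),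
        -(W i).a₁ * (x (i, 0) * x (i, 1)), -(W i).a₃ * (x (i, 2) * x (i, 1)),
        (W i).a₂ * (x (i, 0) * x (i, 0)), (W i).a₄ * (x (i, 0) * x (i, 2)),
        (W i).a₆ * (x (i, 2) * x (i, 2))] j := by
      simp only [Fin.sum_univ_six, Matrix.cons_val, xr, map_sub, map_add, map_mul, map_pow,
        aeval_X, aeval_C, Algebra.algebraMap_self, RingHom.id_apply]
      ring
    rw [hsum]
    have hB : 0 ≤ A v * m := mul_nonneg (by linarith) hm0
    have key : ∀ a b : K, 𝓟.av v a ≤ A v → 𝓟.av v b ≤ m → 𝓟.av v (a * b) ≤ A v * m := by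
      intro a b ha hb
      rw [map_mul]
      exact mul_le_mul ha hb ((𝓟.av v).nonneg _) (by linarith)
    have hle : ∀ j ∈ (Finset.univ : Finset (Fin 6)), 𝓟.av v (![aeval x (xr W i 3 0),
        -(W i).a₁ * (x (i, 0) * x (i, 1)), -(W i).a₃ * (x (i, 2) * x (i, 1)),
        (W i).a₂ * (x (i, 0) * x (i, 0)), (W i).a₄ * (x (i, 0) * x (i, 2)),
        (W i).a₆ * (x (i, 2) * x (i, 2))] j) ≤ A v * m := by
      intro j _
      fin_cases j
      · show 𝓟.av v (aeval x (xr W i 3 0)) ≤ A v * m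
        nlinarith
      · show 𝓟.av v (-(W i).a₁ * (x (i, 0) * x (i, 1))) ≤ A v * m
        exact key _ _ (by rw [AbsoluteValue.map_neg]; exact hAv 0 v) e01
      · show 𝓟.av v (-(W i).a₃ * (x (i, 2) * x (i, 1))) ≤ A v * m
        exact key _ _ (by rw [AbsoluteValue.map_neg]; exact hAv 2 v) e21
      · exact key _ _ (hAv 1 v) e00
      · exact key _ _ (hAv 3 v) e02
      · exact key _ _ (hAv 4 v) e22
    have h := av_sum_le 𝓟 Finset.univ _ v hB hle
    rwa [Finset.card_univ, Fintype.card_fin] at h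
  obtain ⟨T, hT, hsup, -⟩ := geo_sup_eq (𝓟.av v) (P i)
  rw [hsup, hx3, sq, ← map_mul]
  have hmC : m ≤ 𝓟.σ v ^ 6 * A v * m := by nlinarith
  fin_cases T
  · exact e00.trans hmC
  · refine e11.trans (le_of_eq ?_)
    ring
  · exact e22.trans hmC

/-- Bounds of a polynomial on the polydisc. -/
private lemma geo_eval_le (p : MvPolynomial (Fin n × Fin 3) K) :
    ∃ C : ι → ℝ, IsCst C ∧ ∀ v (x : Fin n × Fin 3 → K), (∀ q, 𝓟.av v (x q) ≤ 1) →
      𝓟.av v (aeval x p) ≤ C v := by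
  classical
  obtain ⟨A, hA, hAv⟩ := exists_common (Φ := fun (e : p.support) v c =>
      𝓟.av v (coeff e.1 p) ≤ c)
    (fun a v c c' hc h => h.trans hc) (fun j => exists_av_le 𝓟 _)
  refine ⟨fun v => 𝓟.σ v ^ p.support.card * A v, (𝓟.σ_cst.pow _).mul hA, ?_⟩
  intro v x hx
  rw [aeval_def, eval₂_eq']
  refine av_sum_le 𝓟 p.support _ v (zero_le_one.trans (hA.one_le v)) ?_
  intro e he
  rw [map_mul, map_prod, Algebra.algebraMap_self, RingHom.id_apply]
  refine (mul_le_of_le_one_right ((𝓟.av v).nonneg _)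
    (Finset.prod_le_one (fun i _ => (𝓟.av v).nonneg _) ?_)).trans (hAv ⟨e, he⟩ v)
  intro q _
  rw [map_pow]
  exact pow_le_one₀ ((𝓟.av v).nonneg _) (hx q)

/-- Normalised coordinates at a place. -/
private lemma geo_normal (W : Fin n → Affine K) (v : AbsoluteValue K ℝ)
    (P : ∀ i, (W i).Point) :
    ∃ (x : Fin n × Fin 3 → K), (∀ q, v (x q) ≤ 1) ∧
      (∀ i, ∃ s : K, ∀ k, x (i, k) = s * coords (P i) k) ∧
      ∀ (p : MvPolynomial (Fin n × Fin 3) K) (d : Fin n → ℕ), MultiHom p d →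
        v (aeval x p) = v (aeval (fun q : Fin n × Fin 3 => coords (P q.1) q.2) p) /
          ∏ i, (⨆ k, v (coords (P i) k)) ^ d i := by
  choose T hT hsup h1 using fun i => geo_sup_eq v (P i)
  have hT0 : ∀ i, coords (P i) (T i) ≠ 0 := by
    intro i h0
    have := h1 i
    rw [h0, map_zero] at this
    linarith
  refine ⟨fun q => (coords (P q.1) (T q.1))⁻¹ * coords (P q.1) q.2, ?_, ?_, ?_⟩
  · intro q
    simp only
    rw [map_mul, map_inv₀, inv_mul_le_iff₀ (by linarith [h1 q.1]), mul_one]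
    exact hT q.1 q.2
  · intro i
    exact ⟨(coords (P i) (T i))⁻¹, fun k => rfl⟩
  · intro p d hp
    rw [hp.aeval_smul (fun i => (coords (P i) (T i))⁻¹)
      (fun q : Fin n × Fin 3 => coords (P q.1) q.2), map_mul, map_prod]
    simp only [map_pow, map_inv₀, hsup]
    rw [div_eq_mul_inv, mul_comm, ← Finset.prod_inv_distrib]
    congr 1
    exact Finset.prod_congr rfl fun i _ => by rw [inv_pow]

/-- Elements of the centre ideal are small near `Y`. -/
private lemma geo_centre_le (W : Fin n → Affine K) {t : ℕ}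
    (F : Fin t → MvPolynomial (Fin n × Fin 3) K) (Dg : Fin t → Fin n → ℕ)
    (hF : ∀ j, MultiHom (F j) (Dg j)) (g : MvPolynomial (Fin n × Fin 3) K)
    (hg : g ∈ centreIdeal W F) :
    ∃ C : ι → ℝ, IsCst C ∧ ∀ v (P : ∀ i, (W i).Point) (d : Fin n → ℕ), MultiHom g d →
      𝓟.av v (aeval (fun q : Fin n × Fin 3 => coords (P q.1) q.2) g) /
        ∏ i, (⨆ k, 𝓟.av v (coords (P i) k)) ^ d i ≤ C v * closeness W F Dg P (𝓟.av v) := by
  classical
  rw [centreIdeal, Ideal.span_union] at hg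
  obtain ⟨p₁, hp₁, p₂, hp₂, rfl⟩ := Submodule.mem_sup.mp hg
  obtain ⟨a, ha⟩ := (Submodule.mem_span_range_iff_exists_fun _).mp hp₁
  obtain ⟨A, hA, hAv⟩ := exists_common (Φ := fun (j : Fin t) v c =>
      ∀ x : Fin n × Fin 3 → K, (∀ q, 𝓟.av v (x q) ≤ 1) → 𝓟.av v (aeval x (a j)) ≤ c)
    (fun a v c c' hc h x hx => (h x hx).trans hc) (fun j => geo_eval_le 𝓟 (a j))
  refine ⟨fun v => 𝓟.σ v ^ t * A v, (𝓟.σ_cst.pow _).mul hA, ?_⟩
  intro v P d hd
  obtain ⟨x, hx1, hxs, hscale⟩ := geo_normal W (𝓟.av v) P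
  rw [← hscale _ _ hd]
  have h2 : aeval x p₂ = 0 := by
    have hle : Ideal.span (Set.range (curveEq W)) ≤
        RingHom.ker (aeval x : MvPolynomial (Fin n × Fin 3) K →ₐ[K] K) := by
      rw [Ideal.span_le]
      rintro z ⟨i, rfl⟩
      exact geo_curveEq W P x i (hxs i)
    exact hle hp₂
  have hF2 : ∀ j, 𝓟.av v (aeval x (F j)) ≤ closeness W F Dg P (𝓟.av v) := by
    intro j
    rw [hscale _ _ (hF j)]
    exact Finite.le_ciSup (fun j => 𝓟.av v (aeval (fun q : Fin n × Fin 3 =>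
      coords (P q.1) q.2) (F j)) / ∏ i, (⨆ k, 𝓟.av v (coords (P i) k)) ^ Dg j i) j
  have hc0 : 0 ≤ closeness W F Dg P (𝓟.av v) := by
    refine Real.iSup_nonneg fun j => div_nonneg ((𝓟.av v).nonneg _)
      (Finset.prod_nonneg fun i _ => pow_nonneg ?_ _)
    exact Real.iSup_nonneg fun k => (𝓟.av v).nonneg _
  rw [map_add, h2, add_zero, ← ha, map_sum]
  have hB : 0 ≤ A v * closeness W F Dg P (𝓟.av v) :=
    mul_nonneg (zero_le_one.trans (hA.one_le v)) hc0
  have h := av_sum_le 𝓟 (Finset.univ : Finset (Fin t)) (fun j => aeval x (a j • F j)) v hB (by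
    intro j _
    rw [smul_eq_mul, map_mul, map_mul]
    exact mul_le_mul (hAv j v x hx1) (hF2 j) ((𝓟.av v).nonneg _)
      (zero_le_one.trans (hA.one_le v)))
  rw [Finset.card_univ, Fintype.card_fin] at h
  rw [mul_assoc]
  exact h

/-- Forms in the ideal are small near `Y`. -/
theorem exists_hval_le_closeness (W : Fin n → Affine K) {t : ℕ}
    (F : Fin t → MvPolynomial (Fin n × Fin 3) K) (Dg : Fin t → Fin n → ℕ)
    (hF : ∀ j, MultiHom (F j) (Dg j)) {D : ℕ} (f : Ten K n D)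
    (hf : ∀ s : Fin n → Fin 4, tev f (fun i => xr W i (s i)) ∈ centreIdeal W F) :
    ∃ C : ι → ℝ, IsCst C ∧ ∀ v (P : ∀ i, (W i).Point),
      hval 𝓟 v f (fun i => (P i).xRep) ≤ C v * closeness W F Dg P (𝓟.av v) := by
  classical
  choose A hA hAv using fun s : Fin n → Fin 4 => geo_centre_le 𝓟 W F Dg hF _ (hf s)
  choose B hB hBv using fun i => exists_xr_ge 𝓟 W i
  obtain ⟨A', hA', hAv'⟩ := exists_common (Φ := fun (s : Fin n → Fin 4) v c =>
      ∀ (P : ∀ i, (W i).Point) (d : Fin n → ℕ),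
        MultiHom (tev f (fun i => xr W i (s i))) d →
        𝓟.av v (aeval (fun q : Fin n × Fin 3 => coords (P q.1) q.2)
          (tev f (fun i => xr W i (s i)))) /
        ∏ i, (⨆ k, 𝓟.av v (coords (P i) k)) ^ d i ≤ c * closeness W F Dg P (𝓟.av v))
    (fun s v c c' hc h P d hd => (h P d hd).trans (mul_le_mul_of_nonneg_right hc (by
      refine Real.iSup_nonneg fun j => div_nonneg ((𝓟.av v).nonneg _)
        (Finset.prod_nonneg fun i _ => pow_nonneg ?_ _)
      exact Real.iSup_nonneg fun k => (𝓟.av v).nonneg _)))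
    (fun s => ⟨A s, hA s, fun v => hAv s v⟩)
  refine ⟨fun v => (∏ i, B i v ^ D) * A' v,
    (IsCst.finset_prod Finset.univ fun i _ => (hB i).pow D).mul hA', ?_⟩
  intro v P
  choose s hs using fun i => hBv i v P
  set x : Fin n × Fin 3 → K := fun q => coords (P q.1) q.2 with hx
  choose l hl using fun i => aeval_xr W P i (s i)
  have hsup1 : ∀ i, 1 ≤ ⨆ k, 𝓟.av v (coords (P i) k) := by
    intro i
    obtain ⟨T, -, h, h1⟩ := geo_sup_eq (𝓟.av v) (P i)
    rwa [h]
  have hnm : ∀ i, nm 𝓟 v (fun k => aeval x (xr W i (s i) k)) =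
      𝓟.av v (l i) * nm 𝓟 v (P i).xRep := by
    intro i
    simp only [nm]
    rw [hl i 0, hl i 1, map_mul, map_mul, mul_max_of_nonneg _ _ ((𝓟.av v).nonneg _)]
  have hnmpos : ∀ i, 0 < nm 𝓟 v (fun k => aeval x (xr W i (s i) k)) := by
    intro i
    by_contra hcon
    have h0 : nm 𝓟 v (fun k => aeval x (xr W i (s i) k)) = 0 :=
      le_antisymm (not_lt.mp hcon) (nm_nonneg 𝓟 v _)
    have h1 := hs i
    rw [h0, mul_zero] at h1
    have := hsup1 i
    nlinarith
  have htev : aeval x (tev f (fun i => xr W i (s i))) =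
      (∏ i, l i ^ D) * tev f (fun i => (P i).xRep) := by
    rw [tev_map (aeval x : MvPolynomial (Fin n × Fin 3) K →ₐ[K] K) f, ← tev_smul]
    congr 1
    funext i k
    exact hl i k
  have hl0 : ∀ i, 0 < 𝓟.av v (l i) := by
    intro i
    have h := hnmpos i
    rw [hnm] at h
    rcases lt_or_eq_of_le ((𝓟.av v).nonneg (l i)) with h' | h'
    · exact h'
    · rw [← h', zero_mul] at h
      exact absurd h (lt_irrefl _)
  have hval_eq : hval 𝓟 v f (fun i => (P i).xRep) =
      𝓟.av v (aeval x (tev f (fun i => xr W i (s i)))) /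
        ∏ i, nm 𝓟 v (fun k => aeval x (xr W i (s i) k)) ^ D := by
    rw [htev, map_mul, map_prod]
    simp only [hnm, mul_pow, map_pow]
    rw [Finset.prod_mul_distrib, hval]
    rw [mul_div_mul_left _ _ (Finset.prod_ne_zero_iff.mpr fun i _ => pow_ne_zero _ (hl0 i).ne')]
  have hmain := hAv' s v P (fun _ => 2 * D) (geo_hom_tev W f s)
  rw [hval_eq]
  set N := 𝓟.av v (aeval x (tev f (fun i => xr W i (s i)))) with hN
  have hN0 : 0 ≤ N := (𝓟.av v).nonneg _
  have hprod : ∏ i, (⨆ k, 𝓟.av v (coords (P i) k)) ^ (2 * D) ≤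
      (∏ i, B i v ^ D) * ∏ i, nm 𝓟 v (fun k => aeval x (xr W i (s i) k)) ^ D := by
    rw [← Finset.prod_mul_distrib]
    refine Finset.prod_le_prod (fun i _ => pow_nonneg (zero_le_one.trans (hsup1 i)) _) ?_
    intro i _
    rw [pow_mul, ← mul_pow]
    exact pow_le_pow_left₀ (sq_nonneg _) (hs i) D
  have hQ0 : 0 < ∏ i, (⨆ k, 𝓟.av v (coords (P i) k)) ^ (2 * D) :=
    Finset.prod_pos fun i _ => pow_pos (zero_lt_one.trans_le (hsup1 i)) _
  have hR0 : 0 < ∏ i, nm 𝓟 v (fun k => aeval x (xr W i (s i) k)) ^ D :=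
    Finset.prod_pos fun i _ => pow_pos (hnmpos i) _
  have hBp : 0 ≤ ∏ i, B i v ^ D :=
    Finset.prod_nonneg fun i _ => pow_nonneg (zero_le_one.trans ((hB i).one_le v)) _
  calc N / ∏ i, nm 𝓟 v (fun k => aeval x (xr W i (s i) k)) ^ D
      ≤ (∏ i, B i v ^ D) * (N / ∏ i, (⨆ k, 𝓟.av v (coords (P i) k)) ^ (2 * D)) := by
        rw [div_le_iff₀ hR0, ← mul_div_assoc, div_mul_eq_mul_div, le_div_iff₀ hQ0]
        calc N * ∏ i, (⨆ k, 𝓟.av v (coords (P i) k)) ^ (2 * D)
            ≤ N * ((∏ i, B i v ^ D) *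
              ∏ i, nm 𝓟 v (fun k => aeval x (xr W i (s i) k)) ^ D) :=
              mul_le_mul_of_nonneg_left hprod hN0
          _ = _ := by ring
    _ ≤ (∏ i, B i v ^ D) * (A' v * closeness W F Dg P (𝓟.av v)) :=
        mul_le_mul_of_nonneg_left hmain hBp
    _ = _ := by ring

end

end Pool.Agent.AG
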