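import Mathlib
import Pool.Agent.AG.Geo

/-! # Closeness to `Y` (module Clos) -/

set_option autoImplicit false

open MvPolynomial WeierstrassCurve WeierstrassCurve.Affine
open Pool.Agent.GE (coords MultiHom DimLE wt)

namespace Pool.Agent.AG

universe u

section

variable {K : Type u} [Field K] {ι : Type*} (𝓟 : PlSys K ι)

lemma exists_coords_eq_one {W : Affine K} (P : W.Point) : ∃ k, coords P k = 1 := by
  match P with
  | 0 => exact ⟨1, rfl⟩
  | .some x y h => exact ⟨2, rfl⟩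

lemma one_le_sup_coords (v : ι) {W : Affine K} (P : W.Point) :
    1 ≤ ⨆ k, 𝓟.av v (coords P k) := by
  obtain ⟨k, hk⟩ := exists_coords_eq_one P
  have h1 : 𝓟.av v (coords P k) ≤ ⨆ k, 𝓟.av v (coords P k) :=
    le_ciSup (Set.finite_range fun k => 𝓟.av v (coords P k)).bddAbove k
  rwa [hk, map_one] at h1

lemma coords_fin {W : Affine K} (P : W.Point) :
    {v | (⨆ k, 𝓟.av v (coords P k)) ≠ 1}.Finite := by
  have hfin : (⋃ k ∈ {k | coords P k ≠ 0}, {v | 𝓟.av v (coords P k) ≠ 1}).Finite :=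
    Set.Finite.biUnion (Set.toFinite _) fun k hk => 𝓟.fin _ hk
  refine hfin.subset ?_
  intro v hv
  by_contra hcon
  apply hv
  apply le_antisymm
  · apply ciSup_le
    intro k
    by_cases hk : coords P k = 0
    · rw [hk, map_zero]; exact zero_le_one
    · by_contra h1
      apply hcon
      rw [Set.mem_iUnion₂]
      exact ⟨k, hk, fun h2 => h1 h2.le⟩
  · exact one_le_sup_coords 𝓟 v P

lemma exists_coords_le (W : Affine K) : ∃ C : ι → ℝ, IsCst C ∧ ∀ v (P : W.Point),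
    (⨆ k, 𝓟.av v (coords P k)) ≤ C v * nm 𝓟 v P.xRep ^ 2 := by
  obtain ⟨C₀, hC₀, hb⟩ := exists_common (ι := ι) (α := Fin 5)
    (Φ := fun i v c => 𝓟.av v ((![W.a₁, W.a₂, W.a₃, W.a₄, W.a₆] : Fin 5 → K) i) ≤ c)
    (fun i v c c' h h1 => h1.trans h) (fun i => exists_av_le 𝓟 _)
  have hb1 : ∀ v, 𝓟.av v W.a₁ ≤ C₀ v := fun v => hb 0 v
  have hb2 : ∀ v, 𝓟.av v W.a₂ ≤ C₀ v := fun v => hb 1 v
  have hb3 : ∀ v, 𝓟.av v W.a₃ ≤ C₀ v := fun v => hb 2 v
  have hb4 : ∀ v, 𝓟.av v W.a₄ ≤ C₀ v := fun v => hb 3 v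
  have hb6 : ∀ v, 𝓟.av v W.a₆ ≤ C₀ v := fun v => hb 4 v
  refine ⟨fun v => 𝓟.σ v ^ 5 * C₀ v, (𝓟.σ_cst.pow 5).mul hC₀, ?_⟩
  intro v P
  have hσ1 : 1 ≤ 𝓟.σ v := 𝓟.σ_cst.1 v
  have hσ0 : 0 < 𝓟.σ v := zero_lt_one.trans_le hσ1
  have hC1 : 1 ≤ C₀ v := hC₀.1 v
  have hC0 : 0 < C₀ v := zero_lt_one.trans_le hC1
  have hσ5 : 1 ≤ 𝓟.σ v ^ 5 := one_le_pow₀ hσ1
  have hCC : 1 ≤ 𝓟.σ v ^ 5 * C₀ v := one_le_mul_of_one_le_of_one_le hσ5 hC1
  match P with
  | 0 =>
    have e1 : nm 𝓟 v (0 : W.Point).xRep = 1 := by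
      rw [nm, Point.xRep_zero]
      simp
    rw [e1, one_pow, mul_one]
    apply ciSup_le
    intro k
    have e2 : coords (0 : W.Point) = ![0, 1, 0] := rfl
    rw [e2]
    fin_cases k
    · simpa using zero_le_one.trans hCC
    · simpa using hCC
    · simpa using zero_le_one.trans hCC
  | .some x y h =>
    have e1 : nm 𝓟 v (Point.some x y h).xRep = max (𝓟.av v x) 1 := by
      rw [nm, Point.xRep_some]
      simp
    set X : ℝ := max (𝓟.av v x) 1 with hX
    have hX1 : 1 ≤ X := le_max_right _ _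
    have hxX : 𝓟.av v x ≤ X := le_max_left _ _
    have hX0 : 0 < X := zero_lt_one.trans_le hX1
    have hXX : X ≤ X ^ 2 := by
      calc X = X ^ 1 := (pow_one X).symm
        _ ≤ X ^ 2 := pow_le_pow_right₀ hX1 (by norm_num)
    have hX2 : X ^ 2 ≤ 𝓟.σ v ^ 5 * C₀ v * X ^ 2 := le_mul_of_one_le_left (by positivity) hCC
    rw [e1]
    apply ciSup_le
    intro k
    have e2 : coords (Point.some x y h) = ![x, y, 1] := rfl
    rw [e2]
    have hy : 𝓟.av v y ≤ 𝓟.σ v ^ 5 * C₀ v * X ^ 2 := by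
      have heq : y ^ 2 = -((W.a₁ * x + W.a₃) * y) +
          ∑ i : Fin 4, (![x ^ 3, W.a₂ * x ^ 2, W.a₄ * x, W.a₆] : Fin 4 → K) i := by
        have := (W.equation_iff x y).mp h.1
        simp only [Fin.sum_univ_four, Matrix.cons_val_zero, Matrix.cons_val_one,
          Matrix.cons_val]
        linear_combination this
      have hg : 𝓟.av v (∑ i : Fin 4, (![x ^ 3, W.a₂ * x ^ 2, W.a₄ * x, W.a₆] : Fin 4 → K) i) ≤
          𝓟.σ v ^ 4 * (C₀ v * X ^ 3) := by
        have h1 := av_sum_le 𝓟 (Finset.univ : Finset (Fin 4))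
          (![x ^ 3, W.a₂ * x ^ 2, W.a₄ * x, W.a₆] : Fin 4 → K) v (B := C₀ v * X ^ 3)
          (by positivity) (by
            intro i _
            have hx3 : 𝓟.av v x ^ 3 ≤ X ^ 3 := pow_le_pow_left₀ ((𝓟.av v).nonneg _) hxX 3
            have hx2 : 𝓟.av v x ^ 2 ≤ X ^ 3 :=
              (pow_le_pow_left₀ ((𝓟.av v).nonneg _) hxX 2).trans
                (pow_le_pow_right₀ hX1 (by norm_num))
            have hx1 : 𝓟.av v x ≤ X ^ 3 := by
              calc 𝓟.av v x ≤ X ^ 1 := by rw [pow_one]; exact hxX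
                _ ≤ X ^ 3 := pow_le_pow_right₀ hX1 (by norm_num)
            have hX3 : 1 ≤ X ^ 3 := one_le_pow₀ hX1
            fin_cases i
            · change 𝓟.av v (x ^ 3) ≤ _
              rw [map_pow]
              exact hx3.trans (le_mul_of_one_le_left (by positivity) hC1)
            · change 𝓟.av v (W.a₂ * x ^ 2) ≤ _
              rw [map_mul, map_pow]
              exact mul_le_mul (hb2 v) hx2 (pow_nonneg ((𝓟.av v).nonneg _) _) hC0.le
            · change 𝓟.av v (W.a₄ * x) ≤ _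
              rw [map_mul]
              exact mul_le_mul (hb4 v) hx1 ((𝓟.av v).nonneg _) hC0.le
            · change 𝓟.av v W.a₆ ≤ _
              exact (hb6 v).trans (le_mul_of_one_le_right hC0.le hX3))
        rwa [Finset.card_univ, Fintype.card_fin] at h1
      have hl : 𝓟.av v (W.a₁ * x + W.a₃) ≤ 𝓟.σ v * (C₀ v * X) := by
        refine (𝓟.add_le v _ _).trans (mul_le_mul_of_nonneg_left (max_le ?_ ?_) hσ0.le)
        · rw [map_mul]
          exact mul_le_mul (hb1 v) hxX ((𝓟.av v).nonneg _) hC0.le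
        · exact (hb3 v).trans (le_mul_of_one_le_right hC0.le hX1)
      have h2 : 𝓟.av v y ^ 2 ≤ 𝓟.σ v *
          max (𝓟.σ v * (C₀ v * X) * 𝓟.av v y) (𝓟.σ v ^ 4 * (C₀ v * X ^ 3)) := by
        rw [← map_pow, heq]
        refine (𝓟.add_le v _ _).trans (mul_le_mul_of_nonneg_left (max_le_max ?_ hg) hσ0.le)
        rw [(𝓟.av v).map_neg, map_mul]
        exact mul_le_mul_of_nonneg_right hl ((𝓟.av v).nonneg _)
      have hy0 := (𝓟.av v).nonneg y
      rcases le_total (𝓟.σ v * (C₀ v * X) * 𝓟.av v y) (𝓟.σ v ^ 4 * (C₀ v * X ^ 3)) with h3 | h3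
      · rw [max_eq_right h3] at h2
        have h4 : 𝓟.av v y ^ 2 ≤ (𝓟.σ v ^ 5 * C₀ v * X ^ 2) ^ 2 := by
          calc 𝓟.av v y ^ 2 ≤ 𝓟.σ v * (𝓟.σ v ^ 4 * (C₀ v * X ^ 3)) := h2
            _ = (𝓟.σ v ^ 5 * C₀ v) * X ^ 3 := by ring
            _ ≤ (𝓟.σ v ^ 5 * C₀ v) ^ 2 * X ^ 4 := by
                apply mul_le_mul _ (pow_le_pow_right₀ hX1 (by norm_num)) (by positivity)
                  (by positivity)
                calc 𝓟.σ v ^ 5 * C₀ v = (𝓟.σ v ^ 5 * C₀ v) ^ 1 := (pow_one _).symm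
                  _ ≤ _ := pow_le_pow_right₀ hCC (by norm_num)
            _ = _ := by ring
        exact (pow_le_pow_iff_left₀ hy0 (by positivity) two_ne_zero).mp h4
      · rw [max_eq_left h3] at h2
        by_cases hyz : 𝓟.av v y = 0
        · rw [hyz]; positivity
        have hypos : 0 < 𝓟.av v y := lt_of_le_of_ne hy0 (Ne.symm hyz)
        have h4 : 𝓟.av v y ≤ 𝓟.σ v ^ 2 * C₀ v * X := by
          have h5 : 𝓟.av v y * 𝓟.av v y ≤ (𝓟.σ v ^ 2 * C₀ v * X) * 𝓟.av v y := by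
            calc 𝓟.av v y * 𝓟.av v y = 𝓟.av v y ^ 2 := by ring
              _ ≤ _ := h2
              _ = _ := by ring
          exact le_of_mul_le_mul_right h5 hypos
        refine h4.trans ?_
        have h5 : 𝓟.σ v ^ 2 ≤ 𝓟.σ v ^ 5 := pow_le_pow_right₀ hσ1 (by norm_num)
        gcongr
    fin_cases k
    · exact (hxX.trans hXX).trans hX2
    · exact hy
    · change 𝓟.av v 1 ≤ _
      rw [map_one]
      exact (hX1.trans hXX).trans hX2

variable {n : ℕ} (W : Fin n → Affine K) {t : ℕ}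
  (F : Fin t → MvPolynomial (Fin n × Fin 3) K) (Dg : Fin t → Fin n → ℕ)

lemma prod_coords_pos (v : ι) (P : ∀ i, (W i).Point) (d : Fin n → ℕ) :
    0 < ∏ i, (⨆ k, 𝓟.av v (coords (P i) k)) ^ d i :=
  Finset.prod_pos fun i _ => pow_pos (zero_lt_one.trans_le (one_le_sup_coords 𝓟 v (P i))) _

lemma le_closeness (v : ι) (P : ∀ i, (W i).Point) (j : Fin t) :
    𝓟.av v (aeval (fun q : Fin n × Fin 3 => coords (P q.1) q.2) (F j)) /
      ∏ i, (⨆ k, 𝓟.av v (coords (P i) k)) ^ Dg j i ≤ closeness W F Dg P (𝓟.av v) :=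
  le_ciSup (f := fun j => 𝓟.av v (aeval (fun q : Fin n × Fin 3 => coords (P q.1) q.2) (F j)) /
      ∏ i, (⨆ k, 𝓟.av v (coords (P i) k)) ^ Dg j i) (Set.finite_range _).bddAbove j

lemma closeness_pos (v : ι) (P : ∀ i, (W i).Point)
    (hP : ∃ j, aeval (fun q : Fin n × Fin 3 => coords (P q.1) q.2) (F j) ≠ 0) :
    0 < closeness W F Dg P (𝓟.av v) := by
  obtain ⟨j, hj⟩ := hP
  exact (div_pos ((𝓟.av v).pos hj) (prod_coords_pos 𝓟 W v P _)).trans_le
    (le_closeness 𝓟 W F Dg v P j)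

lemma closeness_fin (P : ∀ i, (W i).Point)
    (hP : ∃ j, aeval (fun q : Fin n × Fin 3 => coords (P q.1) q.2) (F j) ≠ 0) :
    {v | closeness W F Dg P (𝓟.av v) ≠ 1}.Finite := by
  have hfin : ((⋃ j ∈ {j | aeval (fun q : Fin n × Fin 3 => coords (P q.1) q.2) (F j) ≠ 0},
      {v | 𝓟.av v (aeval (fun q : Fin n × Fin 3 => coords (P q.1) q.2) (F j)) ≠ 1}) ∪
      ⋃ i, {v | (⨆ k, 𝓟.av v (coords (P i) k)) ≠ 1}).Finite :=
    (Set.Finite.biUnion (Set.toFinite _) fun j hj => 𝓟.fin _ hj).union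
      (Set.finite_iUnion fun i => coords_fin 𝓟 (P i))
  refine hfin.subset ?_
  intro v hv
  by_contra hcon
  rw [Set.mem_union, not_or] at hcon
  obtain ⟨h1, h2⟩ := hcon
  have h3 : ∀ i, (⨆ k, 𝓟.av v (coords (P i) k)) = 1 := by
    intro i
    by_contra h
    exact h2 (Set.mem_iUnion.mpr ⟨i, h⟩)
  have h4 : ∀ j, aeval (fun q : Fin n × Fin 3 => coords (P q.1) q.2) (F j) ≠ 0 →
      𝓟.av v (aeval (fun q : Fin n × Fin 3 => coords (P q.1) q.2) (F j)) = 1 := by
    intro j hj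
    by_contra h
    exact h1 (Set.mem_iUnion₂.mpr ⟨j, hj, h⟩)
  apply hv
  have h5 : ∀ j, ∏ i, (⨆ k, 𝓟.av v (coords (P i) k)) ^ Dg j i = 1 := by
    intro j
    exact Finset.prod_eq_one fun i _ => by rw [h3 i, one_pow]
  obtain ⟨j₀, hj₀⟩ := hP
  have : Nonempty (Fin t) := ⟨j₀⟩
  apply le_antisymm
  · unfold closeness
    apply ciSup_le
    intro j
    rw [h5, div_one]
    by_cases hj : aeval (fun q : Fin n × Fin 3 => coords (P q.1) q.2) (F j) = 0
    · rw [hj, map_zero]; exact zero_le_one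
    · exact (h4 j hj).le
  · have h6 := le_closeness 𝓟 W F Dg v P j₀
    rwa [h5, div_one, h4 j₀ hj₀] at h6

/-- The trivial bound for the height with respect to `Y`. -/
theorem exists_sum_closeness_le : ∃ C : ℝ, 0 ≤ C ∧ ∀ (P : ∀ i, (W i).Point) (h : Fin n → ℝ),
    (∀ i, 0 ≤ h i) → (∀ i, {v | nm 𝓟 v (P i).xRep ≠ 1}.Finite) →
    (∀ i, ∀ V : Finset ι, (∀ v, nm 𝓟 v (P i).xRep ≠ 1 → v ∈ V) →
      ∑ v ∈ V, 𝓟.w v * Real.log (nm 𝓟 v (P i).xRep) = h i) →
    (∃ j, aeval (fun q : Fin n × Fin 3 => coords (P q.1) q.2) (F j) ≠ 0) →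
    ∀ V : Finset ι, (∀ v, closeness W F Dg P (𝓟.av v) ≠ 1 → v ∈ V) →
      ∑ v ∈ V, 𝓟.w v * -Real.log (closeness W F Dg P (𝓟.av v)) ≤ C * (∑ i, h i + 1) := by
  classical
  have h1 := fun i => exists_coords_le 𝓟 (W i)
  choose C hC hCle using h1
  have h2 := fun i => exists_sum_log_le 𝓟 (hC i)
  choose κ hκ0 hκ using h2
  have hsκ : 0 ≤ ∑ i, κ i := Finset.sum_nonneg fun i _ => hκ0 i
  refine ⟨(∑ j, ∑ i, (Dg j i : ℝ)) * (∑ i, κ i + 2), by positivity, ?_⟩
  intro P h hh0 hfin hht hP V hV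
  obtain ⟨j, hj⟩ := hP
  have hsh : 0 ≤ ∑ i, h i := Finset.sum_nonneg fun i _ => hh0 i
  set V' : Finset ι := V ∪ ((𝓟.fin _ hj).toFinset ∪
    Finset.univ.biUnion fun i => (hfin i).toFinset) with hV'
  have hVV' : V ⊆ V' := Finset.subset_union_left
  have hsum : ∑ v ∈ V, 𝓟.w v * -Real.log (closeness W F Dg P (𝓟.av v)) =
      ∑ v ∈ V', 𝓟.w v * -Real.log (closeness W F Dg P (𝓟.av v)) := by
    apply Finset.sum_subset hVV'
    intro v _ hv
    have : closeness W F Dg P (𝓟.av v) = 1 := by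
      by_contra hne
      exact hv (hV v hne)
    rw [this, Real.log_one, neg_zero, mul_zero]
  rw [hsum]
  have hpt : ∀ v, -Real.log (closeness W F Dg P (𝓟.av v)) ≤
      -Real.log (𝓟.av v (aeval (fun q : Fin n × Fin 3 => coords (P q.1) q.2) (F j))) +
        ∑ i, (Dg j i : ℝ) * (Real.log (C i v) + 2 * Real.log (nm 𝓟 v (P i).xRep)) := by
    intro v
    have h3 := Real.log_le_log (div_pos ((𝓟.av v).pos hj) (prod_coords_pos 𝓟 W v P (Dg j)))
      (le_closeness 𝓟 W F Dg v P j)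
    rw [Real.log_div ((𝓟.av v).pos hj).ne' (prod_coords_pos 𝓟 W v P (Dg j)).ne',
      Real.log_prod (fun i _ => (pow_pos (zero_lt_one.trans_le
        (one_le_sup_coords 𝓟 v (P i))) _).ne')] at h3
    have h4 : ∑ i, Real.log ((⨆ k, 𝓟.av v (coords (P i) k)) ^ Dg j i) ≤
        ∑ i, (Dg j i : ℝ) * (Real.log (C i v) + 2 * Real.log (nm 𝓟 v (P i).xRep)) := by
      refine Finset.sum_le_sum fun i _ => ?_
      rw [Real.log_pow]
      apply mul_le_mul_of_nonneg_left _ (Nat.cast_nonneg _)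
      have h5 := hCle i v (P i)
      have hc0 : 0 < C i v := (hC i).pos v
      have hn0 : 0 < nm 𝓟 v (P i).xRep := by
        by_contra! hcon
        have h6 : nm 𝓟 v (P i).xRep = 0 := le_antisymm hcon (nm_nonneg 𝓟 v _)
        rw [h6] at h5
        have := one_le_sup_coords 𝓟 v (P i)
        norm_num at h5
        linarith
      have h6 := Real.log_le_log (zero_lt_one.trans_le (one_le_sup_coords 𝓟 v (P i))) h5
      rwa [Real.log_mul hc0.ne' (pow_pos hn0 _).ne', Real.log_pow, Nat.cast_ofNat] at h6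
    linarith
  have hF0 : ∑ v ∈ V', 𝓟.w v * Real.log (𝓟.av v
      (aeval (fun q : Fin n × Fin 3 => coords (P q.1) q.2) (F j))) = 0 :=
    𝓟.prod _ hj V' fun v hv => Finset.mem_union_right _ (Finset.mem_union_left _
      ((𝓟.fin _ hj).mem_toFinset.mpr hv))
  calc ∑ v ∈ V', 𝓟.w v * -Real.log (closeness W F Dg P (𝓟.av v)) ≤
        ∑ v ∈ V', 𝓟.w v *
        (-Real.log (𝓟.av v (aeval (fun q : Fin n × Fin 3 => coords (P q.1) q.2) (F j))) +
        ∑ i, (Dg j i : ℝ) * (Real.log (C i v) + 2 * Real.log (nm 𝓟 v (P i).xRep))) :=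
        Finset.sum_le_sum fun v _ => mul_le_mul_of_nonneg_left (hpt v) (𝓟.w_nonneg v)
    _ = -(∑ v ∈ V', 𝓟.w v * Real.log (𝓟.av v
          (aeval (fun q : Fin n × Fin 3 => coords (P q.1) q.2) (F j)))) +
        ∑ i, (Dg j i : ℝ) * (∑ v ∈ V', 𝓟.w v * Real.log (C i v) +
          2 * ∑ v ∈ V', 𝓟.w v * Real.log (nm 𝓟 v (P i).xRep)) := by
        simp only [mul_add, Finset.sum_add_distrib, Finset.mul_sum, mul_neg,
          Finset.sum_neg_distrib]
        congr 1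
        congr 1
        · rw [Finset.sum_comm]
          exact Finset.sum_congr rfl fun i _ => Finset.sum_congr rfl fun v _ => by ring
        · rw [Finset.sum_comm]
          exact Finset.sum_congr rfl fun i _ => Finset.sum_congr rfl fun v _ => by ring
    _ ≤ 0 + ∑ i, (Dg j i : ℝ) * ((∑ i, κ i + 2) * (∑ i, h i + 1)) := by
        rw [hF0, neg_zero]
        apply add_le_add le_rfl
        refine Finset.sum_le_sum fun i _ => mul_le_mul_of_nonneg_left ?_ (Nat.cast_nonneg _)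
        rw [hht i V' fun v hv => Finset.mem_union_right _ (Finset.mem_union_right _
          (Finset.mem_biUnion.mpr ⟨i, Finset.mem_univ i, (hfin i).mem_toFinset.mpr hv⟩))]
        have h3 := hκ i V'
        have h4 : κ i ≤ ∑ i, κ i := Finset.single_le_sum (fun i _ => hκ0 i) (Finset.mem_univ i)
        have h5 : h i ≤ ∑ i, h i := Finset.single_le_sum (fun i _ => hh0 i) (Finset.mem_univ i)
        nlinarith
    _ = (∑ i, (Dg j i : ℝ)) * ((∑ i, κ i + 2) * (∑ i, h i + 1)) := by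
        rw [zero_add, Finset.sum_mul]
    _ ≤ (∑ j, ∑ i, (Dg j i : ℝ)) * ((∑ i, κ i + 2) * (∑ i, h i + 1)) := by
        apply mul_le_mul_of_nonneg_right _ (by positivity)
        exact Finset.single_le_sum (f := fun j => ∑ i, (Dg j i : ℝ))
          (fun j _ => Finset.sum_nonneg fun i _ => Nat.cast_nonneg _) (Finset.mem_univ j)
    _ = _ := by ring

end

end Pool.Agent.AG
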