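import Mathlib
import Pool.Agent.AG.Pl

/-! # Interpolation: a form is not small at well separated points (module Interp) -/

set_option autoImplicit false

namespace Pool.Agent.AG

section

variable {K : Type*} [Field K] {ι : Type*} (𝓟 : PlSys K ι)

lemma pd_nonneg (v : ι) (p q : Fin 2 → K) : 0 ≤ pd 𝓟 v p q :=
  div_nonneg ((𝓟.av v).nonneg _) (mul_nonneg (nm_nonneg 𝓟 v p) (nm_nonneg 𝓟 v q))

lemma pd_comm (v : ι) (p q : Fin 2 → K) : pd 𝓟 v p q = pd 𝓟 v q p := by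
  unfold pd
  rw [mul_comm (nm 𝓟 v p), ← (𝓟.av v).map_neg]
  congr 2
  ring

lemma bf_eq_mulVec {D : ℕ} (c : Fin (D + 1) → K) (p : Fin (D + 1) → Fin 2 → K) :
    (Matrix.projVandermonde (fun i => p i 0) (fun i => p i 1)).mulVec c =
      fun i => bf c (p i) := by
  funext i
  rw [Matrix.mulVec, dotProduct, bf]
  refine Finset.sum_congr rfl fun k _ => ?_
  rw [Matrix.projVandermonde_apply, mul_comm]
  congr 3
  rw [Fin.val_rev]
  omega

/-- A nonzero binary form does not vanish at `D + 1` different points. -/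
theorem exists_bf_ne_zero {D : ℕ} (c : Fin (D + 1) → K) (hc : c ≠ 0)
    (p : Fin (D + 1) → Fin 2 → K)
    (hp : ∀ i j, i ≠ j → p i 0 * p j 1 - p i 1 * p j 0 ≠ 0) : ∃ i, bf c (p i) ≠ 0 := by
  by_contra! hcon
  apply hc
  apply Matrix.eq_zero_of_mulVec_eq_zero
    (M := Matrix.projVandermonde (fun i => p i 0) (fun i => p i 1))
  · rw [Matrix.det_projVandermonde]
    refine Finset.prod_ne_zero_iff.mpr fun i _ => Finset.prod_ne_zero_iff.mpr fun j hj => ?_
    have hij : i ≠ j := (Finset.mem_Ioi.mp hj).ne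
    intro h0
    apply hp i j hij
    linear_combination -h0
  · rw [bf_eq_mulVec]
    funext i
    exact hcon i

lemma prod_pairs {D : ℕ} (x : Fin (D + 1) → ℝ) :
    ∏ i, ∏ j ∈ Finset.Ioi i, (x i * x j) = ∏ i, x i ^ D := by
  have h1 : ∏ i, ∏ j ∈ Finset.Ioi i, x j = ∏ j, ∏ i ∈ Finset.Iio j, x j := by
    apply Finset.prod_comm'
    intro i j
    simp
  have h2 : ∏ i, ∏ j ∈ Finset.Ioi i, (x i * x j) =
      (∏ i, ∏ j ∈ Finset.Ioi i, x i) * ∏ i, ∏ j ∈ Finset.Ioi i, x j := by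
    rw [← Finset.prod_mul_distrib]
    refine Finset.prod_congr rfl fun i _ => ?_
    rw [Finset.prod_mul_distrib]
  rw [h2, h1, ← Finset.prod_mul_distrib]
  refine Finset.prod_congr rfl fun i _ => ?_
  rw [Finset.prod_const, Finset.prod_const, ← pow_add]
  congr 1
  rw [Fin.card_Ioi, Fin.card_Iio]
  omega

lemma prod_pairs_const {D : ℕ} (ε : ℝ) :
    ∏ i : Fin (D + 1), ∏ _j ∈ Finset.Ioi i, ε = ε ^ (D * (D + 1) / 2) := by
  simp only [Finset.prod_const, Fin.card_Ioi]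
  rw [Finset.prod_pow_eq_pow_sum]
  congr 1
  rw [Fin.sum_univ_eq_sum_range (fun i => D + 1 - 1 - i), Finset.sum_range_reflect (fun i => i)]
  rw [Finset.sum_range_id, Nat.add_sub_cancel, mul_comm]

/-- A binary form is not small at `D + 1` separated points. -/
theorem exists_interp (D : ℕ) : ∃ C : ι → ℝ, IsCst C ∧ ∀ (v : ι) (c : Fin (D + 1) → K)
    (p : Fin (D + 1) → Fin 2 → K) (ε δ : ℝ), c ≠ 0 → (∀ i, 0 < nm 𝓟 v (p i)) → 0 ≤ ε →
    (∀ i j, i ≠ j → ε ≤ pd 𝓟 v (p i) (p j)) → (∀ i, bval 𝓟 v c (p i) ≤ δ) →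
    ε ^ (D * (D + 1) / 2) ≤ C v * δ := by
  classical
  set N₁ : ℕ := (Finset.univ : Finset (Fin (D + 1))).card with hN₁
  set N₂ : ℕ := (Finset.univ : Finset (Equiv.Perm (Fin (D + 1)))).card with hN₂
  refine ⟨fun v => 𝓟.σ v ^ (N₁ + N₂), 𝓟.σ_cst.pow _, ?_⟩
  intro v c p ε δ hc hp hε hsep hδ
  set M := Matrix.projVandermonde (fun i => p i 0) (fun i => p i 1) with hM
  set x : Fin (D + 1) → ℝ := fun i => nm 𝓟 v (p i) with hx
  have hσ : 1 ≤ 𝓟.σ v := 𝓟.σ_cst.1 v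
  have hσ0 : 0 < 𝓟.σ v := zero_lt_one.trans_le hσ
  have hX : 0 < ∏ i, x i ^ D := Finset.prod_pos fun i _ => pow_pos (hp i) _
  -- the largest coefficient
  obtain ⟨k, hk⟩ := Finite.exists_max fun k => 𝓟.av v (c k)
  have hsup : (⨆ k, 𝓟.av v (c k)) = 𝓟.av v (c k) :=
    le_antisymm (ciSup_le hk) (le_ciSup (Set.finite_range fun k => 𝓟.av v (c k)).bddAbove k)
  have hck : 0 < 𝓟.av v (c k) := by
    obtain ⟨l, hl⟩ := Function.ne_iff.mp hc
    exact ((𝓟.av v).pos hl).trans_le (hk l)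
  have hδ0 : 0 ≤ δ := by
    refine le_trans ?_ (hδ 0)
    unfold bval
    rw [hsup]
    exact div_nonneg ((𝓟.av v).nonneg _) (mul_nonneg hck.le (pow_nonneg (hp 0).le _))
  -- determinant
  have hdet : ε ^ (D * (D + 1) / 2) * ∏ i, x i ^ D ≤ 𝓟.av v M.det := by
    rw [hM, Matrix.det_projVandermonde, map_prod, ← prod_pairs, ← prod_pairs_const,
      ← Finset.prod_mul_distrib]
    refine Finset.prod_le_prod (fun i _ => ?_) fun i _ => ?_
    · refine mul_nonneg (Finset.prod_nonneg fun j _ => hε) (Finset.prod_nonneg fun j _ => ?_)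
      exact mul_nonneg (hp i).le (hp j).le
    · rw [map_prod, ← Finset.prod_mul_distrib]
      refine Finset.prod_le_prod (fun j _ => mul_nonneg hε (mul_nonneg (hp i).le (hp j).le))
        fun j hj => ?_
      have hij : i ≠ j := (Finset.mem_Ioi.mp hj).ne
      have h1 := hsep j i hij.symm
      rw [pd, le_div_iff₀ (mul_pos (hp j) (hp i))] at h1
      calc ε * (x i * x j) = ε * (nm 𝓟 v (p j) * nm 𝓟 v (p i)) := by rw [mul_comm (x i)]
        _ ≤ _ := h1
        _ = _ := by congr 1; ring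
  -- the adjugate
  have hentry : ∀ i k, 𝓟.av v (M i k) ≤ x i ^ D := by
    intro i k
    rw [hM, Matrix.projVandermonde_apply, map_mul, map_pow, map_pow]
    have hk2 : (k : ℕ) + (k.rev : ℕ) = D := by
      rw [Fin.val_rev]
      omega
    calc _ ≤ x i ^ (k : ℕ) * x i ^ (k.rev : ℕ) :=
          mul_le_mul (pow_le_pow_left₀ ((𝓟.av v).nonneg _) (le_max_left _ _) _)
            (pow_le_pow_left₀ ((𝓟.av v).nonneg _) (le_max_right _ _) _)
            (pow_nonneg ((𝓟.av v).nonneg _) _) (pow_nonneg (hp i).le _)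
      _ = _ := by rw [← pow_add, hk2]
  have hadj : ∀ k i, 𝓟.av v (M.adjugate k i) * x i ^ D ≤ 𝓟.σ v ^ N₂ * ∏ l, x l ^ D := by
    intro k i
    set b : Fin (D + 1) → ℝ := Function.update (fun l => x l ^ D) i 1 with hb
    have hb0 : ∀ l, 0 ≤ b l := by
      intro l
      rw [hb, Function.update_apply]
      split_ifs
      · exact zero_le_one
      · exact pow_nonneg (hp l).le _
    have hprod : (∏ l, b l) * x i ^ D = ∏ l, x l ^ D := by
      rw [hb, Finset.prod_update_of_mem (Finset.mem_univ i), one_mul,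
        ← Finset.erase_eq, Finset.prod_erase_mul _ _ (Finset.mem_univ i)]
    rw [Matrix.adjugate_apply, Matrix.det_apply]
    have hbd : 𝓟.av v (∑ τ : Equiv.Perm (Fin (D + 1)), Equiv.Perm.sign τ •
        ∏ l, (M.updateRow i (Pi.single k 1)) (τ l) l) ≤ 𝓟.σ v ^ N₂ * ∏ l, b l := by
      apply av_sum_le 𝓟 _ _ _ (Finset.prod_nonneg fun l _ => hb0 l)
      intro τ _
      have hsgn : 𝓟.av v (Equiv.Perm.sign τ •
          ∏ l, (M.updateRow i (Pi.single k 1)) (τ l) l) =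
          𝓟.av v (∏ l, (M.updateRow i (Pi.single k 1)) (τ l) l) := by
        rcases Int.units_eq_one_or (Equiv.Perm.sign τ) with h | h <;> rw [h]
        · rw [one_smul]
        · rw [Units.neg_smul, one_smul, (𝓟.av v).map_neg]
      rw [hsgn, map_prod]
      calc ∏ l, 𝓟.av v ((M.updateRow i (Pi.single k 1)) (τ l) l) ≤ ∏ l, b (τ l) := by
            refine Finset.prod_le_prod (fun l _ => (𝓟.av v).nonneg _) fun l _ => ?_
            rw [Matrix.updateRow_apply, hb, Function.update_apply]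
            by_cases hl : τ l = i
            · rw [if_pos hl, if_pos hl, Pi.single_apply]
              split_ifs
              · rw [map_one]
              · rw [map_zero]; exact zero_le_one
            · rw [if_neg hl, if_neg hl]
              exact hentry _ _
        _ = ∏ l, b l := Equiv.prod_comp τ b
    calc _ ≤ (𝓟.σ v ^ N₂ * ∏ l, b l) * x i ^ D :=
          mul_le_mul_of_nonneg_right hbd (pow_nonneg (hp i).le _)
      _ = _ := by rw [mul_assoc, hprod]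
  -- Cramer
  have hcramer : M.det * c k = ∑ i, M.adjugate k i * bf c (p i) := by
    have h1 : M.adjugate.mulVec (M.mulVec c) = M.det • c := by
      rw [Matrix.mulVec_mulVec, Matrix.adjugate_mul, Matrix.smul_mulVec, Matrix.one_mulVec]
    have h2 := congrFun h1 k
    rw [Pi.smul_apply, smul_eq_mul] at h2
    rw [← h2, hM, bf_eq_mulVec]
    rfl
  have hbf : ∀ i, 𝓟.av v (bf c (p i)) ≤ δ * (𝓟.av v (c k) * x i ^ D) := by
    intro i
    have h1 := hδ i
    rw [bval, hsup, div_le_iff₀ (mul_pos hck (pow_pos (hp i) _))] at h1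
    exact h1
  have hmain : 𝓟.av v M.det * 𝓟.av v (c k) ≤
      𝓟.σ v ^ N₁ * (𝓟.σ v ^ N₂ * (∏ l, x l ^ D) * δ * 𝓟.av v (c k)) := by
    rw [← map_mul, hcramer]
    apply av_sum_le 𝓟 _ _ _ (by positivity)
    intro i _
    rw [map_mul]
    calc _ ≤ 𝓟.av v (M.adjugate k i) * (δ * (𝓟.av v (c k) * x i ^ D)) :=
          mul_le_mul_of_nonneg_left (hbf i) ((𝓟.av v).nonneg _)
      _ = (𝓟.av v (M.adjugate k i) * x i ^ D) * (δ * 𝓟.av v (c k)) := by ring
      _ ≤ (𝓟.σ v ^ N₂ * ∏ l, x l ^ D) * (δ * 𝓟.av v (c k)) :=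
          mul_le_mul_of_nonneg_right (hadj k i) (mul_nonneg hδ0 hck.le)
      _ = _ := by ring
  have h2 : ε ^ (D * (D + 1) / 2) * ((∏ i, x i ^ D) * 𝓟.av v (c k)) ≤
      (𝓟.σ v ^ (N₁ + N₂) * δ) * ((∏ i, x i ^ D) * 𝓟.av v (c k)) := by
    calc _ = (ε ^ (D * (D + 1) / 2) * ∏ i, x i ^ D) * 𝓟.av v (c k) := by ring
      _ ≤ 𝓟.av v M.det * 𝓟.av v (c k) := mul_le_mul_of_nonneg_right hdet hck.le
      _ ≤ _ := hmain
      _ = _ := by rw [pow_add]; ring
  exact le_of_mul_le_mul_right h2 (mul_pos hX hck)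

end

/-- A finite set without `D + 1` pairwise distant elements is covered by `D` balls. -/
theorem exists_cover {α : Type*} (near : α → α → Prop)
    (hrefl : ∀ a, near a a) (hsymm : ∀ a b, near a b → near b a) (T : Finset α) (D : ℕ)
    (h : ∀ p : Fin (D + 1) → α, (∀ i, p i ∈ T) → ∃ i j, i ≠ j ∧ near (p i) (p j)) :
    ∃ U : Finset α, U ⊆ T ∧ U.card ≤ D ∧ ∀ a ∈ T, ∃ u ∈ U, near a u := by
  classical
  set 𝒮 : Finset (Finset α) := T.powerset.filter fun U =>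
    ∀ a ∈ U, ∀ b ∈ U, a ≠ b → ¬ near a b with h𝒮
  have hne : 𝒮.Nonempty := ⟨∅, by simp [h𝒮]⟩
  obtain ⟨U, hU, hmax⟩ := Finset.exists_max_image 𝒮 Finset.card hne
  rw [h𝒮, Finset.mem_filter, Finset.mem_powerset] at hU
  refine ⟨U, hU.1, ?_, ?_⟩
  · by_contra! hcard
    have hle : Fintype.card (Fin (D + 1)) ≤ Fintype.card U := by
      rw [Fintype.card_fin, Fintype.card_coe]
      omega
    obtain ⟨e⟩ := Function.Embedding.nonempty_of_card_le hle
    obtain ⟨i, j, hij, hn⟩ := h (fun i => (e i : α)) fun i => hU.1 (e i).2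
    exact hU.2 _ (e i).2 _ (e j).2 (fun hcon => hij (e.injective (Subtype.ext hcon))) hn
  · intro a ha
    by_contra! hcon
    have haU : a ∉ U := fun haU => hcon a haU (hrefl a)
    have hins : insert a U ∈ 𝒮 := by
      rw [h𝒮, Finset.mem_filter, Finset.mem_powerset]
      refine ⟨Finset.insert_subset ha hU.1, ?_⟩
      intro b hb c hc hbc
      rcases Finset.mem_insert.mp hb with rfl | hb'
      · rcases Finset.mem_insert.mp hc with rfl | hc'
        · exact absurd rfl hbc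
        · exact hcon c hc'
      · rcases Finset.mem_insert.mp hc with rfl | hc'
        · exact fun hn => hcon b hb' (hsymm _ _ hn)
        · exact hU.2 b hb' c hc' hbc
    have := hmax _ hins
    rw [Finset.card_insert_of_notMem haU] at this
    omega

section

variable {K : Type*} [Field K] {ι : Type*} {𝓟 : PlSys K ι} {G : Type*} [AddCommGroup G]
  (𝓧 : XSys 𝓟 G)

/-- A nonzero binary form has at most `2 D` zeros. -/
theorem card_zeros_le {D : ℕ} (c : Fin (D + 1) → K) (hc : c ≠ 0) (T : Finset G)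
    (hT : ∀ P ∈ T, bf c (𝓧.ξ P) = 0) : T.card ≤ 2 * D := by
  classical
  obtain ⟨U, -, hU, hcov⟩ := exists_cover
    (fun P Q => 𝓧.ξ P 0 * 𝓧.ξ Q 1 - 𝓧.ξ P 1 * 𝓧.ξ Q 0 = 0)
    (fun P => by ring) (fun P Q h => by linear_combination -h) T D (by
      intro p hp
      by_contra! hcon
      obtain ⟨i, hi⟩ := exists_bf_ne_zero c hc (fun i => 𝓧.ξ (p i)) hcon
      exact hi (hT _ (hp i)))
  have hsub : T ⊆ U ∪ U.image fun P => -P := by
    intro P hP
    obtain ⟨Q, hQ, h⟩ := hcov P hP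
    rcases 𝓧.inj P Q h with rfl | rfl
    · exact Finset.mem_union_left _ hQ
    · exact Finset.mem_union_right _ (Finset.mem_image_of_mem _ hQ)
  calc T.card ≤ (U ∪ U.image fun P => -P).card := Finset.card_le_card hsub
    _ ≤ U.card + (U.image fun P => -P).card := Finset.card_union_le _ _
    _ ≤ U.card + U.card := Nat.add_le_add_left Finset.card_image_le _
    _ ≤ 2 * D := by omega

/-- Points at which a binary form is small lie in `2 D` small balls. -/
theorem exists_small_cover (D : ℕ) : ∃ C : ι → ℝ, IsCst C ∧ ∀ (v : ι) (c : Fin (D + 1) → K)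
    (T : Finset G) (ε : ℝ), c ≠ 0 → 0 < ε → ε ≤ 1 →
    (∀ P ∈ T, bval 𝓟 v c (𝓧.ξ P) < ε ^ (D * (D + 1) / 2) / C v) →
    ∃ U : Finset G, U.card ≤ 2 * D ∧ ∀ P ∈ T, ∃ Q ∈ U, 𝓧.H.ν v (P - Q) < ε := by
  classical
  obtain ⟨C, hC, h⟩ := exists_interp 𝓟 D
  set N := D * (D + 1) / 2 with hN
  refine ⟨fun v => C v * 𝓧.b v ^ N, hC.mul (𝓧.b_cst.pow N), ?_⟩
  intro v c T ε hc hε hε1 hT
  have hb1 : 1 ≤ 𝓧.b v := 𝓧.b_cst.1 v
  have hb0 : 0 < 𝓧.b v := zero_lt_one.trans_le hb1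
  have hC0 : 0 < C v := hC.pos v
  have hnm : ∀ P, 0 < nm 𝓟 v (𝓧.ξ P) := fun P => zero_lt_one.trans_le (𝓧.one_le_nm v P)
  -- the separation
  set η : ℝ := ε / Real.sqrt (𝓧.b v) with hη
  have hsq0 : 0 < Real.sqrt (𝓧.b v) := Real.sqrt_pos.mpr hb0
  have hη0 : 0 < η := div_pos hε hsq0
  have hη2 : 𝓧.b v * η ^ 2 = ε ^ 2 := by
    rw [hη, div_pow, Real.sq_sqrt hb0.le]
    field_simp
  have hηN : ε ^ N ≤ 𝓧.b v ^ N * η ^ N := by
    rw [← mul_pow]
    apply pow_le_pow_left₀ hε.le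
    rw [hη, mul_div_assoc', le_div_iff₀ hsq0]
    have h1 : Real.sqrt (𝓧.b v) ≤ 𝓧.b v := by
      have h2 : Real.sqrt (𝓧.b v) ≤ Real.sqrt (𝓧.b v) * Real.sqrt (𝓧.b v) :=
        le_mul_of_one_le_left hsq0.le (Real.one_le_sqrt.mpr hb1)
      rwa [Real.mul_self_sqrt hb0.le] at h2
    nlinarith
  obtain ⟨U, -, hU, hcov⟩ := exists_cover
    (fun P Q => pd 𝓟 v (𝓧.ξ P) (𝓧.ξ Q) < η)
    (fun P => by
      have : pd 𝓟 v (𝓧.ξ P) (𝓧.ξ P) = 0 := by
        rw [pd, show 𝓧.ξ P 0 * 𝓧.ξ P 1 - 𝓧.ξ P 1 * 𝓧.ξ P 0 = 0 by ring, map_zero, zero_div]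
      rw [this]; exact hη0)
    (fun P Q h => by rw [pd_comm]; exact h) T D (by
      intro p hp
      by_contra! hcon
      obtain ⟨i₀, hi₀⟩ := Finite.exists_max fun i => bval 𝓟 v c (𝓧.ξ (p i))
      have h1 := h v c (fun i => 𝓧.ξ (p i)) η (bval 𝓟 v c (𝓧.ξ (p i₀))) hc
        (fun i => hnm _) hη0.le hcon hi₀
      have h2 := hT _ (hp i₀)
      rw [lt_div_iff₀ (mul_pos hC0 (pow_pos hb0 _))] at h2
      have h3 : ε ^ N ≤ bval 𝓟 v c (𝓧.ξ (p i₀)) * (C v * 𝓧.b v ^ N) := by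
        calc ε ^ N ≤ 𝓧.b v ^ N * η ^ N := hηN
          _ ≤ 𝓧.b v ^ N * (C v * bval 𝓟 v c (𝓧.ξ (p i₀))) :=
              mul_le_mul_of_nonneg_left h1 (pow_nonneg hb0.le _)
          _ = _ := by ring
      linarith)
  refine ⟨U ∪ U.image fun P => -P, ?_, ?_⟩
  · calc (U ∪ U.image fun P => -P).card ≤ U.card + (U.image fun P => -P).card :=
          Finset.card_union_le _ _
      _ ≤ U.card + U.card := Nat.add_le_add_left Finset.card_image_le _
      _ ≤ 2 * D := by omega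
  · intro P hP
    obtain ⟨Q, hQ, hPQ⟩ := hcov P hP
    have hPQ0 := pd_nonneg 𝓟 v (𝓧.ξ P) (𝓧.ξ Q)
    have h1 : 𝓧.H.ν v (P + Q) * 𝓧.H.ν v (P - Q) < ε ^ 2 := by
      refine (𝓧.near v P Q).trans_lt ?_
      rw [← hη2]
      apply mul_lt_mul_of_pos_left _ hb0
      exact pow_lt_pow_left₀ hPQ hPQ0 two_ne_zero
    rcases lt_or_ge (𝓧.H.ν v (P - Q)) ε with h2 | h2
    · exact ⟨Q, Finset.mem_union_left _ hQ, h2⟩
    · refine ⟨-Q, Finset.mem_union_right _ (Finset.mem_image_of_mem _ hQ), ?_⟩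
      rw [sub_neg_eq_add]
      by_contra! h3
      have := mul_le_mul h3 h2 hε.le (𝓧.H.ν_nonneg v _)
      rw [← sq] at this
      linarith

end

end Pool.Agent.AG
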