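import Mathlib
import Pool.Agent.AG.Interp
import Pool.Agent.AG.Lin

/-! # The number of zeros of a form in a product of boxes (module Zero) -/

set_option autoImplicit false

namespace Pool.Agent.AG

section

variable {K : Type*} [Field K] {ι : Type*} {𝓟 : PlSys K ι}

/-- Sums over a product of finite sets indexed by `Fin (n + 1)`. -/
lemma sum_piFinset_succ {n : ℕ} {G : Fin (n + 1) → Type*} (S : ∀ i, Finset (G i))
    {α : Type*} [AddCommMonoid α] (g : (∀ i, G i) → α) :
    ∑ P ∈ Fintype.piFinset S, g P =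
      ∑ x ∈ S 0, ∑ P ∈ Fintype.piFinset (fun i : Fin n => S i.succ), g (Fin.cons x P) := by
  rw [← Finset.sum_product' (S 0) (Fintype.piFinset (fun i : Fin n => S i.succ))
    (fun x P => g (Fin.cons x P))]
  refine Finset.sum_nbij' (fun P => (P 0, Fin.tail P)) (fun z => Fin.cons z.1 z.2) ?_ ?_ ?_ ?_ ?_
  · intro P hP
    rw [Fintype.mem_piFinset] at hP
    rw [Finset.mem_product, Fintype.mem_piFinset]
    exact ⟨hP 0, fun i => hP i.succ⟩
  · intro z hz
    rw [Finset.mem_product, Fintype.mem_piFinset] at hz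
    rw [Fintype.mem_piFinset]
    intro i
    refine Fin.cases ?_ ?_ i
    · exact hz.1
    · intro j
      exact hz.2 j
  · intro P _
    exact Fin.cons_self_tail P
  · intro z _
    simp
  · intro P _
    rw [Fin.cons_self_tail]

/-- The number of elements of a product of boxes. -/
lemma exists_card_le {n : ℕ} {G : Fin n → Type*} [∀ i, AddCommGroup (G i)]
    (𝓧 : ∀ i, XSys 𝓟 (G i)) (S : ∀ i, ℕ → Finset (G i)) (ρ : Fin n → ℕ) {θ : ℝ}
    (hS : ∀ i, Bx (𝓧 i) (S i) (ρ i) θ) : ∃ C : ℝ, 0 ≤ C ∧ ∀ M : ℕ, 1 ≤ M →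
      ((Fintype.piFinset fun i => S i M).card : ℝ) ≤ C * (M : ℝ) ^ (∑ i, ρ i) := by
  choose C hC0 hC using fun i => (hS i).card
  refine ⟨∏ i, C i, Finset.prod_nonneg (fun i _ => hC0 i), fun M hM => ?_⟩
  rw [Fintype.card_piFinset, Nat.cast_prod, ← Finset.prod_pow_eq_pow_sum,
    ← Finset.prod_mul_distrib]
  exact Finset.prod_le_prod (fun i _ => Nat.cast_nonneg _) (fun i _ => hC i M hM)

open Classical in
/-- A nonzero form has few zeros. -/
theorem exists_zeros_le {D : ℕ} {r : ℕ} {θ : ℝ} {n : ℕ} {G : Fin n → Type*}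
    [∀ i, AddCommGroup (G i)]
    (𝓧 : ∀ i, XSys 𝓟 (G i)) (S : ∀ i, ℕ → Finset (G i)) (ρ : Fin n → ℕ)
    (hρ : ∀ i, r ≤ ρ i) (hS : ∀ i, Bx (𝓧 i) (S i) (ρ i) θ) (c : Ten K n D) (hc : c ≠ 0) :
    ∃ C : ℝ, 0 ≤ C ∧ ∀ M : ℕ, 1 ≤ M →
      (M : ℝ) ^ r * (((Fintype.piFinset fun i => S i M).filter fun P =>
        tev c (fun i => (𝓧 i).ξ (P i)) = 0).card : ℝ) ≤ C * (M : ℝ) ^ (∑ i, ρ i) := by
  induction n with
  | zero =>
    refine ⟨0, le_rfl, fun M _ => ?_⟩
    have hne : ∀ p : Fin 0 → Fin 2 → K, tev c p ≠ 0 := by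
      intro p h
      apply hc
      rw [tev_zero_dim] at h
      funext e
      have : e = (fun i => i.elim0) := by funext i; exact i.elim0
      rw [this, h]
      rfl
    have hemp : (Fintype.piFinset fun i => S i M).filter (fun P =>
        tev c (fun i => (𝓧 i).ξ (P i)) = 0) = ∅ := by
      apply Finset.filter_false_of_mem
      intro P _
      exact hne _
    rw [hemp]
    simp
  | succ n ih =>
    obtain ⟨k, hk⟩ := exists_sl_ne_zero hc
    obtain ⟨C1, hC1, h1⟩ := ih (G := fun i => G i.succ) (fun i => 𝓧 i.succ) (fun i => S i.succ)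
      (fun i => ρ i.succ) (fun i => hρ i.succ) (fun i => hS i.succ) (sl c k) hk
    obtain ⟨C2, hC2, h2⟩ := exists_card_le (fun i : Fin n => 𝓧 i.succ) (fun i => S i.succ)
      (fun i => ρ i.succ) (fun i => hS i.succ)
    obtain ⟨C0, hC0, h0⟩ := (hS 0).card
    refine ⟨C0 * C1 + 2 * D * C2, by positivity, fun M hM => ?_⟩
    have hM1 : (1 : ℝ) ≤ M := by exact_mod_cast hM
    set T := Fintype.piFinset (fun i : Fin n => S i.succ M) with hT
    set Z := T.filter (fun P => tev (sl c k) (fun i => (𝓧 i.succ).ξ (P i)) = 0) with hZ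
    -- the count
    have hcount : (((Fintype.piFinset fun i => S i M).filter fun P =>
        tev c (fun i => (𝓧 i).ξ (P i)) = 0).card : ℝ) ≤
        ((S 0 M).card : ℝ) * (Z.card : ℝ) + 2 * D * (T.card : ℝ) := by
      have hnat : ((Fintype.piFinset fun i => S i M).filter fun P =>
        tev c (fun i => (𝓧 i).ξ (P i)) = 0).card ≤ (S 0 M).card * Z.card + 2 * D * T.card := by
        rw [Finset.card_filter, sum_piFinset_succ (fun i => S i M)
          (fun P => if tev c (fun i => (𝓧 i).ξ (P i)) = 0 then 1 else 0), Finset.sum_comm]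
        have hval : ∀ (x : G 0) (P : ∀ i : Fin n, G i.succ),
            tev c (fun i => (𝓧 i).ξ ((Fin.cons x P : ∀ i, G i) i)) =
              bf (fun k => tev (sl c k) (fun i => (𝓧 i.succ).ξ (P i))) ((𝓧 0).ξ x) := by
          intro x P
          rw [← tev_succ]
          congr 1
          funext i
          refine Fin.cases ?_ ?_ i
          · rfl
          · intro j; rfl
        have hterm : ∀ P ∈ T, (∑ x ∈ S 0 M,
            if tev c (fun i => (𝓧 i).ξ ((Fin.cons x P : ∀ i, G i) i)) = 0 then 1 else 0) ≤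
            (if tev (sl c k) (fun i => (𝓧 i.succ).ξ (P i)) = 0 then (S 0 M).card else 0) +
              2 * D := by
          intro P _
          rw [← Finset.card_filter]
          by_cases hP : tev (sl c k) (fun i => (𝓧 i.succ).ξ (P i)) = 0
          · rw [if_pos hP]
            exact (Finset.card_filter_le _ _).trans (Nat.le_add_right _ _)
          · rw [if_neg hP, zero_add]
            refine card_zeros_le (𝓧 0) (fun k => tev (sl c k) (fun i => (𝓧 i.succ).ξ (P i))) ?_ _ ?_
            · intro h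
              exact hP (congrFun h k)
            · intro x hx
              rw [Finset.mem_filter] at hx
              rw [← hval]
              exact hx.2
        refine (Finset.sum_le_sum hterm).trans ?_
        rw [Finset.sum_add_distrib, Finset.sum_const, smul_eq_mul, ← Finset.sum_filter,
          Finset.sum_const, smul_eq_mul]
        rw [mul_comm Z.card, mul_comm T.card]
      exact_mod_cast hnat
    have hT' := h2 M hM
    have hZ' := h1 M hM
    have hS0 := h0 M hM
    have hMr : (M : ℝ) ^ r ≤ (M : ℝ) ^ (ρ 0) := pow_le_pow_right₀ hM1 (hρ 0)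
    have hMr0 : (0 : ℝ) ≤ (M : ℝ) ^ r := by positivity
    rw [Fin.sum_univ_succ, pow_add]
    calc (M : ℝ) ^ r * _ ≤ (M : ℝ) ^ r *
          (((S 0 M).card : ℝ) * (Z.card : ℝ) + 2 * D * (T.card : ℝ)) :=
          mul_le_mul_of_nonneg_left hcount hMr0
      _ = ((S 0 M).card : ℝ) * ((M : ℝ) ^ r * (Z.card : ℝ)) +
          2 * D * ((M : ℝ) ^ r * (T.card : ℝ)) := by ring
      _ ≤ (C0 * (M : ℝ) ^ (ρ 0)) * (C1 * (M : ℝ) ^ (∑ i : Fin n, ρ i.succ)) +
          2 * D * ((M : ℝ) ^ (ρ 0) * (C2 * (M : ℝ) ^ (∑ i : Fin n, ρ i.succ))) := by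
          apply add_le_add
          · exact mul_le_mul hS0 hZ' (by positivity) (by positivity)
          · apply mul_le_mul_of_nonneg_left _ (by positivity)
            exact mul_le_mul hMr hT' (by positivity) (by positivity)
      _ = _ := by ring

end

end Pool.Agent.AG
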