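import Mathlib
import Pool.Agent.AG.Zero

/-! # The average of the gcd height (module Ind) -/

set_option autoImplicit false

namespace Pool.Agent.AG

section

variable {K : Type*} [Field K] {ι : Type*} {𝓟 : PlSys K ι}

lemma loc_nonneg (v : ι) {n D : ℕ} {J : Type*} (f : J → Ten K n D) (p : Fin n → Fin 2 → K) :
    0 ≤ loc 𝓟 v f p := le_max_left _ _

/-- The product of the norms of a point with one more coordinate. -/
lemma prod_nm_cons (v : ι) {n D : ℕ} (x : Fin 2 → K) (p : Fin n → Fin 2 → K) :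
    ∏ i, nm 𝓟 v ((Fin.cons x p : Fin (n + 1) → Fin 2 → K) i) ^ D =
      nm 𝓟 v x ^ D * ∏ i, nm 𝓟 v (p i) ^ D := by
  rw [Fin.prod_univ_succ]
  simp only [Fin.cons_zero, Fin.cons_succ]

/-- The pointwise inequality of the induction step. -/
theorem exists_step {n D : ℕ} {J : Type*} [Finite J] (f : J → Ten K (n + 1) D)
    (R : Ten K n D) (h0 : emb 0 R ∈ Submodule.span K (Set.range f))
    (h1 : emb (Fin.last D) R ∈ Submodule.span K (Set.range f)) :
    ∃ C : ι → ℝ, IsCst C ∧ ∀ (v : ι) (p : Fin n → Fin 2 → K), (∀ i, 0 < nm 𝓟 v (p i)) →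
      tev R p ≠ 0 → ∃ c : Fin (D + 1) → K, c ≠ 0 ∧ ∀ x : Fin 2 → K, 0 < nm 𝓟 v x →
        loc 𝓟 v f (Fin.cons x p : Fin (n + 1) → Fin 2 → K) ≤
          Real.log (C v) + loc 𝓟 v (fun jk : J × Fin (D + 1) => sl (f jk.1) jk.2) p +
            tru 𝓟 v c (max 0 (-Real.log (hval 𝓟 v R p))) x := by
  obtain ⟨C₀, hC₀, hb₀⟩ := exists_span_le 𝓟 f _ h0
  obtain ⟨C₁, hC₁, hb₁⟩ := exists_span_le 𝓟 f _ h1
  refine ⟨fun v => C₀ v * C₁ v, hC₀.mul hC₁, ?_⟩
  intro v p hp hR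
  have hP : 0 < ∏ i, nm 𝓟 v (p i) ^ D := Finset.prod_pos fun i _ => pow_pos (hp i) _
  have hC₀0 := hC₀.pos v
  have hC₁0 := hC₁.pos v
  have hC0 : 0 < C₀ v * C₁ v := mul_pos hC₀0 hC₁0
  have hC1 : 1 ≤ C₀ v * C₁ v := (hC₀.mul hC₁).1 v
  have hlC : 0 ≤ Real.log (C₀ v * C₁ v) := Real.log_nonneg hC1
  -- the value of `R`
  have hRpos : 0 < hval 𝓟 v R p := div_pos ((𝓟.av v).pos hR) hP
  -- `R` is dominated by the family
  have hRle : ∀ x : Fin 2 → K, 0 < nm 𝓟 v x → hval 𝓟 v R p ≤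
      C₀ v * C₁ v * ⨆ j, hval 𝓟 v (f j) (Fin.cons x p : Fin (n + 1) → Fin 2 → K) := by
    intro x hx
    set S := ⨆ j, hval 𝓟 v (f j) (Fin.cons x p : Fin (n + 1) → Fin 2 → K) with hS
    have hS0 : 0 ≤ S := Real.iSup_nonneg fun j => hval_nonneg 𝓟 v _ _
    have hval_emb : ∀ k : Fin (D + 1), hval 𝓟 v (emb k R)
        (Fin.cons x p : Fin (n + 1) → Fin 2 → K) =
        hval 𝓟 v R p * (𝓟.av v (x 0) ^ (k : ℕ) * 𝓟.av v (x 1) ^ (D - (k : ℕ)) /
          nm 𝓟 v x ^ D) := by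
      intro k
      rw [hval, hval, tev_emb, prod_nm_cons, map_mul, map_mul, map_pow, map_pow]
      field_simp
    rcases le_total (𝓟.av v (x 0)) (𝓟.av v (x 1)) with hx01 | hx01
    · have h2 := hb₀ v (Fin.cons x p : Fin (n + 1) → Fin 2 → K)
      have hnm : nm 𝓟 v x = 𝓟.av v (x 1) := max_eq_right hx01
      rw [hval_emb] at h2
      rw [Fin.val_zero, pow_zero, one_mul, Nat.sub_zero, hnm, div_self (by
        rw [← hnm]; exact (pow_pos hx _).ne'), mul_one] at h2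
      refine h2.trans ?_
      rw [← hS]
      apply mul_le_mul_of_nonneg_right _ hS0
      exact le_mul_of_one_le_right hC₀0.le (hC₁.1 v)
    · have h2 := hb₁ v (Fin.cons x p : Fin (n + 1) → Fin 2 → K)
      have hnm : nm 𝓟 v x = 𝓟.av v (x 0) := max_eq_left hx01
      rw [hval_emb] at h2
      rw [Fin.val_last, Nat.sub_self, pow_zero, mul_one, hnm, div_self (by
        rw [← hnm]; exact (pow_pos hx _).ne'), mul_one] at h2
      refine h2.trans ?_
      rw [← hS]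
      apply mul_le_mul_of_nonneg_right _ hS0
      exact le_mul_of_one_le_left hC₁0.le (hC₀.1 v)
  -- the supremum over all slices
  set g : J × Fin (D + 1) → ℝ := fun jk => hval 𝓟 v (sl (f jk.1) jk.2) p with hg
  have hJ : Nonempty (J × Fin (D + 1)) := by
    by_contra hemp
    have hJe : IsEmpty J := by
      rw [not_nonempty_iff] at hemp
      constructor
      intro j
      exact hemp.false (j, 0)
    have h2 := hRle ![0, 1] (by
      unfold nm
      simp)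
    rw [Real.iSup_of_isEmpty, mul_zero] at h2
    linarith
  obtain ⟨⟨j₀, k₀⟩, hmax⟩ := Finite.exists_max g
  have hsupg : (⨆ jk, g jk) = g (j₀, k₀) :=
    le_antisymm (ciSup_le hmax) (le_ciSup (Set.finite_range g).bddAbove _)
  set c : Fin (D + 1) → K := fun k => tev (sl (f j₀) k) p with hc
  have hsupc : (⨆ k, 𝓟.av v (c k)) = 𝓟.av v (c k₀) := by
    apply le_antisymm
    · apply ciSup_le
      intro k
      have h2 := hmax (j₀, k)
      rw [hg] at h2
      simp only [hval] at h2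
      rw [div_le_div_iff_of_pos_right hP] at h2
      exact h2
    · exact le_ciSup (Set.finite_range fun k => 𝓟.av v (c k)).bddAbove k₀
  -- hval of `f j` and the coefficients
  have hvf : ∀ (j : J) (x : Fin 2 → K), hval 𝓟 v (f j)
      (Fin.cons x p : Fin (n + 1) → Fin 2 → K) =
      𝓟.av v (bf (fun k => tev (sl (f j) k) p) x) / (nm 𝓟 v x ^ D * ∏ i, nm 𝓟 v (p i) ^ D) := by
    intro j x
    rw [hval, tev_succ, prod_nm_cons]
  have hck0 : c k₀ ≠ 0 := by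
    intro h
    -- all slices vanish at `p`
    have hz : ∀ j k, tev (sl (f j) k) p = 0 := by
      intro j k
      have h2 := hmax (j, k)
      rw [hg] at h2
      simp only [hval] at h2
      rw [div_le_div_iff_of_pos_right hP] at h2
      have h3 : 𝓟.av v (tev (sl (f j₀) k₀) p) = 0 := by
        rw [show tev (sl (f j₀) k₀) p = c k₀ from rfl, h, map_zero]
      rw [h3] at h2
      exact (𝓟.av v).eq_zero.mp (le_antisymm h2 ((𝓟.av v).nonneg _))
    have h2 := hRle ![0, 1] (by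
      unfold nm
      simp)
    have h3 : ∀ j, hval 𝓟 v (f j) (Fin.cons ![0, 1] p : Fin (n + 1) → Fin 2 → K) = 0 := by
      intro j
      rw [hvf]
      have : bf (fun k => tev (sl (f j) k) p) ![0, 1] = 0 := by
        rw [bf]
        apply Finset.sum_eq_zero
        intro k _
        rw [hz, zero_mul]
      rw [this, map_zero, zero_div]
    simp only [h3] at h2
    have h4 : (⨆ _j : J, (0 : ℝ)) = 0 := Real.iSup_const_zero
    rw [h4, mul_zero] at h2
    linarith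
  have hcpos : 0 < 𝓟.av v (c k₀) := (𝓟.av v).pos hck0
  refine ⟨c, fun h => hck0 (congrFun h k₀), ?_⟩
  intro x hx
  have hxD : 0 < nm 𝓟 v x ^ D := pow_pos hx _
  set S := ⨆ j, hval 𝓟 v (f j) (Fin.cons x p : Fin (n + 1) → Fin 2 → K) with hS
  set m := max 0 (-Real.log (hval 𝓟 v R p)) with hm
  have hS1 : hval 𝓟 v R p ≤ C₀ v * C₁ v * S := hRle x hx
  have hS0 : 0 < S := by
    by_contra! hcon
    have : C₀ v * C₁ v * S ≤ 0 := mul_nonpos_of_nonneg_of_nonpos hC0.le hcon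
    linarith
  -- the lower bound by the one-variable value
  have hS2 : bval 𝓟 v c x * g (j₀, k₀) ≤ S := by
    have h2 : bval 𝓟 v c x * g (j₀, k₀) =
        hval 𝓟 v (f j₀) (Fin.cons x p : Fin (n + 1) → Fin 2 → K) := by
      rw [hvf, bval, hsupc]
      change 𝓟.av v (bf c x) / (𝓟.av v (c k₀) * nm 𝓟 v x ^ D) *
        (𝓟.av v (c k₀) / ∏ i, nm 𝓟 v (p i) ^ D) = 𝓟.av v (bf c x) / _
      field_simp
    rw [h2]
    exact le_ciSup (Set.finite_range fun j =>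
      hval 𝓟 v (f j) (Fin.cons x p : Fin (n + 1) → Fin 2 → K)).bddAbove j₀
  have hgpos : 0 < g (j₀, k₀) := div_pos hcpos hP
  have hloc' : -Real.log (g (j₀, k₀)) ≤
      loc 𝓟 v (fun jk : J × Fin (D + 1) => sl (f jk.1) jk.2) p := by
    have h2 : loc 𝓟 v (fun jk : J × Fin (D + 1) => sl (f jk.1) jk.2) p =
        max 0 (-Real.log (⨆ jk, g jk)) := rfl
    rw [h2, hsupg]
    exact le_max_right _ _
  have hloc'0 := loc_nonneg (𝓟 := 𝓟) v (fun jk : J × Fin (D + 1) => sl (f jk.1) jk.2) p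
  have htru0 : 0 ≤ tru 𝓟 v c m x := le_max_left _ _
  have hloc : loc 𝓟 v f (Fin.cons x p : Fin (n + 1) → Fin 2 → K) =
      max 0 (-Real.log S) := rfl
  rw [hloc]
  apply max_le
  · linarith
  · rcases le_total (Real.exp (-m)) (bval 𝓟 v c x) with hcase | hcase
    · have hb0 : 0 < bval 𝓟 v c x := (Real.exp_pos _).trans_le hcase
      have h2 : -Real.log (bval 𝓟 v c x) ≤ tru 𝓟 v c m x := by
        rw [tru, max_eq_left hcase]
        exact le_max_right _ _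
      have h3 := Real.log_le_log (mul_pos hb0 hgpos) hS2
      rw [Real.log_mul hb0.ne' hgpos.ne'] at h3
      linarith
    · have h2 : m ≤ tru 𝓟 v c m x := by
        rw [tru, max_eq_right hcase, Real.log_exp, neg_neg]
        exact le_max_right _ _
      have h3 := Real.log_le_log hRpos hS1
      rw [Real.log_mul hC0.ne' hS0.ne'] at h3
      have h4 : -Real.log (hval 𝓟 v R p) ≤ m := le_max_right _ _
      linarith

/-- The bound for one point. -/
theorem exists_point_le {n D : ℕ} {J : Type*} [Finite J] (f : J → Ten K n D) {G : Fin n → Type*}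
    [∀ i, AddCommGroup (G i)] (𝓧 : ∀ i, XSys 𝓟 (G i)) (S : ∀ i, ℕ → Finset (G i))
    (ρ : Fin n → ℕ) {θ : ℝ} (hS : ∀ i, Bx (𝓧 i) (S i) (ρ i) θ) :
    ∃ C : ℝ, 0 ≤ C ∧ ∀ M : ℕ, 1 ≤ M → ∀ P ∈ Fintype.piFinset (fun i => S i M),
      ∀ V : Finset ι, ∑ v ∈ V, 𝓟.w v * loc 𝓟 v f (fun i => (𝓧 i).ξ (P i)) ≤
        C * (M : ℝ) ^ 2 := by
  classical
  have := Fintype.ofFinite J
  have h1 := fun i => (hS i).height
  choose B hB0 hB using h1
  have h2 := fun j => exists_sum_neg_log_le 𝓟 (f j)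
  choose κ hκ0 hκ using h2
  refine ⟨D * ∑ i, B i + ∑ j, κ j, add_nonneg (mul_nonneg (Nat.cast_nonneg _)
    (Finset.sum_nonneg fun i _ => hB0 i)) (Finset.sum_nonneg fun j _ => hκ0 j), ?_⟩
  intro M hM P hP V
  have hMr : (1 : ℝ) ≤ M := by exact_mod_cast hM
  have hM2 : (1 : ℝ) ≤ (M : ℝ) ^ 2 := one_le_pow₀ hMr
  have hsB : 0 ≤ ∑ i, B i := Finset.sum_nonneg fun i _ => hB0 i
  have hsκ : 0 ≤ ∑ j, κ j := Finset.sum_nonneg fun j _ => hκ0 j
  by_cases hz : ∀ j, tev (f j) (fun i => (𝓧 i).ξ (P i)) = 0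
  · have h3 : ∀ v, loc 𝓟 v f (fun i => (𝓧 i).ξ (P i)) = 0 := by
      intro v
      have h4 : ∀ j, hval 𝓟 v (f j) (fun i => (𝓧 i).ξ (P i)) = 0 := by
        intro j
        rw [hval, hz j, map_zero, zero_div]
      rw [loc]
      simp only [h4]
      rw [Real.iSup_const_zero, Real.log_zero, neg_zero, max_self]
    simp only [h3, mul_zero, Finset.sum_const_zero]
    positivity
  · push Not at hz
    obtain ⟨j, hj⟩ := hz
    have h3 := hκ j (fun i => (𝓧 i).ξ (P i)) (fun i => (𝓧 i).H.h (P i))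
      (fun v i => (𝓧 i).one_le_nm v (P i)) (fun i => (𝓧 i).ξ_fin (P i))
      (fun i V hV => (𝓧 i).ht (P i) V hV) hj V
    have h4 : ∀ v, loc 𝓟 v f (fun i => (𝓧 i).ξ (P i)) ≤
        max 0 (-Real.log (hval 𝓟 v (f j) (fun i => (𝓧 i).ξ (P i)))) := by
      intro v
      unfold loc
      apply max_le_max le_rfl
      apply neg_le_neg
      apply Real.log_le_log
      · exact div_pos ((𝓟.av v).pos hj) (Finset.prod_pos fun i _ =>
          pow_pos (zero_lt_one.trans_le ((𝓧 i).one_le_nm v (P i))) _)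
      · exact le_ciSup (Set.finite_range fun j =>
          hval 𝓟 v (f j) (fun i => (𝓧 i).ξ (P i))).bddAbove j
    have h5 : ∑ i, (𝓧 i).H.h (P i) ≤ (∑ i, B i) * (M : ℝ) ^ 2 := by
      rw [Finset.sum_mul]
      exact Finset.sum_le_sum fun i _ => hB i M hM (P i) (Fintype.mem_piFinset.mp hP i)
    calc ∑ v ∈ V, 𝓟.w v * loc 𝓟 v f (fun i => (𝓧 i).ξ (P i)) ≤
          ∑ v ∈ V, 𝓟.w v * max 0 (-Real.log (hval 𝓟 v (f j) (fun i => (𝓧 i).ξ (P i)))) :=
          Finset.sum_le_sum fun v _ => mul_le_mul_of_nonneg_left (h4 v) (𝓟.w_nonneg v)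
      _ ≤ D * ∑ i, (𝓧 i).H.h (P i) + κ j := h3
      _ ≤ D * ((∑ i, B i) * (M : ℝ) ^ 2) + ∑ j, κ j := by
          gcongr
          exact Finset.single_le_sum (f := κ) (fun j _ => hκ0 j) (Finset.mem_univ j)
      _ ≤ D * ((∑ i, B i) * (M : ℝ) ^ 2) + (∑ j, κ j) * (M : ℝ) ^ 2 := by
          gcongr
          exact le_mul_of_one_le_right hsκ hM2
      _ = _ := by ring

theorem main_ind {r : ℕ} {θ : ℝ} (hθ : 0 ≤ θ) (hrθ : 2 ≤ r + θ) {D : ℕ} {n : ℕ}
    {G : Fin n → Type*} [∀ i, AddCommGroup (G i)] (𝓧 : ∀ i, XSys 𝓟 (G i))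
    (S : ∀ i, ℕ → Finset (G i)) (ρ : Fin n → ℕ) (hρ : ∀ i, r ≤ ρ i)
    (hS : ∀ i, Bx (𝓧 i) (S i) (ρ i) θ) {J : Type*} [Finite J] (f : J → Ten K n D)
    (hf : Big f) : ∃ C : ℝ, 0 ≤ C ∧ ∀ M : ℕ, 1 ≤ M → ∀ V : Finset ι,
      ∑ P ∈ Fintype.piFinset (fun i => S i M),
        ∑ v ∈ V, 𝓟.w v * loc 𝓟 v f (fun i => (𝓧 i).ξ (P i)) ≤
          C * (M : ℝ) ^ ((∑ i, ρ i : ℕ) + θ) := by
  classical
  induction n generalizing J with
  | zero =>
    obtain ⟨C, hC0, hC⟩ := exists_point_le f 𝓧 S ρ hS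
    obtain ⟨j, hj⟩ := hf.exists_ne_zero
    have h1 := exists_sum_neg_log_le 𝓟 (f j)
    obtain ⟨κ, hκ0, hκ⟩ := h1
    have hj' : f j (fun i => i.elim0) ≠ 0 := by
      intro h
      apply hj
      funext e
      rw [show e = fun i => i.elim0 from funext fun i => i.elim0]
      exact h
    refine ⟨κ, hκ0, ?_⟩
    intro M hM V
    have hMr : (1 : ℝ) ≤ M := by exact_mod_cast hM
    have hMp : (1 : ℝ) ≤ (M : ℝ) ^ (((∑ i, ρ i : ℕ) : ℝ) + θ) := by
      apply Real.one_le_rpow hMr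
      positivity
    have h2 : ∀ P ∈ Fintype.piFinset (fun i => S i M),
        ∑ v ∈ V, 𝓟.w v * loc 𝓟 v f (fun i => (𝓧 i).ξ (P i)) ≤ κ := by
      intro P _
      have h3 := hκ (fun i => (𝓧 i).ξ (P i)) (fun i => (𝓧 i).H.h (P i))
        (fun v i => i.elim0) (fun i => i.elim0) (fun i => i.elim0)
        (by rw [tev_zero_dim]; exact hj') V
      rw [Finset.univ_eq_empty, Finset.sum_empty, mul_zero, zero_add] at h3
      refine le_trans (Finset.sum_le_sum fun v _ => mul_le_mul_of_nonneg_left ?_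
        (𝓟.w_nonneg v)) h3
      unfold loc
      apply max_le_max le_rfl
      apply neg_le_neg
      apply Real.log_le_log
      · refine div_pos ((𝓟.av v).pos ?_) (Finset.prod_pos fun i _ => i.elim0)
        rw [tev_zero_dim]; exact hj'
      · exact le_ciSup (Set.finite_range fun j =>
          hval 𝓟 v (f j) (fun i => (𝓧 i).ξ (P i))).bddAbove j
    have h4 : (Fintype.piFinset (fun i => S i M)).card = 1 := by
      rw [Fintype.card_piFinset, Finset.univ_eq_empty, Finset.prod_empty]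
    calc _ ≤ ∑ _P ∈ Fintype.piFinset (fun i => S i M), κ := Finset.sum_le_sum h2
      _ = κ := by rw [Finset.sum_const, h4, one_smul]
      _ ≤ _ := le_mul_of_one_le_right hκ0 hMp
  | succ n ih =>
    obtain ⟨R, hR, h0, h1⟩ := hf.exists_R
    obtain ⟨C₁, hC₁0, hih⟩ := ih (fun i => 𝓧 i.succ) (fun i => S i.succ) (fun i => ρ i.succ)
      (fun i => hρ i.succ) (fun i => hS i.succ) _ hf.sl
    obtain ⟨C₂, hC₂, hstep⟩ := exists_step (𝓟 := 𝓟) f R h0 h1
    obtain ⟨κ₂, hκ₂0, hκ₂⟩ := exists_sum_log_le 𝓟 hC₂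
    obtain ⟨C₃, hC₃0, hpt⟩ := exists_point_le f 𝓧 S ρ hS
    obtain ⟨C₄, hC₄0, hzero⟩ := exists_zeros_le (r := r) (fun i => 𝓧 i.succ)
      (fun i => S i.succ) (fun i => ρ i.succ) (fun i => hρ i.succ) (fun i => hS i.succ) R hR
    obtain ⟨C₅, hC₅0, hcard⟩ := exists_card_le (fun i => 𝓧 i.succ) (fun i => S i.succ)
      (fun i => ρ i.succ) (fun i => hS i.succ)
    obtain ⟨C₆, hC₆0, hcard0⟩ := (hS 0).card
    obtain ⟨κ₇, hκ₇0, hκ₇⟩ := exists_sum_neg_log_le 𝓟 R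
    have hht := fun i : Fin n => (hS i.succ).height
    choose B hB0 hB using hht
    have hsB : 0 ≤ ∑ i, B i := Finset.sum_nonneg fun i _ => hB0 i
    set A : ℝ := D * (∑ i, B i) + κ₇ with hA
    have hA0 : 0 ≤ A := by positivity
    obtain ⟨C₈, hC₈0, hone⟩ := (hS 0).one D A hA0
    refine ⟨C₆ * κ₂ * C₅ + C₆ * C₁ + C₈ * C₅ + C₆ * C₄ * C₃, by positivity, ?_⟩
    intro M hM V
    have hMr : (1 : ℝ) ≤ M := by exact_mod_cast hM
    have hM0 : (0 : ℝ) < M := by linarith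
    have hM2 : (1 : ℝ) ≤ (M : ℝ) ^ 2 := one_le_pow₀ hMr
    set ρ' : ℕ := ∑ i : Fin n, ρ i.succ with hρ'
    have hρsum : ∑ i, ρ i = ρ 0 + ρ' := by rw [Fin.sum_univ_succ]
    set 𝒮 : Finset (∀ i : Fin n, G i.succ) := Fintype.piFinset (fun i : Fin n => S i.succ M)
      with h𝒮
    set q : (∀ i : Fin n, G i.succ) → Fin n → Fin 2 → K :=
      fun P i => (𝓧 i.succ).ξ (P i) with hq
    have hcons : ∀ (x : G 0) (P : ∀ i : Fin n, G i.succ),
        (fun i => (𝓧 i).ξ ((Fin.cons x P : ∀ i, G i) i)) =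
          (Fin.cons ((𝓧 0).ξ x) (q P) : Fin (n + 1) → Fin 2 → K) := by
      intro x P
      funext i
      refine Fin.cases ?_ (fun i => ?_) i
      · rfl
      · rfl
    rw [sum_piFinset_succ, Finset.sum_comm]
    change ∑ P ∈ 𝒮, _ ≤ _
    set Y : ℝ := (M : ℝ) ^ (((∑ i, ρ i : ℕ) : ℝ) + θ) with hY
    have hYs : Y = (M : ℝ) ^ (ρ 0) * (M : ℝ) ^ ((ρ' : ℝ) + θ) := by
      rw [hY, hρsum, ← Real.rpow_natCast, ← Real.rpow_add hM0]
      congr 1
      push_cast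
      ring
    have hYs' : Y = (M : ℝ) ^ ρ' * (M : ℝ) ^ ((ρ 0 : ℝ) + θ) := by
      rw [hY, hρsum, ← Real.rpow_natCast, ← Real.rpow_add hM0]
      congr 1
      push_cast
      ring
    have hθ1 : (1 : ℝ) ≤ (M : ℝ) ^ θ := Real.one_le_rpow hMr hθ
    have hYge : (M : ℝ) ^ (ρ 0) * (M : ℝ) ^ ρ' ≤ Y := by
      rw [hYs, Real.rpow_add hM0, Real.rpow_natCast, ← mul_assoc]
      exact le_mul_of_one_le_right (by positivity) hθ1
    -- the sum over good points
    set good := 𝒮.filter fun P => tev R (q P) ≠ 0 with hgood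
    set bad := 𝒮.filter fun P => ¬ tev R (q P) ≠ 0 with hbad
    rw [← Finset.sum_filter_add_sum_filter_not 𝒮 (fun P => tev R (q P) ≠ 0)]
    have hgoodsum : ∑ P ∈ good, ∑ x ∈ S 0 M, ∑ v ∈ V, 𝓟.w v * loc 𝓟 v f
        (fun i => (𝓧 i).ξ ((Fin.cons x P : ∀ i, G i) i)) ≤
        (C₆ * κ₂ * C₅ + C₆ * C₁ + C₈ * C₅) * Y := by
      have hP : ∀ P ∈ good, ∑ x ∈ S 0 M, ∑ v ∈ V, 𝓟.w v * loc 𝓟 v f
          (fun i => (𝓧 i).ξ ((Fin.cons x P : ∀ i, G i) i)) ≤
          C₆ * (M : ℝ) ^ (ρ 0) * κ₂ + C₆ * (M : ℝ) ^ (ρ 0) *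
            (∑ v ∈ V, 𝓟.w v * loc 𝓟 v (fun jk : J × Fin (D + 1) => sl (f jk.1) jk.2) (q P)) +
          C₈ * (M : ℝ) ^ ((ρ 0 : ℝ) + θ) := by
        intro P hP
        have hP1 := (Finset.mem_filter.mp hP).1
        have hP2 := (Finset.mem_filter.mp hP).2
        have hpos : ∀ v i, 0 < nm 𝓟 v (q P i) := fun v i =>
          zero_lt_one.trans_le ((𝓧 i.succ).one_le_nm v (P i))
        have h3 := fun v => hstep v (q P) (hpos v) hP2
        choose c hc hcx using h3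
        set m : ι → ℝ := fun v => max 0 (-Real.log (hval 𝓟 v R (q P))) with hm
        have hmsum : ∑ v ∈ V, 𝓟.w v * m v ≤ A * (M : ℝ) ^ 2 := by
          have h4 := hκ₇ (q P) (fun i => (𝓧 i.succ).H.h (P i))
            (fun v i => (𝓧 i.succ).one_le_nm v (P i)) (fun i => (𝓧 i.succ).ξ_fin (P i))
            (fun i V hV => (𝓧 i.succ).ht (P i) V hV) hP2 V
          have h5 : ∑ i, (𝓧 i.succ).H.h (P i) ≤ (∑ i, B i) * (M : ℝ) ^ 2 := by
            rw [Finset.sum_mul]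
            exact Finset.sum_le_sum fun i _ => hB i M hM (P i) (Fintype.mem_piFinset.mp hP1 i)
          calc _ ≤ D * ∑ i, (𝓧 i.succ).H.h (P i) + κ₇ := h4
            _ ≤ D * ((∑ i, B i) * (M : ℝ) ^ 2) + κ₇ * (M : ℝ) ^ 2 := by
                gcongr
                exact le_mul_of_one_le_right hκ₇0 hM2
            _ = _ := by rw [hA]; ring
        have h6 := hone M hM V c m hc (fun v => le_max_left _ _) hmsum
        calc ∑ x ∈ S 0 M, ∑ v ∈ V, 𝓟.w v * loc 𝓟 v f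
              (fun i => (𝓧 i).ξ ((Fin.cons x P : ∀ i, G i) i)) ≤
            ∑ x ∈ S 0 M, ∑ v ∈ V, 𝓟.w v * (Real.log (C₂ v) +
              loc 𝓟 v (fun jk : J × Fin (D + 1) => sl (f jk.1) jk.2) (q P) +
              tru 𝓟 v (c v) (m v) ((𝓧 0).ξ x)) := by
              refine Finset.sum_le_sum fun x _ => Finset.sum_le_sum fun v _ =>
                mul_le_mul_of_nonneg_left ?_ (𝓟.w_nonneg v)
              rw [hcons]
              exact hcx v _ (zero_lt_one.trans_le ((𝓧 0).one_le_nm v x))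
          _ = (S 0 M).card * (∑ v ∈ V, 𝓟.w v * Real.log (C₂ v)) + (S 0 M).card *
              (∑ v ∈ V, 𝓟.w v *
                loc 𝓟 v (fun jk : J × Fin (D + 1) => sl (f jk.1) jk.2) (q P)) +
              ∑ x ∈ S 0 M, ∑ v ∈ V, 𝓟.w v * tru 𝓟 v (c v) (m v) ((𝓧 0).ξ x) := by
              simp only [mul_add, Finset.sum_add_distrib, Finset.sum_const, nsmul_eq_mul]
          _ ≤ _ := by
              have h7 := hcard0 M hM
              have h8 := hκ₂ V
              have h9 : 0 ≤ ∑ v ∈ V, 𝓟.w v *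
                loc 𝓟 v (fun jk : J × Fin (D + 1) => sl (f jk.1) jk.2) (q P) :=
                Finset.sum_nonneg fun v _ => mul_nonneg (𝓟.w_nonneg v) (loc_nonneg v _ _)
              have h10 : 0 ≤ ∑ v ∈ V, 𝓟.w v * Real.log (C₂ v) :=
                Finset.sum_nonneg fun v _ =>
                  mul_nonneg (𝓟.w_nonneg v) (Real.log_nonneg (hC₂.1 v))
              exact add_le_add (add_le_add (mul_le_mul h7 h8 h10 (by positivity))
                (mul_le_mul_of_nonneg_right h7 h9)) h6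
      have hgc : (good.card : ℝ) ≤ C₅ * (M : ℝ) ^ ρ' := by
        refine le_trans ?_ (hcard M hM)
        exact_mod_cast Finset.card_filter_le _ _
      have hgs : ∑ P ∈ good, ∑ v ∈ V, 𝓟.w v *
          loc 𝓟 v (fun jk : J × Fin (D + 1) => sl (f jk.1) jk.2) (q P) ≤
          C₁ * (M : ℝ) ^ ((ρ' : ℝ) + θ) := by
        refine le_trans ?_ (hih M hM V)
        exact Finset.sum_le_sum_of_subset_of_nonneg (Finset.filter_subset _ _)
          fun P _ _ => Finset.sum_nonneg fun v _ => mul_nonneg (𝓟.w_nonneg v) (loc_nonneg v _ _)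
      calc _ ≤ ∑ P ∈ good, (C₆ * (M : ℝ) ^ (ρ 0) * κ₂ + C₆ * (M : ℝ) ^ (ρ 0) *
            (∑ v ∈ V, 𝓟.w v * loc 𝓟 v (fun jk : J × Fin (D + 1) => sl (f jk.1) jk.2) (q P)) +
          C₈ * (M : ℝ) ^ ((ρ 0 : ℝ) + θ)) := Finset.sum_le_sum hP
        _ = good.card * (C₆ * (M : ℝ) ^ (ρ 0) * κ₂) + C₆ * (M : ℝ) ^ (ρ 0) *
            (∑ P ∈ good, ∑ v ∈ V, 𝓟.w v *
              loc 𝓟 v (fun jk : J × Fin (D + 1) => sl (f jk.1) jk.2) (q P)) +
            good.card * (C₈ * (M : ℝ) ^ ((ρ 0 : ℝ) + θ)) := by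
            rw [Finset.sum_add_distrib, Finset.sum_add_distrib, Finset.sum_const,
              Finset.sum_const, nsmul_eq_mul, nsmul_eq_mul, Finset.mul_sum]
        _ ≤ (C₅ * (M : ℝ) ^ ρ') * (C₆ * (M : ℝ) ^ (ρ 0) * κ₂) + C₆ * (M : ℝ) ^ (ρ 0) *
            (C₁ * (M : ℝ) ^ ((ρ' : ℝ) + θ)) +
            (C₅ * (M : ℝ) ^ ρ') * (C₈ * (M : ℝ) ^ ((ρ 0 : ℝ) + θ)) := by
            gcongr
        _ = C₆ * κ₂ * C₅ * ((M : ℝ) ^ (ρ 0) * (M : ℝ) ^ ρ') + C₆ * C₁ * Y + C₈ * C₅ * Y := by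
            have e1 : C₆ * C₁ * Y = C₆ * C₁ * ((M : ℝ) ^ (ρ 0) * (M : ℝ) ^ ((ρ' : ℝ) + θ)) := by
              rw [← hYs]
            have e2 : C₈ * C₅ * Y = C₈ * C₅ * ((M : ℝ) ^ ρ' * (M : ℝ) ^ ((ρ 0 : ℝ) + θ)) := by
              rw [← hYs']
            rw [e1, e2]
            ring
        _ ≤ C₆ * κ₂ * C₅ * Y + C₆ * C₁ * Y + C₈ * C₅ * Y := by
            gcongr
        _ = _ := by ring
    have hbadsum : ∑ P ∈ bad, ∑ x ∈ S 0 M, ∑ v ∈ V, 𝓟.w v * loc 𝓟 v f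
        (fun i => (𝓧 i).ξ ((Fin.cons x P : ∀ i, G i) i)) ≤ C₆ * C₄ * C₃ * Y := by
      have h3 : ∀ P ∈ bad, ∀ x ∈ S 0 M, ∑ v ∈ V, 𝓟.w v * loc 𝓟 v f
          (fun i => (𝓧 i).ξ ((Fin.cons x P : ∀ i, G i) i)) ≤ C₃ * (M : ℝ) ^ 2 := by
        intro P hP x hx
        apply hpt M hM
        rw [Fintype.mem_piFinset]
        intro i
        refine Fin.cases ?_ (fun i => ?_) i
        · exact hx
        · exact Fintype.mem_piFinset.mp (Finset.mem_filter.mp hP).1 i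
      have h4 : (M : ℝ) ^ r * (bad.card : ℝ) ≤ C₄ * (M : ℝ) ^ ρ' := by
        have h5 := hzero M hM
        have e : bad = (Fintype.piFinset fun i : Fin n => S i.succ M).filter
            fun P => tev R (fun i => (𝓧 i.succ).ξ (P i)) = 0 := by
          rw [hbad]
          ext P
          simp only [Finset.mem_filter, not_not, h𝒮, hq]
        rw [e]
        exact h5
      have h5 : (M : ℝ) ^ 2 ≤ (M : ℝ) ^ r * (M : ℝ) ^ θ := by
        rw [← Real.rpow_natCast M r, ← Real.rpow_add hM0, ← Real.rpow_natCast]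
        apply Real.rpow_le_rpow_of_exponent_le hMr
        exact_mod_cast hrθ
      calc _ ≤ ∑ P ∈ bad, ∑ x ∈ S 0 M, C₃ * (M : ℝ) ^ 2 :=
            Finset.sum_le_sum fun P hP => Finset.sum_le_sum fun x hx => h3 P hP x hx
        _ = bad.card * ((S 0 M).card * (C₃ * (M : ℝ) ^ 2)) := by
            simp only [Finset.sum_const, nsmul_eq_mul]
        _ ≤ bad.card * ((C₆ * (M : ℝ) ^ (ρ 0)) *
              (C₃ * ((M : ℝ) ^ r * (M : ℝ) ^ θ))) := by
            gcongr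
            exact hcard0 M hM
        _ = C₆ * C₃ * (M : ℝ) ^ (ρ 0) * (M : ℝ) ^ θ * ((M : ℝ) ^ r * bad.card) := by ring
        _ ≤ C₆ * C₃ * (M : ℝ) ^ (ρ 0) * (M : ℝ) ^ θ * (C₄ * (M : ℝ) ^ ρ') := by
            gcongr
        _ = _ := by
            rw [hYs, Real.rpow_add hM0, Real.rpow_natCast]
            ring
    calc _ ≤ (C₆ * κ₂ * C₅ + C₆ * C₁ + C₈ * C₅) * Y + C₆ * C₄ * C₃ * Y :=
          add_le_add hgoodsum hbadsum
      _ = _ := by ring

end

end Pool.Agent.AG
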