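import Mathlib
import Pool.Agent.AG.Interp

/-! # The one-variable average (module OneVar) -/

set_option autoImplicit false

open Pool.Agent.H7.Vojta (HtSys box level level_mono level_nonneg close_count mem_box card_box)

namespace Pool.Agent.AG

lemma sum_min_le_aux (x : ℝ) (hx : 0 < x) (I : ℕ) :
    ∑ i ∈ Finset.range I, min ((4 : ℝ) ^ i) (x ^ 3 / 2 ^ i) ≤
      6 * x ^ 2 * ((2 : ℝ) ^ I / (x + 2 ^ I)) := by
  induction I with
  | zero =>
    rw [Finset.sum_range_zero]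
    positivity
  | succ I ih =>
    rw [Finset.sum_range_succ]
    obtain ⟨y, hy⟩ : ∃ y : ℝ, y = 2 ^ I := ⟨_, rfl⟩
    have hy0 : 0 < y := by rw [hy]; positivity
    have e4 : (4 : ℝ) ^ I = y ^ 2 := by
      rw [hy, ← pow_mul, mul_comm, pow_mul]
      norm_num
    have e2 : (2 : ℝ) ^ (I + 1) = 2 * y := by rw [hy, pow_succ, mul_comm]
    rw [← hy] at ih
    rw [e4, ← hy, e2]
    have key : min (y ^ 2) (x ^ 3 / y) ≤
        6 * x ^ 2 * (2 * y / (x + 2 * y)) - 6 * x ^ 2 * (y / (x + y)) := by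
      have e : 6 * x ^ 2 * (2 * y / (x + 2 * y)) - 6 * x ^ 2 * (y / (x + y)) =
          6 * x ^ 3 * y / ((x + 2 * y) * (x + y)) := by
        field_simp
        ring
      rw [e, le_div_iff₀ (by positivity)]
      rcases le_total y x with hyx | hyx
      · have h1 : min (y ^ 2) (x ^ 3 / y) ≤ y ^ 2 := min_le_left _ _
        calc min (y ^ 2) (x ^ 3 / y) * ((x + 2 * y) * (x + y)) ≤
              y ^ 2 * ((x + 2 * y) * (x + y)) :=
              mul_le_mul_of_nonneg_right h1 (by positivity)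
          _ ≤ y ^ 2 * ((x + 2 * x) * (x + x)) := by gcongr
          _ = 6 * x ^ 2 * y * y := by ring
          _ ≤ 6 * x ^ 2 * y * x := by gcongr
          _ = _ := by ring
      · have h1 : min (y ^ 2) (x ^ 3 / y) ≤ x ^ 3 / y := min_le_right _ _
        calc min (y ^ 2) (x ^ 3 / y) * ((x + 2 * y) * (x + y)) ≤
              x ^ 3 / y * ((x + 2 * y) * (x + y)) :=
              mul_le_mul_of_nonneg_right h1 (by positivity)
          _ ≤ x ^ 3 / y * ((y + 2 * y) * (y + y)) := by gcongr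
          _ = _ := by field_simp; ring
    linarith

/-- `∑_i min(4^i, x³ / 2^i) ≤ 6 x²`. -/
lemma sum_min_le (x : ℝ) (hx : 0 < x) (I : ℕ) :
    ∑ i ∈ Finset.range I, min ((4 : ℝ) ^ i) (x ^ 3 / 2 ^ i) ≤ 6 * x ^ 2 := by
  refine (sum_min_le_aux x hx I).trans ?_
  have h1 : (2 : ℝ) ^ I / (x + 2 ^ I) ≤ 1 := by
    rw [div_le_one (by positivity)]
    linarith
  calc _ ≤ 6 * x ^ 2 * 1 := mul_le_mul_of_nonneg_left h1 (by positivity)
    _ = _ := mul_one _

/-- The layers, summed. -/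
lemma layers_le {r M : ℕ} (hr : 1 ≤ r) (hM : 1 ≤ M) (I : ℕ) :
    ∑ i ∈ Finset.range I, ((M : ℝ) / 2 ^ i) ^ r * min ((M : ℝ) ^ 2) (((2 : ℝ) ^ i) ^ (r + 2)) ≤
      6 * (M : ℝ) ^ ((r : ℝ) + 4 / (r + 2)) := by
  have hMr : (1 : ℝ) ≤ M := by exact_mod_cast hM
  have hM0 : (0 : ℝ) < M := by linarith
  have hr2 : (0 : ℝ) < (r : ℝ) + 2 := by positivity
  set x : ℝ := (M : ℝ) ^ ((2 : ℝ) / (r + 2)) with hx
  have hx0 : 0 < x := Real.rpow_pos_of_pos hM0 _
  have hxM : x ^ (r + 2) = (M : ℝ) ^ 2 := by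
    rw [hx, ← Real.rpow_natCast, ← Real.rpow_mul hM0.le, ← Real.rpow_natCast]
    congr 1
    push_cast
    field_simp
  have hx2 : x ^ 2 = (M : ℝ) ^ (4 / ((r : ℝ) + 2)) := by
    rw [hx, ← Real.rpow_natCast, ← Real.rpow_mul hM0.le]
    congr 1
    push_cast
    ring
  have hterm : ∀ i, ((M : ℝ) / 2 ^ i) ^ r * min ((M : ℝ) ^ 2) (((2 : ℝ) ^ i) ^ (r + 2)) ≤
      (M : ℝ) ^ r * min ((4 : ℝ) ^ i) (x ^ 3 / 2 ^ i) := by
    intro i
    obtain ⟨y, hy⟩ : ∃ y : ℝ, y = 2 ^ i := ⟨_, rfl⟩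
    have hy0 : 0 < y := by rw [hy]; positivity
    have e4 : (4 : ℝ) ^ i = y ^ 2 := by
      rw [hy, ← pow_mul, mul_comm, pow_mul]
      norm_num
    rw [e4, ← hy, div_pow, div_mul_eq_mul_div, mul_div_assoc]
    apply mul_le_mul_of_nonneg_left _ (by positivity)
    rw [div_le_iff₀ (by positivity)]
    have h1 : min ((M : ℝ) ^ 2) (y ^ (r + 2)) ≤ y ^ 2 * y ^ r := by
      rw [← pow_add, add_comm]
      exact min_le_right _ _
    rw [min_mul_of_nonneg _ _ (by positivity)]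
    apply le_min h1
    rcases le_total y x with hyx | hyx
    · refine h1.trans ?_
      apply mul_le_mul_of_nonneg_right _ (by positivity)
      rw [le_div_iff₀ hy0, ← pow_succ]
      exact pow_le_pow_left₀ hy0.le hyx 3
    · refine (min_le_left _ _).trans ?_
      rw [← hxM, div_mul_eq_mul_div, le_div_iff₀ hy0]
      obtain ⟨s, rfl⟩ : ∃ s, r = s + 1 := ⟨r - 1, by omega⟩
      calc x ^ (s + 1 + 2) * y = x ^ 3 * x ^ s * y := by ring
        _ ≤ x ^ 3 * y ^ s * y := by gcongr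
        _ = _ := by ring
  calc _ ≤ ∑ i ∈ Finset.range I, (M : ℝ) ^ r * min ((4 : ℝ) ^ i) (x ^ 3 / 2 ^ i) :=
        Finset.sum_le_sum fun i _ => hterm i
    _ = (M : ℝ) ^ r * ∑ i ∈ Finset.range I, min ((4 : ℝ) ^ i) (x ^ 3 / 2 ^ i) := by
        rw [Finset.mul_sum]
    _ ≤ (M : ℝ) ^ r * (6 * x ^ 2) :=
        mul_le_mul_of_nonneg_left (sum_min_le x hx0 I) (by positivity)
    _ = _ := by
        rw [hx2, Real.rpow_add hM0, Real.rpow_natCast]
        ring

section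

variable {K : Type*} [Field K] {ι : Type*} {𝓟 : PlSys K ι} {G : Type*} [AddCommGroup G]
  (𝓧 : XSys 𝓟 G)

lemma tru_nonneg (v : ι) {D : ℕ} (c : Fin (D + 1) → K) (m : ℝ) (p : Fin 2 → K) :
    0 ≤ tru 𝓟 v c m p := le_max_left _ _

lemma tru_le (v : ι) {D : ℕ} (c : Fin (D + 1) → K) {m : ℝ} (hm : 0 ≤ m) (p : Fin 2 → K) :
    tru 𝓟 v c m p ≤ m := by
  unfold tru
  apply max_le hm
  have h1 : Real.exp (-m) ≤ max (bval 𝓟 v c p) (Real.exp (-m)) := le_max_right _ _
  have h2 := Real.log_le_log (Real.exp_pos _) h1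
  rw [Real.log_exp] at h2
  linarith

lemma tru_le_of_le (v : ι) {D : ℕ} (c : Fin (D + 1) → K) (m : ℝ) (p : Fin 2 → K) {T : ℝ}
    (hT : 0 ≤ T) (h : Real.exp (-T) ≤ bval 𝓟 v c p) : tru 𝓟 v c m p ≤ T := by
  unfold tru
  apply max_le hT
  have h1 : Real.exp (-T) ≤ max (bval 𝓟 v c p) (Real.exp (-m)) := h.trans (le_max_left _ _)
  have h2 := Real.log_le_log (Real.exp_pos _) h1
  rw [Real.log_exp] at h2
  linarith

/-- The sum of the levels over all places. -/
lemma exists_sum_level_le {r : ℕ} (R : Fin r → G) (hR : LinearIndependent ℤ R) :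
    ∃ C : ℝ, 0 ≤ C ∧ ∀ (A : ℕ), 1 ≤ A → ∀ V : Finset ι,
      ∑ v ∈ V, 𝓟.w v * level 𝓧.H R v A ≤ C * (A : ℝ) ^ (r + 2) := by
  classical
  obtain ⟨κ, hκ0, hκ⟩ := exists_sum_log_le 𝓟 (C := 𝓧.H.c) ⟨𝓧.H.one_le_c, 𝓧.H.c_fin⟩
  obtain ⟨C₁, hC₁1, hC₁⟩ := 𝓧.H.exists_height_le R 0
  have hC₁0 : 0 < C₁ := by linarith
  refine ⟨κ + 2 ^ r * C₁, by positivity, ?_⟩
  intro A hA V
  have hAr : (1 : ℝ) ≤ A := by exact_mod_cast hA
  have hone : ∀ d ∈ (box r (A - 1)).filter (· ≠ 0),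
      ∑ v ∈ V, 𝓟.w v * -Real.log (𝓧.H.ν v (∑ i, d i • R i)) ≤ C₁ * (A : ℝ) ^ 2 := by
    intro d hd
    rw [Finset.mem_filter] at hd
    have hd0 : ∑ i, d i • R i ≠ 0 := by
      intro h0
      apply hd.2
      funext i
      exact Fintype.linearIndependent_iff.mp hR d h0 i
    have h1 := 𝓧.H.h_eq _ hd0 (V ∪ (𝓧.H.ν_fin _ hd0).toFinset) (fun v hv =>
      Finset.mem_union_right _ ((𝓧.H.ν_fin _ hd0).mem_toFinset.mpr hv))
    have h2 : ∑ v ∈ V, 𝓟.w v * -Real.log (𝓧.H.ν v (∑ i, d i • R i)) ≤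
        𝓧.H.h (∑ i, d i • R i) := by
      rw [← h1]
      calc _ = ∑ v ∈ V, 𝓧.H.w v * -Real.log (𝓧.H.ν v (∑ i, d i • R i)) :=
            Finset.sum_congr rfl fun v _ => by rw [𝓧.w_eq]
        _ ≤ _ := Finset.sum_le_sum_of_subset_of_nonneg Finset.subset_union_left
            fun v _ _ => mul_nonneg (𝓧.H.w_nonneg v) (𝓧.H.neg_log_nonneg v _)
    refine h2.trans (hC₁ A hA d ?_).1
    rw [mem_box]
    intro i
    have := mem_box.mp hd.1 i
    have h2 : ((A - 1 : ℕ) : ℤ) ≤ (A : ℤ) := by exact_mod_cast (by omega : A - 1 ≤ A)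
    exact this.trans h2
  have hcard : (((box r (A - 1)).filter (· ≠ 0)).card : ℝ) ≤ (2 * A : ℝ) ^ r := by
    have h3 : ((box r (A - 1)).filter (· ≠ 0)).card ≤ (2 * A) ^ r := by
      refine (Finset.card_filter_le _ _).trans ?_
      rw [card_box]
      exact Nat.pow_le_pow_left (by omega) _
    exact_mod_cast h3
  calc ∑ v ∈ V, 𝓟.w v * level 𝓧.H R v A =
        ∑ v ∈ V, 𝓟.w v * Real.log (𝓧.H.c v) + ∑ d ∈ (box r (A - 1)).filter (· ≠ 0),
          ∑ v ∈ V, 𝓟.w v * -Real.log (𝓧.H.ν v (∑ i, d i • R i)) := by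
        rw [Finset.sum_comm, ← Finset.sum_add_distrib]
        refine Finset.sum_congr rfl fun v _ => ?_
        rw [level, mul_add, Finset.mul_sum]
    _ ≤ κ + ∑ _d ∈ (box r (A - 1)).filter (· ≠ 0), C₁ * (A : ℝ) ^ 2 :=
        add_le_add (hκ V) (Finset.sum_le_sum hone)
    _ = κ + ((box r (A - 1)).filter (· ≠ 0)).card * (C₁ * (A : ℝ) ^ 2) := by
        rw [Finset.sum_const, nsmul_eq_mul]
    _ ≤ κ + (2 * A : ℝ) ^ r * (C₁ * (A : ℝ) ^ 2) := by gcongr
    _ ≤ κ * (A : ℝ) ^ (r + 2) + (2 * A : ℝ) ^ r * (C₁ * (A : ℝ) ^ 2) := by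
        gcongr
        exact le_mul_of_one_le_right hκ0 (one_le_pow₀ hAr)
    _ = _ := by rw [mul_pow]; ring

/-- Layer decomposition at one place. -/
lemma exists_place_sum_le {r : ℕ} (R : Fin r → G) (hR : LinearIndependent ℤ R) (s : G) (D : ℕ) :
    ∃ C : ι → ℝ, IsCst C ∧ ∀ (v : ι) (c : Fin (D + 1) → K) (m : ℝ) (M I : ℕ), c ≠ 0 → 0 ≤ m →
      2 * M < 2 ^ I →
      ∑ a ∈ box r M, tru 𝓟 v c m (𝓧.ξ (∑ i, a i • R i + s)) ≤
        (box r M).card * ((D * (D + 1) / 2 : ℕ) * level 𝓧.H R v 1 + Real.log (C v)) +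
        (∑ i ∈ Finset.range I, (2 * D * (2 * M / 2 ^ i + 1) ^ r : ℕ) *
          min m ((D * (D + 1) / 2 : ℕ) * level 𝓧.H R v (2 ^ (i + 1)) + Real.log (C v))) +
        2 * D * m := by
  classical
  obtain ⟨C, hC, hcov⟩ := exists_small_cover 𝓧 D
  refine ⟨C, hC, ?_⟩
  intro v c m M I hc hm hMI
  have hC0 : 0 < C v := hC.pos v
  have hlC : 0 ≤ Real.log (C v) := Real.log_nonneg (hC.1 v)
  set N : ℕ := D * (D + 1) / 2 with hN
  set T : ℕ → ℝ := fun A => (N : ℝ) * level 𝓧.H R v A + Real.log (C v) with hT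
  have hT0 : ∀ A, 0 ≤ T A := fun A =>
    add_nonneg (mul_nonneg (Nat.cast_nonneg _) (level_nonneg _ _ _ _)) hlC
  set β : (Fin r → ℤ) → ℝ := fun a => bval 𝓟 v c (𝓧.ξ (∑ i, a i • R i + s)) with hβ
  set τ : (Fin r → ℤ) → ℝ := fun a => tru 𝓟 v c m (𝓧.ξ (∑ i, a i • R i + s)) with hτ
  -- the number of points where the form is small
  have hcount : ∀ A : ℕ, 0 < A → ((box r M).filter fun a => β a < Real.exp (-T A)).card ≤
      2 * D * (2 * M / A + 1) ^ r := by
    intro A hA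
    obtain ⟨U, hU, hUcov⟩ := hcov v c
      (((box r M).filter fun a => β a < Real.exp (-T A)).image fun a => ∑ i, a i • R i + s)
      (Real.exp (-level 𝓧.H R v A)) hc (Real.exp_pos _)
      (by rw [← Real.exp_zero]; exact Real.exp_le_exp.mpr (by
        have := level_nonneg 𝓧.H R v A
        linarith)) (by
        intro P hP
        obtain ⟨a, ha, rfl⟩ := Finset.mem_image.mp hP
        have h1 := (Finset.mem_filter.mp ha).2
        refine h1.trans_eq ?_
        rw [hT, ← Real.exp_nat_mul, eq_div_iff hC0.ne']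
        nth_rewrite 2 [← Real.exp_log hC0]
        rw [← Real.exp_add]
        congr 1
        ring)
    have hsub : ((box r M).filter fun a => β a < Real.exp (-T A)) ⊆
        U.biUnion fun Q => {a ∈ box r M | 𝓧.H.ν v (∑ i, a i • R i - (Q - s)) <
          Real.exp (-level 𝓧.H R v A)} := by
      intro a ha
      obtain ⟨Q, hQ, h⟩ := hUcov _ (Finset.mem_image_of_mem _ ha)
      refine Finset.mem_biUnion.mpr ⟨Q, hQ, Finset.mem_filter.mpr ⟨(Finset.mem_filter.mp ha).1, ?_⟩⟩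
      rwa [show ∑ i, a i • R i - (Q - s) = ∑ i, a i • R i + s - Q by abel]
    calc _ ≤ _ := Finset.card_le_card hsub
      _ ≤ U.card * (2 * M / A + 1) ^ r :=
          Finset.card_biUnion_le_card_mul _ _ _ fun Q _ =>
            close_count 𝓧.H R hR (Q - s) M A hA v
      _ ≤ _ := Nat.mul_le_mul_right _ hU
  -- pointwise layers
  have hlayer : ∀ a, ∀ I, τ a ≤ T 1 + ∑ i ∈ Finset.range I,
      (if β a < Real.exp (-T (2 ^ i)) then min m (T (2 ^ (i + 1))) else 0) ∨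
        β a < Real.exp (-T (2 ^ I)) := by
    intro a I
    have hterm0 : ∀ i, 0 ≤ (if β a < Real.exp (-T (2 ^ i)) then min m (T (2 ^ (i + 1))) else 0) := by
      intro i
      split_ifs
      · exact le_min hm (hT0 _)
      · exact le_rfl
    induction I with
    | zero =>
      rcases lt_or_ge (β a) (Real.exp (-T (2 ^ 0))) with h | h
      · exact Or.inr h
      · left
        rw [Finset.sum_range_zero, add_zero]
        rw [pow_zero] at h
        exact tru_le_of_le v c m _ (hT0 1) h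
    | succ I ih =>
      rcases lt_or_ge (β a) (Real.exp (-T (2 ^ (I + 1)))) with h | h
      · exact Or.inr h
      · left
        rw [Finset.sum_range_succ]
        rcases ih with ih | ih
        · have := hterm0 I
          linarith
        · rw [if_pos ih]
          have h1 : τ a ≤ min m (T (2 ^ (I + 1))) :=
            le_min (tru_le v c hm _) (tru_le_of_le v c m _ (hT0 _) h)
          have h2 : 0 ≤ ∑ i ∈ Finset.range I,
              (if β a < Real.exp (-T (2 ^ i)) then min m (T (2 ^ (i + 1))) else 0) :=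
            Finset.sum_nonneg fun i _ => hterm0 i
          have h3 := hT0 1
          linarith
  have hlayer2 : ∀ a, τ a ≤ T 1 + (∑ i ∈ Finset.range I,
      (if β a < Real.exp (-T (2 ^ i)) then min m (T (2 ^ (i + 1))) else 0)) +
        (if β a < Real.exp (-T (2 ^ I)) then m else 0) := by
    intro a
    have hterm0 : ∀ i, 0 ≤ (if β a < Real.exp (-T (2 ^ i)) then min m (T (2 ^ (i + 1))) else 0) := by
      intro i
      split_ifs
      · exact le_min hm (hT0 _)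
      · exact le_rfl
    have h2 : 0 ≤ ∑ i ∈ Finset.range I,
        (if β a < Real.exp (-T (2 ^ i)) then min m (T (2 ^ (i + 1))) else 0) :=
      Finset.sum_nonneg fun i _ => hterm0 i
    have h3 := hT0 1
    rcases hlayer a I with h | h
    · have : 0 ≤ (if β a < Real.exp (-T (2 ^ I)) then m else 0) := by
        split_ifs
        · exact hm
        · exact le_rfl
      linarith
    · rw [if_pos h]
      have : τ a ≤ m := tru_le v c hm _
      linarith
  calc ∑ a ∈ box r M, τ a ≤ ∑ a ∈ box r M, (T 1 + (∑ i ∈ Finset.range I,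
      (if β a < Real.exp (-T (2 ^ i)) then min m (T (2 ^ (i + 1))) else 0)) +
        (if β a < Real.exp (-T (2 ^ I)) then m else 0)) := Finset.sum_le_sum fun a _ => hlayer2 a
    _ = (box r M).card * T 1 + (∑ i ∈ Finset.range I,
        ((box r M).filter fun a => β a < Real.exp (-T (2 ^ i))).card *
          min m (T (2 ^ (i + 1)))) +
        ((box r M).filter fun a => β a < Real.exp (-T (2 ^ I))).card * m := by
        rw [Finset.sum_add_distrib, Finset.sum_add_distrib, Finset.sum_const, nsmul_eq_mul,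
          Finset.sum_comm]
        congr 1
        · congr 1
          refine Finset.sum_congr rfl fun i _ => ?_
          rw [← Finset.sum_filter, Finset.sum_const, nsmul_eq_mul]
        · rw [← Finset.sum_filter, Finset.sum_const, nsmul_eq_mul]
    _ ≤ _ := by
        have h1 : ∀ i, (((box r M).filter fun a => β a < Real.exp (-T (2 ^ i))).card : ℝ) ≤
            ((2 * D * (2 * M / 2 ^ i + 1) ^ r : ℕ) : ℝ) := fun i => by
          exact_mod_cast hcount (2 ^ i) (by positivity)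
        have h2 := h1 I
        rw [Nat.div_eq_of_lt hMI, zero_add, one_pow, mul_one] at h2
        push_cast at h2
        refine add_le_add (add_le_add le_rfl (Finset.sum_le_sum fun i _ => ?_))
          (mul_le_mul_of_nonneg_right h2 hm)
        exact mul_le_mul_of_nonneg_right (h1 i) (le_min hm (hT0 _))

theorem exists_one {r : ℕ} (hr : 1 ≤ r) (R : Fin r → G) (hR : LinearIndependent ℤ R) (s : G)
    (D : ℕ) (A : ℝ) (hA : 0 ≤ A) : ∃ C : ℝ, 0 ≤ C ∧ ∀ M : ℕ, 1 ≤ M → ∀ (V : Finset ι)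
      (c : ι → Fin (D + 1) → K) (m : ι → ℝ), (∀ v, c v ≠ 0) → (∀ v, 0 ≤ m v) →
      ∑ v ∈ V, 𝓟.w v * m v ≤ A * (M : ℝ) ^ 2 →
      ∑ a ∈ box r M, ∑ v ∈ V, 𝓟.w v * tru 𝓟 v (c v) (m v) (𝓧.ξ (∑ i, a i • R i + s)) ≤
        C * (M : ℝ) ^ ((r : ℝ) + 4 / (r + 2)) := by
  classical
  obtain ⟨C, hC, hplace⟩ := exists_place_sum_le 𝓧 R hR s D
  obtain ⟨κ, hκ0, hκ⟩ := exists_sum_log_le 𝓟 hC
  obtain ⟨L, hL0, hL⟩ := exists_sum_level_le 𝓧 R hR
  set N : ℕ := D * (D + 1) / 2 with hN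
  set T : ι → ℕ → ℝ := fun v A => (N : ℝ) * level 𝓧.H R v A + Real.log (C v) with hT
  have hT0 : ∀ v A, 0 ≤ T v A := fun v A =>
    add_nonneg (mul_nonneg (Nat.cast_nonneg _) (level_nonneg _ _ _ _)) (Real.log_nonneg (hC.1 v))
  set B : ℝ := N * L + κ with hB
  have hB0 : 0 ≤ B := by positivity
  have hTsum : ∀ A : ℕ, 1 ≤ A → ∀ V : Finset ι, ∑ v ∈ V, 𝓟.w v * T v A ≤
      B * (A : ℝ) ^ (r + 2) := by
    intro A hA V
    have hAr : (1 : ℝ) ≤ A := by exact_mod_cast hA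
    calc ∑ v ∈ V, 𝓟.w v * T v A = N * ∑ v ∈ V, 𝓟.w v * level 𝓧.H R v A +
          ∑ v ∈ V, 𝓟.w v * Real.log (C v) := by
          rw [Finset.mul_sum, ← Finset.sum_add_distrib]
          refine Finset.sum_congr rfl fun v _ => ?_
          rw [hT]
          ring
      _ ≤ N * (L * (A : ℝ) ^ (r + 2)) + κ := by
          gcongr
          · exact hL A hA V
          · exact hκ V
      _ ≤ N * (L * (A : ℝ) ^ (r + 2)) + κ * (A : ℝ) ^ (r + 2) := by
          gcongr
          exact le_mul_of_one_le_right hκ0 (one_le_pow₀ hAr)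
      _ = _ := by rw [hB]; ring
  set E : ℝ := A + B * 2 ^ (r + 2) with hE
  have hE0 : 0 ≤ E := by positivity
  refine ⟨3 ^ r * B + 12 * D * 4 ^ r * E + 2 * D * A, by positivity, ?_⟩
  intro M hM V c m hc hm hsum
  have hMr : (1 : ℝ) ≤ M := by exact_mod_cast hM
  have hM0 : (0 : ℝ) < M := by linarith
  have hr2 : (0 : ℝ) < (r : ℝ) + 2 := by positivity
  set I : ℕ := Nat.log 2 (2 * M) + 1 with hI
  have hMI : 2 * M < 2 ^ I := Nat.lt_pow_succ_log_self (by norm_num) _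
  have hIM : ∀ i ∈ Finset.range I, 2 ^ i ≤ 2 * M := by
    intro i hi
    have h1 : i ≤ Nat.log 2 (2 * M) := by
      have := Finset.mem_range.mp hi
      omega
    exact (Nat.pow_le_pow_right (by norm_num) h1).trans (Nat.pow_log_le_self 2 (by omega))
  set Y : ℝ := (M : ℝ) ^ ((r : ℝ) + 4 / (r + 2)) with hY
  have hYr : (M : ℝ) ^ r ≤ Y := by
    rw [hY, ← Real.rpow_natCast]
    apply Real.rpow_le_rpow_of_exponent_le hMr
    have : 0 ≤ 4 / ((r : ℝ) + 2) := by positivity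
    linarith
  have hY2 : (M : ℝ) ^ 2 ≤ Y := by
    rw [hY, ← Real.rpow_natCast]
    apply Real.rpow_le_rpow_of_exponent_le hMr
    push_cast
    have h1 : (r : ℝ) + 4 / (r + 2) - 2 = (r : ℝ) ^ 2 / (r + 2) := by
      field_simp
      ring
    have h2 : 0 ≤ (r : ℝ) ^ 2 / (r + 2) := by positivity
    linarith
  -- swap the sums and use the bound at every place
  have hswap : ∑ a ∈ box r M, ∑ v ∈ V, 𝓟.w v * tru 𝓟 v (c v) (m v) (𝓧.ξ (∑ i, a i • R i + s)) =
      ∑ v ∈ V, 𝓟.w v * ∑ a ∈ box r M, tru 𝓟 v (c v) (m v) (𝓧.ξ (∑ i, a i • R i + s)) := by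
    rw [Finset.sum_comm]
    exact Finset.sum_congr rfl fun v _ => by rw [Finset.mul_sum]
  rw [hswap]
  have h1 : ∑ v ∈ V, 𝓟.w v * ∑ a ∈ box r M,
        tru 𝓟 v (c v) (m v) (𝓧.ξ (∑ i, a i • R i + s)) ≤
      ∑ v ∈ V, 𝓟.w v * ((box r M).card * T v 1 +
        (∑ i ∈ Finset.range I, (2 * D * (2 * M / 2 ^ i + 1) ^ r : ℕ) *
          min (m v) (T v (2 ^ (i + 1)))) + 2 * D * m v) :=
    Finset.sum_le_sum fun v _ => mul_le_mul_of_nonneg_left
      (hplace v (c v) (m v) M I (hc v) (hm v) hMI) (𝓟.w_nonneg v)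
  refine h1.trans ?_
  have h2 : ∑ v ∈ V, 𝓟.w v * ((box r M).card * T v 1 +
        (∑ i ∈ Finset.range I, (2 * D * (2 * M / 2 ^ i + 1) ^ r : ℕ) *
          min (m v) (T v (2 ^ (i + 1)))) + 2 * D * m v) =
      (box r M).card * (∑ v ∈ V, 𝓟.w v * T v 1) +
      (∑ i ∈ Finset.range I, (2 * D * (2 * M / 2 ^ i + 1) ^ r : ℕ) *
        ∑ v ∈ V, 𝓟.w v * min (m v) (T v (2 ^ (i + 1)))) +
      2 * D * ∑ v ∈ V, 𝓟.w v * m v := by
    simp only [mul_add, Finset.sum_add_distrib, Finset.mul_sum]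
    congr 1
    · congr 1
      · exact Finset.sum_congr rfl fun v _ => by ring
      · rw [Finset.sum_comm]
        exact Finset.sum_congr rfl fun i _ => Finset.sum_congr rfl fun v _ => by ring
    · exact Finset.sum_congr rfl fun v _ => by ring
  rw [h2]
  have hcard : ((box r M).card : ℝ) ≤ 3 ^ r * (M : ℝ) ^ r := by
    rw [card_box, ← mul_pow]
    push_cast
    apply pow_le_pow_left₀ (by positivity)
    linarith
  have hpart1 : (box r M).card * (∑ v ∈ V, 𝓟.w v * T v 1) ≤ 3 ^ r * B * Y := by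
    have h3 := hTsum 1 le_rfl V
    rw [Nat.cast_one, one_pow, mul_one] at h3
    calc (box r M).card * (∑ v ∈ V, 𝓟.w v * T v 1) ≤ (box r M).card * B := by gcongr
      _ ≤ (3 ^ r * (M : ℝ) ^ r) * B := by gcongr
      _ ≤ (3 ^ r * Y) * B := by gcongr
      _ = _ := by ring
  have hpart3 : 2 * D * ∑ v ∈ V, 𝓟.w v * m v ≤ 2 * D * A * Y := by
    calc 2 * D * ∑ v ∈ V, 𝓟.w v * m v ≤ 2 * D * (A * (M : ℝ) ^ 2) := by gcongr
      _ ≤ 2 * D * (A * Y) := by gcongr
      _ = _ := by ring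
  have hpart2 : ∑ i ∈ Finset.range I, (2 * D * (2 * M / 2 ^ i + 1) ^ r : ℕ) *
        ∑ v ∈ V, 𝓟.w v * min (m v) (T v (2 ^ (i + 1))) ≤ 12 * D * 4 ^ r * E * Y := by
    have hi : ∀ i ∈ Finset.range I, ((2 * D * (2 * M / 2 ^ i + 1) ^ r : ℕ) : ℝ) *
        ∑ v ∈ V, 𝓟.w v * min (m v) (T v (2 ^ (i + 1))) ≤
        2 * D * 4 ^ r * E * (((M : ℝ) / 2 ^ i) ^ r *
          min ((M : ℝ) ^ 2) (((2 : ℝ) ^ i) ^ (r + 2))) := by
      intro i hi
      have h2i := hIM i hi
      have ha : ((2 * D * (2 * M / 2 ^ i + 1) ^ r : ℕ) : ℝ) ≤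
          2 * D * (4 ^ r * ((M : ℝ) / 2 ^ i) ^ r) := by
        push_cast
        apply mul_le_mul_of_nonneg_left _ (by positivity)
        rw [← mul_pow]
        apply pow_le_pow_left₀ (by positivity)
        have h3 : ((2 * M / 2 ^ i : ℕ) : ℝ) ≤ ((2 * M : ℕ) : ℝ) / ((2 ^ i : ℕ) : ℝ) :=
          Nat.cast_div_le
        have h4 : (1 : ℝ) ≤ 2 * M / 2 ^ i := by
          rw [le_div_iff₀ (by positivity), one_mul]
          exact_mod_cast h2i
        push_cast at h3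
        have h5 : 4 * ((M : ℝ) / 2 ^ i) = 2 * M / 2 ^ i + 2 * M / 2 ^ i := by ring
        rw [h5]
        linarith
      have hb : ∑ v ∈ V, 𝓟.w v * min (m v) (T v (2 ^ (i + 1))) ≤
          E * min ((M : ℝ) ^ 2) (((2 : ℝ) ^ i) ^ (r + 2)) := by
        rw [mul_min_of_nonneg _ _ hE0]
        apply le_min
        · calc _ ≤ ∑ v ∈ V, 𝓟.w v * m v := Finset.sum_le_sum fun v _ =>
                mul_le_mul_of_nonneg_left (min_le_left _ _) (𝓟.w_nonneg v)
            _ ≤ A * (M : ℝ) ^ 2 := hsum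
            _ ≤ _ := by
                apply mul_le_mul_of_nonneg_right _ (by positivity)
                rw [hE]
                have : 0 ≤ B * 2 ^ (r + 2) := by positivity
                linarith
        · calc _ ≤ ∑ v ∈ V, 𝓟.w v * T v (2 ^ (i + 1)) := Finset.sum_le_sum fun v _ =>
                mul_le_mul_of_nonneg_left (min_le_right _ _) (𝓟.w_nonneg v)
            _ ≤ B * ((2 ^ (i + 1) : ℕ) : ℝ) ^ (r + 2) := hTsum _ Nat.one_le_two_pow V
            _ = B * 2 ^ (r + 2) * ((2 : ℝ) ^ i) ^ (r + 2) := by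
                push_cast
                rw [pow_succ (2 : ℝ) i, mul_pow]
                ring
            _ ≤ _ := by
                apply mul_le_mul_of_nonneg_right _ (by positivity)
                rw [hE]
                linarith
      have hb0 : 0 ≤ ∑ v ∈ V, 𝓟.w v * min (m v) (T v (2 ^ (i + 1))) :=
        Finset.sum_nonneg fun v _ => mul_nonneg (𝓟.w_nonneg v) (le_min (hm v) (hT0 v _))
      calc _ ≤ (2 * D * (4 ^ r * ((M : ℝ) / 2 ^ i) ^ r)) *
            (E * min ((M : ℝ) ^ 2) (((2 : ℝ) ^ i) ^ (r + 2))) :=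
            mul_le_mul ha hb hb0 (by positivity)
        _ = _ := by ring
    calc _ ≤ ∑ i ∈ Finset.range I, 2 * D * 4 ^ r * E * (((M : ℝ) / 2 ^ i) ^ r *
          min ((M : ℝ) ^ 2) (((2 : ℝ) ^ i) ^ (r + 2))) := Finset.sum_le_sum hi
      _ = 2 * D * 4 ^ r * E * ∑ i ∈ Finset.range I, (((M : ℝ) / 2 ^ i) ^ r *
          min ((M : ℝ) ^ 2) (((2 : ℝ) ^ i) ^ (r + 2))) := by rw [Finset.mul_sum]
      _ ≤ 2 * D * 4 ^ r * E * (6 * Y) := by
          gcongr
          exact layers_le hr hM I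
      _ = _ := by ring
  calc _ ≤ 3 ^ r * B * Y + 12 * D * 4 ^ r * E * Y + 2 * D * A * Y :=
        add_le_add (add_le_add hpart1 hpart2) hpart3
    _ = _ := by ring

theorem Bx.mono {S : ℕ → Finset G} {ρ : ℕ} {θ θ' : ℝ} (h : Bx 𝓧 S ρ θ) (hθ : θ ≤ θ') :
    Bx 𝓧 S ρ θ' := by
  refine ⟨h.card, h.height, fun D A hA => ?_⟩
  obtain ⟨C, hC0, hC⟩ := h.one D A hA
  refine ⟨C, hC0, fun M hM V c m hc hm hsum => (hC M hM V c m hc hm hsum).trans ?_⟩
  apply mul_le_mul_of_nonneg_left _ hC0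
  apply Real.rpow_le_rpow_of_exponent_le
  · exact_mod_cast hM
  · linarith

theorem bx_of_boxes {r : ℕ} (hr : 1 ≤ r) (R : Fin r → G) (hR : LinearIndependent ℤ R)
    (T : Finset G) (S : ℕ → Finset G)
    (hS : ∀ M, ∀ P ∈ S M, ∃ t ∈ T, ∃ a ∈ box r M, P = ∑ i, a i • R i + t) :
    Bx 𝓧 S r (4 / (r + 2)) := by
  classical
  set φ : G × (Fin r → ℤ) → G := fun q => ∑ i, q.2 i • R i + q.1 with hφ
  have hsub : ∀ M, S M ⊆ (T ×ˢ box r M).image φ := by
    intro M P hP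
    obtain ⟨t, ht, a, ha, rfl⟩ := hS M P hP
    exact Finset.mem_image.mpr ⟨(t, a), Finset.mk_mem_product ht ha, rfl⟩
  refine ⟨?_, ?_, ?_⟩
  · refine ⟨T.card * 3 ^ r, by positivity, fun M hM => ?_⟩
    have hMr : (1 : ℝ) ≤ M := by exact_mod_cast hM
    have h1 : (S M).card ≤ T.card * (2 * M + 1) ^ r := by
      calc (S M).card ≤ _ := Finset.card_le_card (hsub M)
        _ ≤ (T ×ˢ box r M).card := Finset.card_image_le
        _ = _ := by rw [Finset.card_product, card_box]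
    calc ((S M).card : ℝ) ≤ ((T.card * (2 * M + 1) ^ r : ℕ) : ℝ) := by exact_mod_cast h1
      _ = T.card * (2 * M + 1 : ℝ) ^ r := by push_cast; ring
      _ ≤ T.card * (3 * M : ℝ) ^ r := by
          gcongr
          linarith
      _ = _ := by rw [mul_pow]; ring
  · have h1 := fun t => 𝓧.H.exists_height_le R (-t)
    choose C hC1 hC using h1
    have hC0 : ∀ t, 0 ≤ C t := fun t => by linarith [hC1 t]
    refine ⟨∑ t ∈ T, C t, Finset.sum_nonneg fun t _ => hC0 t, fun M hM P hP => ?_⟩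
    obtain ⟨t, ht, a, ha, rfl⟩ := hS M P hP
    have h2 := (hC t M hM a ha).2
    rw [sub_neg_eq_add] at h2
    refine h2.trans ?_
    apply mul_le_mul_of_nonneg_right _ (by positivity)
    exact Finset.single_le_sum (f := C) (fun t _ => hC0 t) ht
  · intro D A hA
    have h1 := fun t => exists_one 𝓧 hr R hR t D A hA
    choose C hC0 hC using h1
    refine ⟨∑ t ∈ T, C t, Finset.sum_nonneg fun t _ => hC0 t, ?_⟩
    intro M hM V c m hc hm hsum
    set g : G → ℝ := fun P => ∑ v ∈ V, 𝓟.w v * tru 𝓟 v (c v) (m v) (𝓧.ξ P) with hg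
    have hg0 : ∀ P, 0 ≤ g P := fun P =>
      Finset.sum_nonneg fun v _ => mul_nonneg (𝓟.w_nonneg v) (tru_nonneg v _ _ _)
    calc ∑ P ∈ S M, g P ≤ ∑ P ∈ (T ×ˢ box r M).image φ, g P :=
          Finset.sum_le_sum_of_subset_of_nonneg (hsub M) fun P _ _ => hg0 P
      _ ≤ ∑ q ∈ T ×ˢ box r M, g (φ q) := Finset.sum_image_le_of_nonneg fun P _ => hg0 P
      _ = ∑ t ∈ T, ∑ a ∈ box r M, g (∑ i, a i • R i + t) := by rw [Finset.sum_product]
      _ ≤ ∑ t ∈ T, C t * (M : ℝ) ^ ((r : ℝ) + 4 / (r + 2)) :=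
          Finset.sum_le_sum fun t _ => hC t M hM V c m hc hm hsum
      _ = _ := by rw [Finset.sum_mul]

end

end Pool.Agent.AG
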