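import Mathlib
import Pool.Agent.AG.Ind
import Pool.Agent.AG.OneVar
import Pool.Agent.AG.Clos
import Pool.Agent.H7.VojtaFg

/-! # The average of the height with respect to `Y` (module Avg) -/

set_option autoImplicit false

open MvPolynomial WeierstrassCurve WeierstrassCurve.Affine
open Pool.Agent.GE (coords MultiHom DimLE wt)
open Pool.Agent.H7.Vojta (HtSys box mem_box exists_basis_mod_finite exists_canonical
  exists_lower_bound Para)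

namespace Pool.Agent.AG

universe u

section

variable {K : Type u} [Field K] {ι : Type*} {𝓟 : PlSys K ι}

/-- Points of bounded height lie in a box. -/
lemma exists_box {G : Type*} [AddCommGroup G] (𝓧 : XSys 𝓟 G) {r : ℕ} (R : Fin r → G)
    (hR : LinearIndependent ℤ R) (T : Finset G) : ∃ L : ℝ, 1 ≤ L ∧ ∀ H : ℝ, 1 ≤ H →
      ∀ (a : Fin r → ℤ), ∀ t ∈ T, 𝓧.H.h (∑ i, a i • R i + t) ≤ H →
        ∀ M : ℕ, L * √H ≤ M → a ∈ box r M := by
  classical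
  obtain ⟨q, hq, hq0, hqn⟩ := exists_canonical (G := G) (h := 𝓧.H.h) (c := 𝓧.H.C) 𝓧.H.par
    𝓧.H.h_nonneg
  have hqfin : ∀ B, {x | q x ≤ B}.Finite := fun B => by
    refine (𝓧.H.northcott (B + 𝓧.H.C)).subset ?_
    intro x hx
    have h1 : q x ≤ B := hx
    have h2 := hqn x
    rw [abs_le] at h2
    change 𝓧.H.h x ≤ B + 𝓧.H.C
    linarith
  obtain ⟨c₀, hc₀, hlow⟩ := exists_lower_bound hq hq0 hqfin R hR
  have hqT : 0 ≤ ∑ t ∈ T, q t := Finset.sum_nonneg fun t _ => hq0 t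
  have h𝓗C := 𝓧.H.C_nonneg
  set K₁ : ℝ := (2 + 2 * 𝓧.H.C + 2 * ∑ t ∈ T, q t) / c₀ with hK₁
  have hK₁0 : 0 ≤ K₁ := by positivity
  refine ⟨√K₁ + 1, by have := Real.sqrt_nonneg K₁; linarith, ?_⟩
  intro H hH a t ht hh M hM
  have hH0 : 0 < H := by linarith
  have h1 : q (∑ i, a i • R i) ≤ K₁ * c₀ * H := by
    have h2 : q (∑ i, a i • R i + t - t) ≤ 2 * q (∑ i, a i • R i + t) + 2 * q t :=
      hq.sub_le hq0 _ _
    rw [add_sub_cancel_right] at h2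
    have h3 := hqn (∑ i, a i • R i + t)
    rw [abs_le] at h3
    have h4 : q t ≤ ∑ t ∈ T, q t := Finset.single_le_sum (fun t _ => hq0 t) ht
    have h5 : K₁ * c₀ * H = (2 + 2 * 𝓧.H.C + 2 * ∑ t ∈ T, q t) * H := by
      rw [hK₁]
      field_simp
    rw [h5]
    nlinarith [mul_le_mul_of_nonneg_left hH h𝓗C, mul_le_mul_of_nonneg_left hH hqT]
  rw [mem_box]
  intro i
  have h2 : (a i : ℝ) ^ 2 ≤ K₁ * H := by
    have h3 := hlow a
    have h4 : (a i : ℝ) ^ 2 ≤ ∑ i, (a i : ℝ) ^ 2 :=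
      Finset.single_le_sum (f := fun i => (a i : ℝ) ^ 2) (fun i _ => sq_nonneg _)
        (Finset.mem_univ i)
    have h5 : c₀ * (a i : ℝ) ^ 2 ≤ c₀ * (K₁ * H) := by
      calc c₀ * (a i : ℝ) ^ 2 ≤ c₀ * ∑ i, (a i : ℝ) ^ 2 := mul_le_mul_of_nonneg_left h4 hc₀.le
        _ ≤ _ := h3.trans h1
        _ = _ := by ring
    exact le_of_mul_le_mul_left h5 hc₀
  have h3 : |(a i : ℝ)| ≤ √K₁ * √H := by
    rw [← Real.sqrt_mul hK₁0]
    exact Real.abs_le_sqrt h2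
  have h4 : |(a i : ℝ)| ≤ M := by
    refine (h3.trans ?_).trans hM
    apply mul_le_mul_of_nonneg_right _ (Real.sqrt_nonneg _)
    linarith
  exact_mod_cast h4

variable {n : ℕ} (W : Fin n → Affine K) {t : ℕ}
  (F : Fin t → MvPolynomial (Fin n × Fin 3) K) (Dg : Fin t → Fin n → ℕ)

theorem avg_abstract [DecidableEq K] (hn : 2 ≤ n) (𝓧 : ∀ i, XSys 𝓟 (W i).Point)
    (hξ : ∀ i P, (𝓧 i).ξ P = P.xRep) (Γ : ∀ i, AddSubgroup (W i).Point)
    (hΓ : ∀ i, (Γ i).FG) {r : ℕ} (hr : 1 ≤ r) (hrank : ∀ i, r ≤ Module.finrank ℤ (Γ i))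
    (hF : ∀ j, MultiHom (F j) (Dg j)) (hdim : DimLE (centreIdeal W F) (n - 2)) :
    ∃ C : ℝ, 0 ≤ C ∧ ∀ H : ℝ, 1 ≤ H → ∀ S₀ : Finset (∀ i, (W i).Point),
      (∀ P ∈ S₀, (∀ i, P i ∈ Γ i) ∧ (∃ j, aeval (fun q : Fin n × Fin 3 => coords (P q.1) q.2)
        (F j) ≠ 0) ∧ ∑ i, (𝓧 i).H.h (P i) ≤ H) →
      ∀ V : Finset ι, (∀ P ∈ S₀, ∀ v, closeness W F Dg P (𝓟.av v) ≠ 1 → v ∈ V) →
        ∑ P ∈ S₀, ∑ v ∈ V, 𝓟.w v * -Real.log (closeness W F Dg P (𝓟.av v)) ≤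
          C * H ^ ((((∑ i, Module.finrank ℤ (Γ i) : ℕ) : ℝ)) / 2 + 2 / (r + 2)) := by
  classical
  set ρ : Fin n → ℕ := fun i => Module.finrank ℤ (Γ i) with hρ
  set θ : ℝ := 4 / ((r : ℝ) + 2) with hθ
  have hθ0 : 0 ≤ θ := by positivity
  have hrθ : 2 ≤ (r : ℝ) + θ := by
    have h1 : (r : ℝ) + 4 / (r + 2) - 2 = (r : ℝ) ^ 2 / (r + 2) := by
      field_simp
      ring
    have h2 : 0 ≤ (r : ℝ) ^ 2 / (r + 2) := by positivity
    rw [hθ]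
    linarith
  -- the boxes
  have hb := fun i => exists_basis_mod_finite (Γ i) (hΓ i)
  choose R T hR hT using hb
  have hL := fun i => exists_box (𝓧 i) (R i) (hR i) (T i)
  choose L hL1 hL using hL
  set S : ∀ i, ℕ → Finset (W i).Point := fun i M =>
    ((T i) ×ˢ box (ρ i) M).image fun q => ∑ j, q.2 j • R i j + q.1 with hS
  have hBx : ∀ i, Bx (𝓧 i) (S i) (ρ i) θ := by
    intro i
    have h1 : Bx (𝓧 i) (S i) (ρ i) (4 / ((ρ i : ℝ) + 2)) := by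
      apply bx_of_boxes (𝓧 i) (hr.trans (hrank i)) (R i) (hR i) (T i)
      intro M P hP
      obtain ⟨q, hq, rfl⟩ := Finset.mem_image.mp hP
      exact ⟨q.1, (Finset.mem_product.mp hq).1, q.2, (Finset.mem_product.mp hq).2, rfl⟩
    apply h1.mono
    rw [hθ]
    have h2 : (r : ℝ) ≤ ρ i := by exact_mod_cast hrank i
    have h3 : (0 : ℝ) < (r : ℝ) + 2 := by positivity
    gcongr
  -- the forms
  obtain ⟨D, N, f, hBig, hfI⟩ := exists_forms hn W (centreIdeal W F) hdim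
  obtain ⟨C₁, hC₁, hvalC⟩ := exists_common (ι := ι) (α := Fin N)
    (Φ := fun j v c => ∀ P : ∀ i, (W i).Point,
      hval 𝓟 v (f j) (fun i => (P i).xRep) ≤ c * closeness W F Dg P (𝓟.av v))
    (fun j v c c' h h1 P => (h1 P).trans (mul_le_mul_of_nonneg_right h
      (Real.iSup_nonneg fun j => div_nonneg ((𝓟.av v).nonneg _)
        (prod_coords_pos 𝓟 W v P _).le)))
    (fun j => exists_hval_le_closeness 𝓟 W F Dg hF (f j) (hfI j))
  obtain ⟨κ₁, hκ₁0, hκ₁⟩ := exists_sum_log_le 𝓟 hC₁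
  obtain ⟨C₂, hC₂0, hind⟩ := main_ind hθ0 hrθ 𝓧 S ρ hrank hBx f hBig
  obtain ⟨j₀, hj₀⟩ := hBig.exists_ne_zero
  obtain ⟨C₃, hC₃0, hzero⟩ := exists_zeros_le (r := r) 𝓧 S ρ hrank hBx (f j₀) hj₀
  obtain ⟨C₄, hC₄0, hclos⟩ := exists_sum_closeness_le 𝓟 W F Dg
  obtain ⟨C₅, hC₅0, hcard⟩ := exists_card_le 𝓧 S ρ hBx
  have hht := fun i => (hBx i).height
  choose B hB0 hB using hht
  have hsB : 0 ≤ ∑ i, B i := Finset.sum_nonneg fun i _ => hB0 i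
  have hi₀ : Nonempty (Fin n) := ⟨⟨0, by omega⟩⟩
  set L₀ : ℝ := ∑ i, L i with hL₀
  have hLL₀ : ∀ i, L i ≤ L₀ := fun i => Finset.single_le_sum (f := L)
    (fun i _ => by linarith [hL1 i]) (Finset.mem_univ i)
  have hL₀1 : 1 ≤ L₀ := (hL1 hi₀.some).trans (hLL₀ _)
  set E : ℝ := κ₁ * C₅ + C₂ + C₄ * (∑ i, B i + 1) * C₃ with hE
  have hE0 : 0 ≤ E := by positivity
  set ρs : ℕ := ∑ i, ρ i with hρs
  refine ⟨E * (2 * L₀) ^ ((ρs : ℝ) + θ), by positivity, ?_⟩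
  intro H hH S₀ hS₀ V hV
  have hH0 : 0 < H := by linarith
  have hsH : 1 ≤ √H := by
    rw [Real.le_sqrt' one_pos]; linarith
  set M : ℕ := ⌈L₀ * √H⌉₊ with hM
  have hML : L₀ * √H ≤ M := Nat.le_ceil _
  have hLs1 : 1 ≤ L₀ * √H := one_le_mul_of_one_le_of_one_le hL₀1 hsH
  have hMr : (1 : ℝ) ≤ M := hLs1.trans hML
  have hM1 : 1 ≤ M := by exact_mod_cast hMr
  have hM0 : (0 : ℝ) < M := by linarith
  have hMle : (M : ℝ) ≤ 2 * L₀ * √H := by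
    have := Nat.ceil_lt_add_one (zero_le_one.trans hLs1)
    rw [← hM] at this
    linarith
  have hM2 : (1 : ℝ) ≤ (M : ℝ) ^ 2 := one_le_pow₀ hMr
  set 𝒮 := Fintype.piFinset (fun i => S i M) with h𝒮
  have hsub : S₀ ⊆ 𝒮 := by
    intro P hP
    obtain ⟨hPΓ, -, hPH⟩ := hS₀ P hP
    rw [h𝒮, Fintype.mem_piFinset]
    intro i
    obtain ⟨a, s, hs, hPi⟩ := hT i (P i) (hPΓ i)
    have h1 : (𝓧 i).H.h (∑ j, a j • R i j + s) ≤ H := by
      rw [← hPi]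
      exact (Finset.single_le_sum (f := fun i => (𝓧 i).H.h (P i))
        (fun i _ => (𝓧 i).H.h_nonneg _) (Finset.mem_univ i)).trans hPH
    have h2 := hL i H hH a s hs h1 M (by
      refine le_trans ?_ hML
      exact mul_le_mul_of_nonneg_right (hLL₀ i) (Real.sqrt_nonneg _))
    rw [hPi]
    exact Finset.mem_image.mpr ⟨(s, a), Finset.mk_mem_product hs h2, rfl⟩
  have hxi : ∀ P : ∀ i, (W i).Point, (fun i => (𝓧 i).ξ (P i)) = fun i => (P i).xRep := by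
    intro P
    funext i
    exact hξ i (P i)
  set Y : ℝ := (M : ℝ) ^ ((ρs : ℝ) + θ) with hY
  have hYge : (M : ℝ) ^ ρs ≤ Y := by
    rw [hY, ← Real.rpow_natCast]
    apply Real.rpow_le_rpow_of_exponent_le hMr
    linarith
  -- good points
  rw [← Finset.sum_filter_add_sum_filter_not S₀
    (fun P => ∃ j, tev (f j) (fun i => (𝓧 i).ξ (P i)) ≠ 0)]
  have hgood : ∑ P ∈ S₀.filter (fun P => ∃ j, tev (f j) (fun i => (𝓧 i).ξ (P i)) ≠ 0),
      ∑ v ∈ V, 𝓟.w v * -Real.log (closeness W F Dg P (𝓟.av v)) ≤ (κ₁ * C₅ + C₂) * Y := by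
    have h1 : ∀ P ∈ S₀.filter (fun P => ∃ j, tev (f j) (fun i => (𝓧 i).ξ (P i)) ≠ 0),
        ∑ v ∈ V, 𝓟.w v * -Real.log (closeness W F Dg P (𝓟.av v)) ≤
        κ₁ + ∑ v ∈ V, 𝓟.w v * loc 𝓟 v f (fun i => (𝓧 i).ξ (P i)) := by
      intro P hP
      obtain ⟨hPS, j, hj⟩ := Finset.mem_filter.mp hP
      have hpt : ∀ v, -Real.log (closeness W F Dg P (𝓟.av v)) ≤
          Real.log (C₁ v) + loc 𝓟 v f (fun i => (𝓧 i).ξ (P i)) := by
        intro v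
        have hcl := closeness_pos 𝓟 W F Dg v P (hS₀ P hPS).2.1
        have hC0 := hC₁.pos v
        have hNe : Nonempty (Fin N) := ⟨j⟩
        have h2 : (⨆ j, hval 𝓟 v (f j) (fun i => (𝓧 i).ξ (P i))) ≤
            C₁ v * closeness W F Dg P (𝓟.av v) := by
          apply ciSup_le
          intro j
          rw [hxi]
          exact hvalC j v P
        have h3 : 0 < ⨆ j, hval 𝓟 v (f j) (fun i => (𝓧 i).ξ (P i)) := by
          have h0 : 0 < hval 𝓟 v (f j) (fun i => (𝓧 i).ξ (P i)) :=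
            div_pos ((𝓟.av v).pos hj) (Finset.prod_pos fun i _ =>
              pow_pos (zero_lt_one.trans_le ((𝓧 i).one_le_nm v (P i))) D)
          refine h0.trans_le ?_
          exact le_ciSup (f := fun j => hval 𝓟 v (f j) (fun i => (𝓧 i).ξ (P i)))
            (Set.finite_range _).bddAbove j
        have h4 := Real.log_le_log h3 h2
        rw [Real.log_mul hC0.ne' hcl.ne'] at h4
        have h5 : -Real.log (⨆ j, hval 𝓟 v (f j) (fun i => (𝓧 i).ξ (P i))) ≤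
            loc 𝓟 v f (fun i => (𝓧 i).ξ (P i)) := le_max_right _ _
        linarith
      calc _ ≤ ∑ v ∈ V, 𝓟.w v * (Real.log (C₁ v) + loc 𝓟 v f (fun i => (𝓧 i).ξ (P i))) :=
            Finset.sum_le_sum fun v _ => mul_le_mul_of_nonneg_left (hpt v) (𝓟.w_nonneg v)
        _ = ∑ v ∈ V, 𝓟.w v * Real.log (C₁ v) +
            ∑ v ∈ V, 𝓟.w v * loc 𝓟 v f (fun i => (𝓧 i).ξ (P i)) := by
            simp only [mul_add, Finset.sum_add_distrib]
        _ ≤ _ := add_le_add (hκ₁ V) le_rfl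
    have hloc0 : ∀ P : ∀ i, (W i).Point,
        0 ≤ ∑ v ∈ V, 𝓟.w v * loc 𝓟 v f (fun i => (𝓧 i).ξ (P i)) := fun P =>
      Finset.sum_nonneg fun v _ => mul_nonneg (𝓟.w_nonneg v) (loc_nonneg v _ _)
    calc _ ≤ ∑ P ∈ S₀.filter (fun P => ∃ j, tev (f j) (fun i => (𝓧 i).ξ (P i)) ≠ 0),
          (κ₁ + ∑ v ∈ V, 𝓟.w v * loc 𝓟 v f (fun i => (𝓧 i).ξ (P i))) :=
          Finset.sum_le_sum h1
      _ ≤ ∑ P ∈ 𝒮, (κ₁ + ∑ v ∈ V, 𝓟.w v * loc 𝓟 v f (fun i => (𝓧 i).ξ (P i))) :=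
          Finset.sum_le_sum_of_subset_of_nonneg ((Finset.filter_subset _ _).trans hsub)
            fun P _ _ => add_nonneg hκ₁0 (hloc0 P)
      _ = 𝒮.card * κ₁ + ∑ P ∈ 𝒮, ∑ v ∈ V, 𝓟.w v * loc 𝓟 v f (fun i => (𝓧 i).ξ (P i)) := by
          rw [Finset.sum_add_distrib, Finset.sum_const, nsmul_eq_mul]
      _ ≤ (C₅ * (M : ℝ) ^ ρs) * κ₁ + C₂ * Y := by
          gcongr
          · exact hcard M hM1
          · exact hind M hM1 V
      _ ≤ (C₅ * Y) * κ₁ + C₂ * Y := by gcongr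
      _ = _ := by ring
  have hbad : ∑ P ∈ S₀.filter (fun P => ¬ ∃ j, tev (f j) (fun i => (𝓧 i).ξ (P i)) ≠ 0),
      ∑ v ∈ V, 𝓟.w v * -Real.log (closeness W F Dg P (𝓟.av v)) ≤
      C₄ * (∑ i, B i + 1) * C₃ * Y := by
    have h1 : ∀ P ∈ S₀.filter (fun P => ¬ ∃ j, tev (f j) (fun i => (𝓧 i).ξ (P i)) ≠ 0),
        ∑ v ∈ V, 𝓟.w v * -Real.log (closeness W F Dg P (𝓟.av v)) ≤
          C₄ * ((∑ i, B i + 1) * (M : ℝ) ^ 2) := by
      intro P hP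
      have hPS := (Finset.mem_filter.mp hP).1
      have hP𝒮 := hsub hPS
      have h2 := hclos P (fun i => (𝓧 i).H.h (P i)) (fun i => (𝓧 i).H.h_nonneg _)
        (fun i => by rw [← hξ]; exact (𝓧 i).ξ_fin (P i))
        (fun i V hV => by
          have := (𝓧 i).ht (P i) V (fun v hv => hV v (by rwa [← hξ]))
          rwa [hξ] at this)
        (hS₀ P hPS).2.1 V (hV P hPS)
      refine h2.trans (mul_le_mul_of_nonneg_left ?_ hC₄0)
      have h3 : ∑ i, (𝓧 i).H.h (P i) ≤ (∑ i, B i) * (M : ℝ) ^ 2 := by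
        rw [Finset.sum_mul]
        exact Finset.sum_le_sum fun i _ => hB i M hM1 (P i) (Fintype.mem_piFinset.mp hP𝒮 i)
      linarith
    set bad := S₀.filter (fun P => ¬ ∃ j, tev (f j) (fun i => (𝓧 i).ξ (P i)) ≠ 0) with hbaddef
    have hsubb : bad ⊆ 𝒮.filter fun P => tev (f j₀) (fun i => (𝓧 i).ξ (P i)) = 0 := by
      intro P hP
      obtain ⟨hPS, h2⟩ := Finset.mem_filter.mp hP
      refine Finset.mem_filter.mpr ⟨hsub hPS, ?_⟩
      by_contra h3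
      exact h2 ⟨j₀, h3⟩
    have hz : (M : ℝ) ^ r * (bad.card : ℝ) ≤ C₃ * (M : ℝ) ^ ρs := by
      refine le_trans ?_ (hzero M hM1)
      apply mul_le_mul_of_nonneg_left _ (by positivity)
      exact_mod_cast Finset.card_le_card hsubb
    have h5 : (M : ℝ) ^ 2 ≤ (M : ℝ) ^ r * (M : ℝ) ^ θ := by
      rw [← Real.rpow_natCast (M : ℝ) r, ← Real.rpow_add hM0, ← Real.rpow_natCast]
      apply Real.rpow_le_rpow_of_exponent_le hMr
      exact_mod_cast hrθ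
    calc _ ≤ ∑ P ∈ bad, C₄ * ((∑ i, B i + 1) * (M : ℝ) ^ 2) := Finset.sum_le_sum h1
      _ = bad.card * (C₄ * ((∑ i, B i + 1) * (M : ℝ) ^ 2)) := by
          rw [Finset.sum_const, nsmul_eq_mul]
      _ ≤ bad.card * (C₄ * ((∑ i, B i + 1) * ((M : ℝ) ^ r * (M : ℝ) ^ θ))) := by gcongr
      _ = C₄ * (∑ i, B i + 1) * (M : ℝ) ^ θ * ((M : ℝ) ^ r * bad.card) := by ring
      _ ≤ C₄ * (∑ i, B i + 1) * (M : ℝ) ^ θ * (C₃ * (M : ℝ) ^ ρs) := by gcongr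
      _ = _ := by
          rw [hY, Real.rpow_add hM0, Real.rpow_natCast]
          ring
  have hfinal : E * Y ≤ E * (2 * L₀) ^ ((ρs : ℝ) + θ) * H ^ ((ρs : ℝ) / 2 + 2 / (r + 2)) := by
    rw [mul_assoc]
    apply mul_le_mul_of_nonneg_left _ hE0
    have h1 : Y ≤ (2 * L₀ * √H) ^ ((ρs : ℝ) + θ) :=
      Real.rpow_le_rpow hM0.le hMle (by positivity)
    refine h1.trans_eq ?_
    rw [Real.mul_rpow (by positivity) (Real.sqrt_nonneg _), Real.sqrt_eq_rpow,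
      ← Real.rpow_mul hH0.le]
    congr 2
    rw [hθ]
    field_simp
    ring
  calc _ ≤ (κ₁ * C₅ + C₂) * Y + C₄ * (∑ i, B i + 1) * C₃ * Y := add_le_add hgood hbad
    _ = E * Y := by rw [hE]; ring
    _ ≤ _ := hfinal

end

end Pool.Agent.AG
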