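import Mathlib
import Pool.Agent.AG.Defs

/-!
# Large deviations of the gcd height: definitions

See `BLUEPRINT2.md` in this folder.
-/

set_option autoImplicit false

open Pool.Agent.H7.Vojta (HtSys box)

namespace Pool.Agent.AG

/-- `(2 (D + 1)) ^ c * codimension < (D + 1) ^ n`. -/
def BigC {K : Type*} [Field K] {n D : ℕ} {J : Type*} (c : ℕ) (f : J → Ten K n D) : Prop :=
  (2 * (D + 1)) ^ c * ((D + 1) ^ n - Module.finrank K (Submodule.span K (Set.range f))) <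
    (D + 1) ^ n

section

variable {K : Type*} [Field K] {ι : Type*} (𝓟 : PlSys K ι)

/-- The closeness of `p` to the common zeros of a family of forms. -/
noncomputable def cl (v : ι) {n D : ℕ} {J : Type*} (f : J → Ten K n D)
    (p : Fin n → Fin 2 → K) : ℝ :=
  ⨆ j, hval 𝓟 v (f j) p

/-- A level function: its sum over all places is `O(A^(r+2))`. -/
structure IsLev (r : ℕ) (ℓ : ι → ℕ → ℝ) : Prop where
  nonneg : ∀ v A, 0 ≤ ℓ v A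
  sum : ∃ C : ℝ, 0 ≤ C ∧ ∀ A : ℕ, 1 ≤ A → ∀ V : Finset ι,
    ∑ v ∈ V, 𝓟.w v * ℓ v A ≤ C * (A : ℝ) ^ (r + 2)

/-- The sets `S M` grow like boxes of dimension `ρ`; at most a fraction `O(A^(-r))` of the elements
lie within `exp (-level A)` of the zeros of a binary form. -/
structure Lvs {𝓟 : PlSys K ι} {G : Type*} [AddCommGroup G] (𝓧 : XSys 𝓟 G) (S : ℕ → Finset G)
    (ρ r : ℕ) (ℓ : ι → ℕ → ℝ) : Prop where
  card : ∃ C : ℝ, 0 ≤ C ∧ ∀ M : ℕ, 1 ≤ M → ((S M).card : ℝ) ≤ C * (M : ℝ) ^ ρ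
  height : ∃ C : ℝ, 0 ≤ C ∧ ∀ M : ℕ, 1 ≤ M → ∀ P ∈ S M, 𝓧.H.h P ≤ C * (M : ℝ) ^ 2
  close : ∀ D : ℕ, ∃ (C : ι → ℝ) (B : ℝ), IsCst C ∧ 0 ≤ B ∧
    ∀ (v : ι) (c : Fin (D + 1) → K), c ≠ 0 → ∀ M A : ℕ, 1 ≤ A → A ≤ M → ∀ T : Finset G,
      T ⊆ S M → (∀ X ∈ T, bval 𝓟 v c (𝓧.ξ X) < Real.exp (-(B * ℓ v A + Real.log (C v)))) →
        (A : ℝ) ^ r * (T.card : ℝ) ≤ B * (M : ℝ) ^ ρ

end

end Pool.Agent.AG
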