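import Mathlib
import Pool.Agent.AG.Defs2
import Pool.Agent.AG.Lin

/-! # Linear algebra for families of codimension `c + 1` (module Lin2) -/

set_option autoImplicit false

namespace Pool.Agent.AG

section

variable {K : Type*} [Field K] {n D : ℕ}

lemma BigC.exists_ne_zero {c : ℕ} {J : Type*} {f : J → Ten K n D} (hf : BigC c f) :
    ∃ j, f j ≠ 0 := by
  by_contra h
  push Not at h
  have h0 : Submodule.span K (Set.range f) = ⊥ := by
    rw [Submodule.span_eq_bot]
    rintro _ ⟨j, rfl⟩
    exact h j
  unfold BigC at hf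
  rw [h0, finrank_bot, Nat.sub_zero] at hf
  have h1 : 1 ≤ (2 * (D + 1)) ^ c := Nat.one_le_pow _ _ (by omega)
  have h2 : 1 * (D + 1) ^ n ≤ (2 * (D + 1)) ^ c * (D + 1) ^ n := Nat.mul_le_mul_right _ h1
  omega

theorem BigC.sl {c : ℕ} {J : Type*} {f : J → Ten K (n + 1) D} (hf : BigC c f) :
    BigC c (fun jk : J × Fin (D + 1) => AG.sl (f jk.1) jk.2) := by
  unfold BigC at hf ⊢
  set V := Submodule.span K (Set.range f) with hV
  set V' := Submodule.span K (Set.range fun jk : J × Fin (D + 1) => AG.sl (f jk.1) jk.2) with hV'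
  have hmap : ∀ c ∈ V, ∀ k, AG.sl c k ∈ V' := by
    intro c hc k
    have hle : V ≤ V'.comap ((LinearMap.proj k).comp slL) := by
      rw [hV, Submodule.span_le]
      rintro _ ⟨j, rfl⟩
      exact Submodule.subset_span ⟨(j, k), rfl⟩
    exact hle hc
  let φ : V →ₗ[K] (Fin (D + 1) → V') :=
    { toFun := fun c k => ⟨AG.sl c.1 k, hmap c.1 c.2 k⟩
      map_add' := fun _ _ => rfl
      map_smul' := fun _ _ => rfl }
  have hφ : Function.Injective φ := by
    intro c c' h
    apply Subtype.ext
    apply slL_injective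
    funext k
    exact congrArg Subtype.val (congrFun h k)
  have h1 : Module.finrank K V ≤ (D + 1) * Module.finrank K V' := by
    have h := LinearMap.finrank_le_finrank_of_injective hφ
    rw [Module.finrank_pi_fintype] at h
    simpa using h
  have h2 : Module.finrank K V' ≤ (D + 1) ^ n := by
    rw [← finrank_ten (K := K)]
    exact Submodule.finrank_le V'
  have h3 : (D + 1) * ((D + 1) ^ n - Module.finrank K V') ≤
      (D + 1) ^ (n + 1) - Module.finrank K V := by
    rw [Nat.mul_sub, pow_succ, mul_comm ((D + 1) ^ n) (D + 1)]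
    omega
  have h4 : (D + 1) * ((2 * (D + 1)) ^ c * ((D + 1) ^ n - Module.finrank K V')) <
      (D + 1) * (D + 1) ^ n := by
    calc (D + 1) * ((2 * (D + 1)) ^ c * ((D + 1) ^ n - Module.finrank K V'))
        = (2 * (D + 1)) ^ c * ((D + 1) * ((D + 1) ^ n - Module.finrank K V')) := by ring
      _ ≤ (2 * (D + 1)) ^ c * ((D + 1) ^ (n + 1) - Module.finrank K V) :=
          Nat.mul_le_mul_left _ h3
      _ < (D + 1) ^ (n + 1) := hf
      _ = (D + 1) * (D + 1) ^ n := by ring
  exact lt_of_mul_lt_mul_left h4 (Nat.zero_le _)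

theorem BigC.exists_family {c : ℕ} {J : Type*} {f : J → Ten K (n + 1) D} (hf : BigC (c + 1) f) :
    ∃ (N : ℕ) (h : Fin N → Ten K n D), BigC c h ∧
      ∀ j, emb 0 (h j) ∈ Submodule.span K (Set.range f) ∧
        emb (Fin.last D) (h j) ∈ Submodule.span K (Set.range f) := by
  unfold BigC at hf
  set V := Submodule.span K (Set.range f) with hV
  let φ : Ten K n D →ₗ[K] (Ten K (n + 1) D ⧸ V) × (Ten K (n + 1) D ⧸ V) :=
    (V.mkQ.comp (embL 0)).prod (V.mkQ.comp (embL (Fin.last D)))
  set W : Submodule K (Ten K n D) := LinearMap.ker φ with hW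
  let b : Module.Basis (Fin (Module.finrank K W)) K W := Module.finBasis K W
  refine ⟨Module.finrank K W, fun j => (b j : Ten K n D), ?_, fun j => ?_⟩
  · have hspan : Submodule.span K (Set.range fun j => (b j : Ten K n D)) = W := by
      have h1 : (Set.range fun j => (b j : Ten K n D)) = W.subtype '' (Set.range b) := by
        rw [← Set.range_comp]
        rfl
      rw [h1, Submodule.span_image, b.span_eq, Submodule.map_top, Submodule.range_subtype]
    unfold BigC
    rw [hspan]
    have h1 : Module.finrank K V + Module.finrank K (Ten K (n + 1) D ⧸ V) =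
        (D + 1) ^ (n + 1) := by
      rw [← finrank_ten (K := K), add_comm]
      exact Submodule.finrank_quotient_add_finrank V
    have h2 : Module.finrank K ((Ten K (n + 1) D ⧸ V) × (Ten K (n + 1) D ⧸ V)) =
        2 * ((D + 1) ^ (n + 1) - Module.finrank K V) := by
      rw [Module.finrank_prod]
      omega
    have h3 : Module.finrank K (LinearMap.range φ) + Module.finrank K W = (D + 1) ^ n := by
      rw [← finrank_ten (K := K), hW]
      exact LinearMap.finrank_range_add_finrank_ker φ
    have h4 : Module.finrank K (LinearMap.range φ) ≤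
        2 * ((D + 1) ^ (n + 1) - Module.finrank K V) := by
      rw [← h2]
      exact Submodule.finrank_le _
    have h5 : (D + 1) ^ n - Module.finrank K W ≤
        2 * ((D + 1) ^ (n + 1) - Module.finrank K V) := by omega
    have h6 : (D + 1) * ((2 * (D + 1)) ^ c * ((D + 1) ^ n - Module.finrank K W)) <
        (D + 1) * (D + 1) ^ n := by
      calc (D + 1) * ((2 * (D + 1)) ^ c * ((D + 1) ^ n - Module.finrank K W))
          ≤ (D + 1) * ((2 * (D + 1)) ^ c *
              (2 * ((D + 1) ^ (n + 1) - Module.finrank K V))) :=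
            Nat.mul_le_mul_left _ (Nat.mul_le_mul_left _ h5)
        _ = (2 * (D + 1)) ^ (c + 1) * ((D + 1) ^ (n + 1) - Module.finrank K V) := by ring
        _ < (D + 1) ^ (n + 1) := hf
        _ = (D + 1) * (D + 1) ^ n := by ring
    exact lt_of_mul_lt_mul_left h6 (Nat.zero_le _)
  · have hR : φ (b j : Ten K n D) = 0 := LinearMap.mem_ker.mp (b j).2
    constructor
    · have := congrArg Prod.fst hR
      exact (Submodule.Quotient.mk_eq_zero V).mp this
    · have := congrArg Prod.snd hR
      exact (Submodule.Quotient.mk_eq_zero V).mp this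

end

end Pool.Agent.AG
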