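import Mathlib
import Pool.Agent.AG.Lin2
import Pool.Agent.AG.Pl
import Pool.Agent.AG.Zero

/-! # The number of points close to the common zeros at one place (module Local) -/

set_option autoImplicit false

namespace Pool.Agent.AG

lemma thr_le {B B₁ C C₁ l : ℝ} (hB : B₁ ≤ B) (hC₁ : 0 < C₁) (hC : C₁ ≤ C) (hl : 0 ≤ l) :
    Real.exp (-(B * l + Real.log C)) ≤ Real.exp (-(B₁ * l + Real.log C₁)) := by
  apply Real.exp_le_exp.mpr
  have h1 := Real.log_le_log hC₁ hC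
  have h2 := mul_le_mul_of_nonneg_right hB hl
  linarith

lemma thr_mul {B₁ B₂ C₁ C₂ l : ℝ} (hC₁ : 0 < C₁) (hC₂ : 0 < C₂) :
    Real.exp (-(B₁ * l + Real.log C₁)) * Real.exp (-(B₂ * l + Real.log C₂)) =
      Real.exp (-((B₁ + B₂) * l + Real.log (C₁ * C₂))) := by
  rw [← Real.exp_add, Real.log_mul hC₁.ne' hC₂.ne']
  congr 1
  ring

section

variable {K : Type*} [Field K] {ι : Type*} {𝓟 : PlSys K ι}

lemma loc_eq (v : ι) {n D : ℕ} {J : Type*} (f : J → Ten K n D) (p : Fin n → Fin 2 → K) :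
    loc 𝓟 v f p = max 0 (-Real.log (cl 𝓟 v f p)) := rfl

lemma cl_nonneg (v : ι) {n D : ℕ} {J : Type*} (f : J → Ten K n D) (p : Fin n → Fin 2 → K) :
    0 ≤ cl 𝓟 v f p := Real.iSup_nonneg fun j => hval_nonneg 𝓟 v _ _

lemma hval_le_cl (v : ι) {n D : ℕ} {J : Type*} [Finite J] (f : J → Ten K n D)
    (p : Fin n → Fin 2 → K) (j : J) : hval 𝓟 v (f j) p ≤ cl 𝓟 v f p :=
  le_ciSup (f := fun j => hval 𝓟 v (f j) p) (Set.finite_range _).bddAbove j

/-- The product of the norms of a point with one more coordinate. -/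
lemma prod_nm_cons' (v : ι) {n D : ℕ} (x : Fin 2 → K) (p : Fin n → Fin 2 → K) :
    ∏ i, nm 𝓟 v ((Fin.cons x p : Fin (n + 1) → Fin 2 → K) i) ^ D =
      nm 𝓟 v x ^ D * ∏ i, nm 𝓟 v (p i) ^ D := by
  rw [Fin.prod_univ_succ]
  simp only [Fin.cons_zero, Fin.cons_succ]

/-- Slices control the family. -/
theorem exists_coef {n D : ℕ} {J : Type*} [Finite J] (f : J → Ten K (n + 1) D) (v : ι)
    (p : Fin n → Fin 2 → K) (hp : ∀ i, 0 < nm 𝓟 v (p i))
    (h : ∃ jk : J × Fin (D + 1), tev (sl (f jk.1) jk.2) p ≠ 0) :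
    ∃ c : Fin (D + 1) → K, c ≠ 0 ∧ ∀ x : Fin 2 → K, 0 < nm 𝓟 v x →
      bval 𝓟 v c x * cl 𝓟 v (fun jk : J × Fin (D + 1) => sl (f jk.1) jk.2) p ≤
        cl 𝓟 v f (Fin.cons x p : Fin (n + 1) → Fin 2 → K) := by
  have hP : 0 < ∏ i, nm 𝓟 v (p i) ^ D := Finset.prod_pos fun i _ => pow_pos (hp i) _
  obtain ⟨jk, hjk⟩ := h
  have hJ : Nonempty (J × Fin (D + 1)) := ⟨jk⟩
  set g : J × Fin (D + 1) → ℝ := fun jk => hval 𝓟 v (sl (f jk.1) jk.2) p with hg
  obtain ⟨⟨j₀, k₀⟩, hmax⟩ := Finite.exists_max g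
  have hsupg : cl 𝓟 v (fun jk : J × Fin (D + 1) => sl (f jk.1) jk.2) p = g (j₀, k₀) :=
    le_antisymm (ciSup_le hmax) (le_ciSup (Set.finite_range g).bddAbove _)
  have hgpos : 0 < g (j₀, k₀) := lt_of_lt_of_le (div_pos ((𝓟.av v).pos hjk) hP) (hmax jk)
  set c : Fin (D + 1) → K := fun k => tev (sl (f j₀) k) p with hc
  have hsupc : (⨆ k, 𝓟.av v (c k)) = 𝓟.av v (c k₀) := by
    apply le_antisymm
    · apply ciSup_le
      intro k
      have h2 := hmax (j₀, k)
      rw [hg] at h2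
      simp only [hval] at h2
      rw [div_le_div_iff_of_pos_right hP] at h2
      exact h2
    · exact le_ciSup (Set.finite_range fun k => 𝓟.av v (c k)).bddAbove k₀
  have hcpos : 0 < 𝓟.av v (c k₀) := by
    have h2 : g (j₀, k₀) = 𝓟.av v (c k₀) / ∏ i, nm 𝓟 v (p i) ^ D := rfl
    rw [h2] at hgpos
    by_contra! hcon
    have h3 : 𝓟.av v (c k₀) = 0 := le_antisymm hcon ((𝓟.av v).nonneg _)
    rw [h3, zero_div] at hgpos
    exact lt_irrefl _ hgpos
  refine ⟨c, fun h => ?_, ?_⟩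
  · rw [h, Pi.zero_apply, map_zero] at hcpos
    exact lt_irrefl _ hcpos
  · intro x hx
    have hxD : 0 < nm 𝓟 v x ^ D := pow_pos hx _
    have h2 : bval 𝓟 v c x * g (j₀, k₀) =
        hval 𝓟 v (f j₀) (Fin.cons x p : Fin (n + 1) → Fin 2 → K) := by
      rw [hval, tev_succ, prod_nm_cons', bval, hsupc]
      change 𝓟.av v (bf c x) / (𝓟.av v (c k₀) * nm 𝓟 v x ^ D) *
        (𝓟.av v (c k₀) / ∏ i, nm 𝓟 v (p i) ^ D) = 𝓟.av v (bf c x) / _
      field_simp
    rw [hsupg, h2]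
    exact hval_le_cl v f _ j₀

/-- The eliminated family is controlled by the family. -/
theorem exists_elim {n D N : ℕ} {J : Type*} [Finite J] (f : J → Ten K (n + 1) D)
    (h : Fin N → Ten K n D)
    (hh : ∀ j, emb 0 (h j) ∈ Submodule.span K (Set.range f) ∧
        emb (Fin.last D) (h j) ∈ Submodule.span K (Set.range f)) :
    ∃ C : ι → ℝ, IsCst C ∧ ∀ (v : ι) (p : Fin n → Fin 2 → K) (x : Fin 2 → K), 0 < nm 𝓟 v x →
      cl 𝓟 v h p ≤ C v * cl 𝓟 v f (Fin.cons x p : Fin (n + 1) → Fin 2 → K) := by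
  have key : ∀ j, ∃ C : ι → ℝ, IsCst C ∧ ∀ v, ∀ (p : Fin n → Fin 2 → K) (x : Fin 2 → K),
      0 < nm 𝓟 v x → hval 𝓟 v (h j) p ≤
        C v * cl 𝓟 v f (Fin.cons x p : Fin (n + 1) → Fin 2 → K) := by
    intro j
    obtain ⟨C₀, hC₀, hb₀⟩ := exists_span_le 𝓟 f _ (hh j).1
    obtain ⟨C₁, hC₁, hb₁⟩ := exists_span_le 𝓟 f _ (hh j).2
    refine ⟨fun v => C₀ v * C₁ v, hC₀.mul hC₁, ?_⟩
    intro v p x hx
    have hC₀0 := hC₀.pos v
    have hC₁0 := hC₁.pos v
    have hS0 := cl_nonneg (𝓟 := 𝓟) v f (Fin.cons x p : Fin (n + 1) → Fin 2 → K)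
    have hval_emb : ∀ k : Fin (D + 1), hval 𝓟 v (emb k (h j))
        (Fin.cons x p : Fin (n + 1) → Fin 2 → K) =
        hval 𝓟 v (h j) p * (𝓟.av v (x 0) ^ (k : ℕ) * 𝓟.av v (x 1) ^ (D - (k : ℕ)) /
          nm 𝓟 v x ^ D) := by
      intro k
      rw [hval, hval, tev_emb, prod_nm_cons', map_mul, map_mul, map_pow, map_pow]
      field_simp
    rcases le_total (𝓟.av v (x 0)) (𝓟.av v (x 1)) with hx01 | hx01
    · have h2 := hb₀ v (Fin.cons x p : Fin (n + 1) → Fin 2 → K)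
      have hnm : nm 𝓟 v x = 𝓟.av v (x 1) := max_eq_right hx01
      rw [hval_emb] at h2
      rw [Fin.val_zero, pow_zero, one_mul, Nat.sub_zero, hnm, div_self (by
        rw [← hnm]; exact (pow_pos hx _).ne'), mul_one] at h2
      refine h2.trans ?_
      apply mul_le_mul_of_nonneg_right _ hS0
      exact le_mul_of_one_le_right hC₀0.le (hC₁.1 v)
    · have h2 := hb₁ v (Fin.cons x p : Fin (n + 1) → Fin 2 → K)
      have hnm : nm 𝓟 v x = 𝓟.av v (x 0) := max_eq_left hx01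
      rw [hval_emb] at h2
      rw [Fin.val_last, Nat.sub_self, pow_zero, mul_one, hnm, div_self (by
        rw [← hnm]; exact (pow_pos hx _).ne'), mul_one] at h2
      refine h2.trans ?_
      apply mul_le_mul_of_nonneg_right _ hS0
      exact le_mul_of_one_le_left hC₁0.le (hC₀.1 v)
  obtain ⟨C, hC, hb⟩ := exists_common (ι := ι) (α := Fin N)
    (Φ := fun j v c => ∀ (p : Fin n → Fin 2 → K) (x : Fin 2 → K),
      0 < nm 𝓟 v x → hval 𝓟 v (h j) p ≤
        c * cl 𝓟 v f (Fin.cons x p : Fin (n + 1) → Fin 2 → K))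
    (fun j v c c' hcc h1 p x hx => (h1 p x hx).trans
      (mul_le_mul_of_nonneg_right hcc (cl_nonneg _ _ _))) key
  refine ⟨C, hC, fun v p x hx => ?_⟩
  exact Real.iSup_le (fun j => hb j v p x hx) (mul_nonneg (hC.pos v).le (cl_nonneg _ _ _))

/-- The number of elements of a product of boxes. -/
lemma exists_card_le' {n : ℕ} {G : Fin n → Type*} [∀ i, AddCommGroup (G i)] {r : ℕ}
    {ℓ : ι → ℕ → ℝ}
    (𝓧 : ∀ i, XSys 𝓟 (G i)) (S : ∀ i, ℕ → Finset (G i)) (ρ : Fin n → ℕ)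
    (hS : ∀ i, Lvs (𝓧 i) (S i) (ρ i) r ℓ) : ∃ C : ℝ, 0 ≤ C ∧ ∀ M : ℕ, 1 ≤ M →
      ((Fintype.piFinset fun i => S i M).card : ℝ) ≤ C * (M : ℝ) ^ (∑ i, ρ i) := by
  have h1 := fun i => (hS i).card
  choose C hC0 hC using h1
  refine ⟨∏ i, C i, Finset.prod_nonneg fun i _ => hC0 i, fun M hM => ?_⟩
  rw [Fintype.card_piFinset, Nat.cast_prod, ← Finset.prod_pow_eq_pow_sum,
    ← Finset.prod_mul_distrib]
  exact Finset.prod_le_prod (fun i _ => Nat.cast_nonneg _) fun i _ => hC i M hM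

theorem exists_local {r : ℕ} {ℓ : ι → ℕ → ℝ} (hℓ : IsLev 𝓟 r ℓ) {D : ℕ} {n : ℕ}
    {G : Fin n → Type*} [∀ i, AddCommGroup (G i)] (𝓧 : ∀ i, XSys 𝓟 (G i))
    (S : ∀ i, ℕ → Finset (G i)) (ρ : Fin n → ℕ) (hS : ∀ i, Lvs (𝓧 i) (S i) (ρ i) r ℓ)
    {c : ℕ} {J : Type} [Finite J] (f : J → Ten K n D) (hf : BigC c f) :
    ∃ (C : ι → ℝ) (B : ℝ), IsCst C ∧ 0 ≤ B ∧ ∀ (v : ι) (M A : ℕ), 1 ≤ A → A ≤ M →
      ∀ T : Finset (∀ i, G i), T ⊆ Fintype.piFinset (fun i => S i M) →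
        (∀ P ∈ T, cl 𝓟 v f (fun i => (𝓧 i).ξ (P i)) <
          Real.exp (-(B * ℓ v A + Real.log (C v)))) →
        (A : ℝ) ^ ((c + 1) * r) * (T.card : ℝ) ≤ B * (M : ℝ) ^ (∑ i, ρ i) := by
  classical
  induction n generalizing c J with
  | zero =>
    obtain ⟨j, hj⟩ := hf.exists_ne_zero
    have hj' : f j (fun i => i.elim0) ≠ 0 := by
      intro h
      apply hj
      funext e
      rw [show e = fun i => i.elim0 from funext fun i => i.elim0]
      exact h
    obtain ⟨C, hC, hCge⟩ := exists_av_ge 𝓟 hj'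
    refine ⟨C, 0, hC, le_rfl, ?_⟩
    intro v M A hA hAM T hT hcl
    have hTe : T = ∅ := by
      rw [Finset.eq_empty_iff_forall_notMem]
      intro P hP
      have h1 := hcl P hP
      have hC0 := hC.pos v
      rw [zero_mul, zero_add, Real.exp_neg, Real.exp_log hC0] at h1
      have h2 : 𝓟.av v (f j fun i => i.elim0) ≤ cl 𝓟 v f (fun i => (𝓧 i).ξ (P i)) := by
        refine le_trans ?_ (hval_le_cl v f _ j)
        rw [hval, tev_zero_dim, Finset.univ_eq_empty, Finset.prod_empty, div_one]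
      have h3 := hCge v
      have h4 : (C v)⁻¹ ≤ 𝓟.av v (f j fun i => i.elim0) := by
        rw [inv_le_iff_one_le_mul₀ hC0]
        linarith
      linarith
    rw [hTe, Finset.card_empty, Nat.cast_zero, mul_zero, zero_mul]
  | succ n ih =>
    -- the slices
    obtain ⟨Cg, Bg, hCg, hBg0, hg⟩ := ih (fun i => 𝓧 i.succ) (fun i => S i.succ)
      (fun i => ρ i.succ) (fun i => hS i.succ) _ hf.sl
    set g : J × Fin (D + 1) → Ten K n D := fun jk => sl (f jk.1) jk.2 with hgdef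
    obtain ⟨C0, B0, hC0, hB00, h0⟩ := (hS 0).close D
    obtain ⟨C₅, hC₅0, hcard⟩ := exists_card_le' (fun i => 𝓧 i.succ) (fun i => S i.succ)
      (fun i => ρ i.succ) (fun i => hS i.succ)
    obtain ⟨C₆, hC₆0, hcard0⟩ := (hS 0).card
    set q : (∀ i : Fin n, G i.succ) → Fin n → Fin 2 → K :=
      fun P i => (𝓧 i.succ).ξ (P i) with hq
    set ρ' : ℕ := ∑ i : Fin n, ρ i.succ with hρ'
    -- the eliminated family
    have helim : ∃ (C' : ι → ℝ) (B' : ℝ), IsCst C' ∧ 0 ≤ B' ∧ ∀ (v : ι) (M A : ℕ), 1 ≤ A →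
        A ≤ M → ∀ T : Finset (∀ i : Fin n, G i.succ),
          T ⊆ Fintype.piFinset (fun i : Fin n => S i.succ M) →
          (∀ P ∈ T, ∃ x : Fin 2 → K, 0 < nm 𝓟 v x ∧
            cl 𝓟 v f (Fin.cons x (q P) : Fin (n + 1) → Fin 2 → K) <
            Real.exp (-(B' * ℓ v A + Real.log (C' v)))) →
          (A : ℝ) ^ (c * r) * (T.card : ℝ) ≤ B' * (M : ℝ) ^ ρ' := by
      cases c with
      | zero =>
        refine ⟨fun _ => 1, C₅, isCst_one, hC₅0, ?_⟩
        intro v M A hA hAM T hT _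
        rw [zero_mul, pow_zero, one_mul]
        refine le_trans ?_ (hcard M (hA.trans hAM))
        exact_mod_cast Finset.card_le_card hT
      | succ c =>
        obtain ⟨N, h, hBig, hh⟩ := hf.exists_family
        obtain ⟨Ch, Bh, hCh, hBh0, hhl⟩ := ih (fun i => 𝓧 i.succ) (fun i => S i.succ)
          (fun i => ρ i.succ) (fun i => hS i.succ) h hBig
        obtain ⟨Ce, hCe, hcle⟩ := exists_elim (𝓟 := 𝓟) f h hh
        refine ⟨fun v => Ch v * Ce v, Bh, hCh.mul hCe, hBh0, ?_⟩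
        intro v M A hA hAM T hT hx
        refine hhl v M A hA hAM T hT fun P hP => ?_
        obtain ⟨x, hx0, hx1⟩ := hx P hP
        have hCe0 := hCe.pos v
        have hCh0 := hCh.pos v
        refine (hcle v (q P) x hx0).trans_lt ?_
        calc Ce v * cl 𝓟 v f (Fin.cons x (q P) : Fin (n + 1) → Fin 2 → K) <
              Ce v * Real.exp (-(Bh * ℓ v A + Real.log (Ch v * Ce v))) :=
              mul_lt_mul_of_pos_left hx1 hCe0
          _ = _ := by
              rw [Real.log_mul hCh0.ne' hCe0.ne']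
              nth_rewrite 1 [← Real.exp_log hCe0]
              rw [← Real.exp_add]
              congr 1
              ring
    obtain ⟨C', B', hC', hB'0, h'⟩ := helim
    refine ⟨fun v => Cg v * C0 v * C' v, Bg + B0 + B' + (C₆ * Bg + B' * B0),
      (hCg.mul hC0).mul hC', by positivity, ?_⟩
    intro v M A hA hAM T hT hcl
    have hM1 : 1 ≤ M := hA.trans hAM
    have hAr : (1 : ℝ) ≤ A := by exact_mod_cast hA
    have hMr : (1 : ℝ) ≤ M := by exact_mod_cast hM1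
    have hl0 := hℓ.nonneg v A
    have hCg1 := hCg.1 v
    have hC01 := hC0.1 v
    have hC'1 := hC'.1 v
    have hCgp := hCg.pos v
    have hC0p := hC0.pos v
    have hC'p := hC'.pos v
    set Bt := Bg + B0 + B' + (C₆ * Bg + B' * B0) with hBt
    have hBextra : 0 ≤ C₆ * Bg + B' * B0 := by positivity
    set Ct := Cg v * C0 v * C' v with hCt
    have hconsP : ∀ P : ∀ i, G i, (fun i => (𝓧 i).ξ (P i)) =
        (Fin.cons ((𝓧 0).ξ (P 0)) (q (Fin.tail P)) : Fin (n + 1) → Fin 2 → K) := by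
      intro P
      funext i
      refine Fin.cases ?_ (fun i => ?_) i
      · rfl
      · rfl
    -- the thresholds
    have ht1 : Real.exp (-(Bt * ℓ v A + Real.log Ct)) ≤
        Real.exp (-(B0 * ℓ v A + Real.log (C0 v))) *
          Real.exp (-(Bg * ℓ v A + Real.log (Cg v))) := by
      rw [thr_mul hC0p hCgp]
      apply thr_le _ (by positivity) _ hl0
      · rw [hBt]; linarith
      · rw [hCt]
        calc C0 v * Cg v = Cg v * C0 v * 1 := by ring
          _ ≤ _ := mul_le_mul_of_nonneg_left hC'1 (by positivity)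
    have ht2 : Real.exp (-(Bt * ℓ v A + Real.log Ct)) ≤
        Real.exp (-(B' * ℓ v A + Real.log (C' v))) := by
      apply thr_le _ hC'p _ hl0
      · rw [hBt]; linarith
      · rw [hCt]
        exact le_mul_of_one_le_left hC'p.le (one_le_mul_of_one_le_of_one_le hCg1 hC01)
    -- decompose
    set T' : Finset (∀ i : Fin n, G i.succ) := T.image Fin.tail with hT'
    have hT'sub : T' ⊆ Fintype.piFinset (fun i : Fin n => S i.succ M) := by
      intro P hP
      obtain ⟨Q, hQ, rfl⟩ := Finset.mem_image.mp hP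
      rw [Fintype.mem_piFinset]
      intro i
      exact Fintype.mem_piFinset.mp (hT hQ) i.succ
    set fib : (∀ i : Fin n, G i.succ) → Finset (G 0) := fun P' =>
      (T.filter fun P => Fin.tail P = P').image fun P => P 0 with hfib
    have hfibcard : ∀ P', (T.filter fun P => Fin.tail P = P').card = (fib P').card := by
      intro P'
      rw [hfib, Finset.card_image_of_injOn]
      intro P hP Q hQ hPQ
      have hP1 := (Finset.mem_filter.mp (Finset.mem_coe.mp hP)).2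
      have hQ1 := (Finset.mem_filter.mp (Finset.mem_coe.mp hQ)).2
      rw [← Fin.cons_self_tail P, ← Fin.cons_self_tail Q, hP1, hQ1]
      congr 1
    have hfibsub : ∀ P', fib P' ⊆ S 0 M := by
      intro P' X hX
      obtain ⟨P, hP, rfl⟩ := Finset.mem_image.mp hX
      exact Fintype.mem_piFinset.mp (hT (Finset.mem_filter.mp hP).1) 0
    have hcardT : T.card = ∑ P' ∈ T', (fib P').card := by
      rw [Finset.card_eq_sum_card_image Fin.tail T]
      exact Finset.sum_congr rfl fun P' _ => hfibcard P'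
    have hclf : ∀ P' ∈ T', ∀ X ∈ fib P',
        cl 𝓟 v f (Fin.cons ((𝓧 0).ξ X) (q P') : Fin (n + 1) → Fin 2 → K) <
          Real.exp (-(Bt * ℓ v A + Real.log Ct)) := by
      intro P' _ X hX
      obtain ⟨P, hP, rfl⟩ := Finset.mem_image.mp hX
      obtain ⟨hPT, hPP'⟩ := Finset.mem_filter.mp hP
      have h1 := hcl P hPT
      rw [hconsP, hPP'] at h1
      exact h1
    have hnm0 : ∀ X : G 0, 0 < nm 𝓟 v ((𝓧 0).ξ X) := fun X =>
      zero_lt_one.trans_le ((𝓧 0).one_le_nm v X)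
    have hnmq : ∀ P' i, 0 < nm 𝓟 v (q P' i) := fun P' i =>
      zero_lt_one.trans_le ((𝓧 i.succ).one_le_nm v (P' i))
    set T₁ := T'.filter fun P' => cl 𝓟 v g (q P') <
      Real.exp (-(Bg * ℓ v A + Real.log (Cg v))) with hT₁
    set T₂ := T'.filter fun P' => ¬ cl 𝓟 v g (q P') <
      Real.exp (-(Bg * ℓ v A + Real.log (Cg v))) with hT₂
    have hsplit : (T.card : ℝ) = ∑ P' ∈ T₁, ((fib P').card : ℝ) +
        ∑ P' ∈ T₂, ((fib P').card : ℝ) := by
      rw [hcardT, hT₁, hT₂, Finset.sum_filter_add_sum_filter_not]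
      push_cast
      rfl
    have hT₁card : (A : ℝ) ^ ((c + 1) * r) * (T₁.card : ℝ) ≤ Bg * (M : ℝ) ^ ρ' := by
      apply hg v M A hA hAM T₁ ((Finset.filter_subset _ _).trans hT'sub)
      intro P hP
      exact (Finset.mem_filter.mp hP).2
    have hT₂card : (A : ℝ) ^ (c * r) * (T₂.card : ℝ) ≤ B' * (M : ℝ) ^ ρ' := by
      apply h' v M A hA hAM T₂ ((Finset.filter_subset _ _).trans hT'sub)
      intro P' hP'
      have hP'1 := (Finset.mem_filter.mp hP').1
      obtain ⟨P, hP, hPP'⟩ := Finset.mem_image.mp hP'1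
      refine ⟨(𝓧 0).ξ (P 0), hnm0 _, ?_⟩
      have h1 := hcl P hP
      rw [hconsP, hPP'] at h1
      exact h1.trans_le ht2
    have hfib2 : ∀ P' ∈ T₂, (A : ℝ) ^ r * ((fib P').card : ℝ) ≤ B0 * (M : ℝ) ^ (ρ 0) := by
      intro P' hP'
      obtain ⟨hP'1, hP'2⟩ := Finset.mem_filter.mp hP'
      rw [not_lt] at hP'2
      have hclg : 0 < cl 𝓟 v g (q P') := (Real.exp_pos _).trans_le hP'2
      have hne : ∃ jk : J × Fin (D + 1), tev (sl (f jk.1) jk.2) (q P') ≠ 0 := by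
        by_contra! hcon
        have : cl 𝓟 v g (q P') = 0 := by
          have h1 : ∀ jk, hval 𝓟 v (g jk) (q P') = 0 := by
            intro jk
            rw [hval, hgdef]
            simp only [hcon jk, map_zero, zero_div]
          rw [cl]
          simp only [h1]
          exact Real.iSup_const_zero
        rw [this] at hclg
        exact lt_irrefl _ hclg
      obtain ⟨cc, hcc, hb⟩ := exists_coef (𝓟 := 𝓟) f v (q P') (hnmq P') hne
      apply h0 v cc hcc M A hA hAM (fib P') (hfibsub P')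
      intro X hX
      have h1 := hb ((𝓧 0).ξ X) (hnm0 X)
      have h2 := hclf P' hP'1 X hX
      by_contra! hcon
      have h3 : Real.exp (-(B0 * ℓ v A + Real.log (C0 v))) *
          Real.exp (-(Bg * ℓ v A + Real.log (Cg v))) ≤
          bval 𝓟 v cc ((𝓧 0).ξ X) * cl 𝓟 v g (q P') :=
        mul_le_mul hcon hP'2 (Real.exp_pos _).le ((Real.exp_pos _).le.trans hcon)
      linarith
    have hρsum : ∑ i, ρ i = ρ 0 + ρ' := by rw [Fin.sum_univ_succ]
    have hpart1 : (A : ℝ) ^ ((c + 1) * r) * ∑ P' ∈ T₁, ((fib P').card : ℝ) ≤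
        C₆ * Bg * ((M : ℝ) ^ (ρ 0) * (M : ℝ) ^ ρ') := by
      calc _ ≤ (A : ℝ) ^ ((c + 1) * r) * ∑ _P' ∈ T₁, C₆ * (M : ℝ) ^ (ρ 0) := by
            gcongr with P' hP'
            refine le_trans ?_ (hcard0 M hM1)
            exact_mod_cast Finset.card_le_card (hfibsub P')
        _ = ((A : ℝ) ^ ((c + 1) * r) * (T₁.card : ℝ)) * (C₆ * (M : ℝ) ^ (ρ 0)) := by
            rw [Finset.sum_const, nsmul_eq_mul]
            ring
        _ ≤ (Bg * (M : ℝ) ^ ρ') * (C₆ * (M : ℝ) ^ (ρ 0)) := by gcongr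
        _ = _ := by ring
    have hpart2 : (A : ℝ) ^ ((c + 1) * r) * ∑ P' ∈ T₂, ((fib P').card : ℝ) ≤
        B' * B0 * ((M : ℝ) ^ (ρ 0) * (M : ℝ) ^ ρ') := by
      calc _ = (A : ℝ) ^ (c * r) * ∑ P' ∈ T₂, (A : ℝ) ^ r * ((fib P').card : ℝ) := by
            rw [← Finset.mul_sum, ← mul_assoc, ← pow_add]
            congr 2
            ring
        _ ≤ (A : ℝ) ^ (c * r) * ∑ _P' ∈ T₂, B0 * (M : ℝ) ^ (ρ 0) :=
            mul_le_mul_of_nonneg_left (Finset.sum_le_sum fun P' hP' => hfib2 P' hP')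
              (by positivity)
        _ = ((A : ℝ) ^ (c * r) * (T₂.card : ℝ)) * (B0 * (M : ℝ) ^ (ρ 0)) := by
            rw [Finset.sum_const, nsmul_eq_mul]
            ring
        _ ≤ (B' * (M : ℝ) ^ ρ') * (B0 * (M : ℝ) ^ (ρ 0)) := by gcongr
        _ = _ := by ring
    calc (A : ℝ) ^ ((c + 1) * r) * (T.card : ℝ) =
          (A : ℝ) ^ ((c + 1) * r) * ∑ P' ∈ T₁, ((fib P').card : ℝ) +
          (A : ℝ) ^ ((c + 1) * r) * ∑ P' ∈ T₂, ((fib P').card : ℝ) := by
          rw [hsplit, mul_add]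
      _ ≤ C₆ * Bg * ((M : ℝ) ^ (ρ 0) * (M : ℝ) ^ ρ') +
          B' * B0 * ((M : ℝ) ^ (ρ 0) * (M : ℝ) ^ ρ') := add_le_add hpart1 hpart2
      _ = (C₆ * Bg + B' * B0) * (M : ℝ) ^ (∑ i, ρ i) := by
          rw [hρsum, pow_add]
          ring
      _ ≤ _ := by
          apply mul_le_mul_of_nonneg_right _ (by positivity)
          rw [hBt]
          linarith

end

end Pool.Agent.AG
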