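import Mathlib
import Pool.Agent.AG.Local

/-! # The contribution of the closest points (module Tail) -/

set_option autoImplicit false

namespace Pool.Agent.AG

section

variable {K : Type*} [Field K] {ι : Type*} {𝓟 : PlSys K ι}

lemma loc_nonneg' (v : ι) {n D : ℕ} {J : Type*} (f : J → Ten K n D) (p : Fin n → Fin 2 → K) :
    0 ≤ loc 𝓟 v f p := le_max_left _ _

lemma cl_eq_zero (v : ι) {n D : ℕ} {J : Type*} (f : J → Ten K n D) (p : Fin n → Fin 2 → K)
    (h : ∀ j, tev (f j) p = 0) : cl 𝓟 v f p = 0 := by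
  have h1 : ∀ j, hval 𝓟 v (f j) p = 0 := by
    intro j
    rw [hval, h j, map_zero, zero_div]
  rw [cl]
  simp only [h1]
  exact Real.iSup_const_zero

lemma cl_pos (v : ι) {n D : ℕ} {J : Type*} [Finite J] (f : J → Ten K n D)
    (p : Fin n → Fin 2 → K) (hp : ∀ i, 0 < nm 𝓟 v (p i)) (h : ∃ j, tev (f j) p ≠ 0) :
    0 < cl 𝓟 v f p := by
  obtain ⟨j, hj⟩ := h
  exact (div_pos ((𝓟.av v).pos hj) (Finset.prod_pos fun i _ => pow_pos (hp i) _)).trans_le
    (hval_le_cl v f p j)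

/-- The bound for one point. -/
theorem exists_point_le' {n D : ℕ} {J : Type*} [Finite J] (f : J → Ten K n D)
    {G : Fin n → Type*} [∀ i, AddCommGroup (G i)] {r : ℕ} {ℓ : ι → ℕ → ℝ}
    (𝓧 : ∀ i, XSys 𝓟 (G i)) (S : ∀ i, ℕ → Finset (G i))
    (ρ : Fin n → ℕ) (hS : ∀ i, Lvs (𝓧 i) (S i) (ρ i) r ℓ) :
    ∃ C : ℝ, 0 ≤ C ∧ ∀ M : ℕ, 1 ≤ M → ∀ P ∈ Fintype.piFinset (fun i => S i M),
      ∀ V : Finset ι, ∑ v ∈ V, 𝓟.w v * loc 𝓟 v f (fun i => (𝓧 i).ξ (P i)) ≤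
        C * (M : ℝ) ^ 2 := by
  classical
  have := Fintype.ofFinite J
  have h1 := fun i => (hS i).height
  choose B hB0 hB using h1
  have h2 := fun j => exists_sum_neg_log_le 𝓟 (f j)
  choose κ hκ0 hκ using h2
  refine ⟨D * ∑ i, B i + ∑ j, κ j, add_nonneg (mul_nonneg (Nat.cast_nonneg _)
    (Finset.sum_nonneg fun i _ => hB0 i)) (Finset.sum_nonneg fun j _ => hκ0 j), ?_⟩
  intro M hM P hP V
  have hMr : (1 : ℝ) ≤ M := by exact_mod_cast hM
  have hM2 : (1 : ℝ) ≤ (M : ℝ) ^ 2 := one_le_pow₀ hMr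
  have hsB : 0 ≤ ∑ i, B i := Finset.sum_nonneg fun i _ => hB0 i
  have hsκ : 0 ≤ ∑ j, κ j := Finset.sum_nonneg fun j _ => hκ0 j
  by_cases hz : ∀ j, tev (f j) (fun i => (𝓧 i).ξ (P i)) = 0
  · have h3 : ∀ v, loc 𝓟 v f (fun i => (𝓧 i).ξ (P i)) = 0 := by
      intro v
      rw [loc_eq, cl_eq_zero v f _ hz, Real.log_zero, neg_zero, max_self]
    simp only [h3, mul_zero, Finset.sum_const_zero]
    positivity
  · push Not at hz
    obtain ⟨j, hj⟩ := hz
    have h3 := hκ j (fun i => (𝓧 i).ξ (P i)) (fun i => (𝓧 i).H.h (P i))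
      (fun v i => (𝓧 i).one_le_nm v (P i)) (fun i => (𝓧 i).ξ_fin (P i))
      (fun i V hV => (𝓧 i).ht (P i) V hV) hj V
    have h4 : ∀ v, loc 𝓟 v f (fun i => (𝓧 i).ξ (P i)) ≤
        max 0 (-Real.log (hval 𝓟 v (f j) (fun i => (𝓧 i).ξ (P i)))) := by
      intro v
      rw [loc_eq]
      apply max_le_max le_rfl
      apply neg_le_neg
      apply Real.log_le_log
      · exact div_pos ((𝓟.av v).pos hj) (Finset.prod_pos fun i _ =>
          pow_pos (zero_lt_one.trans_le ((𝓧 i).one_le_nm v (P i))) _)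
      · exact hval_le_cl v f _ j
    have h5 : ∑ i, (𝓧 i).H.h (P i) ≤ (∑ i, B i) * (M : ℝ) ^ 2 := by
      rw [Finset.sum_mul]
      exact Finset.sum_le_sum fun i _ => hB i M hM (P i) (Fintype.mem_piFinset.mp hP i)
    calc ∑ v ∈ V, 𝓟.w v * loc 𝓟 v f (fun i => (𝓧 i).ξ (P i)) ≤
          ∑ v ∈ V, 𝓟.w v * max 0 (-Real.log (hval 𝓟 v (f j) (fun i => (𝓧 i).ξ (P i)))) :=
          Finset.sum_le_sum fun v _ => mul_le_mul_of_nonneg_left (h4 v) (𝓟.w_nonneg v)
      _ ≤ D * ∑ i, (𝓧 i).H.h (P i) + κ j := h3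
      _ ≤ D * ((∑ i, B i) * (M : ℝ) ^ 2) + ∑ j, κ j := by
          gcongr
          exact Finset.single_le_sum (f := κ) (fun j _ => hκ0 j) (Finset.mem_univ j)
      _ ≤ D * ((∑ i, B i) * (M : ℝ) ^ 2) + (∑ j, κ j) * (M : ℝ) ^ 2 := by
          gcongr
          exact le_mul_of_one_le_right hsκ hM2
      _ = _ := by ring

/-- The part of `loc` above a threshold. -/
noncomputable def exc (𝓟 : PlSys K ι) (ℓ : ι → ℕ → ℝ) (B : ℝ) (C : ι → ℝ) (A : ℕ) (v : ι)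
    {n D : ℕ} {J : Type*} (f : J → Ten K n D) (p : Fin n → Fin 2 → K) : ℝ :=
  max 0 (loc 𝓟 v f p - (B * ℓ v A + Real.log (C v)))

lemma exc_nonneg {ℓ : ι → ℕ → ℝ} {B : ℝ} {C : ι → ℝ} {A : ℕ} {v : ι}
    {n D : ℕ} {J : Type*} (f : J → Ten K n D) (p : Fin n → Fin 2 → K) :
    0 ≤ exc 𝓟 ℓ B C A v f p := le_max_left _ _

lemma exc_le_loc {r : ℕ} {ℓ : ι → ℕ → ℝ} (hℓ : IsLev 𝓟 r ℓ) {B : ℝ} {C : ι → ℝ} (hB : 0 ≤ B)
    (hC : IsCst C) {A : ℕ} {v : ι}
    {n D : ℕ} {J : Type*} (f : J → Ten K n D) (p : Fin n → Fin 2 → K) :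
    exc 𝓟 ℓ B C A v f p ≤ loc 𝓟 v f p := by
  have h1 := loc_nonneg' (𝓟 := 𝓟) v f p
  have h2 : 0 ≤ B * ℓ v A + Real.log (C v) :=
    add_nonneg (mul_nonneg hB (hℓ.nonneg v A)) (Real.log_nonneg (hC.1 v))
  exact max_le h1 (by linarith)

/-- The pointwise inequality for the tail. -/
theorem exc_step {n D N : ℕ} {J : Type*} [Finite J] (f : J → Ten K (n + 1) D)
    (h : Fin N → Ten K n D) {v : ι} {ℓ : ι → ℕ → ℝ} {A : ℕ} (hℓ0 : 0 ≤ ℓ v A)
    {p : Fin n → Fin 2 → K} (hp : ∀ i, 0 < nm 𝓟 v (p i)) (hhp : ∃ j, tev (h j) p ≠ 0)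
    {B Bg B0 Bh : ℝ} {C Cg C0 Ch Ce : ι → ℝ} (hCg : 1 ≤ Cg v) (hC0 : 1 ≤ C0 v)
    (hCh : 1 ≤ Ch v) (hCe : 1 ≤ Ce v) (hBg0 : 0 ≤ Bg) (hB00 : 0 ≤ B0) (hBh0 : 0 ≤ Bh)
    (hB : Bg + B0 + Bh ≤ B) (hC : Cg v * C0 v * Ch v * Ce v ≤ C v)
    (helim : ∀ x : Fin 2 → K, 0 < nm 𝓟 v x →
      cl 𝓟 v h p ≤ Ce v * cl 𝓟 v f (Fin.cons x p : Fin (n + 1) → Fin 2 → K)) :
    ∃ c : Fin (D + 1) → K, c ≠ 0 ∧ ∀ x : Fin 2 → K, 0 < nm 𝓟 v x →
      exc 𝓟 ℓ B C A v f (Fin.cons x p : Fin (n + 1) → Fin 2 → K) ≤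
        exc 𝓟 ℓ Bg Cg A v (fun jk : J × Fin (D + 1) => sl (f jk.1) jk.2) p ∨
      (bval 𝓟 v c x < Real.exp (-(B0 * ℓ v A + Real.log (C0 v))) ∧
        exc 𝓟 ℓ B C A v f (Fin.cons x p : Fin (n + 1) → Fin 2 → K) ≤
          exc 𝓟 ℓ Bh Ch A v h p) := by
  have hCgp : 0 < Cg v := by linarith
  have hC0p : 0 < C0 v := by linarith
  have hChp : 0 < Ch v := by linarith
  have hCep : 0 < Ce v := by linarith
  have hclh : 0 < cl 𝓟 v h p := cl_pos v h p hp hhp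
  have hclf : ∀ x : Fin 2 → K, 0 < nm 𝓟 v x →
      0 < cl 𝓟 v f (Fin.cons x p : Fin (n + 1) → Fin 2 → K) := by
    intro x hx
    have h1 := helim x hx
    by_contra! hcon
    have h2 : Ce v * cl 𝓟 v f (Fin.cons x p : Fin (n + 1) → Fin 2 → K) ≤ 0 :=
      mul_nonpos_of_nonneg_of_nonpos hCep.le hcon
    linarith
  have hne : ∃ jk : J × Fin (D + 1), tev (sl (f jk.1) jk.2) p ≠ 0 := by
    by_contra! hcon
    have h1 := hclf ![0, 1] (by unfold nm; simp)
    rw [cl_eq_zero] at h1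
    · exact lt_irrefl _ h1
    · intro j
      rw [tev_succ, bf]
      apply Finset.sum_eq_zero
      intro k _
      rw [hcon (j, k), zero_mul]
  obtain ⟨c, hc, hcx⟩ := exists_coef (𝓟 := 𝓟) f v p hp hne
  refine ⟨c, hc, fun x hx => ?_⟩
  have hclg : 0 < cl 𝓟 v (fun jk : J × Fin (D + 1) => sl (f jk.1) jk.2) p :=
    cl_pos v _ p hp hne
  have hfx := hclf x hx
  have hlogC : Real.log (Cg v) + Real.log (C0 v) + Real.log (Ch v) + Real.log (Ce v) ≤
      Real.log (C v) := by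
    rw [← Real.log_mul hCgp.ne' hC0p.ne', ← Real.log_mul (by positivity) hChp.ne',
      ← Real.log_mul (by positivity) hCep.ne']
    exact Real.log_le_log (by positivity) hC
  have l1 := Real.log_nonneg hCg
  have l2 := Real.log_nonneg hC0
  have l3 := Real.log_nonneg hCh
  have l4 := Real.log_nonneg hCe
  have hBl : Bg * ℓ v A + B0 * ℓ v A + Bh * ℓ v A ≤ B * ℓ v A := by
    have := mul_le_mul_of_nonneg_right hB hℓ0
    linarith
  have m1 := mul_nonneg hBg0 hℓ0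
  have m2 := mul_nonneg hB00 hℓ0
  have m3 := mul_nonneg hBh0 hℓ0
  rcases le_or_gt (Real.exp (-(B0 * ℓ v A + Real.log (C0 v)))) (bval 𝓟 v c x) with hb | hb
  · left
    have hbpos : 0 < bval 𝓟 v c x := (Real.exp_pos _).trans_le hb
    have h1 := hcx x hx
    have h2 := Real.log_le_log (mul_pos hbpos hclg) h1
    rw [Real.log_mul hbpos.ne' hclg.ne'] at h2
    have h3 := Real.log_le_log (Real.exp_pos _) hb
    rw [Real.log_exp] at h3
    have h4 : -Real.log (cl 𝓟 v (fun jk : J × Fin (D + 1) => sl (f jk.1) jk.2) p) ≤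
      loc 𝓟 v (fun jk : J × Fin (D + 1) => sl (f jk.1) jk.2) p := le_max_right _ _
    have h5 := loc_nonneg' (𝓟 := 𝓟) v (fun jk : J × Fin (D + 1) => sl (f jk.1) jk.2) p
    have h6 : loc 𝓟 v f (Fin.cons x p : Fin (n + 1) → Fin 2 → K) ≤
        B0 * ℓ v A + Real.log (C0 v) +
          loc 𝓟 v (fun jk : J × Fin (D + 1) => sl (f jk.1) jk.2) p := by
      rw [loc_eq]
      apply max_le
      · positivity
      · linarith
    unfold exc
    apply max_le_max le_rfl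
    linarith
  · right
    refine ⟨hb, ?_⟩
    have h1 := helim x hx
    have h2 := Real.log_le_log hclh h1
    rw [Real.log_mul hCep.ne' hfx.ne'] at h2
    have h4 : -Real.log (cl 𝓟 v h p) ≤ loc 𝓟 v h p := le_max_right _ _
    have h5 := loc_nonneg' (𝓟 := 𝓟) v h p
    have h6 : loc 𝓟 v f (Fin.cons x p : Fin (n + 1) → Fin 2 → K) ≤
        Real.log (Ce v) + loc 𝓟 v h p := by
      rw [loc_eq]
      apply max_le
      · positivity
      · linarith
    unfold exc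
    apply max_le_max le_rfl
    linarith

theorem exists_tail [Nonempty ι] {r : ℕ} {ℓ : ι → ℕ → ℝ} (hℓ : IsLev 𝓟 r ℓ) {D : ℕ} {n : ℕ}
    {G : Fin n → Type*} [∀ i, AddCommGroup (G i)] (𝓧 : ∀ i, XSys 𝓟 (G i))
    (S : ∀ i, ℕ → Finset (G i)) (ρ : Fin n → ℕ) (hS : ∀ i, Lvs (𝓧 i) (S i) (ρ i) r ℓ)
    {c : ℕ} {J : Type} [Finite J] (f : J → Ten K n D) (hf : BigC c f) :
    ∃ (C : ι → ℝ) (B : ℝ), IsCst C ∧ 0 ≤ B ∧ ∀ M : ℕ, 1 ≤ M → ∀ V : Finset ι,
      (M : ℝ) ^ (c * r) * ∑ P ∈ Fintype.piFinset (fun i => S i M), ∑ v ∈ V, 𝓟.w v *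
        exc 𝓟 ℓ B C (2 ^ Nat.log 2 M) v f (fun i => (𝓧 i).ξ (P i)) ≤
        B * (M : ℝ) ^ (∑ i, ρ i + 2) := by
  classical
  induction n generalizing c J with
  | zero =>
    obtain ⟨j, hj⟩ := hf.exists_ne_zero
    have hj' : f j (fun i => i.elim0) ≠ 0 := by
      intro h
      apply hj
      funext e
      rw [show e = fun i => i.elim0 from funext fun i => i.elim0]
      exact h
    obtain ⟨C, hC, hCge⟩ := exists_av_ge 𝓟 hj'
    refine ⟨C, 0, hC, le_rfl, ?_⟩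
    intro M hM V
    have h0 : ∀ P ∈ Fintype.piFinset (fun i => S i M), ∑ v ∈ V, 𝓟.w v *
        exc 𝓟 ℓ 0 C (2 ^ Nat.log 2 M) v f (fun i => (𝓧 i).ξ (P i)) = 0 := by
      intro P _
      apply Finset.sum_eq_zero
      intro v _
      have hC0 := hC.pos v
      have h2 : 𝓟.av v (f j fun i => i.elim0) ≤ cl 𝓟 v f (fun i => (𝓧 i).ξ (P i)) := by
        refine le_trans ?_ (hval_le_cl v f _ j)
        rw [hval, tev_zero_dim, Finset.univ_eq_empty, Finset.prod_empty, div_one]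
      have h4 : (C v)⁻¹ ≤ cl 𝓟 v f (fun i => (𝓧 i).ξ (P i)) := by
        refine le_trans ?_ h2
        rw [inv_le_iff_one_le_mul₀ hC0]
        have := hCge v
        linarith
      have h5 := Real.log_le_log (inv_pos.mpr hC0) h4
      rw [Real.log_inv] at h5
      have h6 : exc 𝓟 ℓ 0 C (2 ^ Nat.log 2 M) v f (fun i => (𝓧 i).ξ (P i)) = 0 := by
        unfold exc
        apply max_eq_left
        have h7 := Real.log_nonneg (hC.1 v)
        have h8 : loc 𝓟 v f (fun i => (𝓧 i).ξ (P i)) ≤ Real.log (C v) := by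
          rw [loc_eq]
          exact max_le h7 (by linarith)
        linarith
      rw [h6, mul_zero]
    rw [Finset.sum_congr rfl h0, Finset.sum_const_zero, mul_zero, zero_mul]
  | succ n ih =>
    obtain ⟨C₃, hC₃0, hpt⟩ := exists_point_le' f 𝓧 S ρ hS
    obtain ⟨C₆, hC₆0, hcard0⟩ := (hS 0).card
    cases c with
    | zero =>
      obtain ⟨C₅, hC₅0, hcard⟩ := exists_card_le' 𝓧 S ρ hS
      refine ⟨fun _ => 1, C₅ * C₃, isCst_one, by positivity, ?_⟩
      intro M hM V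
      rw [zero_mul, pow_zero, one_mul]
      calc _ ≤ ∑ _P ∈ Fintype.piFinset (fun i => S i M), C₃ * (M : ℝ) ^ 2 := by
            refine Finset.sum_le_sum fun P hP => le_trans ?_ (hpt M hM P hP V)
            exact Finset.sum_le_sum fun v _ => mul_le_mul_of_nonneg_left
              (exc_le_loc hℓ (by positivity) isCst_one f _) (𝓟.w_nonneg v)
        _ = (Fintype.piFinset (fun i => S i M)).card * (C₃ * (M : ℝ) ^ 2) := by
            rw [Finset.sum_const, nsmul_eq_mul]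
        _ ≤ (C₅ * (M : ℝ) ^ (∑ i, ρ i)) * (C₃ * (M : ℝ) ^ 2) := by
            gcongr
            exact hcard M hM
        _ = _ := by rw [pow_add]; ring
    | succ c =>
      obtain ⟨Cg, Bg, hCg, hBg0, hg⟩ := ih (fun i => 𝓧 i.succ) (fun i => S i.succ)
        (fun i => ρ i.succ) (fun i => hS i.succ) _ hf.sl
      obtain ⟨N, h, hBig, hh⟩ := hf.exists_family
      obtain ⟨Ch, Bh, hCh, hBh0, hht⟩ := ih (fun i => 𝓧 i.succ) (fun i => S i.succ)
        (fun i => ρ i.succ) (fun i => hS i.succ) h hBig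
      obtain ⟨Cl, Bl, hCl, hBl0, hloc⟩ := exists_local hℓ (fun i => 𝓧 i.succ)
        (fun i => S i.succ) (fun i => ρ i.succ) (fun i => hS i.succ) h hBig
      obtain ⟨Ce, hCe, hcle⟩ := exists_elim (𝓟 := 𝓟) f h hh
      obtain ⟨C0, B0, hC0, hB00, hclose⟩ := (hS 0).close D
      set g : J × Fin (D + 1) → Ten K n D := fun jk => sl (f jk.1) jk.2 with hgdef
      set q : (∀ i : Fin n, G i.succ) → Fin n → Fin 2 → K :=
        fun P i => (𝓧 i.succ).ξ (P i) with hq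
      set ρ' : ℕ := ∑ i : Fin n, ρ i.succ with hρ'
      have hρsum : ∑ i, ρ i = ρ 0 + ρ' := by rw [Fin.sum_univ_succ]
      set E : ℝ := C₆ * Bg + 2 ^ r * B0 * Bh + 2 ^ ((c + 1) * r) * Bl * C₆ * C₃ with hE
      have hE0 : 0 ≤ E := by positivity
      refine ⟨fun v => Cg v * C0 v * Ch v * Ce v, Bg + B0 + Bh + E,
        (((hCg.mul hC0).mul hCh).mul hCe), by positivity, ?_⟩
      intro M hM V
      have hMr : (1 : ℝ) ≤ M := by exact_mod_cast hM
      have hM0 : (0 : ℝ) < M := by linarith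
      set I : ℕ := Nat.log 2 M with hI
      set A : ℕ := 2 ^ I with hA
      have hA1 : 1 ≤ A := Nat.one_le_two_pow
      have hAM : A ≤ M := Nat.pow_log_le_self 2 (by omega)
      have hMA : (M : ℝ) ≤ 2 * A := by
        have h1 : M < 2 ^ (I + 1) := Nat.lt_pow_succ_log_self (by norm_num) _
        have h2 : M ≤ 2 * A := by
          rw [hA]
          rw [pow_succ] at h1
          omega
        exact_mod_cast h2
      set Bt : ℝ := Bg + B0 + Bh + E with hBt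
      set Ct : ι → ℝ := fun v => Cg v * C0 v * Ch v * Ce v with hCt
      have hCtc : IsCst Ct := ((hCg.mul hC0).mul hCh).mul hCe
      have hBt0 : 0 ≤ Bt := by positivity
      set 𝒮 : Finset (∀ i : Fin n, G i.succ) := Fintype.piFinset (fun i : Fin n => S i.succ M)
        with h𝒮
      have hcons : ∀ (x : G 0) (P : ∀ i : Fin n, G i.succ),
          (fun i => (𝓧 i).ξ ((Fin.cons x P : ∀ i, G i) i)) =
            (Fin.cons ((𝓧 0).ξ x) (q P) : Fin (n + 1) → Fin 2 → K) := by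
        intro x P
        funext i
        refine Fin.cases ?_ (fun i => ?_) i
        · rfl
        · rfl
      have hnm0 : ∀ v (X : G 0), 0 < nm 𝓟 v ((𝓧 0).ξ X) := fun v X =>
        zero_lt_one.trans_le ((𝓧 0).one_le_nm v X)
      have hnmq : ∀ v P' i, 0 < nm 𝓟 v (q P' i) := fun v P' i =>
        zero_lt_one.trans_le ((𝓧 i.succ).one_le_nm v (P' i))
      rw [sum_piFinset_succ, Finset.sum_comm]
      change _ * ∑ P ∈ 𝒮, _ ≤ _
      rw [← Finset.sum_filter_add_sum_filter_not 𝒮 (fun P => ∃ j, tev (h j) (q P) ≠ 0), mul_add]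
      -- good points
      have hgoodP : ∀ P ∈ 𝒮.filter (fun P => ∃ j, tev (h j) (q P) ≠ 0),
          ∑ x ∈ S 0 M, ∑ v ∈ V, 𝓟.w v * exc 𝓟 ℓ Bt Ct A v f
            (fun i => (𝓧 i).ξ ((Fin.cons x P : ∀ i, G i) i)) ≤
          C₆ * (M : ℝ) ^ (ρ 0) * (∑ v ∈ V, 𝓟.w v * exc 𝓟 ℓ Bg Cg A v g (q P)) +
            ∑ v ∈ V, 𝓟.w v * ((B0 * (M : ℝ) ^ (ρ 0) / (A : ℝ) ^ r) *
              exc 𝓟 ℓ Bh Ch A v h (q P)) := by
        intro P hP
        obtain ⟨hP1, hP2⟩ := Finset.mem_filter.mp hP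
        rw [Finset.sum_comm, Finset.mul_sum, ← Finset.sum_add_distrib]
        refine Finset.sum_le_sum fun v _ => ?_
        rw [← Finset.mul_sum]
        obtain ⟨cc, hcc, hccx⟩ := exc_step (𝓟 := 𝓟) (B := Bt) (C := Ct) f h (hℓ.nonneg v A)
          (hnmq v P) hP2 (hCg.1 v) (hC0.1 v) (hCh.1 v) (hCe.1 v) hBg0 hB00 hBh0
          (by rw [hBt]; linarith) le_rfl (fun x hx => hcle v (q P) x hx)
        set T := (S 0 M).filter fun x => bval 𝓟 v cc ((𝓧 0).ξ x) <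
          Real.exp (-(B0 * ℓ v A + Real.log (C0 v))) with hT
        have hTc := hclose v cc hcc M A hA1 hAM T (Finset.filter_subset _ _)
          (fun X hX => (Finset.mem_filter.mp hX).2)
        have hArpos : (0 : ℝ) < (A : ℝ) ^ r := by positivity
        have hTc' : (T.card : ℝ) ≤ B0 * (M : ℝ) ^ (ρ 0) / (A : ℝ) ^ r := by
          rw [le_div_iff₀ hArpos]
          linarith
        have hpw : ∀ x ∈ S 0 M, exc 𝓟 ℓ Bt Ct A v f
            (fun i => (𝓧 i).ξ ((Fin.cons x P : ∀ i, G i) i)) ≤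
            exc 𝓟 ℓ Bg Cg A v g (q P) +
              (if bval 𝓟 v cc ((𝓧 0).ξ x) < Real.exp (-(B0 * ℓ v A + Real.log (C0 v))) then
                exc 𝓟 ℓ Bh Ch A v h (q P) else 0) := by
          intro x _
          rw [hcons]
          have hg0 := exc_nonneg (𝓟 := 𝓟) (ℓ := ℓ) (B := Bg) (C := Cg) (A := A) (v := v) g (q P)
          have hh0 := exc_nonneg (𝓟 := 𝓟) (ℓ := ℓ) (B := Bh) (C := Ch) (A := A) (v := v) h (q P)
          rcases hccx ((𝓧 0).ξ x) (hnm0 v x) with h1 | ⟨h1, h2⟩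
          · split_ifs
            · linarith
            · linarith
          · rw [if_pos h1]
            linarith
        calc 𝓟.w v * ∑ x ∈ S 0 M, exc 𝓟 ℓ Bt Ct A v f
              (fun i => (𝓧 i).ξ ((Fin.cons x P : ∀ i, G i) i)) ≤
            𝓟.w v * ∑ x ∈ S 0 M, (exc 𝓟 ℓ Bg Cg A v g (q P) +
              (if bval 𝓟 v cc ((𝓧 0).ξ x) < Real.exp (-(B0 * ℓ v A + Real.log (C0 v))) then
                exc 𝓟 ℓ Bh Ch A v h (q P) else 0)) :=
              mul_le_mul_of_nonneg_left (Finset.sum_le_sum hpw) (𝓟.w_nonneg v)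
          _ = 𝓟.w v * ((S 0 M).card * exc 𝓟 ℓ Bg Cg A v g (q P) +
              T.card * exc 𝓟 ℓ Bh Ch A v h (q P)) := by
              rw [Finset.sum_add_distrib, Finset.sum_const, nsmul_eq_mul, ← Finset.sum_filter,
                Finset.sum_const, nsmul_eq_mul]
          _ ≤ 𝓟.w v * ((C₆ * (M : ℝ) ^ (ρ 0)) * exc 𝓟 ℓ Bg Cg A v g (q P) +
              (B0 * (M : ℝ) ^ (ρ 0) / (A : ℝ) ^ r) * exc 𝓟 ℓ Bh Ch A v h (q P)) := by
              apply mul_le_mul_of_nonneg_left _ (𝓟.w_nonneg v)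
              exact add_le_add (mul_le_mul_of_nonneg_right (hcard0 M hM) (exc_nonneg _ _))
                (mul_le_mul_of_nonneg_right hTc' (exc_nonneg _ _))
          _ = _ := by ring
      have hgood : (M : ℝ) ^ ((c + 1) * r) *
          ∑ P ∈ 𝒮.filter (fun P => ∃ j, tev (h j) (q P) ≠ 0),
            ∑ x ∈ S 0 M, ∑ v ∈ V, 𝓟.w v * exc 𝓟 ℓ Bt Ct A v f
              (fun i => (𝓧 i).ξ ((Fin.cons x P : ∀ i, G i) i)) ≤
          (C₆ * Bg + 2 ^ r * B0 * Bh) * (M : ℝ) ^ (∑ i, ρ i + 2) := by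
        have hArpos : (0 : ℝ) < (A : ℝ) ^ r := by positivity
        have hMAr : (M : ℝ) ^ r * (B0 * (M : ℝ) ^ (ρ 0) / (A : ℝ) ^ r) ≤
            2 ^ r * B0 * (M : ℝ) ^ (ρ 0) := by
          rw [mul_div_assoc', div_le_iff₀ hArpos]
          have h1 : (M : ℝ) ^ r ≤ 2 ^ r * (A : ℝ) ^ r := by
            rw [← mul_pow]
            exact pow_le_pow_left₀ hM0.le hMA r
          calc (M : ℝ) ^ r * (B0 * (M : ℝ) ^ (ρ 0)) ≤
                (2 ^ r * (A : ℝ) ^ r) * (B0 * (M : ℝ) ^ (ρ 0)) := by gcongr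
            _ = _ := by ring
        have hsub1 : ∑ P ∈ 𝒮.filter (fun P => ∃ j, tev (h j) (q P) ≠ 0),
            ∑ v ∈ V, 𝓟.w v * exc 𝓟 ℓ Bg Cg A v g (q P) ≤
            ∑ P ∈ 𝒮, ∑ v ∈ V, 𝓟.w v * exc 𝓟 ℓ Bg Cg A v g (q P) :=
          Finset.sum_le_sum_of_subset_of_nonneg (Finset.filter_subset _ _)
            fun P _ _ => Finset.sum_nonneg fun v _ => mul_nonneg (𝓟.w_nonneg v) (exc_nonneg _ _)
        have hsub2 : ∑ P ∈ 𝒮.filter (fun P => ∃ j, tev (h j) (q P) ≠ 0),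
            ∑ v ∈ V, 𝓟.w v * exc 𝓟 ℓ Bh Ch A v h (q P) ≤
            ∑ P ∈ 𝒮, ∑ v ∈ V, 𝓟.w v * exc 𝓟 ℓ Bh Ch A v h (q P) :=
          Finset.sum_le_sum_of_subset_of_nonneg (Finset.filter_subset _ _)
            fun P _ _ => Finset.sum_nonneg fun v _ => mul_nonneg (𝓟.w_nonneg v) (exc_nonneg _ _)
        have hg1 := hg M hM V
        have hh1 := hht M hM V
        have hMc : (0 : ℝ) < (M : ℝ) ^ ((c + 1) * r) := by positivity
        have hMc' : (0 : ℝ) < (M : ℝ) ^ (c * r) := by positivity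
        have hMcr : (M : ℝ) ^ ((c + 1) * r) = (M : ℝ) ^ (c * r) * (M : ℝ) ^ r := by
          rw [← pow_add]
          congr 1
          ring
        calc _ ≤ (M : ℝ) ^ ((c + 1) * r) *
            ∑ P ∈ 𝒮.filter (fun P => ∃ j, tev (h j) (q P) ≠ 0),
              (C₆ * (M : ℝ) ^ (ρ 0) * (∑ v ∈ V, 𝓟.w v * exc 𝓟 ℓ Bg Cg A v g (q P)) +
              ∑ v ∈ V, 𝓟.w v * ((B0 * (M : ℝ) ^ (ρ 0) / (A : ℝ) ^ r) *
                exc 𝓟 ℓ Bh Ch A v h (q P))) :=
              mul_le_mul_of_nonneg_left (Finset.sum_le_sum hgoodP) hMc.le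
          _ = C₆ * (M : ℝ) ^ (ρ 0) * ((M : ℝ) ^ ((c + 1) * r) *
              ∑ P ∈ 𝒮.filter (fun P => ∃ j, tev (h j) (q P) ≠ 0),
                ∑ v ∈ V, 𝓟.w v * exc 𝓟 ℓ Bg Cg A v g (q P)) +
              ((M : ℝ) ^ r * (B0 * (M : ℝ) ^ (ρ 0) / (A : ℝ) ^ r)) * ((M : ℝ) ^ (c * r) *
              ∑ P ∈ 𝒮.filter (fun P => ∃ j, tev (h j) (q P) ≠ 0),
                ∑ v ∈ V, 𝓟.w v * exc 𝓟 ℓ Bh Ch A v h (q P)) := by
              rw [Finset.sum_add_distrib, ← Finset.mul_sum, hMcr]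
              have e : ∑ P ∈ 𝒮.filter (fun P => ∃ j, tev (h j) (q P) ≠ 0),
                  ∑ v ∈ V, 𝓟.w v * ((B0 * (M : ℝ) ^ (ρ 0) / (A : ℝ) ^ r) *
                    exc 𝓟 ℓ Bh Ch A v h (q P)) =
                  (B0 * (M : ℝ) ^ (ρ 0) / (A : ℝ) ^ r) *
                  ∑ P ∈ 𝒮.filter (fun P => ∃ j, tev (h j) (q P) ≠ 0),
                  ∑ v ∈ V, 𝓟.w v * exc 𝓟 ℓ Bh Ch A v h (q P) := by
                simp only [Finset.mul_sum]
                exact Finset.sum_congr rfl fun P _ => Finset.sum_congr rfl fun v _ => by ring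
              rw [e]
              ring
          _ ≤ C₆ * (M : ℝ) ^ (ρ 0) * (Bg * (M : ℝ) ^ (ρ' + 2)) +
              (2 ^ r * B0 * (M : ℝ) ^ (ρ 0)) * (Bh * (M : ℝ) ^ (ρ' + 2)) := by
              apply add_le_add
              · apply mul_le_mul_of_nonneg_left _ (by positivity)
                exact (mul_le_mul_of_nonneg_left hsub1 hMc.le).trans hg1
              · apply mul_le_mul hMAr _ _ (by positivity)
                · exact (mul_le_mul_of_nonneg_left hsub2 hMc'.le).trans hh1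
                · exact mul_nonneg hMc'.le (Finset.sum_nonneg fun P _ =>
                    Finset.sum_nonneg fun v _ => mul_nonneg (𝓟.w_nonneg v) (exc_nonneg _ _))
          _ = _ := by
              rw [hρsum, add_assoc, pow_add (M : ℝ) (ρ 0)]
              ring
      -- bad points
      have hbad : (M : ℝ) ^ ((c + 1) * r) *
          ∑ P ∈ 𝒮.filter (fun P => ¬ ∃ j, tev (h j) (q P) ≠ 0),
            ∑ x ∈ S 0 M, ∑ v ∈ V, 𝓟.w v * exc 𝓟 ℓ Bt Ct A v f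
              (fun i => (𝓧 i).ξ ((Fin.cons x P : ∀ i, G i) i)) ≤
          2 ^ ((c + 1) * r) * Bl * C₆ * C₃ * (M : ℝ) ^ (∑ i, ρ i + 2) := by
        set bad := 𝒮.filter (fun P => ¬ ∃ j, tev (h j) (q P) ≠ 0) with hbaddef
        obtain ⟨v₀⟩ := ‹Nonempty ι›
        have hbc := hloc v₀ M A hA1 hAM bad (Finset.filter_subset _ _) (fun P hP => by
          have h1 := (Finset.mem_filter.mp hP).2
          push Not at h1
          rw [cl_eq_zero v₀ h _ h1]
          exact Real.exp_pos _)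
        have h3 : ∀ P ∈ bad, ∀ x ∈ S 0 M, ∑ v ∈ V, 𝓟.w v * exc 𝓟 ℓ Bt Ct A v f
            (fun i => (𝓧 i).ξ ((Fin.cons x P : ∀ i, G i) i)) ≤ C₃ * (M : ℝ) ^ 2 := by
          intro P hP x hx
          refine le_trans (Finset.sum_le_sum fun v _ => mul_le_mul_of_nonneg_left
            (exc_le_loc hℓ hBt0 hCtc f _) (𝓟.w_nonneg v)) (hpt M hM _ ?_ V)
          rw [Fintype.mem_piFinset]
          intro i
          refine Fin.cases ?_ (fun i => ?_) i
          · exact hx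
          · exact Fintype.mem_piFinset.mp (Finset.mem_filter.mp hP).1 i
        have hMbad : (M : ℝ) ^ ((c + 1) * r) * (bad.card : ℝ) ≤
            2 ^ ((c + 1) * r) * (Bl * (M : ℝ) ^ ρ') := by
          have h1 : (M : ℝ) ^ ((c + 1) * r) ≤ 2 ^ ((c + 1) * r) * (A : ℝ) ^ ((c + 1) * r) := by
            rw [← mul_pow]
            exact pow_le_pow_left₀ hM0.le hMA _
          calc _ ≤ (2 ^ ((c + 1) * r) * (A : ℝ) ^ ((c + 1) * r)) * (bad.card : ℝ) := by gcongr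
            _ = 2 ^ ((c + 1) * r) * ((A : ℝ) ^ ((c + 1) * r) * (bad.card : ℝ)) := by ring
            _ ≤ _ := by gcongr
        calc _ ≤ (M : ℝ) ^ ((c + 1) * r) * ∑ _P ∈ bad, ∑ _x ∈ S 0 M, C₃ * (M : ℝ) ^ 2 := by
              apply mul_le_mul_of_nonneg_left _ (by positivity)
              exact Finset.sum_le_sum fun P hP => Finset.sum_le_sum fun x hx => h3 P hP x hx
          _ = ((M : ℝ) ^ ((c + 1) * r) * (bad.card : ℝ)) * ((S 0 M).card * (C₃ * (M : ℝ) ^ 2)) := by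
              simp only [Finset.sum_const, nsmul_eq_mul]
              ring
          _ ≤ (2 ^ ((c + 1) * r) * (Bl * (M : ℝ) ^ ρ')) *
              ((C₆ * (M : ℝ) ^ (ρ 0)) * (C₃ * (M : ℝ) ^ 2)) := by
              gcongr
              exact hcard0 M hM
          _ = _ := by
              rw [hρsum, pow_add, pow_add]
              ring
      calc _ ≤ (C₆ * Bg + 2 ^ r * B0 * Bh) * (M : ℝ) ^ (∑ i, ρ i + 2) +
          2 ^ ((c + 1) * r) * Bl * C₆ * C₃ * (M : ℝ) ^ (∑ i, ρ i + 2) := add_le_add hgood hbad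
        _ = E * (M : ℝ) ^ (∑ i, ρ i + 2) := by rw [hE]; ring
        _ ≤ _ := by
            apply mul_le_mul_of_nonneg_right _ (by positivity)
            rw [hBt]
            linarith

end

end Pool.Agent.AG
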