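import Mathlib
import Pool.Agent.AG.Tail

/-! # The sum of the large values (module Exc) -/

set_option autoImplicit false

namespace Pool.Agent.AG

section

variable {K : Type*} [Field K] {ι : Type*} {𝓟 : PlSys K ι}

/-- Layers, at one point and one place. -/
lemma layers_pt {ℓ : ι → ℕ → ℝ} {v : ι} (hℓ0 : ∀ A, 0 ≤ ℓ v A) {B Bl Bt : ℝ}
    {C Cl Ct : ι → ℝ} (hBl0 : 0 ≤ Bl) (hBt0 : 0 ≤ Bt) (hCl : 1 ≤ Cl v) (hCt : 1 ≤ Ct v)
    (hB : Bl + Bt ≤ B) (hC : Cl v * Ct v ≤ C v) {n D : ℕ} {J : Type*}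
    (f : J → Ten K n D) (p : Fin n → Fin 2 → K) {i₀ I : ℕ} (hi : i₀ ≤ I) :
    exc 𝓟 ℓ B C (2 ^ i₀) v f p ≤
      (∑ i ∈ Finset.Ico i₀ I,
        if cl 𝓟 v f p < Real.exp (-(Bl * ℓ v (2 ^ i) + Real.log (Cl v))) then
          B * ℓ v (2 ^ (i + 1)) + Real.log (C v) else 0) +
      (if cl 𝓟 v f p < Real.exp (-(Bl * ℓ v (2 ^ I) + Real.log (Cl v))) then
          B * ℓ v (2 ^ I) + Real.log (C v) else 0) +
      exc 𝓟 ℓ Bt Ct (2 ^ I) v f p := by
  have hCl0 : 0 < Cl v := by linarith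
  have hCt0 : 0 < Ct v := by linarith
  have hlC : Real.log (Cl v) + Real.log (Ct v) ≤ Real.log (C v) := by
    rw [← Real.log_mul hCl0.ne' hCt0.ne']
    exact Real.log_le_log (by positivity) hC
  have l1 := Real.log_nonneg hCl
  have l2 := Real.log_nonneg hCt
  set T : ℕ → ℝ := fun i => B * ℓ v (2 ^ i) + Real.log (C v) with hT
  have hTl : ∀ i, Bl * ℓ v (2 ^ i) + Real.log (Cl v) ≤ T i := by
    intro i
    have h1 := mul_le_mul_of_nonneg_right hB (hℓ0 (2 ^ i))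
    have h2 := mul_nonneg hBt0 (hℓ0 (2 ^ i))
    rw [hT]
    simp only
    linarith
  have hTt : ∀ i, Bt * ℓ v (2 ^ i) + Real.log (Ct v) ≤ T i := by
    intro i
    have h1 := mul_le_mul_of_nonneg_right hB (hℓ0 (2 ^ i))
    have h2 := mul_nonneg hBl0 (hℓ0 (2 ^ i))
    rw [hT]
    simp only
    linarith
  have hT0 : ∀ i, 0 ≤ T i := fun i =>
    (add_nonneg (mul_nonneg hBl0 (hℓ0 _)) l1).trans (hTl i)
  -- a large value of `loc` means closeness
  have hclose : ∀ i, T i < loc 𝓟 v f p →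
      cl 𝓟 v f p < Real.exp (-(Bl * ℓ v (2 ^ i) + Real.log (Cl v))) := by
    intro i hi
    rw [loc_eq] at hi
    have h1 : T i < -Real.log (cl 𝓟 v f p) := by
      rcases lt_max_iff.mp hi with h | h
      · exact absurd h (not_lt.mpr (hT0 i))
      · exact h
    have hcl0 : 0 < cl 𝓟 v f p := by
      by_contra! hcon
      have h2 : cl 𝓟 v f p = 0 := le_antisymm hcon (cl_nonneg _ _ _)
      rw [h2, Real.log_zero, neg_zero] at h1
      exact absurd h1 (not_lt.mpr (hT0 i))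
    rw [← Real.log_lt_iff_lt_exp hcl0]
    have h2 := hTl i
    linarith
  set t : ℕ → ℝ := fun i =>
    if cl 𝓟 v f p < Real.exp (-(Bl * ℓ v (2 ^ i) + Real.log (Cl v))) then T (i + 1) else 0
    with ht
  have ht0 : ∀ i, 0 ≤ t i := by
    intro i
    rw [ht]
    simp only
    split_ifs
    · exact hT0 _
    · exact le_rfl
  have key : ∀ k, loc 𝓟 v f p ≤ T i₀ + ∑ i ∈ Finset.Ico i₀ (i₀ + k), t i ∨
      T (i₀ + k) < loc 𝓟 v f p := by
    intro k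
    induction k with
    | zero =>
      rcases le_or_gt (loc 𝓟 v f p) (T i₀) with h | h
      · left
        simpa using h
      · right
        simpa using h
    | succ k ih =>
      rcases le_or_gt (loc 𝓟 v f p) (T (i₀ + (k + 1))) with h | h
      · left
        rw [← add_assoc, Finset.sum_Ico_succ_top (by omega)]
        rcases ih with ih | ih
        · have := ht0 (i₀ + k)
          linarith
        · have h1 : t (i₀ + k) = T (i₀ + k + 1) := by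
            rw [ht]
            simp only
            rw [if_pos (hclose _ ih)]
          have h2 : 0 ≤ ∑ i ∈ Finset.Ico i₀ (i₀ + k), t i :=
            Finset.sum_nonneg fun i _ => ht0 i
          have h3 := hT0 i₀
          rw [← add_assoc] at h
          linarith
      · right
        exact h
  obtain ⟨k, rfl⟩ : ∃ k, I = i₀ + k := ⟨I - i₀, by omega⟩
  have hex0 := exc_nonneg (𝓟 := 𝓟) (ℓ := ℓ) (B := Bt) (C := Ct) (A := 2 ^ (i₀ + k)) (v := v) f p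
  have hsum0 : 0 ≤ ∑ i ∈ Finset.Ico i₀ (i₀ + k), t i := Finset.sum_nonneg fun i _ => ht0 i
  have hlast0 : 0 ≤ (if cl 𝓟 v f p <
      Real.exp (-(Bl * ℓ v (2 ^ (i₀ + k)) + Real.log (Cl v))) then T (i₀ + k) else 0) := by
    split_ifs
    · exact hT0 _
    · exact le_rfl
  have hgoal : exc 𝓟 ℓ B C (2 ^ i₀) v f p = max 0 (loc 𝓟 v f p - T i₀) := rfl
  rw [hgoal]
  apply max_le
  · exact add_nonneg (add_nonneg hsum0 hlast0) hex0
  · rcases key k with h | h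
    · have h1 : loc 𝓟 v f p - T i₀ ≤ ∑ i ∈ Finset.Ico i₀ (i₀ + k), t i := by linarith
      refine h1.trans ?_
      rw [add_assoc]
      exact le_add_of_nonneg_right (add_nonneg hlast0 hex0)
    · rw [if_pos (hclose _ h)]
      have h1 : loc 𝓟 v f p - (Bt * ℓ v (2 ^ (i₀ + k)) + Real.log (Ct v)) ≤
        exc 𝓟 ℓ Bt Ct (2 ^ (i₀ + k)) v f p := le_max_right _ _
      have h2 := hTt (i₀ + k)
      have h3 := hT0 i₀
      have h4 : T (i₀ + k) = B * ℓ v (2 ^ (i₀ + k)) + Real.log (C v) := rfl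
      have h5 : ∑ i ∈ Finset.Ico i₀ (i₀ + k), t i = ∑ i ∈ Finset.Ico i₀ (i₀ + k),
        (if cl 𝓟 v f p < Real.exp (-(Bl * ℓ v (2 ^ i) + Real.log (Cl v))) then
          B * ℓ v (2 ^ (i + 1)) + Real.log (C v) else 0) := rfl
      rw [← h5, ← h4]
      linarith

/-- The sum over all points and places of the values above a threshold. -/
theorem exists_excess [Nonempty ι] {r : ℕ} {ℓ : ι → ℕ → ℝ} (hℓ : IsLev 𝓟 r ℓ) {D : ℕ} {n : ℕ}
    {G : Fin n → Type*} [∀ i, AddCommGroup (G i)] (𝓧 : ∀ i, XSys 𝓟 (G i))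
    (S : ∀ i, ℕ → Finset (G i)) (ρ : Fin n → ℕ) (hS : ∀ i, Lvs (𝓧 i) (S i) (ρ i) r ℓ)
    {c : ℕ} {J : Type} [Finite J] (f : J → Ten K n D) (hf : BigC c f) :
    ∃ (C : ι → ℝ) (B : ℝ), IsCst C ∧ 0 ≤ B ∧ ∀ M : ℕ, 1 ≤ M → ∀ V : Finset ι,
      ∀ i₀ ≤ Nat.log 2 M,
      ∑ P ∈ Fintype.piFinset (fun i => S i M), ∑ v ∈ V, 𝓟.w v *
        exc 𝓟 ℓ B C (2 ^ i₀) v f (fun i => (𝓧 i).ξ (P i)) ≤
        B * ((M : ℝ) ^ (∑ i, ρ i) * ∑ i ∈ Finset.Ico i₀ (Nat.log 2 M),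
            ((2 : ℝ) ^ i) ^ (r + 2) / ((2 : ℝ) ^ i) ^ ((c + 1) * r) +
          (M : ℝ) ^ (∑ i, ρ i + 2) / (M : ℝ) ^ (c * r)) := by
  classical
  obtain ⟨Cl, Bl, hCl, hBl0, hloc⟩ := exists_local hℓ 𝓧 S ρ hS f hf
  obtain ⟨Ct, Bt, hCt, hBt0, htail⟩ := exists_tail hℓ 𝓧 S ρ hS f hf
  obtain ⟨a, ha0, ha⟩ := hℓ.sum
  have hCC : IsCst fun v => Cl v * Ct v := hCl.mul hCt
  obtain ⟨κ, hκ0, hκ⟩ := exists_sum_log_le 𝓟 hCC
  set B₀ : ℝ := Bl + Bt with hB₀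
  have hB₀0 : 0 ≤ B₀ := by positivity
  set ρs : ℕ := ∑ i, ρ i with hρs
  -- the sum of the thresholds; the threshold constant `B` is chosen below
  set F : ℝ := Bl * (B₀ * a + κ) * 2 ^ (r + 2) + Bl * (B₀ * a + κ) * 2 ^ ((c + 1) * r) + Bt
    with hF
  have hF0 : 0 ≤ F := by positivity
  -- first with threshold constant `B₀`
  have main : ∀ M : ℕ, 1 ≤ M → ∀ V : Finset ι, ∀ i₀ ≤ Nat.log 2 M,
      ∑ P ∈ Fintype.piFinset (fun i => S i M), ∑ v ∈ V, 𝓟.w v *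
        exc 𝓟 ℓ B₀ (fun v => Cl v * Ct v) (2 ^ i₀) v f (fun i => (𝓧 i).ξ (P i)) ≤
        F * ((M : ℝ) ^ ρs * ∑ i ∈ Finset.Ico i₀ (Nat.log 2 M),
            ((2 : ℝ) ^ i) ^ (r + 2) / ((2 : ℝ) ^ i) ^ ((c + 1) * r) +
          (M : ℝ) ^ (ρs + 2) / (M : ℝ) ^ (c * r)) := by
    intro M hM V i₀ hi₀
    have hMr : (1 : ℝ) ≤ M := by exact_mod_cast hM
    have hM0 : (0 : ℝ) < M := by linarith
    set I : ℕ := Nat.log 2 M with hI
    have hAM : 2 ^ I ≤ M := Nat.pow_log_le_self 2 (by omega)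
    have hMA : (M : ℝ) ≤ 2 * 2 ^ I := by
      have h1 : M < 2 ^ (I + 1) := Nat.lt_pow_succ_log_self (by norm_num) _
      have h2 : M ≤ 2 * 2 ^ I := by
        rw [pow_succ] at h1
        omega
      exact_mod_cast h2
    set 𝒮 := Fintype.piFinset (fun i => S i M) with h𝒮
    set T : ι → ℕ → ℝ := fun v i => B₀ * ℓ v (2 ^ i) + Real.log (Cl v * Ct v) with hT
    have hT0 : ∀ v i, 0 ≤ T v i := fun v i =>
      add_nonneg (mul_nonneg hB₀0 (hℓ.nonneg _ _)) (Real.log_nonneg (hCC.1 v))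
    have hTsum : ∀ i, ∑ v ∈ V, 𝓟.w v * T v i ≤ (B₀ * a + κ) * ((2 : ℝ) ^ i) ^ (r + 2) := by
      intro i
      have h2i : (1 : ℝ) ≤ ((2 : ℝ) ^ i) ^ (r + 2) := one_le_pow₀ (one_le_pow₀ (by norm_num))
      have h1 := ha (2 ^ i) Nat.one_le_two_pow V
      push_cast at h1
      calc ∑ v ∈ V, 𝓟.w v * T v i = B₀ * ∑ v ∈ V, 𝓟.w v * ℓ v (2 ^ i) +
            ∑ v ∈ V, 𝓟.w v * Real.log (Cl v * Ct v) := by
            rw [Finset.mul_sum, ← Finset.sum_add_distrib]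
            refine Finset.sum_congr rfl fun v _ => ?_
            rw [hT]
            ring
        _ ≤ B₀ * (a * ((2 : ℝ) ^ i) ^ (r + 2)) + κ := by
            gcongr
            exact hκ V
        _ ≤ B₀ * (a * ((2 : ℝ) ^ i) ^ (r + 2)) + κ * ((2 : ℝ) ^ i) ^ (r + 2) := by
            gcongr
            exact le_mul_of_one_le_right hκ0 h2i
        _ = _ := by ring
    set E : ι → ℕ → Finset (∀ i, G i) := fun v i => 𝒮.filter fun P =>
      cl 𝓟 v f (fun i => (𝓧 i).ξ (P i)) <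
        Real.exp (-(Bl * ℓ v (2 ^ i) + Real.log (Cl v))) with hE
    have hEc : ∀ v, ∀ i ≤ I, ((E v i).card : ℝ) ≤
        Bl * (M : ℝ) ^ ρs / ((2 : ℝ) ^ i) ^ ((c + 1) * r) := by
      intro v i hi
      have h1 := hloc v M (2 ^ i) Nat.one_le_two_pow
        ((Nat.pow_le_pow_right (by norm_num) hi).trans hAM) (E v i) (Finset.filter_subset _ _)
        (fun P hP => (Finset.mem_filter.mp hP).2)
      push_cast at h1
      rw [le_div_iff₀ (by positivity)]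
      linarith
    have hpt : ∀ P : ∀ i, G i, ∀ v, exc 𝓟 ℓ B₀ (fun v => Cl v * Ct v) (2 ^ i₀) v f
        (fun i => (𝓧 i).ξ (P i)) ≤
        (∑ i ∈ Finset.Ico i₀ I,
          if cl 𝓟 v f (fun i => (𝓧 i).ξ (P i)) <
            Real.exp (-(Bl * ℓ v (2 ^ i) + Real.log (Cl v))) then T v (i + 1) else 0) +
        (if cl 𝓟 v f (fun i => (𝓧 i).ξ (P i)) <
            Real.exp (-(Bl * ℓ v (2 ^ I) + Real.log (Cl v))) then T v I else 0) +
        exc 𝓟 ℓ Bt Ct (2 ^ I) v f (fun i => (𝓧 i).ξ (P i)) := fun P v =>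
      layers_pt (𝓟 := 𝓟) (fun A => hℓ.nonneg v A) hBl0 hBt0 (hCl.1 v) (hCt.1 v)
        (le_refl (Bl + Bt)) (le_refl (Cl v * Ct v)) f _ hi₀
    have hsum : ∑ P ∈ 𝒮, ∑ v ∈ V, 𝓟.w v *
        exc 𝓟 ℓ B₀ (fun v => Cl v * Ct v) (2 ^ i₀) v f (fun i => (𝓧 i).ξ (P i)) ≤
        (∑ i ∈ Finset.Ico i₀ I, ∑ v ∈ V, 𝓟.w v * ((E v i).card * T v (i + 1))) +
        (∑ v ∈ V, 𝓟.w v * ((E v I).card * T v I)) +
        ∑ P ∈ 𝒮, ∑ v ∈ V, 𝓟.w v * exc 𝓟 ℓ Bt Ct (2 ^ I) v f (fun i => (𝓧 i).ξ (P i)) := by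
      calc _ ≤ ∑ P ∈ 𝒮, ∑ v ∈ V, 𝓟.w v * ((∑ i ∈ Finset.Ico i₀ I,
            if cl 𝓟 v f (fun i => (𝓧 i).ξ (P i)) <
              Real.exp (-(Bl * ℓ v (2 ^ i) + Real.log (Cl v))) then T v (i + 1) else 0) +
            (if cl 𝓟 v f (fun i => (𝓧 i).ξ (P i)) <
              Real.exp (-(Bl * ℓ v (2 ^ I) + Real.log (Cl v))) then T v I else 0) +
            exc 𝓟 ℓ Bt Ct (2 ^ I) v f (fun i => (𝓧 i).ξ (P i))) :=
            Finset.sum_le_sum fun P _ => Finset.sum_le_sum fun v _ =>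
              mul_le_mul_of_nonneg_left (hpt P v) (𝓟.w_nonneg v)
        _ = _ := by
            simp only [mul_add, Finset.sum_add_distrib]
            congr 1
            congr 1
            · rw [Finset.sum_comm]
              conv_rhs => rw [Finset.sum_comm]
              refine Finset.sum_congr rfl fun v _ => ?_
              rw [← Finset.mul_sum, ← Finset.mul_sum, Finset.sum_comm]
              congr 1
              refine Finset.sum_congr rfl fun i _ => ?_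
              rw [← Finset.sum_filter, Finset.sum_const, nsmul_eq_mul]
            · rw [Finset.sum_comm]
              refine Finset.sum_congr rfl fun v _ => ?_
              rw [← Finset.mul_sum]
              congr 1
              rw [← Finset.sum_filter, Finset.sum_const, nsmul_eq_mul]
    have hlayer : ∀ i ≤ I, ∀ k, ∑ v ∈ V, 𝓟.w v * ((E v i).card * T v k) ≤
        Bl * (M : ℝ) ^ ρs / ((2 : ℝ) ^ i) ^ ((c + 1) * r) *
          ((B₀ * a + κ) * ((2 : ℝ) ^ k) ^ (r + 2)) := by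
      intro i hi k
      calc _ ≤ ∑ v ∈ V, 𝓟.w v * ((Bl * (M : ℝ) ^ ρs / ((2 : ℝ) ^ i) ^ ((c + 1) * r)) * T v k) :=
            Finset.sum_le_sum fun v _ => mul_le_mul_of_nonneg_left
              (mul_le_mul_of_nonneg_right (hEc v i hi) (hT0 v k)) (𝓟.w_nonneg v)
        _ = (Bl * (M : ℝ) ^ ρs / ((2 : ℝ) ^ i) ^ ((c + 1) * r)) * ∑ v ∈ V, 𝓟.w v * T v k := by
            rw [Finset.mul_sum]
            exact Finset.sum_congr rfl fun v _ => by ring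
        _ ≤ _ := mul_le_mul_of_nonneg_left (hTsum k) (by positivity)
    have hp1 : ∑ i ∈ Finset.Ico i₀ I, ∑ v ∈ V, 𝓟.w v * ((E v i).card * T v (i + 1)) ≤
        (Bl * (B₀ * a + κ) * 2 ^ (r + 2)) * ((M : ℝ) ^ ρs * ∑ i ∈ Finset.Ico i₀ I,
            ((2 : ℝ) ^ i) ^ (r + 2) / ((2 : ℝ) ^ i) ^ ((c + 1) * r)) := by
      rw [Finset.mul_sum, Finset.mul_sum]
      refine Finset.sum_le_sum fun i hi => ?_
      have hiI : i ≤ I := (Finset.mem_Ico.mp hi).2.le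
      refine (hlayer i hiI (i + 1)).trans_eq ?_
      rw [pow_succ (2 : ℝ) i, mul_pow]
      ring
    have hp2 : ∑ v ∈ V, 𝓟.w v * ((E v I).card * T v I) ≤
        (Bl * (B₀ * a + κ) * 2 ^ ((c + 1) * r)) *
          ((M : ℝ) ^ (ρs + 2) / (M : ℝ) ^ (c * r)) := by
      refine (hlayer I le_rfl I).trans ?_
      have h1 : ((2 : ℝ) ^ I) ^ (r + 2) ≤ (M : ℝ) ^ (r + 2) := by
        apply pow_le_pow_left₀ (by positivity)
        exact_mod_cast hAM
      have h2 : (M : ℝ) ^ ((c + 1) * r) ≤ 2 ^ ((c + 1) * r) * ((2 : ℝ) ^ I) ^ ((c + 1) * r) := by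
        rw [← mul_pow]
        exact pow_le_pow_left₀ hM0.le hMA _
      have h3 : (1 : ℝ) / ((2 : ℝ) ^ I) ^ ((c + 1) * r) ≤
          2 ^ ((c + 1) * r) / (M : ℝ) ^ ((c + 1) * r) := by
        rw [div_le_div_iff₀ (by positivity) (by positivity), one_mul]
        exact h2
      calc _ = (Bl * (B₀ * a + κ)) * ((M : ℝ) ^ ρs *
            (1 / ((2 : ℝ) ^ I) ^ ((c + 1) * r)) * ((2 : ℝ) ^ I) ^ (r + 2)) := by ring
        _ ≤ (Bl * (B₀ * a + κ)) * ((M : ℝ) ^ ρs *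
            (2 ^ ((c + 1) * r) / (M : ℝ) ^ ((c + 1) * r)) * (M : ℝ) ^ (r + 2)) := by gcongr
        _ = _ := by
            have e : (M : ℝ) ^ ((c + 1) * r) = (M : ℝ) ^ (c * r) * (M : ℝ) ^ r := by
              rw [← pow_add]
              congr 1
              ring
            rw [e, pow_add (M : ℝ) r 2, pow_add (M : ℝ) ρs 2]
            field_simp
    have hp3 : ∑ P ∈ 𝒮, ∑ v ∈ V, 𝓟.w v *
        exc 𝓟 ℓ Bt Ct (2 ^ I) v f (fun i => (𝓧 i).ξ (P i)) ≤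
        Bt * ((M : ℝ) ^ (ρs + 2) / (M : ℝ) ^ (c * r)) := by
      rw [mul_div_assoc', le_div_iff₀ (by positivity), mul_comm]
      exact htail M hM V
    have hY1 : 0 ≤ (M : ℝ) ^ ρs * ∑ i ∈ Finset.Ico i₀ I,
            ((2 : ℝ) ^ i) ^ (r + 2) / ((2 : ℝ) ^ i) ^ ((c + 1) * r) := by positivity
    have hY2 : 0 ≤ (M : ℝ) ^ (ρs + 2) / (M : ℝ) ^ (c * r) := by positivity
    have hF1 : Bl * (B₀ * a + κ) * 2 ^ (r + 2) ≤ F := by
      rw [hF]
      have : 0 ≤ Bl * (B₀ * a + κ) * 2 ^ ((c + 1) * r) := by positivity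
      linarith
    have hF2 : Bl * (B₀ * a + κ) * 2 ^ ((c + 1) * r) + Bt ≤ F := by
      rw [hF]
      have : 0 ≤ Bl * (B₀ * a + κ) * 2 ^ (r + 2) := by positivity
      linarith
    calc _ ≤ _ := hsum
      _ ≤ (Bl * (B₀ * a + κ) * 2 ^ (r + 2)) * ((M : ℝ) ^ ρs * ∑ i ∈ Finset.Ico i₀ I,
            ((2 : ℝ) ^ i) ^ (r + 2) / ((2 : ℝ) ^ i) ^ ((c + 1) * r)) +
          (Bl * (B₀ * a + κ) * 2 ^ ((c + 1) * r)) *
            ((M : ℝ) ^ (ρs + 2) / (M : ℝ) ^ (c * r)) +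
          Bt * ((M : ℝ) ^ (ρs + 2) / (M : ℝ) ^ (c * r)) := add_le_add (add_le_add hp1 hp2) hp3
      _ ≤ F * ((M : ℝ) ^ ρs * ∑ i ∈ Finset.Ico i₀ I,
            ((2 : ℝ) ^ i) ^ (r + 2) / ((2 : ℝ) ^ i) ^ ((c + 1) * r)) +
          F * ((M : ℝ) ^ (ρs + 2) / (M : ℝ) ^ (c * r)) := by
          rw [add_assoc, ← add_mul]
          exact add_le_add (mul_le_mul_of_nonneg_right hF1 hY1)
            (mul_le_mul_of_nonneg_right hF2 hY2)
      _ = _ := by ring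
  refine ⟨fun v => Cl v * Ct v, B₀ + F, hCC, by positivity, ?_⟩
  intro M hM V i₀ hi₀
  have h1 : ∑ P ∈ Fintype.piFinset (fun i => S i M), ∑ v ∈ V, 𝓟.w v *
      exc 𝓟 ℓ (B₀ + F) (fun v => Cl v * Ct v) (2 ^ i₀) v f (fun i => (𝓧 i).ξ (P i)) ≤
      ∑ P ∈ Fintype.piFinset (fun i => S i M), ∑ v ∈ V, 𝓟.w v *
      exc 𝓟 ℓ B₀ (fun v => Cl v * Ct v) (2 ^ i₀) v f (fun i => (𝓧 i).ξ (P i)) := by
    refine Finset.sum_le_sum fun P _ => Finset.sum_le_sum fun v _ =>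
      mul_le_mul_of_nonneg_left ?_ (𝓟.w_nonneg v)
    unfold exc
    apply max_le_max le_rfl
    have h2 := mul_nonneg hF0 (hℓ.nonneg v (2 ^ i₀))
    linarith
  refine h1.trans ((main M hM V i₀ hi₀).trans ?_)
  apply mul_le_mul_of_nonneg_right _ (by positivity)
  linarith

end

end Pool.Agent.AG
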