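import Mathlib
import Pool.Agent.AG.Defs2
import Pool.Agent.AG.Geo

/-! # The dimension count for a centre of codimension `c + 1` (module Geo2) -/

set_option autoImplicit false

open MvPolynomial WeierstrassCurve WeierstrassCurve.Affine
open Pool.Agent.GE (coords MultiHom DimLE wt)

namespace Pool.Agent.AG

universe u

theorem exists_formsC {K : Type u} [Field K] {n m c : ℕ} (hmc : m + c + 1 ≤ n)
    (W : Fin n → Affine K) (I : Ideal (MvPolynomial (Fin n × Fin 3) K)) (hI : DimLE I m) :
    ∃ (D N : ℕ) (f : Fin N → Ten K n D), BigC c f ∧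
      ∀ j (s : Fin n → Fin 4), tev (f j) (fun i => xr W i (s i)) ∈ I := by
  classical
  obtain ⟨A, hA⟩ := hI
  set D : ℕ := 2 ^ c * 8 ^ n * A with hD
  let Wp : Submodule K (MvPolynomial (Fin n × Fin 3) K ⧸ I) :=
    (weightedHomogeneousSubmodule K (wt n) (fun _ => 2 * D)).map
      (Ideal.Quotient.mkₐ K I).toLinearMap
  let Φ : Ten K n D →ₗ[K] ((Fin n → Fin 4) → Wp) := LinearMap.pi fun s =>
    LinearMap.codRestrict _ ((Ideal.Quotient.mkₐ K I).toLinearMap ∘ₗ
      (tevL (fun i => xr W i (s i)))) (fun c => ⟨_, geo_hom_tev W c s, rfl⟩)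
  have hfin : Module.Finite K Wp := by
    have := Pool.Agent.GE.finite_forms (K := K) (n := n) (2 * D)
    exact Module.Finite.map _ _
  have hfree : Module.Free K Wp := Module.Free.of_divisionRing K Wp
  set N := Module.finrank K (LinearMap.ker Φ) with hN
  let B := Module.finBasis K (LinearMap.ker Φ)
  refine ⟨D, N, fun j => (B j : Ten K n D), ?_, ?_⟩
  · have hspan : Submodule.span K (Set.range fun j => (B j : Ten K n D)) = LinearMap.ker Φ := by
      have h1 : (Set.range fun j => (B j : Ten K n D)) =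
          (LinearMap.ker Φ).subtype '' (Set.range B) := by
        rw [← Set.range_comp]; rfl
      rw [h1, Submodule.span_image, B.span_eq, Submodule.map_top, Submodule.range_subtype]
    have hrn := LinearMap.finrank_range_add_finrank_ker Φ
    have hT : Module.finrank K (Ten K n D) = (D + 1) ^ n := by
      rw [Module.finrank_fintype_fun_eq_card, Fintype.card_fun, Fintype.card_fin, Fintype.card_fin]
    have hr : Module.finrank K (LinearMap.range Φ) ≤ 4 ^ n * (A * (2 * D + 1) ^ m) := by
      refine (Submodule.finrank_le _).trans ?_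
      rw [Module.finrank_pi_fintype, Finset.sum_const, Finset.card_univ, Fintype.card_fun,
        Fintype.card_fin, Fintype.card_fin, smul_eq_mul]
      exact Nat.mul_le_mul_left _ (hA (2 * D))
    unfold BigC
    rw [hspan]
    rw [hT] at hrn
    have h2 : (D + 1) ^ n - Module.finrank K (LinearMap.ker Φ) ≤
        4 ^ n * (A * (2 * D + 1) ^ m) := by omega
    have h3 : (2 * D + 1) ^ m ≤ 2 ^ n * (D + 1) ^ m := by
      calc (2 * D + 1) ^ m ≤ (2 * (D + 1)) ^ m := Nat.pow_le_pow_left (by omega) _
        _ = 2 ^ m * (D + 1) ^ m := mul_pow _ _ _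
        _ ≤ _ := Nat.mul_le_mul_right _ (Nat.pow_le_pow_right (by norm_num) (by omega))
    have h8 : (4 : ℕ) ^ n * 2 ^ n = 8 ^ n := by rw [← mul_pow]; norm_num
    have hpos : 0 < (D + 1) ^ (c + m) := Nat.pow_pos (Nat.succ_pos _)
    calc (2 * (D + 1)) ^ c * ((D + 1) ^ n - Module.finrank K (LinearMap.ker Φ))
        ≤ (2 * (D + 1)) ^ c * (4 ^ n * (A * (2 ^ n * (D + 1) ^ m))) := by
          refine Nat.mul_le_mul_left _ (h2.trans ?_)
          exact Nat.mul_le_mul_left _ (Nat.mul_le_mul_left _ h3)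
      _ = D * (D + 1) ^ (c + m) := by
          have : D = 2 ^ c * (4 ^ n * 2 ^ n) * A := by rw [h8]
          calc (2 * (D + 1)) ^ c * (4 ^ n * (A * (2 ^ n * (D + 1) ^ m)))
              = (2 ^ c * (4 ^ n * 2 ^ n) * A) * (D + 1) ^ (c + m) := by
                rw [mul_pow, pow_add]; ring
            _ = _ := by rw [← this]
      _ < (D + 1) * (D + 1) ^ (c + m) := Nat.mul_lt_mul_of_pos_right (Nat.lt_succ_self D) hpos
      _ = (D + 1) ^ (c + m + 1) := by rw [pow_succ, mul_comm]
      _ ≤ (D + 1) ^ n := Nat.pow_le_pow_right (Nat.succ_pos _) (by omega)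
  · intro j s
    have h1 : Φ (B j : Ten K n D) = 0 := (B j).2
    have h2 : (Ideal.Quotient.mkₐ K I) (tev (B j : Ten K n D) (fun i => xr W i (s i))) = 0 :=
      congrArg Subtype.val (congrFun h1 s)
    exact Ideal.Quotient.eq_zero_iff_mem.mp h2

end Pool.Agent.AG
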