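import Mathlib
import Pool.Agent.AG.Defs2
import Pool.Agent.AG.OneVar

/-! # Level functions for boxes (module Lv) -/

set_option autoImplicit false

open Pool.Agent.H7.Vojta (HtSys box level level_mono level_nonneg close_count mem_box card_box)

namespace Pool.Agent.AG

/-- The number `⌈A ^ ((r + 2) / (ρ + 2))⌉`. -/
noncomputable def lvA (r ρ A : ℕ) : ℕ := ⌈(A : ℝ) ^ (((r : ℝ) + 2) / ((ρ : ℝ) + 2))⌉₊

lemma lvA_base_ge (r ρ : ℕ) {A : ℕ} (hA : 1 ≤ A) :
    (1 : ℝ) ≤ (A : ℝ) ^ (((r : ℝ) + 2) / ((ρ : ℝ) + 2)) :=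
  Real.one_le_rpow (by exact_mod_cast hA) (by positivity)

lemma lvA_pos (r ρ : ℕ) {A : ℕ} (hA : 1 ≤ A) : 0 < lvA r ρ A := by
  unfold lvA
  rw [Nat.ceil_pos]
  linarith [lvA_base_ge r ρ hA]

lemma lvA_le (r ρ : ℕ) (hρ : r ≤ ρ) {A : ℕ} (hA : 1 ≤ A) : lvA r ρ A ≤ A := by
  unfold lvA
  rw [Nat.ceil_le]
  have hA1 : (1 : ℝ) ≤ A := by exact_mod_cast hA
  have hρr : (r : ℝ) ≤ ρ := by exact_mod_cast hρ
  calc (A : ℝ) ^ (((r : ℝ) + 2) / ((ρ : ℝ) + 2)) ≤ (A : ℝ) ^ (1 : ℝ) := by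
        apply Real.rpow_le_rpow_of_exponent_le hA1
        rw [div_le_one (by positivity)]
        linarith
    _ = A := Real.rpow_one _

lemma lvA_pow_ge (r ρ : ℕ) (hρ : r ≤ ρ) {A : ℕ} (hA : 1 ≤ A) :
    (A : ℝ) ^ r ≤ (lvA r ρ A : ℝ) ^ ρ := by
  have hA1 : (1 : ℝ) ≤ A := by exact_mod_cast hA
  have hA0 : (0 : ℝ) ≤ A := by linarith
  have hρr : (r : ℝ) ≤ ρ := by exact_mod_cast hρ
  have h1 : (A : ℝ) ^ (((r : ℝ) + 2) / ((ρ : ℝ) + 2)) ≤ (lvA r ρ A : ℝ) := Nat.le_ceil _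
  calc (A : ℝ) ^ r = (A : ℝ) ^ (r : ℝ) := (Real.rpow_natCast _ _).symm
    _ ≤ (A : ℝ) ^ ((((r : ℝ) + 2) / ((ρ : ℝ) + 2)) * (ρ : ℝ)) := by
        apply Real.rpow_le_rpow_of_exponent_le hA1
        rw [div_mul_eq_mul_div, le_div_iff₀ (by positivity)]
        nlinarith
    _ = ((A : ℝ) ^ (((r : ℝ) + 2) / ((ρ : ℝ) + 2))) ^ ρ := by
        rw [Real.rpow_mul hA0, Real.rpow_natCast]
    _ ≤ _ := pow_le_pow_left₀ (by positivity) h1 ρ

lemma lvA_pow_le (r ρ : ℕ) {A : ℕ} (hA : 1 ≤ A) :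
    (lvA r ρ A : ℝ) ^ (ρ + 2) ≤ 2 ^ (ρ + 2) * (A : ℝ) ^ (r + 2) := by
  have hA1 : (1 : ℝ) ≤ A := by exact_mod_cast hA
  have hA0 : (0 : ℝ) ≤ A := by linarith
  set x : ℝ := (A : ℝ) ^ (((r : ℝ) + 2) / ((ρ : ℝ) + 2)) with hx
  have hx1 : 1 ≤ x := lvA_base_ge r ρ hA
  have h1 : (lvA r ρ A : ℝ) ≤ 2 * x := by
    have := (Nat.ceil_lt_add_one (show (0 : ℝ) ≤ x by linarith)).le
    unfold lvA
    rw [← hx]
    linarith
  have h2 : x ^ (ρ + 2) = (A : ℝ) ^ (r + 2) := by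
    rw [hx, ← Real.rpow_natCast, ← Real.rpow_mul hA0, ← Real.rpow_natCast]
    congr 1
    push_cast
    field_simp
  calc (lvA r ρ A : ℝ) ^ (ρ + 2) ≤ (2 * x) ^ (ρ + 2) :=
        pow_le_pow_left₀ (Nat.cast_nonneg _) h1 _
    _ = _ := by rw [mul_pow, h2]

/-- With `A_i = ⌈A ^ ((r + 2) / (ρ_i + 2))⌉` and `ℓ v A = ∑_i level (𝓧 i).H (R i) v A_i`. -/
theorem exists_lvs {K : Type*} [Field K] {ι : Type*} {𝓟 : PlSys K ι} {n : ℕ} {G : Fin n → Type*}
    [∀ i, AddCommGroup (G i)] (𝓧 : ∀ i, XSys 𝓟 (G i)) {r : ℕ} (ρ : Fin n → ℕ)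
    (hρ : ∀ i, r ≤ ρ i) (R : ∀ i, Fin (ρ i) → G i) (hR : ∀ i, LinearIndependent ℤ (R i))
    (T : ∀ i, Finset (G i)) (S : ∀ i, ℕ → Finset (G i))
    (hS : ∀ i M, ∀ P ∈ S i M, ∃ t ∈ T i, ∃ a ∈ box (ρ i) M, P = ∑ j, a j • R i j + t) :
    ∃ ℓ : ι → ℕ → ℝ, IsLev 𝓟 r ℓ ∧ ∀ i, Lvs (𝓧 i) (S i) (ρ i) r ℓ := by
  classical
  refine ⟨fun v A => ∑ i, level (𝓧 i).H (R i) v (lvA r (ρ i) A), ⟨?_, ?_⟩, ?_⟩
  · intro v A
    exact Finset.sum_nonneg fun i _ => level_nonneg _ _ _ _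
  · choose C hC0 hC using fun i => exists_sum_level_le (𝓧 i) (R i) (hR i)
    refine ⟨∑ i, C i * 2 ^ (ρ i + 2), Finset.sum_nonneg fun i _ => mul_nonneg (hC0 i)
      (by positivity), ?_⟩
    intro A hA V
    calc ∑ v ∈ V, 𝓟.w v * ∑ i, level (𝓧 i).H (R i) v (lvA r (ρ i) A) =
          ∑ i, ∑ v ∈ V, 𝓟.w v * level (𝓧 i).H (R i) v (lvA r (ρ i) A) := by
          rw [Finset.sum_comm]
          exact Finset.sum_congr rfl fun v _ => by rw [Finset.mul_sum]
      _ ≤ ∑ i, C i * (lvA r (ρ i) A : ℝ) ^ (ρ i + 2) :=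
          Finset.sum_le_sum fun i _ => hC i _ (lvA_pos r (ρ i) hA) V
      _ ≤ ∑ i, C i * (2 ^ (ρ i + 2) * (A : ℝ) ^ (r + 2)) :=
          Finset.sum_le_sum fun i _ => mul_le_mul_of_nonneg_left (lvA_pow_le r (ρ i) hA) (hC0 i)
      _ = _ := by
          rw [Finset.sum_mul]
          exact Finset.sum_congr rfl fun i _ => by ring
  · intro i
    set φ : G i × (Fin (ρ i) → ℤ) → G i := fun q => ∑ j, q.2 j • R i j + q.1 with hφ
    have hsub : ∀ M, S i M ⊆ (T i ×ˢ box (ρ i) M).image φ := by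
      intro M P hP
      obtain ⟨t, ht, a, ha, rfl⟩ := hS i M P hP
      exact Finset.mem_image.mpr ⟨(t, a), Finset.mk_mem_product ht ha, rfl⟩
    refine ⟨?_, ?_, ?_⟩
    · refine ⟨(T i).card * 3 ^ (ρ i), by positivity, fun M hM => ?_⟩
      have hMr : (1 : ℝ) ≤ M := by exact_mod_cast hM
      have h1 : (S i M).card ≤ (T i).card * (2 * M + 1) ^ (ρ i) := by
        calc (S i M).card ≤ _ := Finset.card_le_card (hsub M)
          _ ≤ (T i ×ˢ box (ρ i) M).card := Finset.card_image_le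
          _ = _ := by rw [Finset.card_product, card_box]
      calc ((S i M).card : ℝ) ≤ (((T i).card * (2 * M + 1) ^ (ρ i) : ℕ) : ℝ) := by
            exact_mod_cast h1
        _ = (T i).card * (2 * M + 1 : ℝ) ^ (ρ i) := by push_cast; ring
        _ ≤ (T i).card * (3 * M : ℝ) ^ (ρ i) := by
            gcongr
            linarith
        _ = _ := by rw [mul_pow]; ring
    · have h1 := fun t => (𝓧 i).H.exists_height_le (R i) (-t)
      choose C hC1 hC using h1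
      have hC0 : ∀ t, 0 ≤ C t := fun t => by linarith [hC1 t]
      refine ⟨∑ t ∈ T i, C t, Finset.sum_nonneg fun t _ => hC0 t, fun M hM P hP => ?_⟩
      obtain ⟨t, ht, a, ha, rfl⟩ := hS i M P hP
      have h2 := (hC t M hM a ha).2
      rw [sub_neg_eq_add] at h2
      refine h2.trans ?_
      apply mul_le_mul_of_nonneg_right _ (by positivity)
      exact Finset.single_le_sum (f := C) (fun t _ => hC0 t) ht
    · intro D
      obtain ⟨C, hC, hcov⟩ := exists_small_cover (𝓧 i) D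
      set N : ℕ := D * (D + 1) / 2 with hN
      refine ⟨C, N + 2 * D * (T i).card * 3 ^ (ρ i), hC, by positivity, ?_⟩
      intro v c hc M A hA hAM T' hT' hsmall
      have hC0 : 0 < C v := hC.pos v
      set a0 : ℕ := lvA r (ρ i) A with ha0
      have ha0pos : 0 < a0 := lvA_pos r (ρ i) hA
      have ha0le : a0 ≤ M := (lvA_le r (ρ i) (hρ i) hA).trans hAM
      set L : ℝ := level (𝓧 i).H (R i) v a0 with hL
      have hL0 : 0 ≤ L := level_nonneg _ _ _ _
      have hLle : L ≤ ∑ i, level (𝓧 i).H (R i) v (lvA r (ρ i) A) :=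
        Finset.single_le_sum (f := fun i => level (𝓧 i).H (R i) v (lvA r (ρ i) A))
          (fun j _ => level_nonneg _ _ _ _) (Finset.mem_univ i)
      obtain ⟨U, hU, hUcov⟩ := hcov v c T' (Real.exp (-L)) hc (Real.exp_pos _)
        (by rw [← Real.exp_zero]; exact Real.exp_le_exp.mpr (by linarith)) (by
          intro P hP
          refine (hsmall P hP).trans_le ?_
          rw [← Real.exp_nat_mul, le_div_iff₀ hC0]
          nth_rewrite 2 [← Real.exp_log hC0]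
          rw [← Real.exp_add]
          apply Real.exp_le_exp.mpr
          have h1 : (N : ℝ) * L ≤ (N + 2 * D * (T i).card * 3 ^ (ρ i)) *
              ∑ i, level (𝓧 i).H (R i) v (lvA r (ρ i) A) := by
            apply mul_le_mul _ hLle hL0 (by positivity)
            have : (0 : ℝ) ≤ 2 * D * (T i).card * 3 ^ (ρ i) := by positivity
            linarith
          linarith)
      have hcard : T'.card ≤ 2 * D * ((T i).card * (2 * M / a0 + 1) ^ (ρ i)) := by
        have hsub' : T' ⊆ U.biUnion fun Q => (T i).biUnion fun t =>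
            ({a ∈ box (ρ i) M | (𝓧 i).H.ν v (∑ j, a j • R i j - (Q - t)) < Real.exp (-L)}).image
              fun a => ∑ j, a j • R i j + t := by
          intro P hP
          obtain ⟨Q, hQ, h⟩ := hUcov P hP
          obtain ⟨t, ht, a, ha, rfl⟩ := hS i M P (hT' hP)
          refine Finset.mem_biUnion.mpr ⟨Q, hQ, Finset.mem_biUnion.mpr ⟨t, ht,
            Finset.mem_image.mpr ⟨a, Finset.mem_filter.mpr ⟨ha, ?_⟩, rfl⟩⟩⟩
          rwa [show ∑ j, a j • R i j - (Q - t) = ∑ j, a j • R i j + t - Q by abel]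
        calc T'.card ≤ _ := Finset.card_le_card hsub'
          _ ≤ U.card * ((T i).card * (2 * M / a0 + 1) ^ (ρ i)) :=
              Finset.card_biUnion_le_card_mul _ _ _ fun Q _ =>
                Finset.card_biUnion_le_card_mul _ _ _ fun t _ =>
                  Finset.card_image_le.trans
                    (close_count (𝓧 i).H (R i) (hR i) (Q - t) M a0 ha0pos v)
          _ ≤ _ := Nat.mul_le_mul_right _ hU
      have ha0r : (0 : ℝ) < a0 := by exact_mod_cast ha0pos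
      have h3 : ((2 * M / a0 + 1 : ℕ) : ℝ) ≤ 3 * M / a0 := by
        have h4 : ((2 * M / a0 : ℕ) : ℝ) ≤ ((2 * M : ℕ) : ℝ) / (a0 : ℝ) := Nat.cast_div_le
        have h5 : (1 : ℝ) ≤ M / a0 := by
          rw [le_div_iff₀ ha0r, one_mul]
          exact_mod_cast ha0le
        push_cast at h4 ⊢
        have h6 : 3 * (M : ℝ) / a0 = 2 * M / a0 + M / a0 := by ring
        rw [h6]
        linarith
      have h7 : (T'.card : ℝ) ≤ 2 * D * ((T i).card * (3 * M / a0) ^ (ρ i)) := by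
        calc (T'.card : ℝ) ≤ ((2 * D * ((T i).card * (2 * M / a0 + 1) ^ (ρ i)) : ℕ) : ℝ) := by
              exact_mod_cast hcard
          _ = 2 * D * ((T i).card * ((2 * M / a0 + 1 : ℕ) : ℝ) ^ (ρ i)) := by
              push_cast
              ring
          _ ≤ _ := by gcongr
      have h8 := lvA_pow_ge r (ρ i) (hρ i) hA
      rw [← ha0] at h8
      calc (A : ℝ) ^ r * (T'.card : ℝ) ≤
            (a0 : ℝ) ^ (ρ i) * (2 * D * ((T i).card * (3 * M / a0) ^ (ρ i))) :=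
            mul_le_mul h8 h7 (Nat.cast_nonneg _) (by positivity)
        _ = 2 * D * (T i).card * 3 ^ (ρ i) * (M : ℝ) ^ (ρ i) := by
            rw [div_pow, mul_pow]
            field_simp
        _ ≤ _ := by
            apply mul_le_mul_of_nonneg_right _ (by positivity)
            have : (0 : ℝ) ≤ N := Nat.cast_nonneg _
            linarith

end Pool.Agent.AG
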