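import Mathlib
import Pool.Agent.AG.Exc
import Pool.Agent.AG.Lv
import Pool.Agent.AG.Geo2
import Pool.Agent.AG.Avg

/-! # Counting points close to `Y` (module Cnt) -/

set_option autoImplicit false

open MvPolynomial WeierstrassCurve WeierstrassCurve.Affine
open Pool.Agent.GE (coords MultiHom DimLE wt)
open Pool.Agent.H7.Vojta (HtSys box mem_box exists_basis_mod_finite)

namespace Pool.Agent.AG

universe u

section

variable {K : Type u} [Field K] {ι : Type*} {𝓟 : PlSys K ι}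

variable {n : ℕ} (W : Fin n → Affine K) {t : ℕ}
  (F : Fin t → MvPolynomial (Fin n × Fin 3) K) (Dg : Fin t → Fin n → ℕ)

/-- The height with respect to `Y`. -/
noncomputable def hY (𝓟 : PlSys K ι) (W : Fin n → Affine K) {t : ℕ}
    (F : Fin t → MvPolynomial (Fin n × Fin 3) K) (Dg : Fin t → Fin n → ℕ)
    (P : ∀ i, (W i).Point) : ℝ :=
  ∑ᶠ v, 𝓟.w v * -Real.log (closeness W F Dg P (𝓟.av v))

/-- `P` is not on `Y`. -/
def Off (W : Fin n → Affine K) {t : ℕ} (F : Fin t → MvPolynomial (Fin n × Fin 3) K)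
    (P : ∀ i, (W i).Point) : Prop :=
  ∃ j, aeval (fun q : Fin n × Fin 3 => coords (P q.1) q.2) (F j) ≠ 0

lemma hY_eq (P : ∀ i, (W i).Point) (V : Finset ι)
    (hV : ∀ v, closeness W F Dg P (𝓟.av v) ≠ 1 → v ∈ V) :
    hY 𝓟 W F Dg P = ∑ v ∈ V, 𝓟.w v * -Real.log (closeness W F Dg P (𝓟.av v)) := by
  unfold hY
  apply finsum_eq_sum_of_support_subset
  intro v hv
  apply Finset.mem_coe.mpr
  apply hV
  intro h
  apply hv
  simp only [h, Real.log_one, neg_zero, mul_zero]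

/-- The main inequality: points in boxes. -/
theorem exists_common_bound [DecidableEq K] [Nonempty ι] {m c : ℕ} (hmc : m + c + 1 ≤ n)
    (𝓧 : ∀ i, XSys 𝓟 (W i).Point)
    (hξ : ∀ i P, (𝓧 i).ξ P = P.xRep) (Γ : ∀ i, AddSubgroup (W i).Point)
    (hΓ : ∀ i, (Γ i).FG) {r : ℕ} (hrank : ∀ i, r ≤ Module.finrank ℤ (Γ i))
    (hF : ∀ j, MultiHom (F j) (Dg j)) (hdim : DimLE (centreIdeal W F) m) :
    ∃ L b E : ℝ, 1 ≤ L ∧ 1 ≤ b ∧ 1 ≤ E ∧ ∀ H : ℝ, 1 ≤ H →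
      ∀ S₀ : Finset (∀ i, (W i).Point),
      (∀ P ∈ S₀, (∀ i, P i ∈ Γ i) ∧ Off W F P ∧ ∑ i, (𝓧 i).H.h (P i) ≤ H) →
      ∀ M : ℕ, L * √H ≤ M →
        (S₀.card : ℝ) ≤ E * (M : ℝ) ^ (∑ i, Module.finrank ℤ (Γ i)) ∧
        ∀ i₀ ≤ Nat.log 2 M,
        ∑ P ∈ S₀, max 0 (hY 𝓟 W F Dg P - b * ((2 : ℝ) ^ i₀) ^ (r + 2)) ≤
          E * ((M : ℝ) ^ (∑ i, Module.finrank ℤ (Γ i)) * ∑ i ∈ Finset.Ico i₀ (Nat.log 2 M),
            ((2 : ℝ) ^ i) ^ (r + 2) / ((2 : ℝ) ^ i) ^ ((c + 1) * r) +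
          (M : ℝ) ^ (∑ i, Module.finrank ℤ (Γ i) + 2) / (M : ℝ) ^ (c * r)) := by
  classical
  set ρ : Fin n → ℕ := fun i => Module.finrank ℤ (Γ i) with hρ
  -- the boxes
  have hb := fun i => exists_basis_mod_finite (Γ i) (hΓ i)
  choose R T hR hT using hb
  have hL := fun i => exists_box (𝓧 i) (R i) (hR i) (T i)
  choose L hL1 hL using hL
  set S : ∀ i, ℕ → Finset (W i).Point := fun i M =>
    ((T i) ×ˢ box (ρ i) M).image fun q => ∑ j, q.2 j • R i j + q.1 with hS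
  obtain ⟨ℓ, hℓ, hLvs⟩ := exists_lvs 𝓧 ρ hrank R hR T S (by
    intro i M P hP
    obtain ⟨q, hq, rfl⟩ := Finset.mem_image.mp hP
    exact ⟨q.1, (Finset.mem_product.mp hq).1, q.2, (Finset.mem_product.mp hq).2, rfl⟩)
  obtain ⟨a, ha0, ha⟩ := hℓ.sum
  -- the forms
  obtain ⟨D, N, f, hBig, hfI⟩ := exists_formsC hmc W (centreIdeal W F) hdim
  obtain ⟨C₁, hC₁, hvalC⟩ := exists_common (ι := ι) (α := Fin N)
    (Φ := fun j v c => ∀ P : ∀ i, (W i).Point,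
      hval 𝓟 v (f j) (fun i => (P i).xRep) ≤ c * closeness W F Dg P (𝓟.av v))
    (fun j v c c' h h1 P => (h1 P).trans (mul_le_mul_of_nonneg_right h
      (Real.iSup_nonneg fun j => div_nonneg ((𝓟.av v).nonneg _)
        (prod_coords_pos 𝓟 W v P _).le)))
    (fun j => exists_hval_le_closeness 𝓟 W F Dg hF (f j) (hfI j))
  obtain ⟨κ₁, hκ₁0, hκ₁⟩ := exists_sum_log_le 𝓟 hC₁
  obtain ⟨C₂, B₂, hC₂, hB₂0, hexc⟩ := exists_excess hℓ 𝓧 S ρ hLvs f hBig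
  obtain ⟨κ₂, hκ₂0, hκ₂⟩ := exists_sum_log_le 𝓟 hC₂
  obtain ⟨C₃, B₃, hC₃, hB₃0, hloc⟩ := exists_local hℓ 𝓧 S ρ hLvs f hBig
  obtain ⟨C₄, hC₄0, hclos⟩ := exists_sum_closeness_le 𝓟 W F Dg
  obtain ⟨C₅, hC₅0, hcard⟩ := exists_card_le' 𝓧 S ρ hLvs
  have hht := fun i => (hLvs i).height
  choose B hB0 hB using hht
  have hsB : 0 ≤ ∑ i, B i := Finset.sum_nonneg fun i _ => hB0 i
  have hi₀ : Nonempty (Fin n) := ⟨⟨0, by omega⟩⟩
  set L₀ : ℝ := ∑ i, L i with hL₀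
  have hLL₀ : ∀ i, L i ≤ L₀ := fun i => Finset.single_le_sum (f := L)
    (fun i _ => by linarith [hL1 i]) (Finset.mem_univ i)
  have hL₀1 : 1 ≤ L₀ := (hL1 hi₀.some).trans (hLL₀ _)
  set b : ℝ := κ₁ + B₂ * a + κ₂ + 1 with hb
  have hb1 : 1 ≤ b := by
    have : 0 ≤ κ₁ + B₂ * a + κ₂ := by positivity
    linarith
  set E : ℝ := C₅ + B₂ + C₄ * (∑ i, B i + 1) * (2 ^ ((c + 1) * r) * B₃) + 1 with hE
  have hE1 : 1 ≤ E := by
    have : 0 ≤ C₅ + B₂ + C₄ * (∑ i, B i + 1) * (2 ^ ((c + 1) * r) * B₃) := by positivity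
    linarith
  set ρs : ℕ := ∑ i, ρ i with hρs
  refine ⟨L₀, b, E, hL₀1, hb1, hE1, ?_⟩
  intro H hH S₀ hS₀ M hML
  have hH0 : 0 < H := by linarith
  have hsH : 1 ≤ √H := by
    rw [Real.le_sqrt' one_pos]; linarith
  have hLs1 : 1 ≤ L₀ * √H := one_le_mul_of_one_le_of_one_le hL₀1 hsH
  have hMr : (1 : ℝ) ≤ M := hLs1.trans hML
  have hM1 : 1 ≤ M := by exact_mod_cast hMr
  have hM0 : (0 : ℝ) < M := by linarith
  have hM2 : (1 : ℝ) ≤ (M : ℝ) ^ 2 := one_le_pow₀ hMr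
  set 𝒮 := Fintype.piFinset (fun i => S i M) with h𝒮
  have hsub : S₀ ⊆ 𝒮 := by
    intro P hP
    obtain ⟨hPΓ, -, hPH⟩ := hS₀ P hP
    rw [h𝒮, Fintype.mem_piFinset]
    intro i
    obtain ⟨a, s, hs, hPi⟩ := hT i (P i) (hPΓ i)
    have h1 : (𝓧 i).H.h (∑ j, a j • R i j + s) ≤ H := by
      rw [← hPi]
      exact (Finset.single_le_sum (f := fun i => (𝓧 i).H.h (P i))
        (fun i _ => (𝓧 i).H.h_nonneg _) (Finset.mem_univ i)).trans hPH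
    have h2 := hL i H hH a s hs h1 M (by
      refine le_trans ?_ hML
      exact mul_le_mul_of_nonneg_right (hLL₀ i) (Real.sqrt_nonneg _))
    rw [hPi]
    exact Finset.mem_image.mpr ⟨(s, a), Finset.mk_mem_product hs h2, rfl⟩
  have hxi : ∀ P : ∀ i, (W i).Point, (fun i => (𝓧 i).ξ (P i)) = fun i => (P i).xRep := by
    intro P
    funext i
    exact hξ i (P i)
  refine ⟨?_, ?_⟩
  · calc (S₀.card : ℝ) ≤ (𝒮.card : ℝ) := by exact_mod_cast Finset.card_le_card hsub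
      _ ≤ C₅ * (M : ℝ) ^ ρs := hcard M hM1
      _ ≤ _ := by
          apply mul_le_mul_of_nonneg_right _ (by positivity)
          rw [hE]
          have : 0 ≤ B₂ + C₄ * (∑ i, B i + 1) * (2 ^ ((c + 1) * r) * B₃) := by positivity
          linarith
  intro i₀ hi₀I
  set I : ℕ := Nat.log 2 M with hI
  have hAM : 2 ^ I ≤ M := Nat.pow_log_le_self 2 (by omega)
  have hMA : (M : ℝ) ≤ 2 * 2 ^ I := by
    have h1 : M < 2 ^ (I + 1) := Nat.lt_pow_succ_log_self (by norm_num) _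
    have h2 : M ≤ 2 * 2 ^ I := by
      rw [pow_succ] at h1
      omega
    exact_mod_cast h2
  -- the finite set of places
  have hVfin : (⋃ P ∈ (S₀ : Set (∀ i, (W i).Point)),
      {v | closeness W F Dg P (𝓟.av v) ≠ 1}).Finite :=
    Set.Finite.biUnion S₀.finite_toSet fun P hP => closeness_fin 𝓟 W F Dg P (hS₀ P hP).2.1
  set V := hVfin.toFinset with hVdef
  have hV : ∀ P ∈ S₀, ∀ v, closeness W F Dg P (𝓟.av v) ≠ 1 → v ∈ V := by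
    intro P hP v hv
    rw [hVdef, Set.Finite.mem_toFinset, Set.mem_iUnion₂]
    exact ⟨P, hP, hv⟩
  have h2i : (1 : ℝ) ≤ ((2 : ℝ) ^ i₀) ^ (r + 2) := one_le_pow₀ (one_le_pow₀ (by norm_num))
  -- good points
  rw [← Finset.sum_filter_add_sum_filter_not S₀
    (fun P => ∃ j, tev (f j) (fun i => (𝓧 i).ξ (P i)) ≠ 0)]
  have hexc0 : ∀ P : ∀ i, (W i).Point, 0 ≤ ∑ v ∈ V, 𝓟.w v *
      exc 𝓟 ℓ B₂ C₂ (2 ^ i₀) v f (fun i => (𝓧 i).ξ (P i)) := fun P =>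
    Finset.sum_nonneg fun v _ => mul_nonneg (𝓟.w_nonneg v) (exc_nonneg _ _)
  have hgood : ∑ P ∈ S₀.filter (fun P => ∃ j, tev (f j) (fun i => (𝓧 i).ξ (P i)) ≠ 0),
      max 0 (hY 𝓟 W F Dg P - b * ((2 : ℝ) ^ i₀) ^ (r + 2)) ≤
      B₂ * ((M : ℝ) ^ ρs * ∑ i ∈ Finset.Ico i₀ I,
          ((2 : ℝ) ^ i) ^ (r + 2) / ((2 : ℝ) ^ i) ^ ((c + 1) * r) +
        (M : ℝ) ^ (ρs + 2) / (M : ℝ) ^ (c * r)) := by
    have h1 : ∀ P ∈ S₀.filter (fun P => ∃ j, tev (f j) (fun i => (𝓧 i).ξ (P i)) ≠ 0),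
        max 0 (hY 𝓟 W F Dg P - b * ((2 : ℝ) ^ i₀) ^ (r + 2)) ≤
        ∑ v ∈ V, 𝓟.w v * exc 𝓟 ℓ B₂ C₂ (2 ^ i₀) v f (fun i => (𝓧 i).ξ (P i)) := by
      intro P hP
      obtain ⟨hPS, j, hj⟩ := Finset.mem_filter.mp hP
      apply max_le (hexc0 P)
      have hpt : ∀ v, -Real.log (closeness W F Dg P (𝓟.av v)) ≤ Real.log (C₁ v) +
          (B₂ * ℓ v (2 ^ i₀) + Real.log (C₂ v)) +
          exc 𝓟 ℓ B₂ C₂ (2 ^ i₀) v f (fun i => (𝓧 i).ξ (P i)) := by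
        intro v
        have hcl := closeness_pos 𝓟 W F Dg v P (hS₀ P hPS).2.1
        have hC0 := hC₁.pos v
        have hNe : Nonempty (Fin N) := ⟨j⟩
        have h2 : cl 𝓟 v f (fun i => (𝓧 i).ξ (P i)) ≤
            C₁ v * closeness W F Dg P (𝓟.av v) := by
          apply ciSup_le
          intro j
          rw [hxi]
          exact hvalC j v P
        have h3 : 0 < cl 𝓟 v f (fun i => (𝓧 i).ξ (P i)) :=
          cl_pos v f _ (fun i => zero_lt_one.trans_le ((𝓧 i).one_le_nm v (P i))) ⟨j, hj⟩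
        have h4 := Real.log_le_log h3 h2
        rw [Real.log_mul hC0.ne' hcl.ne'] at h4
        have h5 : -Real.log (cl 𝓟 v f (fun i => (𝓧 i).ξ (P i))) ≤
            loc 𝓟 v f (fun i => (𝓧 i).ξ (P i)) := le_max_right _ _
        have h6 : loc 𝓟 v f (fun i => (𝓧 i).ξ (P i)) -
            (B₂ * ℓ v (2 ^ i₀) + Real.log (C₂ v)) ≤
            exc 𝓟 ℓ B₂ C₂ (2 ^ i₀) v f (fun i => (𝓧 i).ξ (P i)) := le_max_right _ _
        linarith
      have h2 : hY 𝓟 W F Dg P ≤ b * ((2 : ℝ) ^ i₀) ^ (r + 2) +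
          ∑ v ∈ V, 𝓟.w v * exc 𝓟 ℓ B₂ C₂ (2 ^ i₀) v f (fun i => (𝓧 i).ξ (P i)) := by
        rw [hY_eq W F Dg P V (hV P hPS)]
        have h3 := ha (2 ^ i₀) Nat.one_le_two_pow V
        push_cast at h3
        calc _ ≤ ∑ v ∈ V, 𝓟.w v * (Real.log (C₁ v) +
              (B₂ * ℓ v (2 ^ i₀) + Real.log (C₂ v)) +
              exc 𝓟 ℓ B₂ C₂ (2 ^ i₀) v f (fun i => (𝓧 i).ξ (P i))) :=
              Finset.sum_le_sum fun v _ => mul_le_mul_of_nonneg_left (hpt v) (𝓟.w_nonneg v)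
          _ = ∑ v ∈ V, 𝓟.w v * Real.log (C₁ v) + (B₂ * ∑ v ∈ V, 𝓟.w v * ℓ v (2 ^ i₀) +
              ∑ v ∈ V, 𝓟.w v * Real.log (C₂ v)) +
              ∑ v ∈ V, 𝓟.w v * exc 𝓟 ℓ B₂ C₂ (2 ^ i₀) v f (fun i => (𝓧 i).ξ (P i)) := by
              simp only [mul_add, Finset.sum_add_distrib, Finset.mul_sum]
              congr 1
              congr 1
              congr 1
              exact Finset.sum_congr rfl fun v _ => by ring
          _ ≤ κ₁ + (B₂ * (a * ((2 : ℝ) ^ i₀) ^ (r + 2)) + κ₂) +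
              ∑ v ∈ V, 𝓟.w v * exc 𝓟 ℓ B₂ C₂ (2 ^ i₀) v f (fun i => (𝓧 i).ξ (P i)) := by
              gcongr
              · exact hκ₁ V
              · exact hκ₂ V
          _ ≤ _ := by
              apply add_le_add _ le_rfl
              rw [hb]
              nlinarith [mul_le_mul_of_nonneg_left h2i hκ₁0, mul_le_mul_of_nonneg_left h2i hκ₂0]
      linarith
    calc _ ≤ ∑ P ∈ S₀.filter (fun P => ∃ j, tev (f j) (fun i => (𝓧 i).ξ (P i)) ≠ 0),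
          ∑ v ∈ V, 𝓟.w v * exc 𝓟 ℓ B₂ C₂ (2 ^ i₀) v f (fun i => (𝓧 i).ξ (P i)) :=
          Finset.sum_le_sum h1
      _ ≤ ∑ P ∈ 𝒮, ∑ v ∈ V, 𝓟.w v *
            exc 𝓟 ℓ B₂ C₂ (2 ^ i₀) v f (fun i => (𝓧 i).ξ (P i)) :=
          Finset.sum_le_sum_of_subset_of_nonneg ((Finset.filter_subset _ _).trans hsub)
            fun P _ _ => hexc0 P
      _ ≤ _ := hexc M hM1 V i₀ hi₀I
  have hbad : ∑ P ∈ S₀.filter (fun P => ¬ ∃ j, tev (f j) (fun i => (𝓧 i).ξ (P i)) ≠ 0),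
      max 0 (hY 𝓟 W F Dg P - b * ((2 : ℝ) ^ i₀) ^ (r + 2)) ≤
      C₄ * (∑ i, B i + 1) * (2 ^ ((c + 1) * r) * B₃) *
        ((M : ℝ) ^ (ρs + 2) / (M : ℝ) ^ (c * r)) := by
    set bad := S₀.filter (fun P => ¬ ∃ j, tev (f j) (fun i => (𝓧 i).ξ (P i)) ≠ 0) with hbaddef
    have h1 : ∀ P ∈ bad, max 0 (hY 𝓟 W F Dg P - b * ((2 : ℝ) ^ i₀) ^ (r + 2)) ≤
        C₄ * ((∑ i, B i + 1) * (M : ℝ) ^ 2) := by
      intro P hP
      have hPS := (Finset.mem_filter.mp hP).1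
      have hP𝒮 := hsub hPS
      have h2 := hclos P (fun i => (𝓧 i).H.h (P i)) (fun i => (𝓧 i).H.h_nonneg _)
        (fun i => by rw [← hξ]; exact (𝓧 i).ξ_fin (P i))
        (fun i V hV => by
          have := (𝓧 i).ht (P i) V (fun v hv => hV v (by rwa [← hξ]))
          rwa [hξ] at this)
        (hS₀ P hPS).2.1 V (hV P hPS)
      rw [← hY_eq W F Dg P V (hV P hPS)] at h2
      have h3 : ∑ i, (𝓧 i).H.h (P i) ≤ (∑ i, B i) * (M : ℝ) ^ 2 := by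
        rw [Finset.sum_mul]
        exact Finset.sum_le_sum fun i _ => hB i M hM1 (P i) (Fintype.mem_piFinset.mp hP𝒮 i)
      have h4 : C₄ * (∑ i, (𝓧 i).H.h (P i) + 1) ≤ C₄ * ((∑ i, B i + 1) * (M : ℝ) ^ 2) := by
        apply mul_le_mul_of_nonneg_left _ hC₄0
        linarith
      apply max_le (by positivity)
      have h5 : 0 ≤ b * ((2 : ℝ) ^ i₀) ^ (r + 2) := by positivity
      linarith
    obtain ⟨v₀⟩ := ‹Nonempty ι›
    have hbc := hloc v₀ M (2 ^ I) Nat.one_le_two_pow hAM bad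
      ((Finset.filter_subset _ _).trans hsub) (fun P hP => by
        have h1 := (Finset.mem_filter.mp hP).2
        push Not at h1
        rw [cl_eq_zero v₀ f _ h1]
        exact Real.exp_pos _)
    push_cast at hbc
    have hMc : (M : ℝ) ^ ((c + 1) * r) * (bad.card : ℝ) ≤
        2 ^ ((c + 1) * r) * B₃ * (M : ℝ) ^ ρs := by
      have h1 : (M : ℝ) ^ ((c + 1) * r) ≤ 2 ^ ((c + 1) * r) * ((2 : ℝ) ^ I) ^ ((c + 1) * r) := by
        rw [← mul_pow]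
        exact pow_le_pow_left₀ hM0.le hMA _
      calc _ ≤ (2 ^ ((c + 1) * r) * ((2 : ℝ) ^ I) ^ ((c + 1) * r)) * (bad.card : ℝ) := by gcongr
        _ = 2 ^ ((c + 1) * r) * (((2 : ℝ) ^ I) ^ ((c + 1) * r) * (bad.card : ℝ)) := by ring
        _ ≤ 2 ^ ((c + 1) * r) * (B₃ * (M : ℝ) ^ ρs) := by gcongr
        _ = _ := by ring
    have hMc2 : (bad.card : ℝ) ≤ 2 ^ ((c + 1) * r) * B₃ * (M : ℝ) ^ ρs / (M : ℝ) ^ (c * r) := by
      rw [le_div_iff₀ (by positivity)]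
      refine le_trans ?_ hMc
      have : (M : ℝ) ^ (c * r) ≤ (M : ℝ) ^ ((c + 1) * r) :=
        pow_le_pow_right₀ hMr (Nat.mul_le_mul_right _ (by omega))
      nlinarith [Nat.cast_nonneg (α := ℝ) bad.card]
    calc _ ≤ ∑ _P ∈ bad, C₄ * ((∑ i, B i + 1) * (M : ℝ) ^ 2) := Finset.sum_le_sum h1
      _ = bad.card * (C₄ * ((∑ i, B i + 1) * (M : ℝ) ^ 2)) := by
          rw [Finset.sum_const, nsmul_eq_mul]
      _ ≤ (2 ^ ((c + 1) * r) * B₃ * (M : ℝ) ^ ρs / (M : ℝ) ^ (c * r)) *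
          (C₄ * ((∑ i, B i + 1) * (M : ℝ) ^ 2)) := by gcongr
      _ = _ := by rw [pow_add]; ring
  have hY1 : 0 ≤ (M : ℝ) ^ ρs * ∑ i ∈ Finset.Ico i₀ I,
          ((2 : ℝ) ^ i) ^ (r + 2) / ((2 : ℝ) ^ i) ^ ((c + 1) * r) := by positivity
  have hY2 : 0 ≤ (M : ℝ) ^ (ρs + 2) / (M : ℝ) ^ (c * r) := by positivity
  set X₁ := (M : ℝ) ^ ρs * ∑ i ∈ Finset.Ico i₀ I,
          ((2 : ℝ) ^ i) ^ (r + 2) / ((2 : ℝ) ^ i) ^ ((c + 1) * r) with hX₁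
  set X₂ := (M : ℝ) ^ (ρs + 2) / (M : ℝ) ^ (c * r) with hX₂
  set Z := C₄ * (∑ i, B i + 1) * (2 ^ ((c + 1) * r) * B₃) with hZ
  have hZ0 : 0 ≤ Z := by positivity
  calc _ ≤ B₂ * (X₁ + X₂) + Z * X₂ := add_le_add hgood hbad
    _ ≤ E * (X₁ + X₂) := by
        rw [hE]
        nlinarith [mul_nonneg hC₅0 (add_nonneg hY1 hY2), mul_nonneg hZ0 hY1]

end

end Pool.Agent.AG
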