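import Mathlib
import Pool.Agent.AG.Pl
import Pool.Agent.AG.Interp

/-!
# Moments of the height with respect to `Y`: definitions

See `BLUEPRINT3.md` in this folder.  A condition is a pair `o = (v, t)`, a place and a real number
`t ≥ 0`; an element `a` of the group satisfies it if it is within `exp (-t)` of `0` at `v`.
-/

set_option autoImplicit false

open Pool.Agent.H7.Vojta (HtSys box mem_box)

namespace Pool.Agent.AG

section

variable {ι : Type*} {G : Type*} [AddCommGroup G]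

/-- The element `a` is close to `0` at the place `o.1`, up to `exp (- o.2)`. -/
def nr (𝓗 : HtSys G ι) (m : ℕ) (o : ι × ℝ) (a : G) : Prop :=
  𝓗.c o.1 ^ m * 𝓗.ν o.1 a ≤ Real.exp (-o.2)

lemma nr_zero (𝓗 : HtSys G ι) (m : ℕ) (o : ι × ℝ) : nr 𝓗 m o 0 := by
  unfold nr
  rw [𝓗.ν_zero, mul_zero]
  exact (Real.exp_pos _).le

lemma nr_mono (𝓗 : HtSys G ι) {m : ℕ} {o : ι × ℝ} {a : G} (h : nr 𝓗 (m + 1) o a) :
    nr 𝓗 m o a := by
  unfold nr at h ⊢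
  refine le_trans (mul_le_mul_of_nonneg_right ?_ (𝓗.ν_nonneg _ _)) h
  exact pow_le_pow_right₀ (𝓗.one_le_c _) (Nat.le_succ m)

lemma nr_sub (𝓗 : HtSys G ι) {m : ℕ} {o : ι × ℝ} {a b : G} (ha : nr 𝓗 (m + 1) o a)
    (hb : nr 𝓗 (m + 1) o b) : nr 𝓗 m o (a - b) := by
  unfold nr at ha hb ⊢
  have hc : 0 ≤ 𝓗.c o.1 ^ m := pow_nonneg (zero_le_one.trans (𝓗.one_le_c _)) _
  have h1 : 𝓗.ν o.1 (a - b) ≤ 𝓗.c o.1 * max (𝓗.ν o.1 a) (𝓗.ν o.1 b) := by
    rw [sub_eq_add_neg]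
    have := 𝓗.ν_add o.1 a (-b)
    rwa [𝓗.ν_neg] at this
  rcases max_cases (𝓗.ν o.1 a) (𝓗.ν o.1 b) with ⟨h2, -⟩ | ⟨h2, -⟩
  · rw [h2] at h1
    calc 𝓗.c o.1 ^ m * 𝓗.ν o.1 (a - b) ≤ 𝓗.c o.1 ^ m * (𝓗.c o.1 * 𝓗.ν o.1 a) :=
          mul_le_mul_of_nonneg_left h1 hc
      _ = 𝓗.c o.1 ^ (m + 1) * 𝓗.ν o.1 a := by rw [pow_succ, mul_assoc]
      _ ≤ _ := ha
  · rw [h2] at h1
    calc 𝓗.c o.1 ^ m * 𝓗.ν o.1 (a - b) ≤ 𝓗.c o.1 ^ m * (𝓗.c o.1 * 𝓗.ν o.1 b) :=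
          mul_le_mul_of_nonneg_left h1 hc
      _ = 𝓗.c o.1 ^ (m + 1) * 𝓗.ν o.1 b := by rw [pow_succ, mul_assoc]
      _ ≤ _ := hb

open Classical in
/-- The number of elements of `D'` that satisfy all the conditions `F j`. -/
noncomputable def cnt (𝓗 : HtSys G ι) (m : ℕ) (D' : Finset G) {p : ℕ} (F : Fin p → ι × ℝ) : ℕ :=
  (D'.filter fun a => ∀ j, nr 𝓗 m (F j) a).card

/-- Boxes: the elements `∑ a_j R_j + s` with `|a_j| ≤ M` and `s ∈ T`. -/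
noncomputable def bx {ρ : ℕ} (R : Fin ρ → G) (T : Finset G) (M : ℕ) : Finset G := by
  classical
  exact (T ×ˢ box ρ M).image fun q => ∑ j, q.2 j • R j + q.1

lemma mem_bx {ρ : ℕ} {R : Fin ρ → G} {T : Finset G} {M : ℕ} {x : G} :
    x ∈ bx R T M ↔ ∃ s ∈ T, ∃ a ∈ box ρ M, x = ∑ j, a j • R j + s := by
  classical
  unfold bx
  rw [Finset.mem_image]
  constructor
  · rintro ⟨⟨s, a⟩, h, rfl⟩
    exact ⟨s, (Finset.mem_product.mp h).1, a, (Finset.mem_product.mp h).2, rfl⟩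
  · rintro ⟨s, hs, a, ha, rfl⟩
    exact ⟨(s, a), Finset.mk_mem_product hs ha, rfl⟩

end

section

variable {ι : Type*}

/-- The threshold for the closeness to `Y`. -/
noncomputable def thr (B : ℝ) (C : ι → ℝ) (o : ι × ℝ) : ℝ :=
  Real.exp (-(B * o.2 + Real.log (C o.1)))

/-- The tuples of conditions. -/
noncomputable def tup (Ω : Finset (ι × ℝ)) (p : ℕ) : Finset (Fin p → ι × ℝ) := by
  classical
  exact Fintype.piFinset fun _ => Ω

lemma mem_tup {Ω : Finset (ι × ℝ)} {p : ℕ} {F : Fin p → ι × ℝ} : F ∈ tup Ω p ↔ ∀ j, F j ∈ Ω := by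
  classical
  unfold tup
  exact Fintype.mem_piFinset

open Classical in
/-- The total weight of the conditions in `Ω` with the property `E`. -/
noncomputable def wsum (Ω : Finset (ι × ℝ)) (ω : ι × ℝ → ℝ) (E : ι × ℝ → Prop) : ℝ :=
  ∑ o ∈ Ω.filter E, ω o

lemma wsum_nonneg {Ω : Finset (ι × ℝ)} {ω : ι × ℝ → ℝ} (hω : ∀ o ∈ Ω, 0 ≤ ω o)
    (E : ι × ℝ → Prop) : 0 ≤ wsum Ω ω E := by
  classical
  exact Finset.sum_nonneg fun o ho => hω o (Finset.mem_filter.mp ho).1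

lemma wsum_mono {Ω : Finset (ι × ℝ)} {ω : ι × ℝ → ℝ} (hω : ∀ o ∈ Ω, 0 ≤ ω o)
    {E E' : ι × ℝ → Prop} (h : ∀ o ∈ Ω, E o → E' o) : wsum Ω ω E ≤ wsum Ω ω E' := by
  classical
  unfold wsum
  apply Finset.sum_le_sum_of_subset_of_nonneg
  · intro o ho
    obtain ⟨h1, h2⟩ := Finset.mem_filter.mp ho
    exact Finset.mem_filter.mpr ⟨h1, h o h1 h2⟩
  · intro o ho _
    exact hω o (Finset.mem_filter.mp ho).1

lemma wsum_or_le {Ω : Finset (ι × ℝ)} {ω : ι × ℝ → ℝ} (hω : ∀ o ∈ Ω, 0 ≤ ω o)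
    {E E₁ E₂ : ι × ℝ → Prop} (h : ∀ o ∈ Ω, E o → E₁ o ∨ E₂ o) :
    wsum Ω ω E ≤ wsum Ω ω E₁ + wsum Ω ω E₂ := by
  classical
  unfold wsum
  rw [Finset.sum_filter, Finset.sum_filter, Finset.sum_filter, ← Finset.sum_add_distrib]
  refine Finset.sum_le_sum fun o ho => ?_
  have h0 := hω o ho
  by_cases h1 : E o
  · rcases h o ho h1 with h2 | h2
    · rw [if_pos h1, if_pos h2]
      split_ifs <;> linarith
    · rw [if_pos h1, if_pos h2]
      split_ifs <;> linarith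
  · rw [if_neg h1]
    split_ifs <;> linarith

open Classical in
/-- The power of a sum of weights is a sum over tuples. -/
lemma wsum_pow (Ω : Finset (ι × ℝ)) (ω : ι × ℝ → ℝ) (E : ι × ℝ → Prop) (p : ℕ) :
    wsum Ω ω E ^ p = ∑ F ∈ (tup Ω p).filter (fun F => ∀ j, E (F j)), ∏ j, ω (F j) := by
  have h1 : (tup Ω p).filter (fun F => ∀ j, E (F j)) =
      Fintype.piFinset (fun _ : Fin p => Ω.filter E) := by
    ext F
    rw [Finset.mem_filter, mem_tup, Fintype.mem_piFinset]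
    simp only [Finset.mem_filter]
    exact ⟨fun h j => ⟨h.1 j, h.2 j⟩, fun h => ⟨fun j => (h j).1, fun j => (h j).2⟩⟩
  rw [h1, ← Finset.prod_univ_sum, Finset.prod_const, Finset.card_univ, Fintype.card_fin]
  rfl

lemma add_pow_le' {a b : ℝ} (ha : 0 ≤ a) (hb : 0 ≤ b) (p : ℕ) :
    (a + b) ^ p ≤ 2 ^ p * (a ^ p + b ^ p) := by
  have h1 : a + b ≤ 2 * max a b := by
    have := le_max_left a b
    have := le_max_right a b
    linarith
  calc (a + b) ^ p ≤ (2 * max a b) ^ p := pow_le_pow_left₀ (add_nonneg ha hb) h1 p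
    _ = 2 ^ p * (max a b) ^ p := mul_pow _ _ _
    _ ≤ 2 ^ p * (a ^ p + b ^ p) := by
        apply mul_le_mul_of_nonneg_left _ (by positivity)
        rcases max_cases a b with ⟨h, -⟩ | ⟨h, -⟩
        · rw [h]
          have : 0 ≤ b ^ p := by positivity
          linarith
        · rw [h]
          have : 0 ≤ a ^ p := by positivity
          linarith

/-- The weights are admissible: the weights at `v` up to `s` add up to at most `2 w_v s`. -/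
structure Adm {K : Type*} [Field K] (𝓟 : PlSys K ι) (Ω : Finset (ι × ℝ)) (ω : ι × ℝ → ℝ) :
    Prop where
  pos : ∀ o ∈ Ω, 0 ≤ o.2
  nonneg : ∀ o ∈ Ω, 0 ≤ ω o
  le : ∀ v : ι, ∀ s : ℝ, 0 ≤ s → wsum Ω ω (fun o => o.1 = v ∧ o.2 ≤ s) ≤ 2 * (𝓟.w v * s)

end

end Pool.Agent.AG
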