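import Mathlib
import Pool.Agent.AG.Defs3

/-! # Covering by small boxes (module Cov) -/

set_option autoImplicit false

open Pool.Agent.H7.Vojta (HtSys box mem_box card_box)

namespace Pool.Agent.AG

section

variable {ι : Type*} {G : Type*} [AddCommGroup G]

theorem cov_le (𝓗 : HtSys G ι) {ρ : ℕ} (R : Fin ρ → G) (T' : Finset G) {M B p : ℕ}
    (hB : 1 ≤ B) (hBM : B ≤ M) (F : Fin p → ι × ℝ)
    (h : ∀ x ∈ bx R {0} B, (∀ j, nr 𝓗 0 (F j) x) → x = 0) :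
    (cnt 𝓗 1 (bx R T' (2 * M)) F : ℝ) ≤ T'.card * (6 * (M : ℝ) / B) ^ ρ := by
  classical
  set W : Finset G := (bx R T' (2 * M)).filter (fun a => ∀ j, nr 𝓗 1 (F j) a) with hW
  have hcnt : cnt 𝓗 1 (bx R T' (2 * M)) F = W.card := by
    unfold cnt
    rw [hW]
  set q : ℤ := ((2 * M / B : ℕ) : ℤ) with hq
  have hrep : ∀ x : G, ∃ sa : G × (Fin ρ → ℤ), x ∈ W →
      sa.1 ∈ T' ∧ sa.2 ∈ box ρ (2 * M) ∧ x = ∑ j, sa.2 j • R j + sa.1 := by
    intro x
    by_cases hx : x ∈ W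
    · obtain ⟨s, hs, a, ha, hxa⟩ := mem_bx.mp (Finset.mem_filter.mp hx).1
      exact ⟨(s, a), fun _ => ⟨hs, ha, hxa⟩⟩
    · exact ⟨(0, 0), fun h => absurd h hx⟩
  choose φ hφ using hrep
  have hB0 : (0 : ℤ) < B := by exact_mod_cast hB
  have hcard : W.card ≤ (T' ×ˢ Fintype.piFinset (fun _ : Fin ρ => Finset.Icc (-(q + 1)) q)).card := by
    refine Finset.card_le_card_of_injOn (fun x => ((φ x).1, fun j => (φ x).2 j / (B : ℤ))) ?_ ?_
    · intro x hx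
      have hx' : x ∈ W := hx
      obtain ⟨h1, h2, -⟩ := hφ x hx'
      refine Finset.mem_coe.mpr (Finset.mem_product.mpr ⟨h1, Fintype.mem_piFinset.mpr fun j => ?_⟩)
      have h3 := mem_box.mp h2 j
      rw [abs_le] at h3
      push_cast at h3
      show (φ x).2 j / (B : ℤ) ∈ _
      rw [Finset.mem_Icc]
      have hq2 : q = (2 * M : ℤ) / B := by
        rw [hq]
        push_cast
        rfl
      constructor
      · rw [Int.le_ediv_iff_mul_le hB0]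
        have := Int.lt_ediv_add_one_mul_self (2 * M : ℤ) hB0
        rw [← hq2] at this
        linarith [h3.1]
      · rw [hq2]
        exact Int.ediv_le_ediv hB0 h3.2
    · intro x hx y hy hxy
      have hx' : x ∈ W := hx
      have hy' : y ∈ W := hy
      obtain ⟨-, -, h1⟩ := hφ x hx'
      obtain ⟨-, -, h2⟩ := hφ y hy'
      have hxy' : ((φ x).1, fun j => (φ x).2 j / (B : ℤ)) =
          ((φ y).1, fun j => (φ y).2 j / (B : ℤ)) := hxy
      have e1 : (φ x).1 = (φ y).1 := (Prod.ext_iff.mp hxy').1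
      have e2 : ∀ j, (φ x).2 j / (B : ℤ) = (φ y).2 j / (B : ℤ) := fun j =>
        congrFun (Prod.ext_iff.mp hxy').2 j
      have h3 : x - y = 0 := by
        refine h (x - y) ?_ ?_
        · refine mem_bx.mpr ⟨0, Finset.mem_singleton_self 0, fun j => (φ x).2 j - (φ y).2 j, ?_, ?_⟩
          · refine mem_box.mpr fun j => ?_
            have a1 := Int.mul_ediv_add_emod ((φ x).2 j) B
            have a2 := Int.mul_ediv_add_emod ((φ y).2 j) B
            have a3 := Int.emod_nonneg ((φ x).2 j) hB0.ne'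
            have a4 := Int.emod_nonneg ((φ y).2 j) hB0.ne'
            have a5 := Int.emod_lt_of_pos ((φ x).2 j) hB0
            have a6 := Int.emod_lt_of_pos ((φ y).2 j) hB0
            rw [e2 j] at a1
            rw [abs_le]
            constructor <;> linarith
          · nth_rewrite 1 [h1]
            nth_rewrite 1 [h2]
            rw [e1, add_sub_add_right_eq_sub, add_zero, ← Finset.sum_sub_distrib]
            exact Finset.sum_congr rfl fun j _ => by rw [sub_smul]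
        · intro j
          exact nr_sub 𝓗 ((Finset.mem_filter.mp hx').2 j) ((Finset.mem_filter.mp hy').2 j)
      exact sub_eq_zero.mp h3
  have hBr : (0 : ℝ) < B := by exact_mod_cast hB
  have hMB : (1 : ℝ) ≤ M / B := by
    rw [le_div_iff₀ hBr, one_mul]
    exact_mod_cast hBM
  have hI : ((Finset.Icc (-(q + 1)) q).card : ℝ) ≤ 6 * (M : ℝ) / B := by
    have h1 : (Finset.Icc (-(q + 1)) q).card = 2 * (2 * M / B) + 2 := by
      rw [Int.card_Icc, hq]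
      omega
    have h2 : ((2 * M / B : ℕ) : ℝ) ≤ ((2 * M : ℕ) : ℝ) / (B : ℝ) := Nat.cast_div_le
    rw [h1]
    push_cast at h2 ⊢
    have h3 : 6 * (M : ℝ) / B = 2 * (2 * M / B) + 2 * (M / B) := by ring
    rw [h3]
    linarith
  rw [hcnt]
  calc (W.card : ℝ) ≤ ((T' ×ˢ Fintype.piFinset
          (fun _ : Fin ρ => Finset.Icc (-(q + 1)) q)).card : ℝ) := by exact_mod_cast hcard
    _ = T'.card * ((Finset.Icc (-(q + 1)) q).card : ℝ) ^ ρ := by
        rw [Finset.card_product, Fintype.card_piFinset, Finset.prod_const, Finset.card_univ,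
          Fintype.card_fin]
        push_cast
        rfl
    _ ≤ _ := by
        apply mul_le_mul_of_nonneg_left _ (Nat.cast_nonneg _)
        exact pow_le_pow_left₀ (Nat.cast_nonneg _) hI _

/-- The number `⌈A ^ ((r + 2 p) / (ρ + 2 p))⌉`. -/
noncomputable def lvP (p r ρ A : ℕ) : ℕ :=
  ⌈(A : ℝ) ^ (((r : ℝ) + 2 * p) / ((ρ : ℝ) + 2 * p))⌉₊

lemma lvP_base_ge (p r ρ : ℕ) {A : ℕ} (hA : 1 ≤ A) :
    (1 : ℝ) ≤ (A : ℝ) ^ (((r : ℝ) + 2 * p) / ((ρ : ℝ) + 2 * p)) :=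
  Real.one_le_rpow (by exact_mod_cast hA) (by positivity)

lemma lvP_pos (p r ρ : ℕ) {A : ℕ} (hA : 1 ≤ A) : 0 < lvP p r ρ A := by
  unfold lvP
  rw [Nat.ceil_pos]
  linarith [lvP_base_ge p r ρ hA]

lemma lvP_le {p r ρ : ℕ} (hp : 1 ≤ p) (hρ : r ≤ ρ) {A : ℕ} (hA : 1 ≤ A) : lvP p r ρ A ≤ A := by
  unfold lvP
  rw [Nat.ceil_le]
  have hA1 : (1 : ℝ) ≤ A := by exact_mod_cast hA
  have hρr : (r : ℝ) ≤ ρ := by exact_mod_cast hρ
  have hp1 : (1 : ℝ) ≤ p := by exact_mod_cast hp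
  calc (A : ℝ) ^ (((r : ℝ) + 2 * p) / ((ρ : ℝ) + 2 * p)) ≤ (A : ℝ) ^ (1 : ℝ) := by
        apply Real.rpow_le_rpow_of_exponent_le hA1
        rw [div_le_one (by positivity)]
        linarith
    _ = A := Real.rpow_one _

lemma lvP_pow_ge {p r ρ : ℕ} (hp : 1 ≤ p) (hρ : r ≤ ρ) {A : ℕ} (hA : 1 ≤ A) :
    (A : ℝ) ^ r ≤ (lvP p r ρ A : ℝ) ^ ρ := by
  have hA1 : (1 : ℝ) ≤ A := by exact_mod_cast hA
  have hA0 : (0 : ℝ) ≤ A := by linarith
  have hρr : (r : ℝ) ≤ ρ := by exact_mod_cast hρ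
  have hp1 : (1 : ℝ) ≤ p := by exact_mod_cast hp
  have h1 : (A : ℝ) ^ (((r : ℝ) + 2 * p) / ((ρ : ℝ) + 2 * p)) ≤ (lvP p r ρ A : ℝ) :=
    Nat.le_ceil _
  calc (A : ℝ) ^ r = (A : ℝ) ^ (r : ℝ) := (Real.rpow_natCast _ _).symm
    _ ≤ (A : ℝ) ^ ((((r : ℝ) + 2 * p) / ((ρ : ℝ) + 2 * p)) * (ρ : ℝ)) := by
        apply Real.rpow_le_rpow_of_exponent_le hA1
        rw [div_mul_eq_mul_div, le_div_iff₀ (by positivity)]
        nlinarith
    _ = ((A : ℝ) ^ (((r : ℝ) + 2 * p) / ((ρ : ℝ) + 2 * p))) ^ ρ := by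
        rw [Real.rpow_mul hA0, Real.rpow_natCast]
    _ ≤ _ := pow_le_pow_left₀ (by positivity) h1 ρ

lemma lvP_pow_le {p r ρ : ℕ} (hp : 1 ≤ p) {A : ℕ} (hA : 1 ≤ A) :
    (lvP p r ρ A : ℝ) ^ (ρ + 2 * p) ≤ 2 ^ (ρ + 2 * p) * (A : ℝ) ^ (r + 2 * p) := by
  have hA1 : (1 : ℝ) ≤ A := by exact_mod_cast hA
  have hA0 : (0 : ℝ) ≤ A := by linarith
  have hp1 : (1 : ℝ) ≤ p := by exact_mod_cast hp
  set x : ℝ := (A : ℝ) ^ (((r : ℝ) + 2 * p) / ((ρ : ℝ) + 2 * p)) with hx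
  have hx1 : 1 ≤ x := lvP_base_ge p r ρ hA
  have h1 : (lvP p r ρ A : ℝ) ≤ 2 * x := by
    have := (Nat.ceil_lt_add_one (show (0 : ℝ) ≤ x by linarith)).le
    unfold lvP
    rw [← hx]
    linarith
  have h2 : x ^ (ρ + 2 * p) = (A : ℝ) ^ (r + 2 * p) := by
    rw [hx, ← Real.rpow_natCast, ← Real.rpow_mul hA0, ← Real.rpow_natCast]
    congr 1
    push_cast
    field_simp
  calc (lvP p r ρ A : ℝ) ^ (ρ + 2 * p) ≤ (2 * x) ^ (ρ + 2 * p) :=
        pow_le_pow_left₀ (Nat.cast_nonneg _) h1 _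
    _ = _ := by rw [mul_pow, h2]

end

end Pool.Agent.AG
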