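import Mathlib
import Pool.Agent.AG.Pl
import Pool.Agent.H7.VojtaInst
import Pool.Agent.H7.VojtaSym

/-! # Number fields and elliptic curves (module Inst) -/

set_option autoImplicit false

open Height NumberField WeierstrassCurve WeierstrassCurve.Affine
open Pool.Agent.H7.Vojta (HtSys naive nearness)

namespace Pool.Agent.AG

universe u

section

variable (k : Type u) [Field k] [NumberField k]

lemma finite_of_finitePlace {k : Type u} [Field k] [NumberField k]
    {p : InfinitePlace k ⊕ FinitePlace k → Prop}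
    (h : {v : FinitePlace k | p (Sum.inr v)}.Finite) : {v | p v}.Finite := by
  refine ((Set.finite_range (Sum.inl : InfinitePlace k → InfinitePlace k ⊕ FinitePlace k)).union
    (h.image Sum.inr)).subset ?_
  rintro (v | v) hv
  · exact Or.inl ⟨v, rfl⟩
  · exact Or.inr ⟨v, hv, rfl⟩

lemma sum_log_eq_zero {k : Type u} [Field k] [NumberField k] {g : k} (hg : g ≠ 0) :
    ∑ w : InfinitePlace k, w.mult * Real.log (w g) + ∑ᶠ w : FinitePlace k, Real.log (w g) = 0 := by
  have h1 : ∀ w : InfinitePlace k, 0 < w g := fun w => InfinitePlace.pos_iff.mpr hg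
  have h2 : ∀ w : FinitePlace k, 0 < w g := fun w => FinitePlace.pos_iff.mpr hg
  have h := congrArg Real.log (prod_abs_eq_one hg)
  rw [Real.log_mul (Finset.prod_pos fun w _ => pow_pos (h1 w) _).ne'
      (finprod_induction (fun x : ℝ => 0 < x) one_pos (fun _ _ => mul_pos) h2 :
      0 < ∏ᶠ w : FinitePlace k, w g).ne',
    Real.log_finprod h2, Real.log_prod (fun w _ => (pow_pos (h1 w) _).ne'), Real.log_one] at h
  simpa only [Real.log_pow] using h

/-- The places of a number field. -/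
noncomputable def plSys : PlSys k (InfinitePlace k ⊕ FinitePlace k) where
  w := Sum.elim (fun v => (v.mult : ℝ)) (fun _ => 1)
  w_nonneg := by
    rintro (v | v)
    · exact Nat.cast_nonneg _
    · exact zero_le_one
  av := Sum.elim (fun v => v.val) (fun v => v.val)
  fin := by
    intro a ha
    exact finite_of_finitePlace (FinitePlace.hasFiniteMulSupport ha)
  prod := by
    intro a ha V hV
    rw [H7.Vojta.sum_places _ V]
    · rw [← sum_log_eq_zero ha]
      congr 1
      apply finsum_congr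
      intro v
      exact one_mul _
    · intro v hv
      apply hV
      intro h1
      apply right_ne_zero_of_mul hv
      rw [h1, Real.log_one]
  σ := Sum.elim (fun _ => 2) (fun _ => 1)
  σ_cst := by
    constructor
    · rintro (v | v)
      · exact one_le_two
      · exact le_rfl
    · apply finite_of_finitePlace
      simp
  add_le := by
    rintro (v | v) a b
    · have h := v.val.add_le a b
      have h1 := le_max_left (v.val a) (v.val b)
      have h2 := le_max_right (v.val a) (v.val b)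
      change v.val (a + b) ≤ 2 * max (v.val a) (v.val b)
      linarith
    · change v.val (a + b) ≤ 1 * max (v.val a) (v.val b)
      rw [one_mul]
      exact FinitePlace.add_le v a b

end

section core

variable {K : Type*} [Field K] {ι : Type*} (𝓟 : PlSys K ι)

/-- The value of a homogeneous polynomial is bounded by the power of the maximum norm. -/
lemma exists_eval_le {m d : ℕ} (p : MvPolynomial (Fin m) K) (hp : p.IsHomogeneous d) :
    ∃ C : ι → ℝ, IsCst C ∧ ∀ v (s : Fin m → K),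
      𝓟.av v (p.eval s) ≤ C v * (⨆ i, 𝓟.av v (s i)) ^ d := by
  classical
  obtain ⟨C, hC, hCle⟩ := exists_common (α := p.support)
    (Φ := fun a v c => 𝓟.av v (p.coeff a.1) ≤ c) (fun a v c c' h h' => h'.trans h)
    (fun a => exists_av_le 𝓟 (p.coeff a.1))
  refine ⟨fun v => 𝓟.σ v ^ p.support.card * C v, (𝓟.σ_cst.pow _).mul hC, ?_⟩
  intro v s
  have h0 : 0 ≤ ⨆ i, 𝓟.av v (s i) := Real.iSup_nonneg fun i => AbsoluteValue.nonneg _ _
  rw [MvPolynomial.eval_eq', mul_assoc]
  apply av_sum_le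
  · have := hC.one_le v
    positivity
  · intro a ha
    rw [map_mul, map_prod]
    refine mul_le_mul (hCle ⟨a, ha⟩ v) ?_ (Finset.prod_nonneg fun i _ => AbsoluteValue.nonneg _ _)
      (zero_le_one.trans (hC.one_le v))
    have hdeg : ∑ i, a i = d := by
      have := hp (MvPolynomial.mem_support_iff.mp ha)
      rw [Finsupp.weight_apply, Finsupp.sum_fintype _ _ (by simp)] at this
      simpa using this
    rw [← hdeg, ← Finset.prod_pow_eq_pow_sum]
    apply Finset.prod_le_prod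
    · intro i _
      exact AbsoluteValue.nonneg _ _
    · intro i _
      rw [map_pow]
      exact pow_le_pow_left₀ (AbsoluteValue.nonneg _ _)
        (le_ciSup (Set.finite_range fun i => 𝓟.av v (s i)).bddAbove i) _

end core

/-- The algebraic core of the lower bound for the addition and subtraction map. -/
lemma exists_asMap_ge {K : Type*} [Field K] {ι : Type*} (𝓟 : PlSys K ι) (W : Affine K)
    [W.IsElliptic] : ∃ C : ι → ℝ, IsCst C ∧ ∀ v (s : Fin 3 → K),
      (⨆ i, 𝓟.av v (s i)) ^ 2 ≤ C v * ⨆ i, 𝓟.av v (H7.Vojta.asMap W s i) := by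
  classical
  obtain ⟨C, hC, hCle⟩ := exists_common (α := Fin 3 × Fin 3)
    (Φ := fun a v c => ∀ s : Fin 3 → K, 𝓟.av v
      ((MvPolynomial.C (↑W.Δ'⁻¹ : K) * addSubMapCoeff W a).eval s) ≤
        c * (⨆ i, 𝓟.av v (s i)) ^ 2)
    (fun a v c c' h h' s => (h' s).trans (mul_le_mul_of_nonneg_right h (sq_nonneg _)))
    (fun a => exists_eval_le 𝓟 _ ((isHomogeneous_addSubMapCoeff W a).C_mul _))
  refine ⟨fun v => 𝓟.σ v ^ 3 * C v, (𝓟.σ_cst.pow _).mul hC, ?_⟩
  intro v s
  set T := ⨆ i, 𝓟.av v (s i) with hT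
  set U := ⨆ i, 𝓟.av v (H7.Vojta.asMap W s i) with hU
  have hT0 : 0 ≤ T := Real.iSup_nonneg fun i => AbsoluteValue.nonneg _ _
  have hU0 : 0 ≤ U := Real.iSup_nonneg fun i => AbsoluteValue.nonneg _ _
  have hC1 := hC.one_le v
  have hσ1 := 𝓟.σ_cst.one_le v
  have hR0 : 0 ≤ 𝓟.σ v ^ 3 * C v * U := by positivity
  rcases hT0.eq_or_lt with h | h
  · rw [← h]
    simpa using hR0
  -- the largest coordinate
  obtain ⟨i, hi⟩ := exists_eq_ciSup_of_finite (f := fun i => 𝓟.av v (s i))
  have hi' : 𝓟.av v (s i) = T := hi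
  have h4 : 𝓟.av v (s i) ^ 4 ≤ 𝓟.σ v ^ 3 * (C v * T ^ 2 * U) := by
    rw [← map_pow, ← addSubMapCoeff_condition W s i]
    refine av_sum_le 𝓟 (Finset.univ : Finset (Fin 3)) _ v (B := C v * T ^ 2 * U) ?_ ?_
    · positivity
    · intro j _
      rw [map_mul]
      refine mul_le_mul (hCle (i, j) v s) ?_ (AbsoluteValue.nonneg _ _) (by positivity)
      have := le_ciSup (Set.finite_range fun i => 𝓟.av v (H7.Vojta.asMap W s i)).bddAbove j
      rw [← H7.Vojta.eval_addSubMap] at this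
      rw [hU, ← H7.Vojta.eval_addSubMap]
      exact this
  rw [hi'] at h4
  have h5 : T ^ 2 * T ^ 2 ≤ (𝓟.σ v ^ 3 * C v * U) * T ^ 2 := by
    calc T ^ 2 * T ^ 2 = T ^ 4 := by ring
      _ ≤ 𝓟.σ v ^ 3 * (C v * T ^ 2 * U) := h4
      _ = (𝓟.σ v ^ 3 * C v * U) * T ^ 2 := by ring
  exact le_of_mul_le_mul_right h5 (by positivity)

section near

variable {K : Type*} [Field K] {ι : Type*} (𝓟 : PlSys K ι)

lemma nearness_eq [DecidableEq K] {W : Affine K} (v : ι) (P : W.Point) :
    nearness (𝓟.av v) P = 𝓟.av v (P.xRep 1) / nm 𝓟 v P.xRep := by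
  match P with
  | 0 => simp [nearness, Point.xRep_zero]
  | .some x y h => simp [nearness, nm, Point.xRep_some]

lemma one_le_nm_xRep {W : Affine K} (v : ι) (P : W.Point) : 1 ≤ nm 𝓟 v P.xRep := by
  match P with
  | 0 =>
    rw [Point.xRep_zero]
    simp [nm]
  | .some x y h => simp [nm, Point.xRep_some]

lemma nm_mul_nm_le (v : ι) (p q : Fin 2 → K) {M : ℝ} (h0 : 𝓟.av v (p 0 * q 0) ≤ M)
    (h1 : 𝓟.av v (p 0 * q 1 + p 1 * q 0) ≤ M) (h2 : 𝓟.av v (p 1 * q 1) ≤ M) :
    nm 𝓟 v p * nm 𝓟 v q ≤ 𝓟.σ v * M := by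
  have hσ1 := 𝓟.σ_cst.one_le v
  have hM : 0 ≤ M := (AbsoluteValue.nonneg _ _).trans h0
  -- the roots of the quadratic
  have key : ∀ T T' : K, T + T' = p 0 * q 1 + p 1 * q 0 → T * T' = (p 0 * q 0) * (p 1 * q 1) →
      𝓟.av v T ≤ 𝓟.σ v * M := by
    intro T T' hs hp
    have e : T ^ 2 = (p 0 * q 1 + p 1 * q 0) * T + -((p 0 * q 0) * (p 1 * q 1)) := by
      rw [← hs, ← hp]; ring
    have h3 := 𝓟.add_le v ((p 0 * q 1 + p 1 * q 0) * T) (-((p 0 * q 0) * (p 1 * q 1)))
    rw [← e, map_pow, map_mul, AbsoluteValue.map_neg, map_mul] at h3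
    set t := 𝓟.av v T with ht
    have ht0 : 0 ≤ t := AbsoluteValue.nonneg _ _
    by_contra hcon
    push Not at hcon
    have h4 : 𝓟.av v (p 0 * q 1 + p 1 * q 0) * t ≤ M * t := mul_le_mul_of_nonneg_right h1 ht0
    have h5 : 𝓟.av v (p 0 * q 0) * 𝓟.av v (p 1 * q 1) ≤ M * M :=
      mul_le_mul h0 h2 (AbsoluteValue.nonneg _ _) hM
    have hMt : M ≤ t := by nlinarith
    have h6 : M * M ≤ M * t := mul_le_mul_of_nonneg_left hMt hM
    have h7 : t ^ 2 ≤ 𝓟.σ v * (M * t) :=
      h3.trans (mul_le_mul_of_nonneg_left (max_le h4 (h5.trans h6)) (zero_le_one.trans hσ1))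
    have htpos : 0 < t := lt_of_le_of_lt (by positivity) hcon
    nlinarith
  have hMσ : M ≤ 𝓟.σ v * M := by nlinarith
  unfold nm
  rcases max_cases (𝓟.av v (p 0)) (𝓟.av v (p 1)) with ⟨e1, _⟩ | ⟨e1, _⟩ <;>
  rcases max_cases (𝓟.av v (q 0)) (𝓟.av v (q 1)) with ⟨e2, _⟩ | ⟨e2, _⟩ <;>
  rw [e1, e2, ← map_mul]
  · exact h0.trans hMσ
  · exact key _ (p 1 * q 0) rfl (by ring)
  · exact key _ (p 0 * q 1) (by ring) (by ring)
  · exact h2.trans hMσ

lemma sym_le (v : ι) (p q : Fin 2 → K) (i : Fin 3) :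
    𝓟.av v ((![p 0 * q 0, p 0 * q 1 + p 1 * q 0, p 1 * q 1] : Fin 3 → K) i) ≤
      𝓟.σ v * (nm 𝓟 v p * nm 𝓟 v q) := by
  have hσ1 := 𝓟.σ_cst.one_le v
  have hp : ∀ j, 𝓟.av v (p j) ≤ nm 𝓟 v p := by
    intro j
    fin_cases j
    · exact le_max_left _ _
    · exact le_max_right _ _
  have hq : ∀ j, 𝓟.av v (q j) ≤ nm 𝓟 v q := by
    intro j
    fin_cases j
    · exact le_max_left _ _
    · exact le_max_right _ _
  have hp0 := nm_nonneg 𝓟 v p
  have hpq : ∀ i j, 𝓟.av v (p i * q j) ≤ nm 𝓟 v p * nm 𝓟 v q := fun i j => by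
    rw [map_mul]
    exact mul_le_mul (hp i) (hq j) (AbsoluteValue.nonneg _ _) hp0
  have h0 : 0 ≤ nm 𝓟 v p * nm 𝓟 v q := mul_nonneg hp0 (nm_nonneg 𝓟 v q)
  have h1 : nm 𝓟 v p * nm 𝓟 v q ≤ 𝓟.σ v * (nm 𝓟 v p * nm 𝓟 v q) := by nlinarith
  fin_cases i
  · exact (hpq 0 0).trans h1
  · exact (𝓟.add_le v _ _).trans
      (mul_le_mul_of_nonneg_left (max_le (hpq 0 1) (hpq 1 0)) (zero_le_one.trans hσ1))
  · exact (hpq 1 1).trans h1

end near

theorem exists_near {K : Type*} [Field K] [DecidableEq K] {ι : Type*} (𝓟 : PlSys K ι)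
    (W : Affine K) [W.IsElliptic] : ∃ C : ι → ℝ, IsCst C ∧ ∀ v (P Q : W.Point),
      nearness (𝓟.av v) (P + Q) * nearness (𝓟.av v) (P - Q) ≤
        C v * pd 𝓟 v P.xRep Q.xRep ^ 2 := by
  obtain ⟨C, hC, hCle⟩ := exists_asMap_ge 𝓟 W
  refine ⟨fun v => 𝓟.σ v ^ 3 * C v, (𝓟.σ_cst.pow _).mul hC, ?_⟩
  intro v P Q
  obtain ⟨c, hc, hcs⟩ := H7.Vojta.exists_asMap_sym2x W P Q
  have hσ1 := 𝓟.σ_cst.one_le v
  have hC1 := hC.one_le v
  set p := P.xRep with hp
  set q := Q.xRep with hq
  set r := (P + Q).xRep with hr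
  set s := (P - Q).xRep with hs
  have e2 : (p 0 * q 1 - p 1 * q 0) ^ 2 = c * (r 1 * s 1) := by
    have := congrFun hcs 2
    simp only [H7.Vojta.asMap, Point.sym2x, ← hp, ← hq, ← hr, ← hs] at this
    simp at this
    linear_combination this
  have hc0 : 0 < 𝓟.av v c := AbsoluteValue.pos _ hc
  have hP1 := one_le_nm_xRep 𝓟 v P
  have hQ1 := one_le_nm_xRep 𝓟 v Q
  have hR1 := one_le_nm_xRep 𝓟 v (P + Q)
  have hS1 := one_le_nm_xRep 𝓟 v (P - Q)
  rw [← hp] at hP1
  rw [← hq] at hQ1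
  rw [← hr] at hR1
  rw [← hs] at hS1
  -- upper bound for the product of the norms
  have h1 : nm 𝓟 v p * nm 𝓟 v q ≤ 𝓟.σ v * ⨆ i, 𝓟.av v (P.sym2x Q i) := by
    have hle : ∀ i, 𝓟.av v (P.sym2x Q i) ≤ ⨆ i, 𝓟.av v (P.sym2x Q i) :=
      le_ciSup (Set.finite_range fun i => 𝓟.av v (P.sym2x Q i)).bddAbove
    exact nm_mul_nm_le 𝓟 v p q (hle 0) (hle 1) (hle 2)
  have h2 : (⨆ i, 𝓟.av v (H7.Vojta.asMap W (P.sym2x Q) i)) ≤
      𝓟.av v c * (𝓟.σ v * (nm 𝓟 v r * nm 𝓟 v s)) := by
    apply ciSup_le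
    intro i
    rw [hcs, Pi.smul_apply, smul_eq_mul, map_mul]
    exact mul_le_mul_of_nonneg_left (sym_le 𝓟 v r s i) hc0.le
  have h3 := hCle v (P.sym2x Q)
  have h0 : 0 ≤ ⨆ i, 𝓟.av v (P.sym2x Q i) := Real.iSup_nonneg fun i => AbsoluteValue.nonneg _ _
  have h4 : (nm 𝓟 v p * nm 𝓟 v q) ^ 2 ≤
      𝓟.σ v ^ 3 * C v * (𝓟.av v c * (nm 𝓟 v r * nm 𝓟 v s)) := by
    calc (nm 𝓟 v p * nm 𝓟 v q) ^ 2 ≤ (𝓟.σ v * ⨆ i, 𝓟.av v (P.sym2x Q i)) ^ 2 :=
          pow_le_pow_left₀ (by positivity) h1 2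
      _ = 𝓟.σ v ^ 2 * (⨆ i, 𝓟.av v (P.sym2x Q i)) ^ 2 := by ring
      _ ≤ 𝓟.σ v ^ 2 * (C v * (𝓟.av v c * (𝓟.σ v * (nm 𝓟 v r * nm 𝓟 v s)))) := by
          apply mul_le_mul_of_nonneg_left _ (by positivity)
          exact h3.trans (mul_le_mul_of_nonneg_left h2 (by positivity))
      _ = _ := by ring
  rw [nearness_eq, nearness_eq, ← hr, ← hs]
  unfold pd
  have e3 : 𝓟.av v (p 0 * q 1 - p 1 * q 0) ^ 2 = 𝓟.av v c * (𝓟.av v (r 1) * 𝓟.av v (s 1)) := by
    rw [← map_pow, e2, map_mul, map_mul]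
  rw [div_pow, e3, div_mul_div_comm, ← mul_div_assoc, div_le_div_iff₀ (by positivity) (by positivity)]
  have h5 : 0 ≤ 𝓟.av v (r 1) * 𝓟.av v (s 1) := by positivity
  calc 𝓟.av v (r 1) * 𝓟.av v (s 1) * (nm 𝓟 v p * nm 𝓟 v q) ^ 2
      ≤ 𝓟.av v (r 1) * 𝓟.av v (s 1) * (𝓟.σ v ^ 3 * C v * (𝓟.av v c * (nm 𝓟 v r * nm 𝓟 v s))) :=
        mul_le_mul_of_nonneg_left h4 h5
    _ = _ := by ring

section inst

open Pool.Agent.H7.Vojta

/-- The height system of an elliptic curve, with explicit local terms. -/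
theorem exists_htSys' {k : Type u} [Field k] [NumberField k] [DecidableEq k] (W : Affine k)
    [W.IsElliptic] : ∃ 𝓗 : HtSys (W⁄k).Point (InfinitePlace k ⊕ FinitePlace k),
    (∀ v, 𝓗.w v = (plSys k).w v) ∧ (∀ P, 𝓗.h P = naive P) ∧
    ∀ v P, 𝓗.ν v P = nearness ((plSys k).av v) P := by
  classical
  obtain ⟨m, B, hm, hB, hmB⟩ := exists_local_bounds.{u, u} ({W.b₂, W.b₄, W.b₆, W.b₈} : Finset k)
  obtain ⟨C₀, hC₀0, hC₀⟩ := exists_parallelogram.{u, u} W
  have h12B : (1 : ℝ) ≤ 12 * B := by linarith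
  have hm' : (m : k) ≠ 0 := by exact_mod_cast hm
  obtain ⟨hinf, hfin⟩ := hmB k
  have e₂ : (W⁄k).b₂ = algebraMap k k W.b₂ := W.map_b₂ (algebraMap k k)
  have e₄ : (W⁄k).b₄ = algebraMap k k W.b₄ := W.map_b₄ (algebraMap k k)
  have e₆ : (W⁄k).b₆ = algebraMap k k W.b₆ := W.map_b₆ (algebraMap k k)
  have e₈ : (W⁄k).b₈ = algebraMap k k W.b₈ := W.map_b₈ (algebraMap k k)
  set w : InfinitePlace k ⊕ FinitePlace k → ℝ :=
    Sum.elim (fun v => (v.mult : ℝ)) (fun _ => 1) with hw
  have hw0 : ∀ v, 0 ≤ w v := by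
    rintro (v | v)
    · exact Nat.cast_nonneg _
    · exact zero_le_one
  set c : InfinitePlace k ⊕ FinitePlace k → ℝ :=
    Sum.elim (fun _ => 12 * B) (fun v => (v (m : k))⁻¹) with hc
  set ν : InfinitePlace k ⊕ FinitePlace k → (W⁄k).Point → ℝ :=
    Sum.elim (fun v => nearness v) (fun v => nearness v) with hν
  have hν0 : ∀ v x, 0 ≤ ν v x := by
    rintro (v | v) x
    · exact nearness_nonneg _ _
    · exact nearness_nonneg _ _
  have hν1 : ∀ v x, ν v x ≤ 1 := by
    rintro (v | v) x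
    · exact nearness_le_one _ _
    · exact nearness_le_one _ _
  have hνpos : ∀ v x, x ≠ 0 → 0 < ν v x := by
    rintro (v | v) x hx
    · exact nearness_pos _ hx
    · exact nearness_pos _ hx
  have hlogeq : ∀ v x, x ≠ 0 → -Real.log (ν v x) ≠ 0 → ν v x ≠ 1 := by
    intro v x _ h h1
    rw [h1, Real.log_one, neg_zero] at h
    exact h rfl
  have hνfin : ∀ x, x ≠ 0 → {v | ν v x ≠ 1}.Finite := by
    intro x hx
    have h1 := finite_support_nearness (K := k) (W' := (W⁄k)) hx
    have h2 : {v | ν v x ≠ 1} ⊆ (Set.range Sum.inl) ∪ (Sum.inr ''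
        (Function.support fun w : FinitePlace k => -Real.log (nearness w x))) := by
      rintro (v | v) hv
      · exact Or.inl ⟨v, rfl⟩
      · refine Or.inr ⟨v, ?_, rfl⟩
        rw [Function.mem_support]
        intro h0
        apply hv
        change nearness v x = 1
        have h3 : Real.log (nearness v x) = 0 := by linarith
        exact Real.eq_one_of_pos_of_log_eq_zero (nearness_pos _ hx) h3
    exact ((Set.finite_range _).union (Set.Finite.image _ h1)).subset h2
  have hc1 : ∀ v, 1 ≤ c v := by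
    rintro (v | v)
    · exact h12B
    · exact (one_le_inv₀ (FinitePlace.pos_iff.mpr hm')).mpr (finitePlace_natCast_le_one v m)
  have hcfin : {v | c v ≠ 1}.Finite := by
    have h1 := FinitePlace.hasFiniteMulSupport hm'
    have h2 : {v | c v ≠ 1} ⊆ (Set.range Sum.inl) ∪ (Sum.inr ''
        (Function.mulSupport fun w : FinitePlace k => w (m : k))) := by
      rintro (v | v) hv
      · exact Or.inl ⟨v, rfl⟩
      · refine Or.inr ⟨v, ?_, rfl⟩
        rw [Function.mem_mulSupport]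
        intro h0
        apply hv
        change (v (m : k))⁻¹ = 1
        rw [h0, inv_one]
    exact ((Set.finite_range _).union (Set.Finite.image _ h1)).subset h2
  have hadd : ∀ v x y, ν v (x + y) ≤ c v * max (ν v x) (ν v y) := by
    rintro (v | v) x y
    · exact nearness_add_le_arch (W⁄k) v.val hB
        (by rw [e₂]; exact hinf v _ (by simp)) (by rw [e₄]; exact hinf v _ (by simp))
        (by rw [e₆]; exact hinf v _ (by simp)) (by rw [e₈]; exact hinf v _ (by simp)) x y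
    · have hv0 : 0 < v (m : k) := FinitePlace.pos_iff.mpr hm'
      have hle : ∀ c ∈ ({W.b₂, W.b₄, W.b₆, W.b₈} : Finset k),
          v.val (algebraMap k k c) ≤ (v (m : k))⁻¹ := fun c hc => by
        have := hfin v c hc
        rw [← one_div, le_div_iff₀ hv0, mul_comm]
        exact this
      exact nearness_add_le_nonarch (W⁄k) v.val
        (fun x y => FinitePlace.add_le v x y) (hc1 (Sum.inr v))
        (by rw [e₂]; exact hle _ (by simp)) (by rw [e₄]; exact hle _ (by simp))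
        (by rw [e₆]; exact hle _ (by simp)) (by rw [e₈]; exact hle _ (by simp)) x y
  refine ⟨{
    w := w
    w_nonneg := hw0
    c := c
    one_le_c := hc1
    c_fin := hcfin
    ν := ν
    ν_nonneg := hν0
    ν_le_one := hν1
    ν_neg := ?_
    ν_zero := ?_
    ν_pos := hνpos
    ν_add := hadd
    ν_fin := hνfin
    h := naive
    h_nonneg := naive_nonneg
    h_eq := ?_
    C := C₀ * totalWeight k
    C_nonneg := by positivity
    par := fun x y => hC₀ k x y
    northcott := finite_naive_le (W⁄k)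
    gcd := fun {n} x => nearSum x
    gcd_eq := ?_ }, fun v => rfl, fun P => rfl, ?_⟩
  · rintro (v | v) x
    · exact nearness_neg _ _
    · exact nearness_neg _ _
  · rintro (v | v)
    · rfl
    · rfl
  · intro x hx V hV
    rw [sum_places (fun v => w v * -Real.log (ν v x)) V]
    · rw [← sum_nearness hx]
      congr 1
      apply finsum_congr
      intro v
      exact one_mul _
    · intro v hv
      apply hV
      apply hlogeq v x hx
      exact right_ne_zero_of_mul hv
  · intro n x j hj V hV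
    rw [sum_places (fun v => w v * -Real.log (⨆ j, ν v (x j))) V]
    · unfold nearSum
      congr 1
      apply finsum_congr
      intro v
      exact (one_mul _).symm
    · intro v hv
      apply hV
      intro h1
      apply right_ne_zero_of_mul hv
      have h2 : (⨆ j, ν v (x j)) = 1 := by
        apply le_antisymm
        · exact Real.iSup_le (fun j => hν1 v _) zero_le_one
        · rw [← h1]
          exact le_ciSup (Set.finite_range fun j => ν v (x j)).bddAbove j
      change -Real.log (⨆ j, ν v (x j)) = 0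
      rw [h2, Real.log_one, neg_zero]
  · rintro (v | v) P
    · rfl
    · rfl

end inst

theorem exists_xSys_aux {k : Type u} [Field k] [NumberField k] [DecidableEq k] (W' : Affine k)
    [W'.IsElliptic] (𝓗 : HtSys W'.Point (InfinitePlace k ⊕ FinitePlace k))
    (hw : ∀ v, 𝓗.w v = (plSys k).w v) (hh : ∀ P, 𝓗.h P = naive P)
    (hν : ∀ v P, 𝓗.ν v P = nearness ((plSys k).av v) P) :
    ∃ 𝓧 : XSys (plSys k) W'.Point,
      (∀ P, 𝓧.H.h P = logHeight P.xRep) ∧ (∀ P, 𝓧.ξ P = P.xRep) := by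
  obtain ⟨C, hC, hCle⟩ := exists_near (plSys k) W'
  have hnm : ∀ v (P : W'.Point), P ≠ 0 → nearness ((plSys k).av v) P = (nm (plSys k) v P.xRep)⁻¹ := by
    intro v P hP
    match P with
    | 0 => exact absurd rfl hP
    | .some x y h => simp [nearness, nm, Point.xRep_some]
  have hnm0 : ∀ v, nm (plSys k) v ((0 : W'.Point).xRep) = 1 := by
    intro v
    rw [Point.xRep_zero]
    simp [nm]
  refine ⟨{
    H := 𝓗
    w_eq := hw
    ξ := fun P => P.xRep
    one_le_nm := fun v P => one_le_nm_xRep (plSys k) v P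
    ξ_fin := ?_
    ht := ?_
    inj := ?_
    b := C
    b_cst := hC
    near := ?_ }, fun P => hh P, fun P => rfl⟩
  · intro P
    by_cases hP : P = 0
    · subst hP
      exact Set.finite_empty.subset fun v hv => (hv (hnm0 v)).elim
    · refine (𝓗.ν_fin P hP).subset ?_
      intro v hv h1
      apply hv
      rw [hν, hnm v P hP] at h1
      exact inv_eq_one.mp h1
  · intro P V hV
    by_cases hP : P = 0
    · subst hP
      rw [hh]
      unfold naive
      rw [Finset.sum_eq_zero, Point.xRep_zero]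
      · rw [logHeight_swap, logHeight_cons_zero, logHeight_eq_zero_of_subsingleton]
      · intro v _
        rw [hnm0, Real.log_one, mul_zero]
    · rw [← 𝓗.h_eq P hP V]
      · apply Finset.sum_congr rfl
        intro v _
        rw [hν, hnm v P hP, Real.log_inv, neg_neg, hw]
      · intro v hv
        apply hV
        intro h1
        apply hv
        rw [hν, hnm v P hP, h1, inv_one]
  · intro P Q h
    apply Point.eq_or_eq_neg_of_xRep_eq_xRep
    match P, Q with
    | 0, 0 => rfl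
    | 0, .some x y h' => simp at h
    | .some x y h', 0 => simp at h
    | .some x y h', .some x' y' h'' =>
      simp [Point.xRep_some] at h ⊢
      exact sub_eq_zero.mp h
  · intro v P Q
    rw [hν, hν]
    exact hCle v P Q

theorem exists_xSys (k : Type u) [Field k] [NumberField k] [DecidableEq k] (W : Affine k)
    [W.IsElliptic] : ∃ 𝓧 : XSys (plSys k) W.Point,
      (∀ P, 𝓧.H.h P = logHeight P.xRep) ∧ (∀ P, 𝓧.ξ P = P.xRep) := by
  have h := exists_htSys' W
  have e : (W⁄k) = W := W.map_id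
  rw [e] at h
  obtain ⟨𝓗, h1, h2, h3⟩ := h
  exact exists_xSys_aux W 𝓗 h1 h2 h3

end Pool.Agent.AG
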