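import Mathlib
import Pool.Agent.AG.Cnt

/-! # Large deviations and the average (module LD) -/

set_option autoImplicit false

open MvPolynomial WeierstrassCurve WeierstrassCurve.Affine
open Pool.Agent.GE (coords MultiHom DimLE wt)

namespace Pool.Agent.AG

universe u

lemma exists_M {L H : ℝ} (hL : 1 ≤ L) (hH : 1 ≤ H) :
    ∃ M : ℕ, 1 ≤ M ∧ L * √H ≤ M ∧ (M : ℝ) ≤ 2 * L * √H := by
  have hsH : 1 ≤ √H := by
    rw [Real.le_sqrt' one_pos]; linarith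
  have hLs1 : 1 ≤ L * √H := one_le_mul_of_one_le_of_one_le hL hsH
  refine ⟨⌈L * √H⌉₊, ?_, Nat.le_ceil _, ?_⟩
  · have : (1 : ℝ) ≤ (⌈L * √H⌉₊ : ℝ) := hLs1.trans (Nat.le_ceil _)
    exact_mod_cast this
  · have := Nat.ceil_lt_add_one (zero_le_one.trans hLs1)
    linarith

lemma pow_le_rpow {L H M : ℝ} (hH : 1 ≤ H) (hM0 : 0 ≤ M) (hM : M ≤ 2 * L * √H) (e : ℕ) :
    M ^ e ≤ (2 * L) ^ e * H ^ ((e : ℝ) / 2) := by
  have hH0 : 0 ≤ H := by linarith
  calc M ^ e ≤ (2 * L * √H) ^ e := pow_le_pow_left₀ hM0 hM e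
    _ = (2 * L) ^ e * H ^ ((e : ℝ) / 2) := by
        rw [mul_pow, Real.sqrt_eq_rpow, ← Real.rpow_natCast (H ^ (1 / 2 : ℝ)),
          ← Real.rpow_mul hH0]
        congr 2
        ring

/-- Halving. -/
lemma halving {F g : ℝ → ℝ} {q C K₀ : ℝ} (hq0 : 0 ≤ q) (hq : q < 1) (hC : 0 ≤ C) (hK₀ : 0 ≤ K₀)
    (hg0 : ∀ H, 1 ≤ H → 1 ≤ g H) (hg : ∀ H, 2 ≤ H → g (H / 2) ≤ q * g H)
    (hF : ∀ H, 2 ≤ H → F H ≤ F (H / 2) + C * g H)
    (h0 : ∀ H, 1 ≤ H → H < 2 → F H ≤ K₀ + C * g H) :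
    ∀ H, 1 ≤ H → F H ≤ (K₀ + C) / (1 - q) * g H := by
  have h1q : 0 < 1 - q := by linarith
  set K := (K₀ + C) / (1 - q) with hK
  have hK0 : 0 ≤ K := by positivity
  have hKq : K * q + (K₀ + C) = K := by
    rw [hK]
    field_simp
    ring
  have key : ∀ k : ℕ, ∀ H, 1 ≤ H → H < 2 ^ (k + 1) → F H ≤ K * g H := by
    intro k
    induction k with
    | zero =>
      intro H hH1 hH2
      rw [zero_add, pow_one] at hH2
      have h1 := h0 H hH1 hH2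
      have h2 := hg0 H hH1
      have h3 : K₀ + C ≤ K := by
        have : 0 ≤ K * q := by positivity
        linarith
      nlinarith
    | succ k ih =>
      intro H hH1 hH2
      rcases lt_or_ge H 2 with h | h
      · have h1 := h0 H hH1 h
        have h2 := hg0 H hH1
        have h3 : K₀ + C ≤ K := by
          have : 0 ≤ K * q := by positivity
          linarith
        nlinarith
      · have h1 := ih (H / 2) (by linarith) (by
          rw [pow_succ] at hH2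
          linarith)
        have h2 := hF H h
        have h3 := hg H h
        have h4 := hg0 H hH1
        have h5 : K * g (H / 2) ≤ K * (q * g H) := mul_le_mul_of_nonneg_left h3 hK0
        have h6 : K * g H = K * q * g H + (K₀ + C) * g H := by
          rw [← add_mul, hKq]
        nlinarith
  intro H hH
  obtain ⟨k, hk⟩ := pow_unbounded_of_one_lt H (one_lt_two : (1 : ℝ) < 2)
  exact key k H hH (hk.trans (pow_lt_pow_right₀ one_lt_two (Nat.lt_succ_self k)))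

section

variable {K : Type u} [Field K] {ι : Type*} {𝓟 : PlSys K ι}

variable {n : ℕ} (W : Fin n → Affine K) {t : ℕ}
  (F : Fin t → MvPolynomial (Fin n × Fin 3) K) (Dg : Fin t → Fin n → ℕ)

lemma sum_finrank_ge [DecidableEq K] {m c : ℕ} (hmc : m + c + 1 ≤ n)
    (Γ : ∀ i, AddSubgroup (W i).Point)
    {r : ℕ} (hrank : ∀ i, r ≤ Module.finrank ℤ (Γ i)) :
    (c + 1) * r ≤ ∑ i, Module.finrank ℤ (Γ i) := by
  calc (c + 1) * r ≤ n * r := Nat.mul_le_mul_right _ (by omega)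
    _ = ∑ _i : Fin n, r := by rw [Finset.sum_const, Finset.card_univ, Fintype.card_fin, smul_eq_mul]
    _ ≤ _ := Finset.sum_le_sum fun i _ => hrank i

/-- The average is bounded if `c r ≥ 3`. -/
theorem exists_average [DecidableEq K] [Nonempty ι] {m c : ℕ} (hmc : m + c + 1 ≤ n)
    (𝓧 : ∀ i, XSys 𝓟 (W i).Point)
    (hξ : ∀ i P, (𝓧 i).ξ P = P.xRep) (Γ : ∀ i, AddSubgroup (W i).Point)
    (hΓ : ∀ i, (Γ i).FG) {r : ℕ} (hrank : ∀ i, r ≤ Module.finrank ℤ (Γ i)) (hcr : 3 ≤ c * r)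
    (hF : ∀ j, MultiHom (F j) (Dg j)) (hdim : DimLE (centreIdeal W F) m) :
    ∃ C : ℝ, 0 ≤ C ∧ ∀ H : ℝ, 1 ≤ H → ∀ S₀ : Finset (∀ i, (W i).Point),
      (∀ P ∈ S₀, (∀ i, P i ∈ Γ i) ∧ Off W F P ∧ ∑ i, (𝓧 i).H.h (P i) ≤ H) →
      ∑ P ∈ S₀, hY 𝓟 W F Dg P ≤
        C * H ^ (((∑ i, Module.finrank ℤ (Γ i) : ℕ) : ℝ) / 2) := by
  obtain ⟨L, b, E, hL, hb, hE, hmain⟩ := exists_common_bound W F Dg hmc 𝓧 hξ Γ hΓ hrank hF hdim
  set ρ : ℕ := ∑ i, Module.finrank ℤ (Γ i) with hρ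
  refine ⟨(3 * E + b * E) * (2 * L) ^ ρ, by positivity, ?_⟩
  intro H hH S₀ hS₀
  obtain ⟨M, hM1, hLM, hML⟩ := exists_M hL hH
  have hMr : (1 : ℝ) ≤ M := by exact_mod_cast hM1
  have hM0 : (0 : ℝ) < M := by linarith
  obtain ⟨hcard, hsum⟩ := hmain H hH S₀ hS₀ M hLM
  have h0 := hsum 0 (Nat.zero_le _)
  rw [pow_zero, one_pow, mul_one] at h0
  have h1 : ∑ i ∈ Finset.Ico 0 (Nat.log 2 M),
      ((2 : ℝ) ^ i) ^ (r + 2) / ((2 : ℝ) ^ i) ^ ((c + 1) * r) ≤ 2 := by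
    calc _ ≤ ∑ i ∈ Finset.Ico 0 (Nat.log 2 M), (1 / 2 : ℝ) ^ i := by
          refine Finset.sum_le_sum fun i _ => ?_
          have h2 : (c + 1) * r = (r + 2) + 1 + (c * r - 3) := by
            have : (c + 1) * r = c * r + r := by ring
            omega
          have h3 : (1 : ℝ) ≤ (2 : ℝ) ^ i := one_le_pow₀ (by norm_num)
          have h4 : ((2 : ℝ) ^ i) ^ (r + 2) * (2 : ℝ) ^ i ≤ ((2 : ℝ) ^ i) ^ ((c + 1) * r) := by
            rw [← pow_succ, h2]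
            exact pow_le_pow_right₀ h3 (by omega)
          rw [div_le_iff₀ (by positivity), one_div, inv_pow]
          rw [← div_eq_inv_mul, le_div_iff₀ (by positivity)]
          exact h4
      _ ≤ 2 := by
          rw [← Finset.range_eq_Ico]
          have := geom_sum_eq (x := (1 / 2 : ℝ)) (by norm_num) (Nat.log 2 M)
          rw [this]
          have h5 : (0 : ℝ) ≤ (1 / 2 : ℝ) ^ Nat.log 2 M := by positivity
          rw [div_le_iff_of_neg (by norm_num)]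
          linarith
  have h2 : (M : ℝ) ^ (ρ + 2) / (M : ℝ) ^ (c * r) ≤ (M : ℝ) ^ ρ := by
    rw [div_le_iff₀ (by positivity), pow_add]
    exact mul_le_mul_of_nonneg_left (pow_le_pow_right₀ hMr (by omega)) (by positivity)
  have h3 : ∑ P ∈ S₀, hY 𝓟 W F Dg P ≤
      ∑ P ∈ S₀, (max 0 (hY 𝓟 W F Dg P - b) + b) :=
    Finset.sum_le_sum fun P _ => by
      have := le_max_right 0 (hY 𝓟 W F Dg P - b)
      linarith
  rw [Finset.sum_add_distrib, Finset.sum_const, nsmul_eq_mul] at h3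
  have h4 : (M : ℝ) ^ ρ ≤ (2 * L) ^ ρ * H ^ ((ρ : ℝ) / 2) := pow_le_rpow hH hM0.le hML ρ
  calc _ ≤ _ := h3
    _ ≤ E * ((M : ℝ) ^ ρ * 2 + (M : ℝ) ^ ρ) + (E * (M : ℝ) ^ ρ) * b := by
        apply add_le_add
        · refine h0.trans (mul_le_mul_of_nonneg_left ?_ (by linarith))
          exact add_le_add (mul_le_mul_of_nonneg_left h1 (by positivity)) h2
        · exact mul_le_mul_of_nonneg_right hcard (by linarith)
    _ = (3 * E + b * E) * (M : ℝ) ^ ρ := by ring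
    _ ≤ (3 * E + b * E) * ((2 * L) ^ ρ * H ^ ((ρ : ℝ) / 2)) :=
        mul_le_mul_of_nonneg_left h4 (by positivity)
    _ = _ := by ring

/-- The number of points with a large height with respect to `Y`. -/
theorem exists_count [DecidableEq K] [Nonempty ι] {m c : ℕ} (hmc : m + c + 1 ≤ n)
    (𝓧 : ∀ i, XSys 𝓟 (W i).Point)
    (hξ : ∀ i P, (𝓧 i).ξ P = P.xRep) (Γ : ∀ i, AddSubgroup (W i).Point)
    (hΓ : ∀ i, (Γ i).FG) {r : ℕ} (hrank : ∀ i, r ≤ Module.finrank ℤ (Γ i))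
    (hF : ∀ j, MultiHom (F j) (Dg j)) (hdim : DimLE (centreIdeal W F) m) :
    ∃ C : ℝ, 0 ≤ C ∧ ∀ H : ℝ, 1 ≤ H → ∀ Q : ℝ, 0 < Q → ∀ S₀ : Finset (∀ i, (W i).Point),
      (∀ P ∈ S₀, (∀ i, P i ∈ Γ i) ∧ Off W F P ∧ ∑ i, (𝓧 i).H.h (P i) ≤ H ∧
        Q ≤ hY 𝓟 W F Dg P) →
      (S₀.card : ℝ) ≤ C * (1 + Real.log H) *
        (H ^ (((∑ i, Module.finrank ℤ (Γ i) : ℕ) : ℝ) / 2) *
          Q ^ (-((c + 1) * r / (r + 2) : ℝ)) +
        H ^ ((((∑ i, Module.finrank ℤ (Γ i) : ℕ) : ℝ) - c * r) / 2 + 1) / Q) := by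
  obtain ⟨L, b, E, hL, hb, hE, hmain⟩ := exists_common_bound W F Dg hmc 𝓧 hξ Γ hΓ hrank hF hdim
  have hρge := sum_finrank_ge W hmc Γ hrank
  set ρ : ℕ := ∑ i, Module.finrank ℤ (Γ i) with hρ
  set γ : ℝ := (c + 1) * r / (r + 2) with hγ
  have hγ0 : 0 ≤ γ := by positivity
  have hb0 : 0 < b := by linarith
  have hE0 : 0 < E := by linarith
  have hL2 : 1 ≤ 2 * L := by linarith
  have hlL : 0 ≤ Real.log (2 * L) := Real.log_nonneg hL2
  have hcrρ : c * r ≤ ρ := by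
    have : (c + 1) * r = c * r + r := by ring
    omega
  set A₁ : ℝ := E * (2 * L) ^ ρ * (2 * b) ^ γ with hA₁
  set A₂ : ℝ := 2 * E * (1 + 2 * (1 + Real.log (2 * L))) *
    (2 ^ ((c + 1) * r) * (2 * L) ^ ρ * (2 * b) ^ γ + (2 * L) ^ (ρ + 2 - c * r)) with hA₂
  have hA₁0 : 0 ≤ A₁ := by positivity
  have hA₂0 : 0 ≤ A₂ := by positivity
  refine ⟨A₁ + A₂, by positivity, ?_⟩
  intro H hH Q hQ S₀ hS₀
  have hH0 : 0 < H := by linarith
  have hlH : 0 ≤ Real.log H := Real.log_nonneg hH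
  obtain ⟨M, hM1, hLM, hML⟩ := exists_M hL hH
  have hMr : (1 : ℝ) ≤ M := by exact_mod_cast hM1
  have hM0 : (0 : ℝ) < M := by linarith
  obtain ⟨hcard, hsum⟩ := hmain H hH S₀ (fun P hP => ⟨(hS₀ P hP).1, (hS₀ P hP).2.1,
    (hS₀ P hP).2.2.1⟩) M hLM
  set X₁ : ℝ := H ^ ((ρ : ℝ) / 2) * Q ^ (-γ) with hX₁
  set X₂ : ℝ := H ^ (((ρ : ℝ) - c * r) / 2 + 1) / Q with hX₂
  have hX₁0 : 0 ≤ X₁ := by positivity
  have hX₂0 : 0 ≤ X₂ := by positivity
  have hMρ : (M : ℝ) ^ ρ ≤ (2 * L) ^ ρ * H ^ ((ρ : ℝ) / 2) := pow_le_rpow hH hM0.le hML ρ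
  rcases lt_or_ge (Q / (2 * b)) 1 with hx | hx
  · -- trivial bound
    have h1 : 1 ≤ (2 * b) ^ γ * Q ^ (-γ) := by
      have h2 : Q ≤ 2 * b := by
        rw [div_lt_one (by positivity)] at hx
        exact hx.le
      rw [Real.rpow_neg hQ.le, ← div_eq_mul_inv, ← Real.div_rpow (by positivity) hQ.le]
      apply Real.one_le_rpow _ hγ0
      rw [le_div_iff₀ hQ]
      linarith
    have h3 : (S₀.card : ℝ) ≤ A₁ * X₁ := by
      calc (S₀.card : ℝ) ≤ E * (M : ℝ) ^ ρ := hcard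
        _ ≤ E * ((2 * L) ^ ρ * H ^ ((ρ : ℝ) / 2)) := by gcongr
        _ ≤ E * ((2 * L) ^ ρ * H ^ ((ρ : ℝ) / 2)) * ((2 * b) ^ γ * Q ^ (-γ)) :=
            le_mul_of_one_le_right (by positivity) h1
        _ = _ := by rw [hA₁, hX₁]; ring
    calc (S₀.card : ℝ) ≤ A₁ * X₁ := h3
      _ ≤ (A₁ + A₂) * 1 * (X₁ + X₂) := by
          nlinarith [mul_nonneg hA₂0 (add_nonneg hX₁0 hX₂0), mul_nonneg hA₁0 hX₂0]
      _ ≤ (A₁ + A₂) * (1 + Real.log H) * (X₁ + X₂) := by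
          gcongr
          linarith
  · set x : ℝ := Q / (2 * b) with hxdef
    have hx0 : 0 < x := by linarith
    set y : ℝ := x ^ (((r + 2 : ℕ) : ℝ)⁻¹) with hy
    have hy1 : 1 ≤ y := Real.one_le_rpow hx (by positivity)
    have hy0 : 0 < y := by linarith
    have hyx : y ^ (r + 2) = x := Real.rpow_inv_natCast_pow hx0.le (by omega)
    set j : ℕ := Nat.log 2 ⌊y⌋₊ with hj
    have hfl : 1 ≤ ⌊y⌋₊ := (Nat.one_le_floor_iff y).mpr hy1
    have hj1 : (2 : ℝ) ^ j ≤ y := by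
      have h1 : 2 ^ j ≤ ⌊y⌋₊ := Nat.pow_log_le_self 2 (by omega)
      have h2 : ((2 ^ j : ℕ) : ℝ) ≤ (⌊y⌋₊ : ℝ) := by exact_mod_cast h1
      push_cast at h2
      exact h2.trans (Nat.floor_le hy0.le)
    have hj2 : y ≤ 2 * (2 : ℝ) ^ j := by
      have h1 : ⌊y⌋₊ < 2 ^ (j + 1) := Nat.lt_pow_succ_log_self (by norm_num) _
      have h2 : ⌊y⌋₊ + 1 ≤ 2 ^ (j + 1) := h1
      have h3 : ((⌊y⌋₊ + 1 : ℕ) : ℝ) ≤ ((2 ^ (j + 1) : ℕ) : ℝ) := by exact_mod_cast h2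
      push_cast at h3
      have h4 := Nat.lt_floor_add_one y
      rw [pow_succ] at h3
      linarith
    set I : ℕ := Nat.log 2 M with hI
    set i₀ : ℕ := min j I with hi₀
    have hi₀I : i₀ ≤ I := min_le_right _ _
    have hi₀j : i₀ ≤ j := min_le_left _ _
    have hs := hsum i₀ hi₀I
    have hAM : (2 : ℝ) ^ I ≤ M := by
      have h1 : 2 ^ I ≤ M := Nat.pow_log_le_self 2 (by omega)
      exact_mod_cast h1
    -- each point contributes at least `Q / 2`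
    have hthr : b * ((2 : ℝ) ^ i₀) ^ (r + 2) ≤ Q / 2 := by
      have h1 : (2 : ℝ) ^ i₀ ≤ y := (pow_le_pow_right₀ (by norm_num) hi₀j).trans hj1
      have h2 : ((2 : ℝ) ^ i₀) ^ (r + 2) ≤ x := by
        rw [← hyx]
        exact pow_le_pow_left₀ (by positivity) h1 _
      calc b * ((2 : ℝ) ^ i₀) ^ (r + 2) ≤ b * x := mul_le_mul_of_nonneg_left h2 hb0.le
        _ = Q / 2 := by rw [hxdef]; field_simp
    have hlow : (S₀.card : ℝ) * (Q / 2) ≤
        ∑ P ∈ S₀, max 0 (hY 𝓟 W F Dg P - b * ((2 : ℝ) ^ i₀) ^ (r + 2)) := by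
      rw [← nsmul_eq_mul, ← Finset.sum_const]
      refine Finset.sum_le_sum fun P hP => le_trans ?_ (le_max_right _ _)
      have := (hS₀ P hP).2.2.2
      linarith
    -- the sum over the layers
    have hterm : ∀ i ∈ Finset.Ico i₀ I,
        ((2 : ℝ) ^ i) ^ (r + 2) / ((2 : ℝ) ^ i) ^ ((c + 1) * r) ≤
        2 ^ ((c + 1) * r) * (x * x ^ (-γ)) + (M : ℝ) ^ 2 / (M : ℝ) ^ (c * r) := by
      intro i hi
      obtain ⟨hi1, hi2⟩ := Finset.mem_Ico.mp hi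
      have hi₀j' : i₀ = j := by
        rcases le_total j I with h | h
        · exact min_eq_left h
        · exfalso
          have : i₀ = I := min_eq_right h
          omega
      rw [hi₀j'] at hi1
      have h2i : (1 : ℝ) ≤ (2 : ℝ) ^ i := one_le_pow₀ (by norm_num)
      have h2i0 : (0 : ℝ) < (2 : ℝ) ^ i := by positivity
      have hiM : (2 : ℝ) ^ i ≤ M := (pow_le_pow_right₀ (by norm_num) hi2.le).trans hAM
      have hyi : y ≤ 2 * (2 : ℝ) ^ i := by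
        refine hj2.trans ?_
        have := pow_le_pow_right₀ (by norm_num : (1 : ℝ) ≤ 2) hi1
        linarith
      rcases le_total ((c + 1) * r) (r + 2) with hcase | hcase
      · obtain ⟨d, hd⟩ := Nat.exists_eq_add_of_le hcase
        have h1 : ((2 : ℝ) ^ i) ^ (r + 2) / ((2 : ℝ) ^ i) ^ ((c + 1) * r) ≤
            (M : ℝ) ^ 2 / (M : ℝ) ^ (c * r) := by
          have e1 : ((2 : ℝ) ^ i) ^ (r + 2) / ((2 : ℝ) ^ i) ^ ((c + 1) * r) =
              ((2 : ℝ) ^ i) ^ d := by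
            rw [hd, pow_add ((2 : ℝ) ^ i)]
            field_simp
          have e2 : (M : ℝ) ^ 2 / (M : ℝ) ^ (c * r) = (M : ℝ) ^ d := by
            rw [div_eq_iff (by positivity), ← pow_add]
            congr 1
            have : (c + 1) * r = c * r + r := by ring
            omega
          rw [e1, e2]
          exact pow_le_pow_left₀ (by positivity) hiM d
        refine h1.trans ?_
        have : 0 ≤ 2 ^ ((c + 1) * r) * (x * x ^ (-γ)) := by positivity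
        linarith
      · obtain ⟨d, hd⟩ := Nat.exists_eq_add_of_le hcase
        have e1 : ((2 : ℝ) ^ i) ^ (r + 2) / ((2 : ℝ) ^ i) ^ ((c + 1) * r) =
            1 / ((2 : ℝ) ^ i) ^ d := by
          rw [hd, pow_add ((2 : ℝ) ^ i) (r + 2) d, ← div_div, div_self (by positivity)]
        have e2 : x * x ^ (-γ) = 1 / y ^ d := by
          have e3 : x ^ γ = y ^ ((c + 1) * r) := by
            rw [hy, ← Real.rpow_natCast (x ^ _) ((c + 1) * r), ← Real.rpow_mul hx0.le]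
            congr 1
            rw [hγ]
            push_cast
            field_simp
          have e4 : x ^ γ = x * y ^ d := by
            rw [e3, hd, pow_add, hyx]
          rw [Real.rpow_neg hx0.le, e4]
          field_simp
        have h1 : 1 / ((2 : ℝ) ^ i) ^ d ≤ 2 ^ ((c + 1) * r) * (x * x ^ (-γ)) := by
          rw [e2, mul_one_div, div_le_div_iff₀ (by positivity) (by positivity), one_mul]
          calc y ^ d ≤ (2 * (2 : ℝ) ^ i) ^ d := pow_le_pow_left₀ hy0.le hyi d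
            _ = 2 ^ d * ((2 : ℝ) ^ i) ^ d := mul_pow _ _ _
            _ ≤ 2 ^ ((c + 1) * r) * ((2 : ℝ) ^ i) ^ d := by
                apply mul_le_mul_of_nonneg_right _ (by positivity)
                exact pow_le_pow_right₀ (by norm_num) (by omega)
        rw [e1]
        refine h1.trans ?_
        have : 0 ≤ (M : ℝ) ^ 2 / (M : ℝ) ^ (c * r) := by positivity
        linarith
    have hIlog : (I : ℝ) ≤ 2 * Real.log M := by
      have h2 : (Nat.log 2 M : ℝ) ≤ Real.logb 2 M := Real.natLog_le_logb _ _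
      refine h2.trans ?_
      rw [Real.logb, div_le_iff₀ (Real.log_pos (by norm_num))]
      have := Real.log_two_gt_d9
      nlinarith [Real.log_nonneg hMr]
    have hlogM : Real.log M ≤ (1 + Real.log (2 * L)) * (1 + Real.log H) := by
      have h1 := Real.log_le_log hM0 hML
      rw [Real.log_mul (by positivity) (by positivity), Real.log_sqrt hH0.le] at h1
      nlinarith [mul_nonneg hlL hlH]
    have hI1 : 1 + (I : ℝ) ≤ (1 + 2 * (1 + Real.log (2 * L))) * (1 + Real.log H) := by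
      nlinarith [mul_nonneg hlL hlH]
    have hS : ∑ i ∈ Finset.Ico i₀ I,
        ((2 : ℝ) ^ i) ^ (r + 2) / ((2 : ℝ) ^ i) ^ ((c + 1) * r) ≤
        I * (2 ^ ((c + 1) * r) * (x * x ^ (-γ)) + (M : ℝ) ^ 2 / (M : ℝ) ^ (c * r)) := by
      have hpos : 0 ≤ 2 ^ ((c + 1) * r) * (x * x ^ (-γ)) + (M : ℝ) ^ 2 / (M : ℝ) ^ (c * r) := by
        positivity
      refine (Finset.sum_le_sum hterm).trans ?_
      rw [Finset.sum_const, nsmul_eq_mul]
      apply mul_le_mul_of_nonneg_right _ hpos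
      rw [Nat.card_Ico]
      exact_mod_cast Nat.sub_le _ _
    -- powers
    have hMe : (M : ℝ) ^ (ρ + 2) / (M : ℝ) ^ (c * r) ≤ (2 * L) ^ (ρ + 2 - c * r) * (X₂ * Q) := by
      have e1 : (M : ℝ) ^ (ρ + 2) / (M : ℝ) ^ (c * r) = (M : ℝ) ^ (ρ + 2 - c * r) := by
        rw [div_eq_iff (by positivity), ← pow_add]
        congr 1
        omega
      rw [e1]
      refine (pow_le_rpow hH hM0.le hML _).trans_eq ?_
      rw [hX₂, div_mul_cancel₀ _ hQ.ne']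
      congr 2
      rw [Nat.cast_sub (by omega)]
      push_cast
      ring
    have hxg : x * x ^ (-γ) ≤ (2 * b) ^ γ * (Q * Q ^ (-γ)) := by
      have h2b : 1 ≤ 2 * b := by linarith
      have e1 : x ^ (-γ) = (2 * b) ^ γ * Q ^ (-γ) := by
        rw [hxdef, Real.div_rpow hQ.le (by positivity), Real.rpow_neg (by positivity : 0 ≤ 2 * b),
          div_inv_eq_mul, mul_comm]
      rw [e1]
      have h1 : x ≤ Q := by
        rw [hxdef]
        exact div_le_self hQ.le h2b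
      calc x * ((2 * b) ^ γ * Q ^ (-γ)) ≤ Q * ((2 * b) ^ γ * Q ^ (-γ)) := by gcongr
        _ = _ := by ring
    have hfin : (S₀.card : ℝ) * (Q / 2) ≤ E * ((1 + I) *
        (2 ^ ((c + 1) * r) * (2 * L) ^ ρ * (2 * b) ^ γ * (X₁ * Q) +
          (2 * L) ^ (ρ + 2 - c * r) * (X₂ * Q))) := by
      refine hlow.trans (hs.trans (mul_le_mul_of_nonneg_left ?_ hE0.le))
      have hI0 : (0 : ℝ) ≤ I := Nat.cast_nonneg _
      have e0 : (M : ℝ) ^ ρ * ((M : ℝ) ^ 2 / (M : ℝ) ^ (c * r)) =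
          (M : ℝ) ^ (ρ + 2) / (M : ℝ) ^ (c * r) := by
        rw [pow_add]; ring
      have hZ1 : (M : ℝ) ^ ρ * (2 ^ ((c + 1) * r) * (x * x ^ (-γ))) ≤
          2 ^ ((c + 1) * r) * (2 * L) ^ ρ * (2 * b) ^ γ * (X₁ * Q) := by
        calc (M : ℝ) ^ ρ * (2 ^ ((c + 1) * r) * (x * x ^ (-γ))) ≤
              ((2 * L) ^ ρ * H ^ ((ρ : ℝ) / 2)) *
                (2 ^ ((c + 1) * r) * ((2 * b) ^ γ * (Q * Q ^ (-γ)))) := by gcongr
          _ = _ := by rw [hX₁]; ring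
      calc _ ≤ (M : ℝ) ^ ρ * (I * (2 ^ ((c + 1) * r) * (x * x ^ (-γ)) +
            (M : ℝ) ^ 2 / (M : ℝ) ^ (c * r))) + (M : ℝ) ^ (ρ + 2) / (M : ℝ) ^ (c * r) := by
            gcongr
        _ = I * ((M : ℝ) ^ ρ * (2 ^ ((c + 1) * r) * (x * x ^ (-γ)))) +
            (1 + I) * ((M : ℝ) ^ (ρ + 2) / (M : ℝ) ^ (c * r)) := by
            rw [← e0]; ring
        _ ≤ (1 + I) * (2 ^ ((c + 1) * r) * (2 * L) ^ ρ * (2 * b) ^ γ * (X₁ * Q)) +
            (1 + I) * ((2 * L) ^ (ρ + 2 - c * r) * (X₂ * Q)) := by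
            apply add_le_add
            · have h1 : (I : ℝ) ≤ 1 + I := by linarith
              exact mul_le_mul h1 hZ1 (by positivity) (by positivity)
            · exact mul_le_mul_of_nonneg_left hMe (by positivity)
        _ = _ := by ring
    have hfin2 : (S₀.card : ℝ) ≤ 2 * E * ((1 + I) *
        (2 ^ ((c + 1) * r) * (2 * L) ^ ρ * (2 * b) ^ γ * X₁ +
          (2 * L) ^ (ρ + 2 - c * r) * X₂)) := by
      have hQ2 : 0 < Q / 2 := by linarith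
      apply le_of_mul_le_mul_right _ hQ2
      refine hfin.trans_eq ?_
      ring
    set U := 2 ^ ((c + 1) * r) * (2 * L) ^ ρ * (2 * b) ^ γ with hU
    set U' := (2 * L) ^ (ρ + 2 - c * r) with hU'
    have hU0 : 0 ≤ U := by positivity
    have hU'0 : 0 ≤ U' := by positivity
    calc (S₀.card : ℝ) ≤ 2 * E * ((1 + I) * (U * X₁ + U' * X₂)) := hfin2
      _ ≤ 2 * E * (((1 + 2 * (1 + Real.log (2 * L))) * (1 + Real.log H)) *
          ((U + U') * (X₁ + X₂))) := by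
          have h1 : U * X₁ + U' * X₂ ≤ (U + U') * (X₁ + X₂) := by
            nlinarith [mul_nonneg hU0 hX₂0, mul_nonneg hU'0 hX₁0]
          gcongr
      _ = A₂ * (1 + Real.log H) * (X₁ + X₂) := by rw [hA₂]; ring
      _ ≤ (A₁ + A₂) * (1 + Real.log H) * (X₁ + X₂) := by
          gcongr
          linarith

lemma half_rpow_le' {H e : ℝ} (hH : 0 < H) (he : 1 / 6 ≤ e) :
    (H / 2) ^ e ≤ (1 / 2 : ℝ) ^ (1 / 6 : ℝ) * H ^ e := by
  rw [div_eq_mul_one_div, Real.mul_rpow hH.le (by norm_num), mul_comm]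
  apply mul_le_mul_of_nonneg_right _ (by positivity)
  exact Real.rpow_le_rpow_of_exponent_ge (by norm_num) (by norm_num) he

/-- The exceptional set. -/
def excSet [DecidableEq K] (𝓟 : PlSys K ι) (𝓧 : ∀ i, XSys 𝓟 (W i).Point) (Γ : ∀ i, AddSubgroup (W i).Point)
    (ε β H : ℝ) : Set (∀ i, (W i).Point) :=
  {P | (∀ i, P i ∈ Γ i) ∧ Off W F P ∧ ∑ i, (𝓧 i).H.h (P i) ≤ H ∧
    ε * (∑ i, (𝓧 i).H.h (P i)) ^ β < hY 𝓟 W F Dg P}

theorem exists_exceptions [DecidableEq K] [Nonempty ι] {m c : ℕ} (hmc : m + c + 1 ≤ n)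
    (𝓧 : ∀ i, XSys 𝓟 (W i).Point)
    (hξ : ∀ i P, (𝓧 i).ξ P = P.xRep) (Γ : ∀ i, AddSubgroup (W i).Point)
    (hΓ : ∀ i, (Γ i).FG) {r : ℕ} (hr : 1 ≤ r) (hrank : ∀ i, r ≤ Module.finrank ℤ (Γ i))
    (hF : ∀ j, MultiHom (F j) (Dg j)) (hdim : DimLE (centreIdeal W F) m)
    {ε β : ℝ} (hε : 0 < ε) (hβ0 : 0 ≤ β) (hβ1 : β ≤ 1) :
    ∃ C : ℝ, 0 ≤ C ∧ ∀ H : ℝ, 1 ≤ H → (excSet W F Dg 𝓟 𝓧 Γ ε β H).Finite ∧
      ((excSet W F Dg 𝓟 𝓧 Γ ε β H).ncard : ℝ) ≤ C * ((1 + Real.log H) *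
        (H ^ (((∑ i, Module.finrank ℤ (Γ i) : ℕ) : ℝ) / 2 - β * ((c + 1) * r / (r + 2))) +
          H ^ ((((∑ i, Module.finrank ℤ (Γ i) : ℕ) : ℝ) - c * r) / 2 + 1 - β))) := by
  classical
  obtain ⟨L, b, E, hL, hb, hE, hmain⟩ := exists_common_bound W F Dg hmc 𝓧 hξ Γ hΓ hrank hF hdim
  obtain ⟨C₁, hC₁0, hcount⟩ := exists_count W F Dg hmc 𝓧 hξ Γ hΓ hrank hF hdim
  have hρge := sum_finrank_ge W hmc Γ hrank
  set ρ : ℕ := ∑ i, Module.finrank ℤ (Γ i) with hρ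
  have hr1 : (1 : ℝ) ≤ r := by exact_mod_cast hr
  have hc0 : (0 : ℝ) ≤ c := Nat.cast_nonneg _
  have hρr : ((c : ℝ) + 1) * r ≤ ρ := by exact_mod_cast hρge
  set γ : ℝ := (c + 1) * r / (r + 2) with hγ
  have hγ0 : 0 ≤ γ := by positivity
  set e₁ : ℝ := (ρ : ℝ) / 2 - β * γ with he₁
  set e₂ : ℝ := ((ρ : ℝ) - c * r) / 2 + 1 - β with he₂
  have he₁' : 1 / 6 ≤ e₁ := by
    have h1 : β * γ ≤ γ := mul_le_of_le_one_left hγ0 hβ1
    have h2 : 1 / 6 + γ ≤ ((c : ℝ) + 1) * r / 2 := by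
      rw [hγ, div_add_div _ _ (by norm_num) (by positivity), div_le_div_iff₀ (by positivity)
        (by norm_num)]
      nlinarith [mul_nonneg hc0 (by linarith : (0 : ℝ) ≤ r), mul_nonneg hc0
        (mul_nonneg (by linarith : (0 : ℝ) ≤ r) (by linarith : (0 : ℝ) ≤ r)),
        mul_nonneg (by linarith : (0 : ℝ) ≤ r - 1) (by linarith : (0 : ℝ) ≤ r)]
    rw [he₁]
    linarith
  have he₂' : 1 / 6 ≤ e₂ := by
    rw [he₂]
    linarith
  set g : ℝ → ℝ := fun H => (1 + Real.log H) * (H ^ e₁ + H ^ e₂) with hg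
  have hA := fun H : ℝ => fun hH : 1 ≤ H => exists_M hL hH
  -- finiteness
  have hcardH : ∀ H : ℝ, 1 ≤ H → ∃ N : ℕ, (N : ℝ) ≤ E * (2 * L * √H) ^ ρ ∧
      ∀ S₀ : Finset (∀ i, (W i).Point), (S₀ : Set (∀ i, (W i).Point)) ⊆
        excSet W F Dg 𝓟 𝓧 Γ ε β H → S₀.card ≤ N := by
    intro H hH
    obtain ⟨M, hM1, hLM, hML⟩ := hA H hH
    have hM0 : (0 : ℝ) ≤ M := Nat.cast_nonneg _
    have h0 : E * (M : ℝ) ^ ρ ≤ E * (2 * L * √H) ^ ρ :=
      mul_le_mul_of_nonneg_left (pow_le_pow_left₀ hM0 hML _) (by linarith)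
    refine ⟨⌊E * (2 * L * √H) ^ ρ⌋₊, Nat.floor_le (by positivity), ?_⟩
    intro S₀ hS₀
    apply Nat.le_floor
    refine le_trans ?_ h0
    exact (hmain H hH S₀ (fun P hP => ⟨(hS₀ hP).1, (hS₀ hP).2.1, (hS₀ hP).2.2.1⟩) M hLM).1
  have hfin : ∀ H : ℝ, 1 ≤ H → (excSet W F Dg 𝓟 𝓧 Γ ε β H).Finite := by
    intro H hH
    obtain ⟨N, -, hN⟩ := hcardH H hH
    by_contra hinf
    obtain ⟨T, hT, hTN⟩ := Set.Infinite.exists_subset_card_eq hinf (N + 1)
    have := hN T hT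
    omega
  have hcard : ∀ H : ℝ, 1 ≤ H → ((excSet W F Dg 𝓟 𝓧 Γ ε β H).ncard : ℝ) ≤
      E * (2 * L * √H) ^ ρ := by
    intro H hH
    obtain ⟨N, hN0, hN⟩ := hcardH H hH
    have h1 := hN (hfin H hH).toFinset (by simp)
    rw [← Set.ncard_eq_toFinset_card _ (hfin H hH)] at h1
    exact (by exact_mod_cast h1 : ((excSet W F Dg 𝓟 𝓧 Γ ε β H).ncard : ℝ) ≤ N).trans hN0
  -- the step
  set εβ : ℝ := ε * (2 : ℝ) ^ (-β) with hεβ
  have hεβ0 : 0 < εβ := by positivity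
  set C₂ : ℝ := C₁ * (εβ ^ (-γ) + εβ⁻¹) with hC₂
  have hC₂0 : 0 ≤ C₂ := by positivity
  have hstep : ∀ H : ℝ, 2 ≤ H → ((excSet W F Dg 𝓟 𝓧 Γ ε β H).ncard : ℝ) ≤
      ((excSet W F Dg 𝓟 𝓧 Γ ε β (H / 2)).ncard : ℝ) + C₂ * g H := by
    intro H hH
    have hH1 : 1 ≤ H := by linarith
    have hH0 : 0 < H := by linarith
    set Q : ℝ := εβ * H ^ β with hQ
    have hQ0 : 0 < Q := by positivity
    have hQ' : Q = ε * (H / 2) ^ β := by
      rw [hQ, hεβ, Real.div_rpow hH0.le (by norm_num), Real.rpow_neg (by norm_num)]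
      field_simp
    set T : Finset (∀ i, (W i).Point) := (hfin H hH1).toFinset \
      (hfin (H / 2) (by linarith)).toFinset with hT
    have hTc := hcount H hH1 Q hQ0 T (by
      intro P hP
      rw [hT, Finset.mem_sdiff, Set.Finite.mem_toFinset, Set.Finite.mem_toFinset] at hP
      obtain ⟨⟨h1, h2, h3, h4⟩, h5⟩ := hP
      refine ⟨h1, h2, h3, ?_⟩
      by_contra hlt
      apply h5
      refine ⟨h1, h2, ?_, h4⟩
      by_contra hlt'
      apply hlt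
      rw [hQ']
      refine le_trans ?_ h4.le
      apply mul_le_mul_of_nonneg_left _ hε.le
      exact Real.rpow_le_rpow (by linarith) (not_le.mp hlt').le hβ0)
    have hsplit : (excSet W F Dg 𝓟 𝓧 Γ ε β H).ncard ≤
        (excSet W F Dg 𝓟 𝓧 Γ ε β (H / 2)).ncard + T.card := by
      rw [Set.ncard_eq_toFinset_card _ (hfin H hH1),
        Set.ncard_eq_toFinset_card _ (hfin (H / 2) (by linarith)), hT]
      have := Finset.card_le_card_sdiff_add_card (s := (hfin H hH1).toFinset)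
        (t := (hfin (H / 2) (by linarith)).toFinset)
      omega
    have hsplit' : ((excSet W F Dg 𝓟 𝓧 Γ ε β H).ncard : ℝ) ≤
        (excSet W F Dg 𝓟 𝓧 Γ ε β (H / 2)).ncard + T.card := by exact_mod_cast hsplit
    refine hsplit'.trans (add_le_add le_rfl (hTc.trans ?_))
    have hlog : 0 ≤ Real.log H := Real.log_nonneg hH1
    have e1 : H ^ ((ρ : ℝ) / 2) * Q ^ (-γ) = εβ ^ (-γ) * H ^ e₁ := by
      rw [hQ, Real.mul_rpow hεβ0.le (by positivity), ← Real.rpow_mul hH0.le, he₁]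
      rw [mul_left_comm, ← Real.rpow_add hH0]
      congr 2
      ring
    have e2 : H ^ (((ρ : ℝ) - c * r) / 2 + 1) / Q = εβ⁻¹ * H ^ e₂ := by
      rw [hQ, he₂, Real.rpow_sub hH0]
      field_simp
    rw [e1, e2]
    have hX₁ : 0 ≤ H ^ e₁ := by positivity
    have hX₂ : 0 ≤ H ^ e₂ := by positivity
    have hU₁ : 0 ≤ εβ ^ (-γ) := by positivity
    have hU₂ : 0 ≤ εβ⁻¹ := by positivity
    calc C₁ * (1 + Real.log H) * (εβ ^ (-γ) * H ^ e₁ + εβ⁻¹ * H ^ e₂) ≤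
          C₁ * (1 + Real.log H) * ((εβ ^ (-γ) + εβ⁻¹) * (H ^ e₁ + H ^ e₂)) := by
          apply mul_le_mul_of_nonneg_left _ (by positivity)
          nlinarith [mul_nonneg hU₁ hX₂, mul_nonneg hU₂ hX₁]
      _ = C₂ * g H := by rw [hC₂, hg]; ring
  set K₀ : ℝ := E * (2 * L * √2) ^ ρ with hK₀
  have hK₀0 : 0 ≤ K₀ := by positivity
  have hg0 : ∀ H : ℝ, 1 ≤ H → 1 ≤ g H := by
    intro H hH
    have h1 : 1 ≤ H ^ e₁ := Real.one_le_rpow hH (by linarith)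
    have h2 : 0 ≤ H ^ e₂ := by positivity
    have h3 : 0 ≤ Real.log H := Real.log_nonneg hH
    exact one_le_mul_of_one_le_of_one_le (by linarith) (by linarith)
  have hghalf : ∀ H : ℝ, 2 ≤ H → g (H / 2) ≤ (1 / 2 : ℝ) ^ (1 / 6 : ℝ) * g H := by
    intro H hH
    have hH0 : 0 < H := by linarith
    have h1 : Real.log (H / 2) ≤ Real.log H := Real.log_le_log (by positivity) (by linarith)
    have h2 := half_rpow_le' hH0 he₁'
    have h3 := half_rpow_le' hH0 he₂'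
    have h4 : 0 ≤ Real.log (H / 2) := Real.log_nonneg (by linarith)
    have h5 : 0 ≤ (H / 2) ^ e₁ + (H / 2) ^ e₂ := by positivity
    calc g (H / 2) = (1 + Real.log (H / 2)) * ((H / 2) ^ e₁ + (H / 2) ^ e₂) := rfl
      _ ≤ (1 + Real.log H) * ((1 / 2 : ℝ) ^ (1 / 6 : ℝ) * H ^ e₁ +
          (1 / 2 : ℝ) ^ (1 / 6 : ℝ) * H ^ e₂) :=
          mul_le_mul (by linarith) (add_le_add h2 h3) h5 (by linarith)
      _ = _ := by rw [hg]; ring
  have hq1 : (1 / 2 : ℝ) ^ (1 / 6 : ℝ) < 1 :=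
    Real.rpow_lt_one (by norm_num) (by norm_num) (by norm_num)
  have hq0 : 0 ≤ (1 / 2 : ℝ) ^ (1 / 6 : ℝ) := by positivity
  refine ⟨(K₀ + C₂) / (1 - (1 / 2 : ℝ) ^ (1 / 6 : ℝ)), ?_, fun H hH => ⟨hfin H hH, ?_⟩⟩
  · have : 0 < 1 - (1 / 2 : ℝ) ^ (1 / 6 : ℝ) := by linarith
    positivity
  · refine halving (F := fun H => ((excSet W F Dg 𝓟 𝓧 Γ ε β H).ncard : ℝ)) (g := g) hq0 hq1
      hC₂0 hK₀0 hg0 hghalf hstep ?_ H hH
    intro H hH hH2
    have h1 := hcard H hH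
    have h2 : E * (2 * L * √H) ^ ρ ≤ K₀ := by
      rw [hK₀]
      apply mul_le_mul_of_nonneg_left _ (by linarith)
      apply pow_le_pow_left₀ (by positivity)
      apply mul_le_mul_of_nonneg_left _ (by linarith)
      exact Real.sqrt_le_sqrt hH2.le
    have h3 : 0 ≤ C₂ * g H := mul_nonneg hC₂0 (by linarith [hg0 H hH])
    linarith

end

end Pool.Agent.AG
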