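import Mathlib
import Pool.Agent.AG.LD

/-! # The average of the height with respect to `Y` in all cases (module LDAvg) -/

set_option autoImplicit false

open MvPolynomial WeierstrassCurve WeierstrassCurve.Affine
open Pool.Agent.GE (coords MultiHom DimLE wt)

namespace Pool.Agent.AG

universe u

/-- The growth of the average: `√H`, `1 + log H` or `1`. -/
noncomputable def growth (s : ℕ) (H : ℝ) : ℝ :=
  if s = 1 then √H else if s = 2 then 1 + Real.log H else 1

lemma one_le_growth (s : ℕ) {H : ℝ} (hH : 1 ≤ H) : 1 ≤ growth s H := by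
  unfold growth
  split_ifs
  · rw [Real.le_sqrt' one_pos]; linarith
  · have := Real.log_nonneg hH; linarith
  · exact le_rfl

lemma layer_le {c r : ℕ} (hcr : 1 ≤ c * r) {L H : ℝ} (hL : 1 ≤ L) (hH : 1 ≤ H) {M : ℕ}
    (hM : 1 ≤ M) (hML : (M : ℝ) ≤ 2 * L * √H) :
    ∑ i ∈ Finset.Ico 0 (Nat.log 2 M), ((2 : ℝ) ^ i) ^ (r + 2) / ((2 : ℝ) ^ i) ^ ((c + 1) * r) +
      (M : ℝ) ^ 2 / (M : ℝ) ^ (c * r) ≤ 3 * (2 * L) * (1 + Real.log (2 * L)) *
        growth (c * r) H := by
  have hMr : (1 : ℝ) ≤ M := by exact_mod_cast hM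
  have hM0 : (0 : ℝ) < M := by linarith
  have hH0 : 0 < H := by linarith
  have hAM : (2 : ℝ) ^ Nat.log 2 M ≤ M := by
    have h1 : 2 ^ Nat.log 2 M ≤ M := Nat.pow_log_le_self 2 (by omega)
    exact_mod_cast h1
  have hlL : 0 ≤ Real.log (2 * L) := Real.log_nonneg (by linarith)
  have hlH : 0 ≤ Real.log H := Real.log_nonneg hH
  have hg := one_le_growth (c * r) hH
  have hbase : 1 ≤ (2 * L) * (1 + Real.log (2 * L)) :=
    one_le_mul_of_one_le_of_one_le (by linarith) (by linarith)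
  rcases Nat.lt_or_ge (c * r) 3 with h3 | h3
  · rcases Nat.lt_or_ge (c * r) 2 with h2 | h2
    · -- `c r = 1`
      have h1 : c * r = 1 := by omega
      have hcr' : (c + 1) * r = r + 1 := by
        have : (c + 1) * r = c * r + r := by ring
        omega
      have e1 : ∑ i ∈ Finset.Ico 0 (Nat.log 2 M),
          ((2 : ℝ) ^ i) ^ (r + 2) / ((2 : ℝ) ^ i) ^ ((c + 1) * r) ≤ M := by
        calc _ = ∑ i ∈ Finset.Ico 0 (Nat.log 2 M), (2 : ℝ) ^ i := by
              refine Finset.sum_congr rfl fun i _ => ?_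
              rw [hcr', pow_succ ((2 : ℝ) ^ i) (r + 1), mul_div_cancel_left₀ _ (by positivity)]
          _ ≤ (2 : ℝ) ^ Nat.log 2 M := by
              rw [← Finset.range_eq_Ico, geom_sum_eq (by norm_num)]
              rw [div_le_iff₀ (by norm_num)]
              have : (0 : ℝ) ≤ 2 ^ Nat.log 2 M := by positivity
              linarith
          _ ≤ M := hAM
      have e2 : (M : ℝ) ^ 2 / (M : ℝ) ^ (c * r) = M := by
        rw [h1, pow_one, pow_two, mul_div_assoc, div_self hM0.ne', mul_one]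
      have e3 : growth (c * r) H = √H := by rw [growth, if_pos h1]
      have hs : 0 ≤ √H := Real.sqrt_nonneg H
      rw [e2, e3]
      have h5 : 2 * L * √H ≤ 2 * L * (1 + Real.log (2 * L)) * √H := by
        have : 2 * L ≤ 2 * L * (1 + Real.log (2 * L)) :=
          le_mul_of_one_le_right (by linarith) (by linarith)
        exact mul_le_mul_of_nonneg_right this hs
      have h6 : 0 ≤ 2 * L * √H := by positivity
      calc _ ≤ (M : ℝ) + M := by linarith
        _ ≤ 2 * (2 * L * √H) := by linarith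
        _ ≤ _ := by linarith
    · -- `c r = 2`
      have h1 : c * r = 2 := by omega
      have hcr' : (c + 1) * r = r + 2 := by
        have : (c + 1) * r = c * r + r := by ring
        omega
      have e1 : ∑ i ∈ Finset.Ico 0 (Nat.log 2 M),
          ((2 : ℝ) ^ i) ^ (r + 2) / ((2 : ℝ) ^ i) ^ ((c + 1) * r) = Nat.log 2 M := by
        calc _ = ∑ i ∈ Finset.Ico 0 (Nat.log 2 M), (1 : ℝ) := by
              refine Finset.sum_congr rfl fun i _ => ?_
              rw [hcr', div_self (by positivity)]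
          _ = _ := by simp
      have e2 : (M : ℝ) ^ 2 / (M : ℝ) ^ (c * r) = 1 := by
        rw [h1, div_self (by positivity)]
      have e3 : growth (c * r) H = 1 + Real.log H := by
        rw [growth, if_neg (by omega), if_pos h1]
      have hIlog : (Nat.log 2 M : ℝ) ≤ 2 * Real.log M := by
        have h2 : (Nat.log 2 M : ℝ) ≤ Real.logb 2 M := Real.natLog_le_logb _ _
        refine h2.trans ?_
        rw [Real.logb, div_le_iff₀ (Real.log_pos (by norm_num))]
        have := Real.log_two_gt_d9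
        nlinarith [Real.log_nonneg hMr]
      have hlogM : Real.log M ≤ Real.log (2 * L) + Real.log H / 2 := by
        have h1 := Real.log_le_log hM0 hML
        rwa [Real.log_mul (by positivity) (by positivity), Real.log_sqrt hH0.le] at h1
      rw [e1, e2, e3]
      have h5 : (1 + Real.log (2 * L)) * (1 + Real.log H) ≤
          2 * L * (1 + Real.log (2 * L)) * (1 + Real.log H) := by
        have : 1 + Real.log (2 * L) ≤ 2 * L * (1 + Real.log (2 * L)) :=
          le_mul_of_one_le_left (by linarith) (by linarith)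
        exact mul_le_mul_of_nonneg_right this (by linarith)
      nlinarith [mul_nonneg hlL hlH]
  · -- `c r ≥ 3`
    have h1 : ∑ i ∈ Finset.Ico 0 (Nat.log 2 M),
        ((2 : ℝ) ^ i) ^ (r + 2) / ((2 : ℝ) ^ i) ^ ((c + 1) * r) ≤ 2 := by
      calc _ ≤ ∑ i ∈ Finset.Ico 0 (Nat.log 2 M), (1 / 2 : ℝ) ^ i := by
            refine Finset.sum_le_sum fun i _ => ?_
            have h2 : (c + 1) * r = (r + 2) + 1 + (c * r - 3) := by
              have : (c + 1) * r = c * r + r := by ring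
              omega
            have h3 : (1 : ℝ) ≤ (2 : ℝ) ^ i := one_le_pow₀ (by norm_num)
            have h4 : ((2 : ℝ) ^ i) ^ (r + 2) * (2 : ℝ) ^ i ≤ ((2 : ℝ) ^ i) ^ ((c + 1) * r) := by
              rw [← pow_succ, h2]
              exact pow_le_pow_right₀ h3 (by omega)
            rw [div_le_iff₀ (by positivity), one_div, inv_pow]
            rw [← div_eq_inv_mul, le_div_iff₀ (by positivity)]
            exact h4
        _ ≤ 2 := by
            rw [← Finset.range_eq_Ico]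
            have := geom_sum_eq (x := (1 / 2 : ℝ)) (by norm_num) (Nat.log 2 M)
            rw [this]
            have h5 : (0 : ℝ) ≤ (1 / 2 : ℝ) ^ Nat.log 2 M := by positivity
            rw [div_le_iff_of_neg (by norm_num)]
            linarith
    have h2 : (M : ℝ) ^ 2 / (M : ℝ) ^ (c * r) ≤ 1 := by
      rw [div_le_iff₀ (by positivity), one_mul]
      exact pow_le_pow_right₀ hMr (by omega)
    have h5 : 1 ≤ 2 * L * (1 + Real.log (2 * L)) * growth (c * r) H :=
      one_le_mul_of_one_le_of_one_le hbase hg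
    linarith

section

variable {K : Type u} [Field K] {ι : Type*} {𝓟 : PlSys K ι}

variable {n : ℕ} (W : Fin n → Affine K) {t : ℕ}
  (F : Fin t → MvPolynomial (Fin n × Fin 3) K) (Dg : Fin t → Fin n → ℕ)

/-- The average in all cases. -/
theorem exists_average' [DecidableEq K] [Nonempty ι] {m c : ℕ} (hmc : m + c + 1 ≤ n)
    (𝓧 : ∀ i, XSys 𝓟 (W i).Point)
    (hξ : ∀ i P, (𝓧 i).ξ P = P.xRep) (Γ : ∀ i, AddSubgroup (W i).Point)
    (hΓ : ∀ i, (Γ i).FG) {r : ℕ} (hrank : ∀ i, r ≤ Module.finrank ℤ (Γ i)) (hcr : 1 ≤ c * r)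
    (hF : ∀ j, MultiHom (F j) (Dg j)) (hdim : DimLE (centreIdeal W F) m) :
    ∃ C : ℝ, 0 ≤ C ∧ ∀ H : ℝ, 1 ≤ H → ∀ S₀ : Finset (∀ i, (W i).Point),
      (∀ P ∈ S₀, (∀ i, P i ∈ Γ i) ∧ Off W F P ∧ ∑ i, (𝓧 i).H.h (P i) ≤ H) →
      (S₀.card : ℝ) ≤ C * H ^ (((∑ i, Module.finrank ℤ (Γ i) : ℕ) : ℝ) / 2) ∧
      ∑ P ∈ S₀, max 0 (hY 𝓟 W F Dg P) ≤
        C * (H ^ (((∑ i, Module.finrank ℤ (Γ i) : ℕ) : ℝ) / 2) * growth (c * r) H) := by
  obtain ⟨L, b, E, hL, hb, hE, hmain⟩ := exists_common_bound W F Dg hmc 𝓧 hξ Γ hΓ hrank hF hdim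
  set ρ : ℕ := ∑ i, Module.finrank ℤ (Γ i) with hρ
  set κ : ℝ := 3 * (2 * L) * (1 + Real.log (2 * L)) with hκ
  have hlL : 0 ≤ Real.log (2 * L) := Real.log_nonneg (by linarith)
  have hκ0 : 0 ≤ κ := by positivity
  refine ⟨(E * κ + E * b) * (2 * L) ^ ρ, by positivity, ?_⟩
  intro H hH S₀ hS₀
  obtain ⟨M, hM1, hLM, hML⟩ := exists_M hL hH
  have hMr : (1 : ℝ) ≤ M := by exact_mod_cast hM1
  have hM0 : (0 : ℝ) < M := by linarith
  obtain ⟨hcard, hsum⟩ := hmain H hH S₀ hS₀ M hLM
  have hg := one_le_growth (c * r) hH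
  have h4 : (M : ℝ) ^ ρ ≤ (2 * L) ^ ρ * H ^ ((ρ : ℝ) / 2) := pow_le_rpow hH hM0.le hML ρ
  refine ⟨?_, ?_⟩
  · calc (S₀.card : ℝ) ≤ E * (M : ℝ) ^ ρ := hcard
      _ ≤ E * ((2 * L) ^ ρ * H ^ ((ρ : ℝ) / 2)) := by gcongr
      _ ≤ (E * κ + E * b) * ((2 * L) ^ ρ * H ^ ((ρ : ℝ) / 2)) := by
          apply mul_le_mul_of_nonneg_right _ (by positivity)
          nlinarith [mul_nonneg (by linarith : (0 : ℝ) ≤ E) hκ0]
      _ = _ := by ring
  have h0 := hsum 0 (Nat.zero_le _)
  rw [pow_zero, one_pow, mul_one] at h0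
  have h1 := layer_le hcr hL hH hM1 hML
  rw [← hκ] at h1
  have h3 : ∑ P ∈ S₀, max 0 (hY 𝓟 W F Dg P) ≤
      ∑ P ∈ S₀, (max 0 (hY 𝓟 W F Dg P - b) + b) :=
    Finset.sum_le_sum fun P _ => by
      apply max_le
      · have := le_max_left 0 (hY 𝓟 W F Dg P - b)
        linarith
      · have := le_max_right 0 (hY 𝓟 W F Dg P - b)
        linarith
  rw [Finset.sum_add_distrib, Finset.sum_const, nsmul_eq_mul] at h3
  calc _ ≤ _ := h3
    _ ≤ E * ((M : ℝ) ^ ρ * (κ * growth (c * r) H)) + (E * (M : ℝ) ^ ρ) * b := by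
        apply add_le_add
        · refine h0.trans (mul_le_mul_of_nonneg_left ?_ (by linarith))
          refine le_trans (le_of_eq ?_) (mul_le_mul_of_nonneg_left h1 (by positivity))
          rw [pow_add]
          ring
        · exact mul_le_mul_of_nonneg_right hcard (by linarith)
    _ ≤ E * ((M : ℝ) ^ ρ * (κ * growth (c * r) H)) +
        (E * (M : ℝ) ^ ρ) * b * growth (c * r) H := by
        apply add_le_add le_rfl
        exact le_mul_of_one_le_right (by positivity) hg
    _ = (E * κ + E * b) * ((M : ℝ) ^ ρ * growth (c * r) H) := by ring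
    _ ≤ (E * κ + E * b) * (((2 * L) ^ ρ * H ^ ((ρ : ℝ) / 2)) * growth (c * r) H) := by
        gcongr
    _ = _ := by ring

end

end Pool.Agent.AG
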