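import Mathlib
import Pool.Agent.AG.Defs3

/-! # Points close to the roots of binary forms at several places (module Mc) -/

set_option autoImplicit false

namespace Pool.Agent.AG

section

variable {K : Type*} [Field K] {ι : Type*} {𝓟 : PlSys K ι} {G : Type*} [AddCommGroup G]

theorem exists_multi_close (𝓧 : XSys 𝓟 G) (D p : ℕ) : ∃ (C : ι → ℝ) (B : ℝ), IsCst C ∧ 0 ≤ B ∧
    ∀ (F : Fin p → ι × ℝ) (c : Fin p → Fin (D + 1) → K), (∀ j, 0 ≤ (F j).2) → (∀ j, c j ≠ 0) →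
    ∀ T D' : Finset G, (∀ x ∈ T, ∀ y ∈ T, x - y ∈ D') →
      (∀ X ∈ T, ∀ j, bval 𝓟 (F j).1 (c j) (𝓧.ξ X) < thr B C (F j)) →
      (T.card : ℝ) ≤ (2 * D + 1) ^ p * cnt 𝓧.H 1 D' F := by
  classical
  obtain ⟨C₀, hC₀, hcov⟩ := exists_small_cover 𝓧 D
  set N : ℕ := D * (D + 1) / 2 with hN
  have hcc : IsCst 𝓧.H.c := ⟨𝓧.H.one_le_c, 𝓧.H.c_fin⟩
  refine ⟨fun v => C₀ v * 𝓧.H.c v ^ (2 * N), N, hC₀.mul (hcc.pow _), by positivity, ?_⟩
  intro F c ht hc T D' hTD hT
  set ε : Fin p → ℝ := fun j => Real.exp (-(F j).2) / 𝓧.H.c (F j).1 ^ 2 with hε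
  have hc0 : ∀ v, 0 < 𝓧.H.c v := fun v => hcc.pos v
  have hε0 : ∀ j, 0 < ε j := fun j => div_pos (Real.exp_pos _) (pow_pos (hc0 _) _)
  have hε1 : ∀ j, ε j ≤ 1 := by
    intro j
    rw [hε]
    simp only
    rw [div_le_one (pow_pos (hc0 _) _)]
    calc Real.exp (-(F j).2) ≤ 1 := Real.exp_le_one_iff.mpr (by linarith [ht j])
      _ ≤ _ := one_le_pow₀ (𝓧.H.one_le_c _)
  have hU : ∀ j, ∃ U : Finset G, U.card ≤ 2 * D ∧
      ∀ P ∈ T, ∃ Q ∈ U, 𝓧.H.ν (F j).1 (P - Q) < ε j := by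
    intro j
    apply hcov (F j).1 (c j) T (ε j) (hc j) (hε0 j) (hε1 j)
    intro P hP
    refine (hT P hP j).trans_le (le_of_eq ?_)
    have h1 := hC₀.pos (F j).1
    have h2 := hc0 (F j).1
    rw [hε]
    simp only
    unfold thr
    rw [Real.log_mul h1.ne' (pow_pos h2 _).ne', neg_add, Real.exp_add, neg_add, Real.exp_add,
      Real.exp_neg (Real.log _), Real.exp_log h1, Real.exp_neg (Real.log _),
      Real.exp_log (pow_pos h2 _), div_pow, ← Real.exp_nat_mul, ← pow_mul]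
    rw [show -((N : ℝ) * (F j).2) = (N : ℝ) * -(F j).2 by ring]
    field_simp
  choose U hUc hUP using hU
  have hκ : ∀ X : G, ∃ κ : Fin p → G, X ∈ T → ∀ j, κ j ∈ U j ∧
      𝓧.H.ν (F j).1 (X - κ j) < ε j := by
    intro X
    by_cases hX : X ∈ T
    · have h1 := fun j => hUP j X hX
      choose κ h2 h3 using h1
      exact ⟨κ, fun _ j => ⟨h2 j, h3 j⟩⟩
    · exact ⟨fun _ => 0, fun h => absurd h hX⟩
  choose κ hκ using hκ
  have hfib : ∀ b ∈ Fintype.piFinset U, (T.filter fun X => κ X = b).card ≤ cnt 𝓧.H 1 D' F := by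
    intro b _
    rcases (T.filter fun X => κ X = b).eq_empty_or_nonempty with h | ⟨Y, hY⟩
    · rw [h, Finset.card_empty]
      exact Nat.zero_le _
    · unfold cnt
      apply Finset.card_le_card_of_injOn (fun X => X - Y)
      · intro X hX
        obtain ⟨hX1, hX2⟩ := Finset.mem_filter.mp (Finset.mem_coe.mp hX)
        obtain ⟨hY1, hY2⟩ := Finset.mem_filter.mp hY
        apply Finset.mem_coe.mpr
        rw [Finset.mem_filter]
        refine ⟨hTD X hX1 Y hY1, fun j => ?_⟩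
        have h1 := (hκ X hX1 j).2
        have h2 := (hκ Y hY1 j).2
        rw [hX2] at h1
        rw [hY2] at h2
        have h3 : 𝓧.H.ν (F j).1 (X - Y) ≤ 𝓧.H.c (F j).1 * ε j := by
          have h4 := 𝓧.H.ν_add (F j).1 (X - b j) (-(Y - b j))
          rw [𝓧.H.ν_neg, show X - b j + -(Y - b j) = X - Y by abel] at h4
          refine h4.trans (mul_le_mul_of_nonneg_left ?_ (hc0 _).le)
          exact max_le h1.le h2.le
        unfold nr
        rw [pow_one]
        calc 𝓧.H.c (F j).1 * 𝓧.H.ν (F j).1 (X - Y) ≤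
              𝓧.H.c (F j).1 * (𝓧.H.c (F j).1 * ε j) :=
              mul_le_mul_of_nonneg_left h3 (hc0 _).le
          _ = Real.exp (-(F j).2) := by
              have := (hc0 (F j).1).ne'
              rw [hε]
              field_simp
      · intro X _ X' _ h
        exact sub_left_injective h
  have hcard := Finset.card_le_mul_card_image_of_maps_to
    (s := T) (t := Fintype.piFinset U) (f := κ)
    (fun X hX => Fintype.mem_piFinset.mpr fun j => (hκ X hX j).1) (cnt 𝓧.H 1 D' F) hfib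
  have hpi : (Fintype.piFinset U).card ≤ (2 * D) ^ p := by
    rw [Fintype.card_piFinset]
    calc ∏ j, (U j).card ≤ ∏ _j : Fin p, 2 * D := Finset.prod_le_prod' fun j _ => hUc j
      _ = _ := by rw [Finset.prod_const, Finset.card_univ, Fintype.card_fin]
  have h1 : T.card ≤ cnt 𝓧.H 1 D' F * (2 * D) ^ p := hcard.trans (Nat.mul_le_mul_left _ hpi)
  calc (T.card : ℝ) ≤ ((cnt 𝓧.H 1 D' F * (2 * D) ^ p : ℕ) : ℝ) := by exact_mod_cast h1
    _ = (2 * D : ℝ) ^ p * cnt 𝓧.H 1 D' F := by push_cast; ring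
    _ ≤ (2 * D + 1) ^ p * cnt 𝓧.H 1 D' F := by
        gcongr
        linarith

end

end Pool.Agent.AG
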