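import Mathlib
import Pool.Agent.AG.Mc
import Pool.Agent.AG.Tail

/-! # Moments: the general bound (module Ma) -/

set_option autoImplicit false

open Pool.Agent.H7.Vojta (HtSys)

namespace Pool.Agent.AG

section

variable {ι : Type*}

lemma thr_pos (B : ℝ) (C : ι → ℝ) (o : ι × ℝ) : 0 < thr B C o := Real.exp_pos _

lemma thr_anti {B B₁ : ℝ} {C C₁ : ι → ℝ} {o : ι × ℝ} (ho : 0 ≤ o.2) (hB : B₁ ≤ B)
    (hC₁ : 0 < C₁ o.1) (hC : C₁ o.1 ≤ C o.1) : thr B C o ≤ thr B₁ C₁ o :=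
  thr_le hB hC₁ hC ho

lemma thr_mul' {B₁ B₂ : ℝ} {C₁ C₂ : ι → ℝ} {o : ι × ℝ} (h₁ : 0 < C₁ o.1) (h₂ : 0 < C₂ o.1) :
    thr B₁ C₁ o * thr B₂ C₂ o = thr (B₁ + B₂) (fun v => C₁ v * C₂ v) o :=
  thr_mul h₁ h₂

lemma mul_thr {B : ℝ} {C C₁ : ι → ℝ} {o : ι × ℝ} (h : 0 < C o.1) (h₁ : 0 < C₁ o.1) :
    C₁ o.1 * thr B (fun v => C v * C₁ v) o = thr B C o := by
  unfold thr
  rw [Real.log_mul h.ne' h₁.ne']
  nth_rewrite 1 [← Real.exp_log h₁]
  rw [← Real.exp_add]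
  congr 1
  ring

open Classical in
lemma wsum_filter (Ω : Finset (ι × ℝ)) (ω : ι × ℝ → ℝ) (E E' : ι × ℝ → Prop) :
    wsum (Ω.filter E) ω E' = wsum Ω ω (fun o => E o ∧ E' o) := by
  unfold wsum
  refine Finset.sum_congr ?_ fun _ _ => rfl
  ext o
  simp only [Finset.mem_filter, and_assoc]

open Classical in
lemma tup_filter (Ω : Finset (ι × ℝ)) (E : ι × ℝ → Prop) (p : ℕ) :
    tup (Ω.filter E) p = (tup Ω p).filter (fun F => ∀ j, E (F j)) := by
  ext F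
  rw [Finset.mem_filter, mem_tup, mem_tup]
  simp only [Finset.mem_filter]
  exact ⟨fun h => ⟨fun j => (h j).1, fun j => (h j).2⟩, fun h j => ⟨h.1 j, h.2 j⟩⟩

open Classical in
/-- Double counting: elements and tuples of conditions satisfied by them. -/
lemma sum_tup_eq {G : Type*} [AddCommGroup G] (𝓗 : HtSys G ι) (m : ℕ) (Ω : Finset (ι × ℝ))
    (D' : Finset G) {p : ℕ} (g : (Fin p → ι × ℝ) → ℝ) :
    ∑ a ∈ D', ∑ F ∈ tup (Ω.filter fun o => nr 𝓗 m o a) p, g F =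
      ∑ F ∈ tup Ω p, (cnt 𝓗 m D' F : ℝ) * g F := by
  simp only [tup_filter, Finset.sum_filter]
  rw [Finset.sum_comm]
  refine Finset.sum_congr rfl fun F _ => ?_
  rw [← Finset.sum_filter, Finset.sum_const, nsmul_eq_mul]
  rfl

end

section

variable {K : Type*} [Field K] {ι : Type*} {𝓟 : PlSys K ι}

/-- Slices control the family, all cases. -/
theorem exists_coef' {n D : ℕ} {J : Type*} [Finite J] (f : J → Ten K (n + 1) D) (v : ι)
    (p : Fin n → Fin 2 → K) (hp : ∀ i, 0 < nm 𝓟 v (p i)) :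
    ∃ c : Fin (D + 1) → K, c ≠ 0 ∧ ∀ x : Fin 2 → K, 0 < nm 𝓟 v x → ∀ τ₀ τg : ℝ, 0 < τ₀ →
      0 < τg → cl 𝓟 v f (Fin.cons x p : Fin (n + 1) → Fin 2 → K) < τ₀ * τg →
      cl 𝓟 v (fun jk : J × Fin (D + 1) => sl (f jk.1) jk.2) p < τg ∨ bval 𝓟 v c x < τ₀ := by
  by_cases h : ∃ jk : J × Fin (D + 1), tev (sl (f jk.1) jk.2) p ≠ 0
  · obtain ⟨c, hc, hb⟩ := exists_coef (𝓟 := 𝓟) f v p hp h
    refine ⟨c, hc, fun x hx τ₀ τg h₀ hg hlt => ?_⟩
    by_contra hcon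
    push Not at hcon
    have h1 := hb x hx
    have h2 : τ₀ * τg ≤ bval 𝓟 v c x *
        cl 𝓟 v (fun jk : J × Fin (D + 1) => sl (f jk.1) jk.2) p :=
      mul_le_mul hcon.2 hcon.1 hg.le (h₀.le.trans hcon.2)
    linarith
  · push Not at h
    refine ⟨fun _ => 1, fun h1 => one_ne_zero (congrFun h1 0), fun x hx τ₀ τg h₀ hg hlt => ?_⟩
    left
    rw [cl_eq_zero v _ p h]
    exact hg

open Classical in
/-- The sum over the first coordinate. -/
theorem sum_first_le {G : Type*} [AddCommGroup G] (𝓧 : XSys 𝓟 G) {D p : ℕ} {C0 : ι → ℝ} {B0 : ℝ}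
    (hmc : ∀ (F : Fin p → ι × ℝ) (c : Fin p → Fin (D + 1) → K), (∀ j, 0 ≤ (F j).2) →
      (∀ j, c j ≠ 0) → ∀ T D' : Finset G, (∀ x ∈ T, ∀ y ∈ T, x - y ∈ D') →
      (∀ X ∈ T, ∀ j, bval 𝓟 (F j).1 (c j) (𝓧.ξ X) < thr B0 C0 (F j)) →
      (T.card : ℝ) ≤ (2 * D + 1) ^ p * cnt 𝓧.H 1 D' F)
    {Ω : Finset (ι × ℝ)} {ω : ι × ℝ → ℝ} (hΩ : ∀ o ∈ Ω, 0 ≤ o.2) (hω : ∀ o ∈ Ω, 0 ≤ ω o)
    {S D' : Finset G} (hSD : ∀ x ∈ S, ∀ y ∈ S, x - y ∈ D') (cc : ι → Fin (D + 1) → K)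
    (hcc : ∀ v, cc v ≠ 0) (Eh : ι × ℝ → Prop) :
    ∑ X ∈ S, wsum Ω ω (fun o => bval 𝓟 o.1 (cc o.1) (𝓧.ξ X) < thr B0 C0 o ∧ Eh o) ^ p ≤
      (2 * D + 1) ^ p * ∑ a ∈ D', wsum (Ω.filter fun o => nr 𝓧.H 1 o a) ω Eh ^ p := by
  have hprod : ∀ F ∈ tup Ω p, 0 ≤ ∏ j, ω (F j) := fun F hF =>
    Finset.prod_nonneg fun j _ => hω _ (mem_tup.mp hF j)
  have e1 : ∑ a ∈ D', wsum (Ω.filter fun o => nr 𝓧.H 1 o a) ω Eh ^ p =
      ∑ F ∈ tup Ω p, (cnt 𝓧.H 1 D' F : ℝ) * (if ∀ j, Eh (F j) then ∏ j, ω (F j) else 0) := by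
    rw [← sum_tup_eq]
    refine Finset.sum_congr rfl fun a _ => ?_
    rw [wsum_pow, Finset.sum_filter]
  have e2 : ∑ X ∈ S, wsum Ω ω (fun o => bval 𝓟 o.1 (cc o.1) (𝓧.ξ X) < thr B0 C0 o ∧ Eh o) ^ p =
      ∑ F ∈ tup Ω p, ((S.filter fun X => ∀ j, bval 𝓟 (F j).1 (cc (F j).1) (𝓧.ξ X) <
        thr B0 C0 (F j)).card : ℝ) * (if ∀ j, Eh (F j) then ∏ j, ω (F j) else 0) := by
    simp only [wsum_pow, Finset.sum_filter]
    rw [Finset.sum_comm]
    refine Finset.sum_congr rfl fun F _ => ?_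
    rw [Finset.card_eq_sum_ones, Finset.sum_filter, Nat.cast_sum, Finset.sum_mul]
    refine Finset.sum_congr rfl fun X _ => ?_
    simp only [forall_and]
    by_cases h1 : ∀ j, bval 𝓟 (F j).1 (cc (F j).1) (𝓧.ξ X) < thr B0 C0 (F j)
    · by_cases h2 : ∀ j, Eh (F j)
      · rw [if_pos ⟨h1, h2⟩, if_pos h1, if_pos h2]; simp
      · rw [if_neg (fun h => h2 h.2), if_neg h2, mul_zero]
    · rw [if_neg (fun h => h1 h.1), if_neg h1]; simp
  rw [e1, e2, Finset.mul_sum]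
  refine Finset.sum_le_sum fun F hF => ?_
  rw [← mul_assoc]
  apply mul_le_mul_of_nonneg_right
  · apply hmc F (fun j => cc (F j).1) (fun j => hΩ _ (mem_tup.mp hF j)) (fun j => hcc _)
    · intro x hx y hy
      exact hSD x (Finset.mem_filter.mp hx).1 y (Finset.mem_filter.mp hy).1
    · intro X hX
      exact (Finset.mem_filter.mp hX).2
  · split_ifs
    · exact hprod F hF
    · exact le_rfl

lemma zero_pow_le {p : ℕ} (hp : 1 ≤ p) : (0 : ℝ) ^ p = 0 := zero_pow (by omega)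

open Classical in
theorem exists_claimA {p : ℕ} (hp : 1 ≤ p) {n D c : ℕ} {G : Fin n → Type*}
    [∀ i, AddCommGroup (G i)] (𝓧 : ∀ i, XSys 𝓟 (G i)) {J : Type} [Finite J] (f : J → Ten K n D)
    (hf : BigC c f) :
    ∃ (C : ι → ℝ) (B E : ℝ), IsCst C ∧ 0 ≤ B ∧ 0 ≤ E ∧
      ∀ (Ω : Finset (ι × ℝ)) (ω : ι × ℝ → ℝ), (∀ o ∈ Ω, 0 ≤ o.2) → (∀ o ∈ Ω, 0 ≤ ω o) →
      ∀ (S D' : ∀ i, Finset (G i)) (N : Fin n → ℝ) (X : (Fin p → ι × ℝ) → ℝ),
        (∀ i, ∀ x ∈ S i, ∀ y ∈ S i, x - y ∈ D' i) → (∀ i, ((S i).card : ℝ) ≤ N i) →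
        (∀ F, 0 ≤ X F) → (∀ i, ∀ F ∈ tup Ω p, (cnt (𝓧 i).H 1 (D' i) F : ℝ) ≤ N i * X F) →
        ∑ P ∈ Fintype.piFinset S,
            wsum Ω ω (fun o => cl 𝓟 o.1 f (fun i => (𝓧 i).ξ (P i)) < thr B C o) ^ p ≤
          E * (∏ i, N i) * ∑ F ∈ tup Ω p, (∏ j, ω (F j)) * X F ^ (c + 1) := by
  induction n generalizing c J with
  | zero =>
    obtain ⟨j, hj⟩ := hf.exists_ne_zero
    have hj' : f j (fun i => i.elim0) ≠ 0 := by
      intro h
      apply hj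
      funext e
      rw [show e = fun i => i.elim0 from funext fun i => i.elim0]
      exact h
    obtain ⟨C, hC, hCge⟩ := exists_av_ge 𝓟 hj'
    refine ⟨C, 0, 0, hC, le_rfl, le_rfl, ?_⟩
    intro Ω ω hΩ hω S D' N X _ _ _ _
    rw [zero_mul, zero_mul]
    apply le_of_eq
    apply Finset.sum_eq_zero
    intro P _
    have h1 : wsum Ω ω (fun o => cl 𝓟 o.1 f (fun i => (𝓧 i).ξ (P i)) < thr 0 C o) = 0 := by
      unfold wsum
      apply Finset.sum_eq_zero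
      intro o ho
      exfalso
      have h2 := (Finset.mem_filter.mp ho).2
      have hC0 := hC.pos o.1
      unfold thr at h2
      rw [zero_mul, zero_add, Real.exp_neg, Real.exp_log hC0] at h2
      have h3 : 𝓟.av o.1 (f j fun i => i.elim0) ≤ cl 𝓟 o.1 f (fun i => (𝓧 i).ξ (P i)) := by
        refine le_trans ?_ (hval_le_cl o.1 f _ j)
        rw [hval, tev_zero_dim, Finset.univ_eq_empty, Finset.prod_empty, div_one]
      have h4 : (C o.1)⁻¹ ≤ 𝓟.av o.1 (f j fun i => i.elim0) := by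
        rw [inv_le_iff_one_le_mul₀ hC0]
        have := hCge o.1
        linarith
      linarith
    rw [h1, zero_pow (by omega)]
  | succ n ih =>
    -- the slices
    obtain ⟨Cg, Bg, Eg, hCg, hBg0, hEg0, hg⟩ := ih (fun i => 𝓧 i.succ) _ hf.sl
    set g : J × Fin (D + 1) → Ten K n D := fun jk => sl (f jk.1) jk.2 with hgdef
    obtain ⟨C0, B0, hC0, hB00, hmc⟩ := exists_multi_close (𝓧 0) D p
    set q : (∀ i : Fin n, G i.succ) → Fin n → Fin 2 → K :=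
      fun P i => (𝓧 i.succ).ξ (P i) with hq
    -- the eliminated family
    have helim : ∃ (C' : ι → ℝ) (B' E' : ℝ), IsCst C' ∧ 0 ≤ B' ∧ 0 ≤ E' ∧
        ∀ (Ω : Finset (ι × ℝ)) (ω : ι × ℝ → ℝ), (∀ o ∈ Ω, 0 ≤ o.2) → (∀ o ∈ Ω, 0 ≤ ω o) →
        ∀ (S D' : ∀ i : Fin n, Finset (G i.succ)) (N : Fin n → ℝ) (X : (Fin p → ι × ℝ) → ℝ),
        (∀ i, ∀ x ∈ S i, ∀ y ∈ S i, x - y ∈ D' i) → (∀ i, ((S i).card : ℝ) ≤ N i) →
        (∀ F, 0 ≤ X F) →
        (∀ i, ∀ F ∈ tup Ω p, (cnt (𝓧 (Fin.succ i)).H 1 (D' i) F : ℝ) ≤ N i * X F) →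
        ∑ P ∈ Fintype.piFinset S,
            wsum Ω ω (fun o => ∃ x : Fin 2 → K, 0 < nm 𝓟 o.1 x ∧
              cl 𝓟 o.1 f (Fin.cons x (q P) : Fin (n + 1) → Fin 2 → K) < thr B' C' o) ^ p ≤
          E' * (∏ i, N i) * ∑ F ∈ tup Ω p, (∏ j, ω (F j)) * X F ^ c := by
      cases c with
      | zero =>
        refine ⟨fun _ => 1, 0, 1, isCst_one, le_rfl, zero_le_one, ?_⟩
        intro Ω ω hΩ hω S D' N X _ hSN _ _
        have h1 : ∀ P ∈ Fintype.piFinset S, wsum Ω ω (fun o => ∃ x : Fin 2 → K, 0 < nm 𝓟 o.1 x ∧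
              cl 𝓟 o.1 f (Fin.cons x (q P) : Fin (n + 1) → Fin 2 → K) <
                thr 0 (fun _ => 1) o) ^ p ≤
            ∑ F ∈ tup Ω p, ∏ j, ω (F j) := by
          intro P _
          rw [wsum_pow]
          apply Finset.sum_le_sum_of_subset_of_nonneg (Finset.filter_subset _ _)
          intro F hF _
          exact Finset.prod_nonneg fun j _ => hω _ (mem_tup.mp hF j)
        refine (Finset.sum_le_sum h1).trans ?_
        rw [Finset.sum_const, nsmul_eq_mul, one_mul]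
        simp only [pow_zero, mul_one]
        apply mul_le_mul_of_nonneg_right
        · rw [Fintype.card_piFinset, Nat.cast_prod]
          exact Finset.prod_le_prod (fun i _ => Nat.cast_nonneg _) fun i _ => hSN i
        · exact Finset.sum_nonneg fun F hF =>
            Finset.prod_nonneg fun j _ => hω _ (mem_tup.mp hF j)
      | succ c =>
        obtain ⟨Nh, h, hBig, hh⟩ := hf.exists_family
        obtain ⟨Ch, Bh, Eh, hCh, hBh0, hEh0, hhl⟩ := ih (fun i => 𝓧 i.succ) h hBig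
        obtain ⟨Ce, hCe, hcle⟩ := exists_elim (𝓟 := 𝓟) f h hh
        refine ⟨fun v => Ch v * Ce v, Bh, Eh, hCh.mul hCe, hBh0, hEh0, ?_⟩
        intro Ω ω hΩ hω S D' N X hSD hSN hX hcnt
        refine le_trans (Finset.sum_le_sum fun P _ => ?_) (hhl Ω ω hΩ hω S D' N X hSD hSN hX hcnt)
        apply pow_le_pow_left₀ (wsum_nonneg hω _)
        apply wsum_mono hω
        rintro o ho ⟨x, hx0, hx1⟩
        have hCe0 := hCe.pos o.1
        refine (hcle o.1 (q P) x hx0).trans_lt ?_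
        calc Ce o.1 * cl 𝓟 o.1 f (Fin.cons x (q P) : Fin (n + 1) → Fin 2 → K) <
              Ce o.1 * thr Bh (fun v => Ch v * Ce v) o := mul_lt_mul_of_pos_left hx1 hCe0
          _ = thr Bh Ch o := mul_thr (hCh.pos o.1) hCe0
    obtain ⟨C', B', E', hC', hB'0, hE'0, h'⟩ := helim
    refine ⟨fun v => Cg v * C0 v * C' v, Bg + B0 + B',
      2 ^ p * (Eg + (2 * D + 1) ^ p * E'), (hCg.mul hC0).mul hC', by positivity, by positivity, ?_⟩
    intro Ω ω hΩ hω S D' N X hSD hSN hX hcnt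
    set Ct : ι → ℝ := fun v => Cg v * C0 v * C' v with hCt
    set Bt : ℝ := Bg + B0 + B' with hBt
    have hN0 : ∀ i, 0 ≤ N i := fun i => (Nat.cast_nonneg _).trans (hSN i)
    have ht1 : ∀ o ∈ Ω, thr Bt Ct o ≤ thr B0 C0 o * thr Bg Cg o := by
      intro o ho
      rw [thr_mul' (hC0.pos _) (hCg.pos _)]
      apply thr_anti (hΩ o ho)
      · rw [hBt]; linarith
      · exact mul_pos (hC0.pos _) (hCg.pos _)
      · rw [hCt]
        calc C0 o.1 * Cg o.1 = Cg o.1 * C0 o.1 * 1 := by ring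
          _ ≤ _ := mul_le_mul_of_nonneg_left (hC'.1 _) (mul_pos (hCg.pos _) (hC0.pos _)).le
    have ht2 : ∀ o ∈ Ω, thr Bt Ct o ≤ thr B' C' o := by
      intro o ho
      apply thr_anti (hΩ o ho)
      · rw [hBt]; linarith
      · exact hC'.pos _
      · rw [hCt]
        exact le_mul_of_one_le_left (hC'.pos _).le
          (one_le_mul_of_one_le_of_one_le (hCg.1 _) (hC0.1 _))
    have hnm0 : ∀ v (x : G 0), 0 < nm 𝓟 v ((𝓧 0).ξ x) := fun v x =>
      zero_lt_one.trans_le ((𝓧 0).one_le_nm v x)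
    have hnmq : ∀ v P' i, 0 < nm 𝓟 v (q P' i) := fun v P' i =>
      zero_lt_one.trans_le ((𝓧 i.succ).one_le_nm v (P' i))
    have hcons : ∀ (x : G 0) (P : ∀ i : Fin n, G i.succ),
        (fun i => (𝓧 i).ξ ((Fin.cons x P : ∀ i, G i) i)) =
          (Fin.cons ((𝓧 0).ξ x) (q P) : Fin (n + 1) → Fin 2 → K) := by
      intro x P
      funext i
      refine Fin.cases ?_ (fun i => ?_) i
      · rfl
      · rfl
    -- one point of the last coordinates
    set W : (∀ i : Fin n, G i.succ) → ι × ℝ → Prop := fun P o => ∃ x : Fin 2 → K,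
      0 < nm 𝓟 o.1 x ∧ cl 𝓟 o.1 f (Fin.cons x (q P) : Fin (n + 1) → Fin 2 → K) < thr B' C' o
      with hW
    have hpt : ∀ P : ∀ i : Fin n, G i.succ, ∑ x ∈ S 0, wsum Ω ω (fun o =>
        cl 𝓟 o.1 f (fun i => (𝓧 i).ξ ((Fin.cons x P : ∀ i, G i) i)) < thr Bt Ct o) ^ p ≤
        2 ^ p * (N 0 * wsum Ω ω (fun o => cl 𝓟 o.1 g (q P) < thr Bg Cg o) ^ p +
          (2 * D + 1) ^ p * ∑ a ∈ D' 0, wsum (Ω.filter fun o => nr (𝓧 0).H 1 o a) ω (W P) ^ p) := by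
      intro P
      have hc := fun v => exists_coef' (𝓟 := 𝓟) f v (q P) (hnmq v P)
      choose cc hcc hccx using hc
      have h1 : ∀ x ∈ S 0, wsum Ω ω (fun o =>
          cl 𝓟 o.1 f (fun i => (𝓧 i).ξ ((Fin.cons x P : ∀ i, G i) i)) < thr Bt Ct o) ^ p ≤
          2 ^ p * (wsum Ω ω (fun o => cl 𝓟 o.1 g (q P) < thr Bg Cg o) ^ p +
            wsum Ω ω (fun o => bval 𝓟 o.1 (cc o.1) ((𝓧 0).ξ x) < thr B0 C0 o ∧ W P o) ^ p) := by
        intro x _
        refine le_trans ?_ (add_pow_le' (wsum_nonneg hω _) (wsum_nonneg hω _) p)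
        apply pow_le_pow_left₀ (wsum_nonneg hω _)
        apply wsum_or_le hω
        intro o ho h2
        rw [hcons] at h2
        have h3 := hccx o.1 ((𝓧 0).ξ x) (hnm0 _ x) (thr B0 C0 o) (thr Bg Cg o) (thr_pos _ _ _)
          (thr_pos _ _ _) (h2.trans_le (ht1 o ho))
        rcases h3 with h3 | h3
        · exact Or.inl h3
        · exact Or.inr ⟨h3, (𝓧 0).ξ x, hnm0 _ x, h2.trans_le (ht2 o ho)⟩
      refine (Finset.sum_le_sum h1).trans ?_
      rw [← Finset.mul_sum, Finset.sum_add_distrib, Finset.sum_const, nsmul_eq_mul]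
      apply mul_le_mul_of_nonneg_left _ (by positivity)
      apply add_le_add
      · exact mul_le_mul_of_nonneg_right (hSN 0) (pow_nonneg (wsum_nonneg hω _) _)
      · exact sum_first_le (𝓧 0) hmc hΩ hω (hSD 0) cc hcc (W P)
    rw [sum_piFinset_succ, Finset.sum_comm]
    refine (Finset.sum_le_sum fun P _ => hpt P).trans ?_
    rw [← Finset.mul_sum, Finset.sum_add_distrib, ← Finset.mul_sum, ← Finset.mul_sum]
    have hS1 := hg Ω ω hΩ hω (fun i => S i.succ) (fun i => D' i.succ) (fun i => N i.succ) X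
      (fun i => hSD i.succ) (fun i => hSN i.succ) hX (fun i => hcnt i.succ)
    have hS2 : ∑ P ∈ Fintype.piFinset (fun i : Fin n => S i.succ),
        ∑ a ∈ D' 0, wsum (Ω.filter fun o => nr (𝓧 0).H 1 o a) ω (W P) ^ p ≤
        E' * (∏ i : Fin n, N i.succ) * (N 0 * ∑ F ∈ tup Ω p, (∏ j, ω (F j)) * X F ^ (c + 1)) := by
      rw [Finset.sum_comm]
      have h1 : ∀ a ∈ D' 0, ∑ P ∈ Fintype.piFinset (fun i : Fin n => S i.succ),
          wsum (Ω.filter fun o => nr (𝓧 0).H 1 o a) ω (W P) ^ p ≤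
          E' * (∏ i : Fin n, N i.succ) * ∑ F ∈ tup (Ω.filter fun o => nr (𝓧 0).H 1 o a) p,
            (∏ j, ω (F j)) * X F ^ c := by
        intro a _
        apply h' _ ω (fun o ho => hΩ o (Finset.mem_filter.mp ho).1)
          (fun o ho => hω o (Finset.mem_filter.mp ho).1) (fun i => S i.succ)
          (fun i => D' i.succ) (fun i => N i.succ) X
          (fun i => hSD i.succ) (fun i => hSN i.succ) hX
        intro i F hF
        apply hcnt i.succ F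
        rw [mem_tup] at hF ⊢
        exact fun j => (Finset.mem_filter.mp (hF j)).1
      refine (Finset.sum_le_sum h1).trans ?_
      rw [← Finset.mul_sum, sum_tup_eq]
      apply mul_le_mul_of_nonneg_left _
        (mul_nonneg hE'0 (Finset.prod_nonneg fun i _ => hN0 i.succ))
      rw [Finset.mul_sum]
      refine Finset.sum_le_sum fun F hF => ?_
      have h2 := hcnt 0 F hF
      have h3 : 0 ≤ ∏ j, ω (F j) := Finset.prod_nonneg fun j _ => hω _ (mem_tup.mp hF j)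
      calc (cnt (𝓧 0).H 1 (D' 0) F : ℝ) * ((∏ j, ω (F j)) * X F ^ c) ≤
            (N 0 * X F) * ((∏ j, ω (F j)) * X F ^ c) :=
            mul_le_mul_of_nonneg_right h2 (mul_nonneg h3 (pow_nonneg (hX F) _))
        _ = _ := by rw [pow_succ]; ring
    have hPN : ∏ i, N i = N 0 * ∏ i : Fin n, N i.succ := Fin.prod_univ_succ _
    have hPN0 : 0 ≤ ∏ i : Fin n, N i.succ := Finset.prod_nonneg fun i _ => hN0 i.succ
    calc _ ≤ 2 ^ p * (N 0 * (Eg * (∏ i : Fin n, N i.succ) *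
          ∑ F ∈ tup Ω p, (∏ j, ω (F j)) * X F ^ (c + 1)) +
          (2 * D + 1) ^ p * (E' * (∏ i : Fin n, N i.succ) *
            (N 0 * ∑ F ∈ tup Ω p, (∏ j, ω (F j)) * X F ^ (c + 1)))) := by
          apply mul_le_mul_of_nonneg_left _ (by positivity)
          apply add_le_add
          · exact mul_le_mul_of_nonneg_left hS1 (hN0 0)
          · exact mul_le_mul_of_nonneg_left hS2 (by positivity)
      _ = _ := by rw [hPN]; ring

end

end Pool.Agent.AG
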