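import Mathlib
import Pool.Agent.AG.Defs3
import Pool.Agent.AG.Tail

/-! # Admissible weights (module Md) -/

set_option autoImplicit false

namespace Pool.Agent.AG

section

variable {K : Type*} [Field K] {ι : Type*} {𝓟 : PlSys K ι}

open Classical in
/-- Grouping the conditions by places. -/
lemma adm_group {Ω : Finset (ι × ℝ)} {ω : ι × ℝ → ℝ} (h : Adm 𝓟 Ω ω) {E : ι × ℝ → Prop}
    {s : ι → ℝ} (hs : ∀ v, 0 ≤ s v) (hE : ∀ o ∈ Ω, E o → o.2 ≤ s o.1) :
    wsum Ω ω E ≤ 2 * ∑ v ∈ Ω.image Prod.fst, 𝓟.w v * s v := by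
  have h1 : wsum Ω ω E = ∑ v ∈ Ω.image Prod.fst, ∑ o ∈ (Ω.filter E).filter (fun o => o.1 = v),
      ω o := by
    unfold wsum
    refine (Finset.sum_fiberwise_of_maps_to (g := Prod.fst) ?_ ω).symm
    intro o ho
    exact Finset.mem_image_of_mem _ (Finset.mem_filter.mp ho).1
  rw [h1, Finset.mul_sum]
  refine Finset.sum_le_sum fun v _ => ?_
  refine le_trans ?_ (h.le v (s v) (hs v))
  unfold wsum
  apply Finset.sum_le_sum_of_subset_of_nonneg
  · intro o ho
    simp only [Finset.mem_filter] at ho ⊢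
    obtain ⟨⟨h4, h5⟩, h3⟩ := ho
    refine ⟨h4, h3, ?_⟩
    have := hE o h4 h5
    rwa [h3] at this
  · intro o ho _
    simp only [Finset.mem_filter] at ho
    exact h.nonneg o ho.1

theorem adm_nr {G : Type*} [AddCommGroup G] (𝓧 : XSys 𝓟 G) {Ω : Finset (ι × ℝ)} {ω : ι × ℝ → ℝ}
    (h : Adm 𝓟 Ω ω) (m : ℕ) {a : G} (ha : a ≠ 0) :
    wsum Ω ω (fun o => nr 𝓧.H m o a) ≤ 2 * 𝓧.H.h a := by
  classical
  have hs : ∀ v, 0 ≤ -Real.log (𝓧.H.ν v a) := fun v =>
    neg_nonneg.mpr (Real.log_nonpos (𝓧.H.ν_nonneg v a) (𝓧.H.ν_le_one v a))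
  refine (adm_group h hs ?_).trans ?_
  · intro o _ hnr
    have hν := 𝓧.H.ν_pos o.1 a ha
    have hc : 1 ≤ 𝓧.H.c o.1 ^ m := one_le_pow₀ (𝓧.H.one_le_c _)
    have h1 : 𝓧.H.ν o.1 a ≤ Real.exp (-o.2) := by
      unfold nr at hnr
      nlinarith
    have h2 := (Real.log_le_iff_le_exp hν).mpr h1
    linarith
  · refine mul_le_mul_of_nonneg_left ?_ (by norm_num)
    set V' : Finset ι := Ω.image Prod.fst ∪ (𝓧.H.ν_fin a ha).toFinset with hV'
    have h1 : ∑ v ∈ V', 𝓧.H.w v * -Real.log (𝓧.H.ν v a) = 𝓧.H.h a :=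
      𝓧.H.h_eq a ha V' fun v hv => by
        rw [hV']
        exact Finset.mem_union_right _ (by simpa using hv)
    rw [← h1]
    simp only [𝓧.w_eq]
    refine Finset.sum_le_sum_of_subset_of_nonneg Finset.subset_union_left fun v _ _ => ?_
    exact mul_nonneg (𝓟.w_nonneg v) (hs v)

open Classical in
theorem adm_cl {Ω : Finset (ι × ℝ)} {ω : ι × ℝ → ℝ} (h : Adm 𝓟 Ω ω) {B : ℝ} (hB : 1 ≤ B)
    {C : ι → ℝ} (hC : IsCst C) {n D : ℕ} {J : Type*} [Finite J] (f : J → Ten K n D)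
    (p : Fin n → Fin 2 → K) (hp : ∀ v i, 0 < nm 𝓟 v (p i)) (hf : ∃ j, tev (f j) p ≠ 0) :
    wsum Ω ω (fun o => cl 𝓟 o.1 f p < thr B C o) ≤
      2 * ∑ v ∈ Ω.image Prod.fst, 𝓟.w v * loc 𝓟 v f p := by
  refine adm_group h (fun v => loc_nonneg' v f p) ?_
  intro o ho hlt
  have h0 := h.pos o ho
  have hcl := cl_pos o.1 f p (hp o.1) hf
  have h1 := (Real.log_lt_iff_lt_exp hcl).mpr hlt
  have h2 := Real.log_nonneg (hC.1 o.1)
  have h3 : -Real.log (cl 𝓟 o.1 f p) ≤ loc 𝓟 o.1 f p := by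
    rw [loc_eq]
    exact le_max_right _ _
  nlinarith

lemma exists_small {T : Type*} (s : Finset T) (f : T → ℝ) :
    ∃ ε : ℝ, 0 < ε ∧ ∀ y ∈ s, 0 < f y → ε < f y := by
  classical
  induction s using Finset.induction_on with
  | empty => exact ⟨1, one_pos, by simp⟩
  | insert a s ha ih =>
    obtain ⟨ε, h1, h2⟩ := ih
    by_cases hfa : 0 < f a
    · refine ⟨min ε (f a / 2), lt_min h1 (by linarith), fun y hy hfy => ?_⟩
      rcases Finset.mem_insert.mp hy with rfl | hy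
      · exact (min_le_right _ _).trans_lt (by linarith)
      · exact (min_le_left _ _).trans_lt (h2 y hy hfy)
    · refine ⟨ε, h1, fun y hy hfy => ?_⟩
      rcases Finset.mem_insert.mp hy with rfl | hy
      · exact absurd hfy hfa
      · exact h2 y hy hfy

lemma exists_large {T : Type*} (s : Finset T) (f : T → ℝ) {c : ℝ} (hc : 0 < c) :
    ∃ N : ℕ, ∀ y ∈ s, f y ≤ c * 2 ^ N := by
  obtain ⟨N, hN⟩ := pow_unbounded_of_one_lt ((∑ y ∈ s, |f y|) / c) (one_lt_two)
  refine ⟨N, fun y hy => ?_⟩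
  have h1 : |f y| ≤ ∑ y ∈ s, |f y| :=
    Finset.single_le_sum (f := fun y => |f y|) (fun i _ => abs_nonneg _) hy
  have h2 : (∑ y ∈ s, |f y|) < c * 2 ^ N := by
    rw [div_lt_iff₀ hc] at hN
    linarith
  exact (le_abs_self _).trans (h1.trans h2.le)

lemma geom_le (η s : ℝ) (hη : 0 ≤ η) (hs : 0 ≤ s) (N : ℕ) :
    (∑ k ∈ Finset.range N, if η * 2 ^ k ≤ s then η * 2 ^ k else 0) ≤ 2 * s ∧
    (∑ k ∈ Finset.range N, if η * 2 ^ k ≤ s then η * 2 ^ k else 0) ≤ η * 2 ^ N := by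
  induction N with
  | zero => simp; exact ⟨hs, hη⟩
  | succ N ih =>
    rw [Finset.sum_range_succ]
    have hp : 0 ≤ η * 2 ^ N := by positivity
    have hp2 : η * 2 ^ (N + 1) = 2 * (η * 2 ^ N) := by rw [pow_succ]; ring
    split_ifs with h
    · exact ⟨by linarith [ih.2], by linarith [ih.2]⟩
    · exact ⟨by linarith [ih.1], by linarith [ih.2]⟩

theorem exists_weights (𝓟 : PlSys K ι) (V : Finset ι) {α : Type*} (S : Finset α)
    (μ : ι → α → ℝ) (hμ : ∀ v x, 0 ≤ μ v x) {B : ℝ} (hB : 0 < B) :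
    ∃ (Ω : Finset (ι × ℝ)) (ω : ι × ℝ → ℝ), Adm 𝓟 Ω ω ∧ ∀ x ∈ S,
      ∑ v ∈ V, 𝓟.w v * μ v x ≤ 2 * B * wsum Ω ω (fun o => B * o.2 < μ o.1 x) := by
  classical
  obtain ⟨ε, hε, hε2⟩ := exists_small (V ×ˢ S) (fun y => μ y.1 y.2)
  set η : ℝ := ε / B with hη
  have hη0 : 0 < η := div_pos hε hB
  have hBη : B * η = ε := by rw [hη]; field_simp
  obtain ⟨N, hN⟩ := exists_large (V ×ˢ S) (fun y => μ y.1 y.2) hε
  set Ω : Finset (ι × ℝ) := V ×ˢ ((Finset.range (N + 1)).image fun k => η * 2 ^ k) with hΩ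
  set ω : ι × ℝ → ℝ := fun o => 𝓟.w o.1 * o.2 with hω
  have hinj : Function.Injective fun k : ℕ => η * (2 : ℝ) ^ k := by
    intro a b hab
    have h1 : (2 : ℝ) ^ a = 2 ^ b := mul_left_cancel₀ hη0.ne' hab
    exact pow_right_injective₀ (by norm_num) (by norm_num) h1
  have hsum : ∀ E : ι × ℝ → Prop, wsum Ω ω E = ∑ v ∈ V, ∑ k ∈ Finset.range (N + 1),
      if E (v, η * 2 ^ k) then 𝓟.w v * (η * 2 ^ k) else 0 := by
    intro E
    unfold wsum
    rw [Finset.sum_filter, hΩ, Finset.sum_product]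
    refine Finset.sum_congr rfl fun v _ => ?_
    rw [Finset.sum_image (fun a _ b _ hab => hinj hab)]
  refine ⟨Ω, ω, ⟨?_, ?_, ?_⟩, ?_⟩
  · intro o ho
    obtain ⟨-, h2⟩ := Finset.mem_product.mp ho
    obtain ⟨k, -, hk⟩ := Finset.mem_image.mp h2
    rw [← hk]
    positivity
  · intro o ho
    obtain ⟨-, h2⟩ := Finset.mem_product.mp ho
    obtain ⟨k, -, hk⟩ := Finset.mem_image.mp h2
    refine mul_nonneg (𝓟.w_nonneg _) ?_
    rw [← hk]
    positivity
  · intro v s hs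
    rw [hsum]
    have hr : 0 ≤ 2 * (𝓟.w v * s) := by
      have := mul_nonneg (𝓟.w_nonneg v) hs
      linarith
    refine le_trans (le_of_eq (Finset.sum_congr (g := fun v' => if v' = v then 𝓟.w v *
      (∑ k ∈ Finset.range (N + 1), if η * 2 ^ k ≤ s then η * 2 ^ k else 0) else 0) rfl ?_)) ?_
    · intro v' _
      by_cases hv : v' = v
      · rw [if_pos hv, Finset.mul_sum]
        refine Finset.sum_congr rfl fun k _ => ?_
        simp only [hv, true_and]
        split_ifs <;> simp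
      · rw [if_neg hv]
        refine Finset.sum_eq_zero fun k _ => ?_
        rw [if_neg]
        simp only [hv, false_and, not_false_eq_true]
    rw [Finset.sum_ite_eq']
    split_ifs with hv
    · have := (geom_le η s hη0.le hs (N + 1)).1
      have h2 := mul_le_mul_of_nonneg_left this (𝓟.w_nonneg v)
      linarith
    · exact hr
  · intro x hx
    rw [hsum, Finset.mul_sum]
    refine Finset.sum_le_sum fun v hv => ?_
    have hmem : (v, x) ∈ V ×ˢ S := Finset.mk_mem_product hv hx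
    have hterm : ∀ k ∈ Finset.range (N + 1), 0 ≤
        (if B * ((v, η * 2 ^ k) : ι × ℝ).2 < μ ((v, η * 2 ^ k) : ι × ℝ).1 x then
          𝓟.w v * (η * 2 ^ k) else 0) := by
      intro k _
      split_ifs
      · exact mul_nonneg (𝓟.w_nonneg v) (by positivity)
      · exact le_rfl
    rcases (hμ v x).eq_or_lt with h0 | h0
    · rw [← h0, mul_zero]
      exact mul_nonneg (by positivity) (Finset.sum_nonneg hterm)
    · have hlow := hε2 (v, x) hmem h0
      have hup := hN (v, x) hmem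
      simp only at hlow hup
      have hex : ∃ k : ℕ, μ v x ≤ ε * 2 ^ k := ⟨N, hup⟩
      have hk1 := Nat.find_spec hex
      have hk2 : Nat.find hex ≤ N := Nat.find_min' hex hup
      have hk0 : Nat.find hex ≠ 0 := by
        intro h
        rw [h, pow_zero, mul_one] at hk1
        linarith
      obtain ⟨K', hK'⟩ := Nat.exists_eq_succ_of_ne_zero hk0
      have hk3 : ¬ μ v x ≤ ε * 2 ^ K' := Nat.find_min hex (by omega)
      rw [hK', Nat.succ_eq_add_one, pow_succ] at hk1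
      push Not at hk3
      have h4 : 𝓟.w v * (η * 2 ^ K') ≤ ∑ k ∈ Finset.range (N + 1),
          (if B * ((v, η * 2 ^ k) : ι × ℝ).2 < μ ((v, η * 2 ^ k) : ι × ℝ).1 x then
            𝓟.w v * (η * 2 ^ k) else 0) := by
        have h5 := Finset.single_le_sum hterm (Finset.mem_range.mpr (by omega : K' < N + 1))
        refine le_trans (le_of_eq ?_) h5
        rw [if_pos]
        change B * (η * 2 ^ K') < μ v x
        rw [← mul_assoc, hBη]
        exact hk3
      have h6 : μ v x ≤ 2 * B * (η * 2 ^ K') := by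
        have : 2 * B * (η * 2 ^ K') = ε * (2 ^ K' * 2) := by
          rw [← hBη]
          ring
        rw [this]
        exact hk1
      calc 𝓟.w v * μ v x ≤ 𝓟.w v * (2 * B * (η * 2 ^ K')) :=
            mul_le_mul_of_nonneg_left h6 (𝓟.w_nonneg v)
        _ = 2 * B * (𝓟.w v * (η * 2 ^ K')) := by ring
        _ ≤ _ := mul_le_mul_of_nonneg_left h4 (by positivity)

end

end Pool.Agent.AG
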