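import Mathlib
import Pool.Agent.AG.Ma
import Pool.Agent.AG.Md

/-! # Moments: points outside the zeros (module Mb) -/

set_option autoImplicit false

open Pool.Agent.H7.Vojta (HtSys)

namespace Pool.Agent.AG

section

variable {K : Type*} [Field K] {ι : Type*} {𝓟 : PlSys K ι}

/-- The bound for one point. -/
theorem exists_loc_le {n D : ℕ} {J : Type*} [Finite J] (f : J → Ten K n D)
    {G : Fin n → Type*} [∀ i, AddCommGroup (G i)] (𝓧 : ∀ i, XSys 𝓟 (G i)) :
    ∃ κ : ℝ, 0 ≤ κ ∧ ∀ (P : ∀ i, G i) (H₀ : ℝ), 1 ≤ H₀ → (∀ i, (𝓧 i).H.h (P i) ≤ H₀) →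
      (∃ j, tev (f j) (fun i => (𝓧 i).ξ (P i)) ≠ 0) →
      ∀ V : Finset ι, ∑ v ∈ V, 𝓟.w v * loc 𝓟 v f (fun i => (𝓧 i).ξ (P i)) ≤ κ * H₀ := by
  classical
  have := Fintype.ofFinite J
  have h2 := fun j => exists_sum_neg_log_le 𝓟 (f j)
  choose κ hκ0 hκ using h2
  have hsκ : 0 ≤ ∑ j, κ j := Finset.sum_nonneg fun j _ => hκ0 j
  refine ⟨D * n + ∑ j, κ j, by positivity, ?_⟩
  intro P H₀ hH₀ hP hz V
  obtain ⟨j, hj⟩ := hz
  have h3 := hκ j (fun i => (𝓧 i).ξ (P i)) (fun i => (𝓧 i).H.h (P i))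
    (fun v i => (𝓧 i).one_le_nm v (P i)) (fun i => (𝓧 i).ξ_fin (P i))
    (fun i V hV => (𝓧 i).ht (P i) V hV) hj V
  have h4 : ∀ v, loc 𝓟 v f (fun i => (𝓧 i).ξ (P i)) ≤
      max 0 (-Real.log (hval 𝓟 v (f j) (fun i => (𝓧 i).ξ (P i)))) := by
    intro v
    rw [loc_eq]
    apply max_le_max le_rfl
    apply neg_le_neg
    apply Real.log_le_log
    · exact div_pos ((𝓟.av v).pos hj) (Finset.prod_pos fun i _ =>
        pow_pos (zero_lt_one.trans_le ((𝓧 i).one_le_nm v (P i))) _)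
    · exact hval_le_cl v f _ j
  have h5 : ∑ i, (𝓧 i).H.h (P i) ≤ n * H₀ := by
    calc ∑ i, (𝓧 i).H.h (P i) ≤ ∑ _i : Fin n, H₀ := Finset.sum_le_sum fun i _ => hP i
      _ = n * H₀ := by rw [Finset.sum_const, Finset.card_univ, Fintype.card_fin, nsmul_eq_mul]
  calc ∑ v ∈ V, 𝓟.w v * loc 𝓟 v f (fun i => (𝓧 i).ξ (P i)) ≤
        ∑ v ∈ V, 𝓟.w v * max 0 (-Real.log (hval 𝓟 v (f j) (fun i => (𝓧 i).ξ (P i)))) :=
        Finset.sum_le_sum fun v _ => mul_le_mul_of_nonneg_left (h4 v) (𝓟.w_nonneg v)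
    _ ≤ D * ∑ i, (𝓧 i).H.h (P i) + κ j := h3
    _ ≤ D * (n * H₀) + (∑ j, κ j) * H₀ := by
        apply add_le_add (mul_le_mul_of_nonneg_left h5 (by positivity))
        calc κ j ≤ ∑ j, κ j := Finset.single_le_sum (f := κ) (fun j _ => hκ0 j) (Finset.mem_univ j)
          _ ≤ _ := le_mul_of_one_le_right hsκ hH₀
    _ = _ := by ring

open Classical in
/-- The number of zeros of a family. -/
theorem exists_bad_le [Nonempty ι] {n D c : ℕ} {G : Fin n → Type*}
    [∀ i, AddCommGroup (G i)] (𝓧 : ∀ i, XSys 𝓟 (G i)) {J : Type} [Finite J] (f : J → Ten K n D)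
    (hf : BigC c f) :
    ∃ E : ℝ, 0 ≤ E ∧ ∀ (S D' : ∀ i, Finset (G i)) (N : Fin n → ℝ) (x₀ : ℝ),
      (∀ i, ∀ x ∈ S i, ∀ y ∈ S i, x - y ∈ D' i) → (∀ i, ((S i).card : ℝ) ≤ N i) →
      0 ≤ x₀ → (∀ i, 1 ≤ N i * x₀) →
      (((Fintype.piFinset S).filter fun P =>
        ¬ ∃ j, tev (f j) (fun i => (𝓧 i).ξ (P i)) ≠ 0).card : ℝ) ≤
        E * (∏ i, N i) * x₀ ^ (c + 1) := by
  obtain ⟨C, B, E, hC, hB0, hE0, hmain⟩ := exists_claimA (p := 1) le_rfl 𝓧 f hf
  obtain ⟨v₀⟩ := ‹Nonempty ι›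
  refine ⟨E, hE0, ?_⟩
  intro S D' N x₀ hSD hSN hx₀ hNx
  set t₀ : ℝ := (∑ i, ∑ a ∈ D' i, -Real.log ((𝓧 i).H.ν v₀ a)) + 1 with ht₀
  have hterm : ∀ i, ∀ a ∈ D' i, 0 ≤ -Real.log ((𝓧 i).H.ν v₀ a) := fun i a _ =>
    (𝓧 i).H.neg_log_nonneg v₀ a
  have ht₀0 : 0 ≤ t₀ := by
    have : 0 ≤ ∑ i, ∑ a ∈ D' i, -Real.log ((𝓧 i).H.ν v₀ a) :=
      Finset.sum_nonneg fun i _ => Finset.sum_nonneg fun a ha => hterm i a ha
    linarith
  have hfar : ∀ i, ∀ a ∈ D' i, nr (𝓧 i).H 1 (v₀, t₀) a → a = 0 := by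
    intro i a ha hn
    by_contra hne
    have hν := (𝓧 i).H.ν_pos v₀ a hne
    have hc := (𝓧 i).H.one_le_c v₀
    have h1 : -Real.log ((𝓧 i).H.ν v₀ a) ≤ ∑ i, ∑ a ∈ D' i, -Real.log ((𝓧 i).H.ν v₀ a) := by
      refine le_trans (Finset.single_le_sum (f := fun a => -Real.log ((𝓧 i).H.ν v₀ a))
        (fun a ha => hterm i a ha) ha) ?_
      exact Finset.single_le_sum (f := fun i => ∑ a ∈ D' i, -Real.log ((𝓧 i).H.ν v₀ a))
        (fun i _ => Finset.sum_nonneg fun a ha => hterm i a ha) (Finset.mem_univ i)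
    unfold nr at hn
    simp only [pow_one] at hn
    have h2 : (𝓧 i).H.ν v₀ a ≤ Real.exp (-t₀) := le_trans (le_mul_of_one_le_left hν.le hc) hn
    have h3 := Real.log_le_log hν h2
    rw [Real.log_exp] at h3
    linarith
  have hF : ∀ F ∈ tup ({(v₀, t₀)} : Finset (ι × ℝ)) 1, F = fun _ => (v₀, t₀) := by
    intro F hF
    funext j
    exact Finset.mem_singleton.mp (mem_tup.mp hF j)
  have h := hmain {(v₀, t₀)} (fun _ => 1) (by
      intro o ho
      rw [Finset.mem_singleton.mp ho]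
      exact ht₀0) (fun _ _ => zero_le_one) S D' N (fun _ => x₀) hSD hSN (fun _ => hx₀) (by
      intro i F hFm
      refine le_trans ?_ (hNx i)
      have h1 : cnt (𝓧 i).H 1 (D' i) F ≤ 1 := by
        unfold cnt
        rw [Finset.card_le_one]
        intro a ha b hb
        obtain ⟨ha1, ha2⟩ := Finset.mem_filter.mp ha
        obtain ⟨hb1, hb2⟩ := Finset.mem_filter.mp hb
        have ha3 := ha2 0
        have hb3 := hb2 0
        rw [hF F hFm] at ha3 hb3
        rw [hfar i a ha1 ha3, hfar i b hb1 hb3]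
      exact_mod_cast h1)
  have hR : ∑ F ∈ tup ({(v₀, t₀)} : Finset (ι × ℝ)) 1, (∏ _j : Fin 1, (1 : ℝ)) * x₀ ^ (c + 1) ≤
      x₀ ^ (c + 1) := by
    simp only [Finset.prod_const_one, one_mul, Finset.sum_const, nsmul_eq_mul]
    have h1 : (tup ({(v₀, t₀)} : Finset (ι × ℝ)) 1).card ≤ 1 := by
      rw [Finset.card_le_one]
      intro a ha b hb
      rw [hF a ha, hF b hb]
    have h2 : ((tup ({(v₀, t₀)} : Finset (ι × ℝ)) 1).card : ℝ) ≤ 1 := by exact_mod_cast h1
    exact mul_le_of_le_one_left (by positivity) h2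
  have hN0 : 0 ≤ ∏ i, N i :=
    Finset.prod_nonneg fun i _ => (Nat.cast_nonneg _).trans (hSN i)
  refine le_trans ?_ (h.trans (mul_le_mul_of_nonneg_left hR (mul_nonneg hE0 hN0)))
  rw [Finset.card_eq_sum_ones, Nat.cast_sum]
  refine le_trans ?_ (Finset.sum_le_sum_of_subset_of_nonneg (Finset.filter_subset
    (fun P => ¬ ∃ j, tev (f j) (fun i => (𝓧 i).ξ (P i)) ≠ 0) _) fun P _ _ =>
      pow_nonneg (wsum_nonneg (fun _ _ => zero_le_one) _) _)
  refine Finset.sum_le_sum fun P hP => ?_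
  have hz := (Finset.mem_filter.mp hP).2
  push Not at hz
  have h1 : wsum {(v₀, t₀)} (fun _ => (1 : ℝ))
      (fun o => cl 𝓟 o.1 f (fun i => (𝓧 i).ξ (P i)) < thr B C o) = 1 := by
    unfold wsum
    rw [Finset.filter_true_of_mem, Finset.sum_singleton]
    intro o _
    rw [cl_eq_zero o.1 f _ hz]
    exact thr_pos _ _ _
  rw [h1]
  simp

open Classical in
theorem exists_claimB [Nonempty ι] {p : ℕ} (hp : 1 ≤ p) {n D c : ℕ} {G : Fin n → Type*}
    [∀ i, AddCommGroup (G i)] (𝓧 : ∀ i, XSys 𝓟 (G i)) {J : Type} [Finite J] (f : J → Ten K n D)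
    (hf : BigC c f) :
    ∃ (C : ι → ℝ) (B E : ℝ), IsCst C ∧ 1 ≤ B ∧ 0 ≤ E ∧
      ∀ (Ω : Finset (ι × ℝ)) (ω : ι × ℝ → ℝ), Adm 𝓟 Ω ω →
      ∀ (S D' : ∀ i, Finset (G i)) (N : Fin n → ℝ) (X : (Fin p → ι × ℝ) → ℝ)
        (Z : Finset (Fin p → ι × ℝ)) (x₀ H₀ : ℝ),
        (∀ i, ∀ x ∈ S i, ∀ y ∈ S i, x - y ∈ D' i) → (∀ i, ((S i).card : ℝ) ≤ N i) →
        (∀ i, ((D' i).card : ℝ) ≤ N i) → (∀ i, 0 ∈ D' i) → (∀ F, 0 ≤ X F) →
        (∀ i, ∀ F ∈ tup Ω p, (cnt (𝓧 i).H 1 (D' i) F : ℝ) ≤ N i * X F) →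
        (∀ F ∈ tup Ω p, F ∉ Z → X F ≤ x₀) → 0 ≤ x₀ → (∀ i, 1 ≤ N i * x₀) → 1 ≤ H₀ →
        (∀ i, ∀ x ∈ S i, (𝓧 i).H.h x ≤ H₀) → (∀ i, ∀ x ∈ D' i, (𝓧 i).H.h x ≤ H₀) →
        ∑ P ∈ Fintype.piFinset S with ∃ j, tev (f j) (fun i => (𝓧 i).ξ (P i)) ≠ 0,
            wsum Ω ω (fun o => cl 𝓟 o.1 f (fun i => (𝓧 i).ξ (P i)) < thr B C o) ^ p ≤
          E * (∏ i, N i) * (H₀ ^ p * x₀ ^ c +
            ∑ F ∈ tup Ω p with F ∈ Z, (∏ j, ω (F j)) * X F ^ (c + 1)) := by
  induction n generalizing c J with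
  | zero =>
    obtain ⟨j, hj⟩ := hf.exists_ne_zero
    have hj' : f j (fun i => i.elim0) ≠ 0 := by
      intro h
      apply hj
      funext e
      rw [show e = fun i => i.elim0 from funext fun i => i.elim0]
      exact h
    obtain ⟨C, hC, hCge⟩ := exists_av_ge 𝓟 hj'
    refine ⟨C, 1, 0, hC, le_rfl, le_rfl, ?_⟩
    intro Ω ω hadm S D' N X Z x₀ H₀ _ _ _ _ _ _ _ _ _ _ _ _
    rw [zero_mul, zero_mul]
    apply le_of_eq
    apply Finset.sum_eq_zero
    intro P _
    have h1 : wsum Ω ω (fun o => cl 𝓟 o.1 f (fun i => (𝓧 i).ξ (P i)) < thr 1 C o) = 0 := by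
      unfold wsum
      apply Finset.sum_eq_zero
      intro o ho
      exfalso
      obtain ⟨ho1, h2⟩ := Finset.mem_filter.mp ho
      have hC0 := hC.pos o.1
      have h0 : thr 1 C o ≤ (C o.1)⁻¹ := by
        unfold thr
        calc Real.exp (-(1 * o.2 + Real.log (C o.1))) ≤ Real.exp (-Real.log (C o.1)) := by
              apply Real.exp_le_exp.mpr
              have := hadm.pos o ho1
              linarith
          _ = (C o.1)⁻¹ := by rw [Real.exp_neg, Real.exp_log hC0]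
      have h3 : 𝓟.av o.1 (f j fun i => i.elim0) ≤ cl 𝓟 o.1 f (fun i => (𝓧 i).ξ (P i)) := by
        refine le_trans ?_ (hval_le_cl o.1 f _ j)
        rw [hval, tev_zero_dim, Finset.univ_eq_empty, Finset.prod_empty, div_one]
      have h4 : (C o.1)⁻¹ ≤ 𝓟.av o.1 (f j fun i => i.elim0) := by
        rw [inv_le_iff_one_le_mul₀ hC0]
        have := hCge o.1
        linarith
      linarith
    rw [h1, zero_pow (by omega)]
  | succ n ih =>
    obtain ⟨κf, hκf0, hκf⟩ := exists_loc_le f 𝓧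
    -- the trivial bound
    have htriv : ∀ (Ω : Finset (ι × ℝ)) (ω : ι × ℝ → ℝ), Adm 𝓟 Ω ω → ∀ (C : ι → ℝ) (B : ℝ),
        IsCst C → 1 ≤ B → ∀ (H₀ : ℝ), 1 ≤ H₀ → ∀ P : ∀ i, G i, (∀ i, (𝓧 i).H.h (P i) ≤ H₀) →
        (∃ j, tev (f j) (fun i => (𝓧 i).ξ (P i)) ≠ 0) →
        wsum Ω ω (fun o => cl 𝓟 o.1 f (fun i => (𝓧 i).ξ (P i)) < thr B C o) ^ p ≤
          (2 * κf) ^ p * H₀ ^ p := by
      intro Ω ω hadm C B hC hB H₀ hH₀ P hP hz
      rw [← mul_pow]
      apply pow_le_pow_left₀ (wsum_nonneg hadm.nonneg _)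
      have h1 := adm_cl hadm hB hC f (fun i => (𝓧 i).ξ (P i))
        (fun v i => zero_lt_one.trans_le ((𝓧 i).one_le_nm v (P i))) hz
      have h2 := hκf P H₀ hH₀ hP hz (Ω.image Prod.fst)
      calc _ ≤ _ := h1
        _ ≤ 2 * (κf * H₀) := by linarith
        _ = _ := by ring
    cases c with
    | zero =>
      refine ⟨fun _ => 1, 1, (2 * κf) ^ p, isCst_one, le_rfl, by positivity, ?_⟩
      intro Ω ω hadm S D' N X Z x₀ H₀ _ hSN _ _ hX0 _ _ _ _ hH₀ hSh _
      have hN0 : ∀ i, 0 ≤ N i := fun i => (Nat.cast_nonneg _).trans (hSN i)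
      have hZ0 : 0 ≤ ∑ F ∈ tup Ω p with F ∈ Z, (∏ j, ω (F j)) * X F ^ (0 + 1) := by
        refine Finset.sum_nonneg fun F hF => mul_nonneg (Finset.prod_nonneg fun j _ => ?_)
          (pow_nonneg (hX0 F) _)
        exact hadm.nonneg _ (mem_tup.mp (Finset.mem_filter.mp hF).1 j)
      calc _ ≤ ∑ _P ∈ Fintype.piFinset S with ∃ j, tev (f j) (fun i => (𝓧 i).ξ (_P i)) ≠ 0,
            (2 * κf) ^ p * H₀ ^ p := by
            refine Finset.sum_le_sum fun P hP => ?_
            obtain ⟨hP1, hP2⟩ := Finset.mem_filter.mp hP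
            exact htriv Ω ω hadm _ 1 isCst_one le_rfl H₀ hH₀ P
              (fun i => hSh i _ (Fintype.mem_piFinset.mp hP1 i)) hP2
        _ ≤ ∑ _P ∈ Fintype.piFinset S, (2 * κf) ^ p * H₀ ^ p :=
            Finset.sum_le_sum_of_subset_of_nonneg (Finset.filter_subset _ _)
              fun _ _ _ => by positivity
        _ = (∏ i, ((S i).card : ℝ)) * ((2 * κf) ^ p * H₀ ^ p) := by
            rw [Finset.sum_const, nsmul_eq_mul, Fintype.card_piFinset, Nat.cast_prod]
        _ ≤ (∏ i, N i) * ((2 * κf) ^ p * H₀ ^ p) :=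
            mul_le_mul_of_nonneg_right (Finset.prod_le_prod (fun i _ => Nat.cast_nonneg _)
              fun i _ => hSN i) (by positivity)
        _ = (2 * κf) ^ p * (∏ i, N i) * (H₀ ^ p * x₀ ^ 0) := by ring
        _ ≤ _ := by
            apply mul_le_mul_of_nonneg_left _
              (mul_nonneg (by positivity) (Finset.prod_nonneg fun i _ => hN0 i))
            linarith
    | succ c =>
      -- the slices
      obtain ⟨Cg, Bg, Eg, hCg, hBg1, hEg0, hg⟩ := ih (fun i => 𝓧 i.succ) _ hf.sl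
      set g : J × Fin (D + 1) → Ten K n D := fun jk => sl (f jk.1) jk.2 with hgdef
      obtain ⟨C0, B0, hC0, hB00, hmc⟩ := exists_multi_close (𝓧 0) D p
      set q : (∀ i : Fin n, G i.succ) → Fin n → Fin 2 → K :=
        fun P i => (𝓧 i.succ).ξ (P i) with hq
      obtain ⟨Nh, h, hBig, hh⟩ := hf.exists_family
      obtain ⟨Ch, Bh, Eh, hCh, hBh1, hEh0, hhB⟩ := ih (fun i => 𝓧 i.succ) h hBig
      obtain ⟨Ca, Ba, Ea, hCa, hBa0, hEa0, hhA⟩ :=
        exists_claimA (p := p) hp (fun i => 𝓧 i.succ) h hBig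
      obtain ⟨Eb, hEb0, hbad⟩ := exists_bad_le (fun i => 𝓧 i.succ) h hBig
      obtain ⟨Ce, hCe, hcle⟩ := exists_elim (𝓟 := 𝓟) f h hh
      refine ⟨fun v => Cg v * C0 v * (Ch v * Ca v * Ce v), Bg + B0 + (Bh + Ba),
        Eb * (2 * κf) ^ p + 2 ^ p * (Eg + (2 * D + 1) ^ p * (Eh + Ea * (1 + 2 ^ p))),
        (hCg.mul hC0).mul ((hCh.mul hCa).mul hCe), by linarith, by positivity, ?_⟩
      intro Ω ω hadm S D' N X Z x₀ H₀ hSD hSN hDN hD0 hX0 hcnt hXx hx₀ hNx hH₀ hSh hDh
      have hΩ := hadm.pos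
      have hω := hadm.nonneg
      set Ct : ι → ℝ := fun v => Cg v * C0 v * (Ch v * Ca v * Ce v) with hCt
      have hCtc : IsCst Ct := (hCg.mul hC0).mul ((hCh.mul hCa).mul hCe)
      set Bt : ℝ := Bg + B0 + (Bh + Ba) with hBt
      have hBt1 : 1 ≤ Bt := by rw [hBt]; linarith
      have hN0 : ∀ i, 0 ≤ N i := fun i => (Nat.cast_nonneg _).trans (hSN i)
      have hPN0 : 0 ≤ ∏ i : Fin n, N i.succ := Finset.prod_nonneg fun i _ => hN0 i.succ
      have hPN : ∏ i, N i = N 0 * ∏ i : Fin n, N i.succ := Fin.prod_univ_succ _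
      have ht1 : ∀ o ∈ Ω, thr Bt Ct o ≤ thr B0 C0 o * thr Bg Cg o := by
        intro o ho
        rw [thr_mul' (hC0.pos _) (hCg.pos _)]
        apply thr_anti (hΩ o ho)
        · rw [hBt]; linarith
        · exact mul_pos (hC0.pos _) (hCg.pos _)
        · rw [hCt]
          have h1 : 1 ≤ Ch o.1 * Ca o.1 * Ce o.1 := one_le_mul_of_one_le_of_one_le
            (one_le_mul_of_one_le_of_one_le (hCh.1 _) (hCa.1 _)) (hCe.1 _)
          calc C0 o.1 * Cg o.1 = Cg o.1 * C0 o.1 * 1 := by ring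
            _ ≤ _ := mul_le_mul_of_nonneg_left h1 (mul_pos (hCg.pos _) (hC0.pos _)).le
      have ht2 : ∀ o ∈ Ω, Ce o.1 * thr Bt Ct o ≤ thr (Bh + Ba) (fun v => Ch v * Ca v) o := by
        intro o ho
        rw [← mul_thr (C := fun v => Ch v * Ca v) (C₁ := Ce)
          (mul_pos (hCh.pos o.1) (hCa.pos o.1)) (hCe.pos o.1)]
        apply mul_le_mul_of_nonneg_left _ (hCe.pos _).le
        apply thr_anti (hΩ o ho)
        · rw [hBt]; linarith
        · exact mul_pos (mul_pos (hCh.pos _) (hCa.pos _)) (hCe.pos _)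
        · rw [hCt]
          exact le_mul_of_one_le_left
            (mul_pos (mul_pos (hCh.pos _) (hCa.pos _)) (hCe.pos _)).le
            (one_le_mul_of_one_le_of_one_le (hCg.1 _) (hC0.1 _))
      have hnm0 : ∀ v (x : G 0), 0 < nm 𝓟 v ((𝓧 0).ξ x) := fun v x =>
        zero_lt_one.trans_le ((𝓧 0).one_le_nm v x)
      have hnmq : ∀ v P' i, 0 < nm 𝓟 v (q P' i) := fun v P' i =>
        zero_lt_one.trans_le ((𝓧 i.succ).one_le_nm v (P' i))
      have hcons : ∀ (x : G 0) (P : ∀ i : Fin n, G i.succ),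
          (fun i => (𝓧 i).ξ ((Fin.cons x P : ∀ i, G i) i)) =
            (Fin.cons ((𝓧 0).ξ x) (q P) : Fin (n + 1) → Fin 2 → K) := by
        intro x P
        funext i
        refine Fin.cases ?_ (fun i => ?_) i
        · rfl
        · rfl
      set 𝒮 : Finset (∀ i : Fin n, G i.succ) := Fintype.piFinset (fun i : Fin n => S i.succ)
        with h𝒮
      set Wh : (∀ i : Fin n, G i.succ) → ι × ℝ → Prop := fun P o =>
        cl 𝓟 o.1 h (q P) < thr (Bh + Ba) (fun v => Ch v * Ca v) o with hWh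
      set T : ℝ := H₀ ^ p * x₀ ^ (c + 1) +
        ∑ F ∈ tup Ω p with F ∈ Z, (∏ j, ω (F j)) * X F ^ (c + 1 + 1) with hT
      have hprod : ∀ F ∈ tup Ω p, 0 ≤ ∏ j, ω (F j) := fun F hF =>
        Finset.prod_nonneg fun j _ => hω _ (mem_tup.mp hF j)
      have hZ0 : 0 ≤ ∑ F ∈ tup Ω p with F ∈ Z, (∏ j, ω (F j)) * X F ^ (c + 1 + 1) :=
        Finset.sum_nonneg fun F hF => mul_nonneg (hprod F (Finset.mem_filter.mp hF).1)
          (pow_nonneg (hX0 F) _)
      have hH₀0 : 0 ≤ H₀ := by linarith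
      have hT1 : H₀ ^ p * x₀ ^ (c + 1) ≤ T := by rw [hT]; linarith
      have hT2 : ∑ F ∈ tup Ω p with F ∈ Z, (∏ j, ω (F j)) * X F ^ (c + 1 + 1) ≤ T := by
        have : 0 ≤ H₀ ^ p * x₀ ^ (c + 1) := by positivity
        rw [hT]; linarith
      have hT0 : 0 ≤ T := hZ0.trans hT2
      -- one point of the last coordinates
      have hgood : ∀ P : ∀ i : Fin n, G i.succ, ∑ x ∈ S 0,
          (if ∃ j, tev (f j) (fun i => (𝓧 i).ξ ((Fin.cons x P : ∀ i, G i) i)) ≠ 0 then
            wsum Ω ω (fun o => cl 𝓟 o.1 f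
              (fun i => (𝓧 i).ξ ((Fin.cons x P : ∀ i, G i) i)) < thr Bt Ct o) ^ p else 0) ≤
          2 ^ p * (N 0 * (if ∃ jk, tev (g jk) (q P) ≠ 0 then
            wsum Ω ω (fun o => cl 𝓟 o.1 g (q P) < thr Bg Cg o) ^ p else 0) +
          (2 * D + 1) ^ p *
            ∑ a ∈ D' 0, wsum (Ω.filter fun o => nr (𝓧 0).H 1 o a) ω (Wh P) ^ p) := by
        intro P
        by_cases hgP : ∃ jk, tev (g jk) (q P) ≠ 0
        · rw [if_pos hgP]
          have hc := fun v => exists_coef' (𝓟 := 𝓟) f v (q P) (hnmq v P)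
          choose cc hcc hccx using hc
          have h1 : ∀ x ∈ S 0,
              (if ∃ j, tev (f j) (fun i => (𝓧 i).ξ ((Fin.cons x P : ∀ i, G i) i)) ≠ 0 then
                wsum Ω ω (fun o => cl 𝓟 o.1 f
                  (fun i => (𝓧 i).ξ ((Fin.cons x P : ∀ i, G i) i)) < thr Bt Ct o) ^ p else 0) ≤
              2 ^ p * (wsum Ω ω (fun o => cl 𝓟 o.1 g (q P) < thr Bg Cg o) ^ p +
                wsum Ω ω (fun o => bval 𝓟 o.1 (cc o.1) ((𝓧 0).ξ x) < thr B0 C0 o ∧
                  Wh P o) ^ p) := by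
            intro x _
            have h2 : wsum Ω ω (fun o => cl 𝓟 o.1 f
                  (fun i => (𝓧 i).ξ ((Fin.cons x P : ∀ i, G i) i)) < thr Bt Ct o) ^ p ≤
              2 ^ p * (wsum Ω ω (fun o => cl 𝓟 o.1 g (q P) < thr Bg Cg o) ^ p +
                wsum Ω ω (fun o => bval 𝓟 o.1 (cc o.1) ((𝓧 0).ξ x) < thr B0 C0 o ∧
                  Wh P o) ^ p) := by
              refine le_trans ?_ (add_pow_le' (wsum_nonneg hω _) (wsum_nonneg hω _) p)
              apply pow_le_pow_left₀ (wsum_nonneg hω _)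
              apply wsum_or_le hω
              intro o ho h2
              rw [hcons] at h2
              have h3 := hccx o.1 ((𝓧 0).ξ x) (hnm0 _ x) (thr B0 C0 o) (thr Bg Cg o)
                (thr_pos _ _ _) (thr_pos _ _ _) (h2.trans_le (ht1 o ho))
              rcases h3 with h3 | h3
              · exact Or.inl h3
              · refine Or.inr ⟨h3, ?_⟩
                have h4 := hcle o.1 (q P) ((𝓧 0).ξ x) (hnm0 _ x)
                exact h4.trans_lt ((mul_lt_mul_of_pos_left h2 (hCe.pos _)).trans_le (ht2 o ho))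
            split_ifs
            · exact h2
            · have := wsum_nonneg hω (fun o => cl 𝓟 o.1 g (q P) < thr Bg Cg o)
              have := wsum_nonneg hω (fun o => bval 𝓟 o.1 (cc o.1) ((𝓧 0).ξ x) < thr B0 C0 o ∧
                Wh P o)
              positivity
          refine (Finset.sum_le_sum h1).trans ?_
          rw [← Finset.mul_sum, Finset.sum_add_distrib, Finset.sum_const, nsmul_eq_mul]
          apply mul_le_mul_of_nonneg_left _ (by positivity)
          apply add_le_add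
          · exact mul_le_mul_of_nonneg_right (hSN 0) (pow_nonneg (wsum_nonneg hω _) _)
          · exact sum_first_le (𝓧 0) hmc hΩ hω (hSD 0) cc hcc (Wh P)
        · rw [if_neg hgP]
          push Not at hgP
          have h1 : ∀ x ∈ S 0,
              (if ∃ j, tev (f j) (fun i => (𝓧 i).ξ ((Fin.cons x P : ∀ i, G i) i)) ≠ 0 then
                wsum Ω ω (fun o => cl 𝓟 o.1 f
                  (fun i => (𝓧 i).ξ ((Fin.cons x P : ∀ i, G i) i)) < thr Bt Ct o) ^ p else 0) =
              0 := by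
            intro x _
            rw [if_neg]
            push Not
            intro j
            rw [hcons, tev_succ, bf]
            apply Finset.sum_eq_zero
            intro k _
            have := hgP (j, k)
            rw [hgdef] at this
            simp only at this
            rw [this, zero_mul]
          rw [Finset.sum_eq_zero h1]
          have h2 : 0 ≤ ∑ a ∈ D' 0, wsum (Ω.filter fun o => nr (𝓧 0).H 1 o a) ω (Wh P) ^ p :=
            Finset.sum_nonneg fun a _ => pow_nonneg (wsum_nonneg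
              (fun o ho => hω o (Finset.mem_filter.mp ho).1) _) _
          rw [mul_zero, zero_add]
          positivity
      -- zeros of `h`
      have hbadP : ∀ P ∈ 𝒮, ∑ x ∈ S 0,
          (if ∃ j, tev (f j) (fun i => (𝓧 i).ξ ((Fin.cons x P : ∀ i, G i) i)) ≠ 0 then
            wsum Ω ω (fun o => cl 𝓟 o.1 f
              (fun i => (𝓧 i).ξ ((Fin.cons x P : ∀ i, G i) i)) < thr Bt Ct o) ^ p else 0) ≤
          N 0 * ((2 * κf) ^ p * H₀ ^ p) := by
        intro P hP
        calc _ ≤ ∑ _x ∈ S 0, (2 * κf) ^ p * H₀ ^ p := by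
              refine Finset.sum_le_sum fun x hx => ?_
              split_ifs with h1
              · refine htriv Ω ω hadm Ct Bt hCtc hBt1 H₀ hH₀ _ ?_ h1
                intro i
                refine Fin.cases ?_ (fun i => ?_) i
                · exact hSh 0 x hx
                · exact hSh i.succ _ (Fintype.mem_piFinset.mp hP i)
              · positivity
          _ = (S 0).card * ((2 * κf) ^ p * H₀ ^ p) := by rw [Finset.sum_const, nsmul_eq_mul]
          _ ≤ _ := mul_le_mul_of_nonneg_right (hSN 0) (by positivity)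
      have hbadsum : ∑ P ∈ 𝒮 with ¬ ∃ j, tev (h j) (q P) ≠ 0, ∑ x ∈ S 0,
          (if ∃ j, tev (f j) (fun i => (𝓧 i).ξ ((Fin.cons x P : ∀ i, G i) i)) ≠ 0 then
            wsum Ω ω (fun o => cl 𝓟 o.1 f
              (fun i => (𝓧 i).ξ ((Fin.cons x P : ∀ i, G i) i)) < thr Bt Ct o) ^ p else 0) ≤
          Eb * (2 * κf) ^ p * (∏ i, N i) * T := by
        calc _ ≤ ∑ _P ∈ 𝒮 with ¬ ∃ j, tev (h j) (q _P) ≠ 0, N 0 * ((2 * κf) ^ p * H₀ ^ p) :=
              Finset.sum_le_sum fun P hP => hbadP P (Finset.mem_filter.mp hP).1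
          _ = ((𝒮.filter fun P => ¬ ∃ j, tev (h j) (q P) ≠ 0).card : ℝ) *
              (N 0 * ((2 * κf) ^ p * H₀ ^ p)) := by rw [Finset.sum_const, nsmul_eq_mul]
          _ ≤ (Eb * (∏ i : Fin n, N i.succ) * x₀ ^ (c + 1)) *
              (N 0 * ((2 * κf) ^ p * H₀ ^ p)) := by
              apply mul_le_mul_of_nonneg_right _ (mul_nonneg (hN0 0) (by positivity))
              refine le_trans (le_of_eq ?_) (hbad (fun i => S i.succ) (fun i => D' i.succ)
                (fun i => N i.succ) x₀ (fun i => hSD i.succ) (fun i => hSN i.succ) hx₀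
                (fun i => hNx i.succ))
              congr!
          _ = Eb * (2 * κf) ^ p * (∏ i, N i) * (H₀ ^ p * x₀ ^ (c + 1)) := by rw [hPN]; ring
          _ ≤ _ := by
              apply mul_le_mul_of_nonneg_left hT1
              rw [hPN]
              exact mul_nonneg (by positivity) (mul_nonneg (hN0 0) hPN0)
      -- the slices
      have hS1 : ∑ P ∈ 𝒮, (if ∃ jk, tev (g jk) (q P) ≠ 0 then
            wsum Ω ω (fun o => cl 𝓟 o.1 g (q P) < thr Bg Cg o) ^ p else 0) ≤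
          Eg * (∏ i : Fin n, N i.succ) * T := by
        rw [← Finset.sum_filter]
        exact hg Ω ω hadm (fun i => S i.succ) (fun i => D' i.succ) (fun i => N i.succ) X Z x₀ H₀
          (fun i => hSD i.succ) (fun i => hSN i.succ) (fun i => hDN i.succ)
          (fun i => hD0 i.succ) hX0 (fun i => hcnt i.succ) hXx hx₀ (fun i => hNx i.succ) hH₀
          (fun i => hSh i.succ) (fun i => hDh i.succ)
      -- the eliminated family, `a = 0`
      have hS2 : ∑ P ∈ 𝒮 with ∃ j, tev (h j) (q P) ≠ 0,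
          wsum (Ω.filter fun o => nr (𝓧 0).H 1 o (0 : G 0)) ω (Wh P) ^ p ≤
          Eh * (∏ i, N i) * T := by
        have h1 : Ω.filter (fun o => nr (𝓧 0).H 1 o (0 : G 0)) = Ω :=
          Finset.filter_true_of_mem fun o _ => nr_zero _ _ _
        rw [h1]
        have h2 := hhB Ω ω hadm (fun i => S i.succ) (fun i => D' i.succ) (fun i => N i.succ) X Z
          x₀ H₀ (fun i => hSD i.succ) (fun i => hSN i.succ) (fun i => hDN i.succ)
          (fun i => hD0 i.succ) hX0 (fun i => hcnt i.succ) hXx hx₀ (fun i => hNx i.succ) hH₀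
          (fun i => hSh i.succ) (fun i => hDh i.succ)
        have h3 : ∑ P ∈ 𝒮 with ∃ j, tev (h j) (q P) ≠ 0, wsum Ω ω (Wh P) ^ p ≤
            ∑ P ∈ 𝒮 with ∃ j, tev (h j) (q P) ≠ 0,
              wsum Ω ω (fun o => cl 𝓟 o.1 h (q P) < thr Bh Ch o) ^ p := by
          refine Finset.sum_le_sum fun P _ => ?_
          apply pow_le_pow_left₀ (wsum_nonneg hω _)
          apply wsum_mono hω
          intro o ho h4
          refine lt_of_lt_of_le h4 (thr_anti (hΩ o ho) (by linarith) (hCh.pos _) ?_)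
          exact le_mul_of_one_le_right (hCh.pos _).le (hCa.1 _)
        have h2' : ∑ P ∈ 𝒮 with ∃ j, tev (h j) (q P) ≠ 0,
              wsum Ω ω (fun o => cl 𝓟 o.1 h (q P) < thr Bh Ch o) ^ p ≤
            Eh * (∏ i : Fin n, N i.succ) * (H₀ ^ p * x₀ ^ c +
              ∑ F ∈ tup Ω p with F ∈ Z, (∏ j, ω (F j)) * X F ^ (c + 1)) := by
          refine le_trans (le_of_eq ?_) h2
          congr!
        refine (h3.trans h2').trans ?_
        have h4 : H₀ ^ p * x₀ ^ c + ∑ F ∈ tup Ω p with F ∈ Z, (∏ j, ω (F j)) * X F ^ (c + 1) ≤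
            N 0 * T := by
          rw [hT, mul_add]
          apply add_le_add
          · calc H₀ ^ p * x₀ ^ c = (H₀ ^ p * x₀ ^ c) * 1 := by ring
              _ ≤ (H₀ ^ p * x₀ ^ c) * (N 0 * x₀) :=
                  mul_le_mul_of_nonneg_left (hNx 0) (by positivity)
              _ = _ := by rw [pow_succ]; ring
          · rw [Finset.mul_sum]
            refine Finset.sum_le_sum fun F hF => ?_
            have hFt := (Finset.mem_filter.mp hF).1
            have h5 : (1 : ℝ) ≤ N 0 * X F := by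
              refine le_trans ?_ (hcnt 0 F hFt)
              have : 1 ≤ cnt (𝓧 0).H 1 (D' 0) F := by
                unfold cnt
                apply Finset.card_pos.mpr
                exact ⟨0, Finset.mem_filter.mpr ⟨hD0 0, fun j => nr_zero _ _ _⟩⟩
              exact_mod_cast this
            have h6 : 0 ≤ (∏ j, ω (F j)) * X F ^ (c + 1) :=
              mul_nonneg (hprod F hFt) (pow_nonneg (hX0 F) _)
            calc (∏ j, ω (F j)) * X F ^ (c + 1) = ((∏ j, ω (F j)) * X F ^ (c + 1)) * 1 := by ring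
              _ ≤ ((∏ j, ω (F j)) * X F ^ (c + 1)) * (N 0 * X F) :=
                  mul_le_mul_of_nonneg_left h5 h6
              _ = _ := by rw [pow_succ (X F) (c + 1)]; ring
        calc _ ≤ Eh * (∏ i : Fin n, N i.succ) * (N 0 * T) :=
              mul_le_mul_of_nonneg_left h4 (mul_nonneg hEh0 hPN0)
          _ = _ := by rw [hPN]; ring
      -- the eliminated family, `a ≠ 0`
      have hS3 : ∑ a ∈ (D' 0).erase 0, ∑ P ∈ 𝒮,
          wsum (Ω.filter fun o => nr (𝓧 0).H 1 o a) ω (Wh P) ^ p ≤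
          Ea * (1 + 2 ^ p) * (∏ i, N i) * T := by
        have h1 : ∀ a ∈ (D' 0).erase 0, ∑ P ∈ 𝒮,
            wsum (Ω.filter fun o => nr (𝓧 0).H 1 o a) ω (Wh P) ^ p ≤
            Ea * (∏ i : Fin n, N i.succ) * ∑ F ∈ tup (Ω.filter fun o => nr (𝓧 0).H 1 o a) p,
              (∏ j, ω (F j)) * X F ^ (c + 1) := by
          intro a _
          have hΩa : ∀ o ∈ Ω.filter (fun o => nr (𝓧 0).H 1 o a), 0 ≤ o.2 :=
            fun o ho => hΩ o (Finset.mem_filter.mp ho).1
          have hωa : ∀ o ∈ Ω.filter (fun o => nr (𝓧 0).H 1 o a), 0 ≤ ω o :=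
            fun o ho => hω o (Finset.mem_filter.mp ho).1
          refine le_trans (Finset.sum_le_sum fun P _ => ?_)
            (hhA _ ω hΩa hωa (fun i => S i.succ) (fun i => D' i.succ) (fun i => N i.succ) X
              (fun i => hSD i.succ) (fun i => hSN i.succ) hX0 ?_)
          · apply pow_le_pow_left₀ (wsum_nonneg hωa _)
            apply wsum_mono hωa
            intro o ho h4
            refine lt_of_lt_of_le h4 (thr_anti (hΩa o ho) (by linarith) (hCa.pos _) ?_)
            exact le_mul_of_one_le_left (hCa.pos _).le (hCh.1 _)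
          · intro i F hF
            apply hcnt i.succ F
            rw [mem_tup] at hF ⊢
            exact fun j => (Finset.mem_filter.mp (hF j)).1
        refine (Finset.sum_le_sum h1).trans ?_
        rw [← Finset.mul_sum]
        have h2 : ∑ a ∈ (D' 0).erase 0, ∑ F ∈ tup (Ω.filter fun o => nr (𝓧 0).H 1 o a) p,
            (∏ j, ω (F j)) * X F ^ (c + 1) ≤ N 0 * (1 + 2 ^ p) * T := by
          have hsub : ∀ a, ∀ F ∈ tup (Ω.filter fun o => nr (𝓧 0).H 1 o a) p, F ∈ tup Ω p := by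
            intro a F hF
            rw [mem_tup] at hF ⊢
            exact fun j => (Finset.mem_filter.mp (hF j)).1
          -- tuples in `Z`
          have hz : ∑ a ∈ (D' 0).erase 0, ∑ F ∈ tup (Ω.filter fun o => nr (𝓧 0).H 1 o a) p,
              (if F ∈ Z then (∏ j, ω (F j)) * X F ^ (c + 1) else 0) ≤ N 0 * T := by
            calc _ ≤ ∑ a ∈ D' 0, ∑ F ∈ tup (Ω.filter fun o => nr (𝓧 0).H 1 o a) p,
                  (if F ∈ Z then (∏ j, ω (F j)) * X F ^ (c + 1) else 0) := by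
                  apply Finset.sum_le_sum_of_subset_of_nonneg (Finset.erase_subset _ _)
                  intro a _ _
                  refine Finset.sum_nonneg fun F hF => ?_
                  split_ifs
                  · exact mul_nonneg (hprod F (hsub a F hF)) (pow_nonneg (hX0 F) _)
                  · exact le_rfl
              _ = ∑ F ∈ tup Ω p, (cnt (𝓧 0).H 1 (D' 0) F : ℝ) *
                  (if F ∈ Z then (∏ j, ω (F j)) * X F ^ (c + 1) else 0) :=
                  sum_tup_eq (𝓧 0).H 1 Ω (D' 0) _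
              _ ≤ ∑ F ∈ tup Ω p, N 0 *
                  (if F ∈ Z then (∏ j, ω (F j)) * X F ^ (c + 1 + 1) else 0) := by
                  refine Finset.sum_le_sum fun F hF => ?_
                  split_ifs
                  · calc (cnt (𝓧 0).H 1 (D' 0) F : ℝ) * ((∏ j, ω (F j)) * X F ^ (c + 1)) ≤
                          (N 0 * X F) * ((∏ j, ω (F j)) * X F ^ (c + 1)) :=
                          mul_le_mul_of_nonneg_right (hcnt 0 F hF)
                            (mul_nonneg (hprod F hF) (pow_nonneg (hX0 F) _))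
                      _ = _ := by rw [pow_succ (X F) (c + 1)]; ring
                  · simp
              _ = N 0 * ∑ F ∈ tup Ω p with F ∈ Z, (∏ j, ω (F j)) * X F ^ (c + 1 + 1) := by
                  rw [← Finset.mul_sum, Finset.sum_filter]
              _ ≤ _ := mul_le_mul_of_nonneg_left hT2 (hN0 0)
          -- the other tuples
          have hnz : ∑ a ∈ (D' 0).erase 0, ∑ F ∈ tup (Ω.filter fun o => nr (𝓧 0).H 1 o a) p,
              (if F ∈ Z then 0 else (∏ j, ω (F j)) * X F ^ (c + 1)) ≤ N 0 * 2 ^ p * T := by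
            have h3 : ∀ a ∈ (D' 0).erase 0,
                ∑ F ∈ tup (Ω.filter fun o => nr (𝓧 0).H 1 o a) p,
                (if F ∈ Z then 0 else (∏ j, ω (F j)) * X F ^ (c + 1)) ≤
                x₀ ^ (c + 1) * (2 * H₀) ^ p := by
              intro a ha
              obtain ⟨ha0, haD⟩ := Finset.mem_erase.mp ha
              calc _ ≤ ∑ F ∈ tup (Ω.filter fun o => nr (𝓧 0).H 1 o a) p,
                    x₀ ^ (c + 1) * ∏ j, ω (F j) := by
                    refine Finset.sum_le_sum fun F hF => ?_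
                    have h4 := hprod F (hsub a F hF)
                    split_ifs with h5
                    · positivity
                    · rw [mul_comm]
                      exact mul_le_mul_of_nonneg_right
                        (pow_le_pow_left₀ (hX0 F) (hXx F (hsub a F hF) h5) _) h4
                _ = x₀ ^ (c + 1) * wsum Ω ω (fun o => nr (𝓧 0).H 1 o a) ^ p := by
                    rw [← Finset.mul_sum, wsum_pow, tup_filter]
                _ ≤ _ := by
                    apply mul_le_mul_of_nonneg_left _ (by positivity)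
                    apply pow_le_pow_left₀ (wsum_nonneg hω _)
                    have h6 := adm_nr (𝓧 0) hadm 1 ha0
                    have h7 := hDh 0 a haD
                    linarith
            calc _ ≤ ∑ _a ∈ (D' 0).erase 0, x₀ ^ (c + 1) * (2 * H₀) ^ p := Finset.sum_le_sum h3
              _ = ((D' 0).erase 0).card * (x₀ ^ (c + 1) * (2 * H₀) ^ p) := by
                  rw [Finset.sum_const, nsmul_eq_mul]
              _ ≤ N 0 * (x₀ ^ (c + 1) * (2 * H₀) ^ p) := by
                  apply mul_le_mul_of_nonneg_right _ (by positivity)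
                  refine le_trans ?_ (hDN 0)
                  exact_mod_cast Finset.card_le_card (Finset.erase_subset _ _)
              _ = N 0 * 2 ^ p * (H₀ ^ p * x₀ ^ (c + 1)) := by rw [mul_pow]; ring
              _ ≤ _ := mul_le_mul_of_nonneg_left hT1 (mul_nonneg (hN0 0) (by positivity))
          have h4 : ∀ a, ∀ F ∈ tup (Ω.filter fun o => nr (𝓧 0).H 1 o a) p,
              (∏ j, ω (F j)) * X F ^ (c + 1) =
              (if F ∈ Z then (∏ j, ω (F j)) * X F ^ (c + 1) else 0) +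
              (if F ∈ Z then 0 else (∏ j, ω (F j)) * X F ^ (c + 1)) := by
            intro a F _
            split_ifs <;> ring
          rw [Finset.sum_congr rfl fun a _ => Finset.sum_congr rfl (h4 a)]
          simp only [Finset.sum_add_distrib]
          calc _ ≤ N 0 * T + N 0 * 2 ^ p * T := add_le_add hz hnz
            _ = _ := by ring
        calc _ ≤ Ea * (∏ i : Fin n, N i.succ) * (N 0 * (1 + 2 ^ p) * T) :=
              mul_le_mul_of_nonneg_left h2 (mul_nonneg hEa0 hPN0)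
          _ = _ := by rw [hPN]; ring
      have hS23 : ∑ P ∈ 𝒮 with ∃ j, tev (h j) (q P) ≠ 0,
          ∑ a ∈ D' 0, wsum (Ω.filter fun o => nr (𝓧 0).H 1 o a) ω (Wh P) ^ p ≤
          (Eh + Ea * (1 + 2 ^ p)) * (∏ i, N i) * T := by
        have h1 : ∀ P, ∑ a ∈ D' 0, wsum (Ω.filter fun o => nr (𝓧 0).H 1 o a) ω (Wh P) ^ p =
            wsum (Ω.filter fun o => nr (𝓧 0).H 1 o (0 : G 0)) ω (Wh P) ^ p +
            ∑ a ∈ (D' 0).erase 0, wsum (Ω.filter fun o => nr (𝓧 0).H 1 o a) ω (Wh P) ^ p :=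
          fun P => (Finset.add_sum_erase _ _ (hD0 0)).symm
        rw [Finset.sum_congr rfl fun P _ => h1 P, Finset.sum_add_distrib]
        have h2 : ∑ P ∈ 𝒮 with ∃ j, tev (h j) (q P) ≠ 0, ∑ a ∈ (D' 0).erase 0,
            wsum (Ω.filter fun o => nr (𝓧 0).H 1 o a) ω (Wh P) ^ p ≤
            ∑ a ∈ (D' 0).erase 0, ∑ P ∈ 𝒮,
              wsum (Ω.filter fun o => nr (𝓧 0).H 1 o a) ω (Wh P) ^ p := by
          rw [Finset.sum_comm]
          refine Finset.sum_le_sum fun a _ => ?_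
          apply Finset.sum_le_sum_of_subset_of_nonneg (Finset.filter_subset _ _)
          intro P _ _
          exact pow_nonneg (wsum_nonneg (fun o ho => hω o (Finset.mem_filter.mp ho).1) _) _
        calc _ ≤ Eh * (∏ i, N i) * T + Ea * (1 + 2 ^ p) * (∏ i, N i) * T :=
              add_le_add hS2 (h2.trans hS3)
          _ = _ := by ring
      have hgoodsum : ∑ P ∈ 𝒮 with ∃ j, tev (h j) (q P) ≠ 0, ∑ x ∈ S 0,
          (if ∃ j, tev (f j) (fun i => (𝓧 i).ξ ((Fin.cons x P : ∀ i, G i) i)) ≠ 0 then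
            wsum Ω ω (fun o => cl 𝓟 o.1 f
              (fun i => (𝓧 i).ξ ((Fin.cons x P : ∀ i, G i) i)) < thr Bt Ct o) ^ p else 0) ≤
          2 ^ p * (Eg + (2 * D + 1) ^ p * (Eh + Ea * (1 + 2 ^ p))) * (∏ i, N i) * T := by
        refine (Finset.sum_le_sum fun P _ => hgood P).trans ?_
        rw [← Finset.mul_sum, Finset.sum_add_distrib, ← Finset.mul_sum, ← Finset.mul_sum]
        have h1 : ∑ P ∈ 𝒮 with ∃ j, tev (h j) (q P) ≠ 0,
            (if ∃ jk, tev (g jk) (q P) ≠ 0 then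
              wsum Ω ω (fun o => cl 𝓟 o.1 g (q P) < thr Bg Cg o) ^ p else 0) ≤
            ∑ P ∈ 𝒮, (if ∃ jk, tev (g jk) (q P) ≠ 0 then
              wsum Ω ω (fun o => cl 𝓟 o.1 g (q P) < thr Bg Cg o) ^ p else 0) := by
          apply Finset.sum_le_sum_of_subset_of_nonneg (Finset.filter_subset _ _)
          intro P _ _
          split_ifs
          · exact pow_nonneg (wsum_nonneg hω _) _
          · exact le_rfl
        calc _ ≤ 2 ^ p * (N 0 * (Eg * (∏ i : Fin n, N i.succ) * T) +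
              (2 * D + 1) ^ p * ((Eh + Ea * (1 + 2 ^ p)) * (∏ i, N i) * T)) := by
              apply mul_le_mul_of_nonneg_left _ (by positivity)
              apply add_le_add
              · exact mul_le_mul_of_nonneg_left (h1.trans hS1) (hN0 0)
              · exact mul_le_mul_of_nonneg_left hS23 (by positivity)
          _ = _ := by rw [hPN]; ring
      rw [Finset.sum_filter, sum_piFinset_succ, Finset.sum_comm]
      change ∑ P ∈ 𝒮, _ ≤ _
      rw [← Finset.sum_filter_add_sum_filter_not 𝒮 (fun P => ∃ j, tev (h j) (q P) ≠ 0)]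
      calc _ ≤ 2 ^ p * (Eg + (2 * D + 1) ^ p * (Eh + Ea * (1 + 2 ^ p))) * (∏ i, N i) * T +
            Eb * (2 * κf) ^ p * (∏ i, N i) * T := add_le_add hgoodsum hbadsum
        _ = _ := by ring

end

end Pool.Agent.AG
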