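import Mathlib
import Pool.Agent.AG.Cov
import Pool.Agent.AG.Md

/-! # The density function and its sum (module Mx) -/

set_option autoImplicit false

open Pool.Agent.H7.Vojta (HtSys box mem_box card_box)

namespace Pool.Agent.AG

section

variable {K : Type*} [Field K] {ι : Type*} {𝓟 : PlSys K ι}

private lemma mx_card {G : Type*} [AddCommGroup G] {ρ : ℕ} (R : Fin ρ → G) (T : Finset G)
    (M : ℕ) : (bx R T M).card ≤ T.card * (2 * M + 1) ^ ρ := by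
  classical
  unfold bx
  refine Finset.card_image_le.trans ?_
  rw [Finset.card_product, card_box]

private lemma mx_height {G : Type*} [AddCommGroup G] (𝓗 : HtSys G ι) {ρ : ℕ} (R : Fin ρ → G)
    (T : Finset G) :
    ∃ C : ℝ, 0 ≤ C ∧ ∀ M : ℕ, 1 ≤ M → ∀ x ∈ bx R T M, 𝓗.h x ≤ C * (M : ℝ) ^ 2 := by
  have h1 := fun t => 𝓗.exists_height_le R (-t)
  choose C hC1 hC using h1
  have hC0 : ∀ t, 0 ≤ C t := fun t => by linarith [hC1 t]
  refine ⟨∑ t ∈ T, C t, Finset.sum_nonneg fun t _ => hC0 t, fun M hM P hP => ?_⟩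
  obtain ⟨t, ht, a, ha, rfl⟩ := mem_bx.mp hP
  have h2 := (hC t M hM a ha).2
  rw [sub_neg_eq_add] at h2
  refine h2.trans ?_
  apply mul_le_mul_of_nonneg_right _ (by positivity)
  exact Finset.single_le_sum (f := C) (fun t _ => hC0 t) ht

private def MxBad {n : ℕ} (p r : ℕ) {G : Fin n → Type*} [∀ i, AddCommGroup (G i)]
    (𝓧 : ∀ i, XSys 𝓟 (G i)) (ρ : Fin n → ℕ) (R : ∀ i, Fin (ρ i) → G i) (T' : ∀ i, Finset (G i))
    (F : Fin p → ι × ℝ) (b : ℕ) : Prop :=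
  ∃ i, ∃ a ∈ bx (R i) (T' i) (2 * lvP p r (ρ i) (2 ^ b)), a ≠ 0 ∧ ∀ j, nr (𝓧 i).H 0 (F j) a

private lemma mx_cnt {n p r : ℕ} (hp : 1 ≤ p) {G : Fin n → Type*} [∀ i, AddCommGroup (G i)]
    (𝓧 : ∀ i, XSys 𝓟 (G i)) (ρ : Fin n → ℕ) (hρ : ∀ i, r ≤ ρ i) (R : ∀ i, Fin (ρ i) → G i)
    (T' : ∀ i, Finset (G i)) (h0 : ∀ i, 0 ∈ T' i) (i : Fin n) {b m : ℕ} (hb : b ≤ m)
    (F : Fin p → ι × ℝ) (hF : ¬ MxBad p r 𝓧 ρ R T' F b) :
    (cnt (𝓧 i).H 1 (bx (R i) (T' i) (2 * 2 ^ m)) F : ℝ) ≤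
      (T' i).card * 6 ^ (ρ i) * ((2 : ℝ) ^ m) ^ (ρ i) * (1 / ((2 : ℝ) ^ b) ^ r) := by
  classical
  have hA : 1 ≤ 2 ^ b := Nat.one_le_two_pow
  set B : ℕ := lvP p r (ρ i) (2 ^ b) with hB
  have hB1 : 1 ≤ B := lvP_pos p r (ρ i) hA
  have hBM : B ≤ 2 ^ m := (lvP_le hp (hρ i) hA).trans (Nat.pow_le_pow_right (by norm_num) hb)
  have h1 := cov_le (𝓧 i).H (R i) (T' i) (M := 2 ^ m) (B := B) hB1 hBM F (by
    intro x hx hxF
    by_contra hne
    apply hF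
    refine ⟨i, x, ?_, hne, hxF⟩
    obtain ⟨s, hs, a, ha, hxa⟩ := mem_bx.mp hx
    refine mem_bx.mpr ⟨s, ?_, a, ?_, hxa⟩
    · rw [Finset.mem_singleton.mp hs]
      exact h0 i
    · refine mem_box.mpr fun j => (mem_box.mp ha j).trans ?_
      have : B ≤ 2 * lvP p r (ρ i) (2 ^ b) := by omega
      exact_mod_cast this)
  refine h1.trans ?_
  have h2 := lvP_pow_ge (p := p) hp (hρ i) hA
  rw [← hB] at h2
  push_cast at h2 ⊢
  have hBr : (0 : ℝ) < B := by exact_mod_cast hB1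
  have hBp : (0 : ℝ) < (B : ℝ) ^ (ρ i) := by positivity
  have h3 : ((6 * (2 : ℝ) ^ m) / B) ^ (ρ i) = 6 ^ (ρ i) * ((2 : ℝ) ^ m) ^ (ρ i) *
      (1 / (B : ℝ) ^ (ρ i)) := by
    rw [div_pow, mul_pow]
    ring
  rw [h3]
  have h4 : 1 / (B : ℝ) ^ (ρ i) ≤ 1 / ((2 : ℝ) ^ b) ^ r :=
    one_div_le_one_div_of_le (by positivity) h2
  calc ((T' i).card : ℝ) * (6 ^ (ρ i) * ((2 : ℝ) ^ m) ^ (ρ i) * (1 / (B : ℝ) ^ (ρ i)))
      = ((T' i).card * 6 ^ (ρ i) * ((2 : ℝ) ^ m) ^ (ρ i)) * (1 / (B : ℝ) ^ (ρ i)) := by ring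
    _ ≤ ((T' i).card * 6 ^ (ρ i) * ((2 : ℝ) ^ m) ^ (ρ i)) * (1 / ((2 : ℝ) ^ b) ^ r) :=
        mul_le_mul_of_nonneg_left h4 (by positivity)

open Classical in
private lemma mx_sum {n p r : ℕ} (hp : 1 ≤ p) {G : Fin n → Type*} [∀ i, AddCommGroup (G i)]
    (𝓧 : ∀ i, XSys 𝓟 (G i)) (ρ : Fin n → ℕ) (R : ∀ i, Fin (ρ i) → G i)
    (T' : ∀ i, Finset (G i)) :
    ∃ κ' : ℝ, 0 ≤ κ' ∧ ∀ (b : ℕ) (Ω : Finset (ι × ℝ)) (ω : ι × ℝ → ℝ), Adm 𝓟 Ω ω →
      ∑ F ∈ (tup Ω p).filter (fun F => MxBad p r 𝓧 ρ R T' F b), ∏ j, ω (F j) ≤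
        κ' * ((2 : ℝ) ^ b) ^ (r + 2 * p) := by
  have hh := fun i => mx_height (𝓧 i).H (R i) (T' i)
  choose C hC0 hC using hh
  refine ⟨∑ i, (T' i).card * 5 ^ (ρ i) * (8 * C i) ^ p * 2 ^ (ρ i + 2 * p), ?_, ?_⟩
  · refine Finset.sum_nonneg fun i _ => ?_
    have := hC0 i
    positivity
  intro b Ω ω hω
  have hprod : ∀ F ∈ tup Ω p, 0 ≤ ∏ j, ω (F j) := fun F hF =>
    Finset.prod_nonneg fun j _ => hω.nonneg _ (mem_tup.mp hF j)
  set D : ∀ i, Finset (G i) := fun i => bx (R i) (T' i) (2 * lvP p r (ρ i) (2 ^ b)) with hD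
  have h1 : ∑ F ∈ (tup Ω p).filter (fun F => MxBad p r 𝓧 ρ R T' F b), ∏ j, ω (F j) ≤
      ∑ i, ∑ a ∈ (D i).filter (fun a => a ≠ 0),
        ∑ F ∈ (tup Ω p).filter (fun F => ∀ j, nr (𝓧 i).H 0 (F j) a), ∏ j, ω (F j) := by
    have h2 : ∀ F ∈ (tup Ω p).filter (fun F => MxBad p r 𝓧 ρ R T' F b),
        ∏ j, ω (F j) ≤ ∑ i, ∑ a ∈ (D i).filter (fun a => a ≠ 0),
          if (∀ j, nr (𝓧 i).H 0 (F j) a) then ∏ j, ω (F j) else 0 := by
      intro F hF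
      obtain ⟨hF1, i, a, ha, ha0, haF⟩ := Finset.mem_filter.mp hF
      have hp0 := hprod F hF1
      have h3 : ∏ j, ω (F j) ≤ ∑ a ∈ (D i).filter (fun a => a ≠ 0),
          if (∀ j, nr (𝓧 i).H 0 (F j) a) then ∏ j, ω (F j) else 0 := by
        have h4 := Finset.single_le_sum (s := (D i).filter (fun a => a ≠ 0))
          (f := fun a => if (∀ j, nr (𝓧 i).H 0 (F j) a) then ∏ j, ω (F j) else 0)
          (fun a _ => by
            show 0 ≤ (if (∀ j, nr (𝓧 i).H 0 (F j) a) then ∏ j, ω (F j) else 0)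
            split_ifs
            · exact hp0
            · exact le_rfl)
          (Finset.mem_filter.mpr ⟨ha, ha0⟩)
        simp only [if_pos haF] at h4
        exact h4
      refine h3.trans ?_
      exact Finset.single_le_sum (f := fun i => ∑ a ∈ (D i).filter (fun a => a ≠ 0),
          if (∀ j, nr (𝓧 i).H 0 (F j) a) then ∏ j, ω (F j) else 0)
        (fun i _ => Finset.sum_nonneg fun a _ => by
          split_ifs
          · exact hp0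
          · exact le_rfl) (Finset.mem_univ i)
    calc ∑ F ∈ (tup Ω p).filter (fun F => MxBad p r 𝓧 ρ R T' F b), ∏ j, ω (F j)
        ≤ ∑ F ∈ (tup Ω p).filter (fun F => MxBad p r 𝓧 ρ R T' F b),
          ∑ i, ∑ a ∈ (D i).filter (fun a => a ≠ 0),
            (if (∀ j, nr (𝓧 i).H 0 (F j) a) then ∏ j, ω (F j) else 0) :=
          Finset.sum_le_sum h2
      _ ≤ ∑ F ∈ tup Ω p, ∑ i, ∑ a ∈ (D i).filter (fun a => a ≠ 0),
            (if (∀ j, nr (𝓧 i).H 0 (F j) a) then ∏ j, ω (F j) else 0) := by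
          apply Finset.sum_le_sum_of_subset_of_nonneg (Finset.filter_subset _ _)
          intro F hF _
          refine Finset.sum_nonneg fun i _ => Finset.sum_nonneg fun a _ => ?_
          split_ifs
          · exact hprod F hF
          · exact le_rfl
      _ = _ := by
          rw [Finset.sum_comm]
          refine Finset.sum_congr rfl fun i _ => ?_
          rw [Finset.sum_comm]
          refine Finset.sum_congr rfl fun a _ => ?_
          rw [Finset.sum_filter]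
  refine h1.trans ?_
  rw [Finset.sum_mul]
  refine Finset.sum_le_sum fun i _ => ?_
  set A : ℕ := lvP p r (ρ i) (2 ^ b) with hA
  have hA1 : 1 ≤ A := lvP_pos p r (ρ i) Nat.one_le_two_pow
  have hAr : (1 : ℝ) ≤ A := by exact_mod_cast hA1
  have hCi := hC0 i
  have h5 : ∀ a ∈ (D i).filter (fun a => a ≠ 0),
      ∑ F ∈ (tup Ω p).filter (fun F => ∀ j, nr (𝓧 i).H 0 (F j) a), ∏ j, ω (F j) ≤
        (8 * C i) ^ p * (A : ℝ) ^ (2 * p) := by
    intro a ha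
    obtain ⟨ha1, ha0⟩ := Finset.mem_filter.mp ha
    have h6 := wsum_pow Ω ω (fun o => nr (𝓧 i).H 0 o a) p
    rw [← h6]
    have h7 := adm_nr (𝓧 i) hω 0 ha0
    have h8 := hC i (2 * A) (by omega) a ha1
    push_cast at h8
    calc wsum Ω ω (fun o => nr (𝓧 i).H 0 o a) ^ p ≤ (8 * C i * (A : ℝ) ^ 2) ^ p := by
          apply pow_le_pow_left₀ (wsum_nonneg hω.nonneg _)
          linarith
      _ = _ := by rw [mul_pow, pow_mul]
  have h9 : (((D i).filter (fun a => a ≠ 0)).card : ℝ) ≤ (T' i).card * (5 : ℝ) ^ (ρ i) *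
      (A : ℝ) ^ (ρ i) := by
    have h10 : ((D i).filter (fun a => a ≠ 0)).card ≤ (T' i).card * (2 * (2 * A) + 1) ^ (ρ i) :=
      (Finset.card_filter_le _ _).trans (mx_card (R i) (T' i) (2 * A))
    calc (((D i).filter (fun a => a ≠ 0)).card : ℝ)
        ≤ (((T' i).card * (2 * (2 * A) + 1) ^ (ρ i) : ℕ) : ℝ) := by exact_mod_cast h10
      _ = (T' i).card * (2 * (2 * (A : ℝ)) + 1) ^ (ρ i) := by push_cast; ring
      _ ≤ (T' i).card * (5 * (A : ℝ)) ^ (ρ i) := by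
          gcongr
          linarith
      _ = _ := by rw [mul_pow]; ring
  have h11 := lvP_pow_le (p := p) (r := r) (ρ := ρ i) hp (A := 2 ^ b) Nat.one_le_two_pow
  rw [← hA] at h11
  push_cast at h11
  calc ∑ a ∈ (D i).filter (fun a => a ≠ 0),
        ∑ F ∈ (tup Ω p).filter (fun F => ∀ j, nr (𝓧 i).H 0 (F j) a), ∏ j, ω (F j)
      ≤ ∑ a ∈ (D i).filter (fun a => a ≠ 0), (8 * C i) ^ p * (A : ℝ) ^ (2 * p) :=
        Finset.sum_le_sum h5
    _ = (((D i).filter (fun a => a ≠ 0)).card : ℝ) * ((8 * C i) ^ p * (A : ℝ) ^ (2 * p)) := by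
        rw [Finset.sum_const, nsmul_eq_mul]
    _ ≤ ((T' i).card * (5 : ℝ) ^ (ρ i) * (A : ℝ) ^ (ρ i)) *
          ((8 * C i) ^ p * (A : ℝ) ^ (2 * p)) :=
        mul_le_mul_of_nonneg_right h9 (by positivity)
    _ = ((T' i).card * (5 : ℝ) ^ (ρ i) * (8 * C i) ^ p) * (A : ℝ) ^ (ρ i + 2 * p) := by
        rw [pow_add]
        ring
    _ ≤ ((T' i).card * (5 : ℝ) ^ (ρ i) * (8 * C i) ^ p) *
          (2 ^ (ρ i + 2 * p) * ((2 : ℝ) ^ b) ^ (r + 2 * p)) :=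
        mul_le_mul_of_nonneg_left h11 (by positivity)
    _ = _ := by ring

open Classical in
theorem exists_X {n p r : ℕ} (hp : 1 ≤ p) {G : Fin n → Type*} [∀ i, AddCommGroup (G i)]
    (𝓧 : ∀ i, XSys 𝓟 (G i)) (ρ : Fin n → ℕ) (hρ : ∀ i, r ≤ ρ i) (R : ∀ i, Fin (ρ i) → G i)
    (T T' : ∀ i, Finset (G i)) (h0 : ∀ i, 0 ∈ T' i) (c : ℕ) :
    ∃ (κ : Fin n → ℝ) (κ' : ℝ), (∀ i, 1 ≤ κ i) ∧ 0 ≤ κ' ∧ ∀ m : ℕ,
      (∀ i, ((bx (R i) (T i) (2 ^ m)).card : ℝ) ≤ κ i * ((2 : ℝ) ^ m) ^ (ρ i)) ∧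
      (∀ i, ((bx (R i) (T' i) (2 * 2 ^ m)).card : ℝ) ≤ κ i * ((2 : ℝ) ^ m) ^ (ρ i)) ∧
      ∀ (Ω : Finset (ι × ℝ)) (ω : ι × ℝ → ℝ), Adm 𝓟 Ω ω →
        ∃ (X : (Fin p → ι × ℝ) → ℝ) (Z : Finset (Fin p → ι × ℝ)),
          (∀ F, 0 ≤ X F) ∧
          (∀ i, ∀ F ∈ tup Ω p, (cnt (𝓧 i).H 1 (bx (R i) (T' i) (2 * 2 ^ m)) F : ℝ) ≤
            κ i * ((2 : ℝ) ^ m) ^ (ρ i) * X F) ∧
          (∀ F ∈ tup Ω p, F ∉ Z → X F ≤ 1 / ((2 : ℝ) ^ m) ^ r) ∧
          ∑ F ∈ tup Ω p with F ∈ Z, (∏ j, ω (F j)) * X F ^ (c + 1) ≤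
            κ' * ∑ b ∈ Finset.range (m + 1), ((2 : ℝ) ^ b) ^ (2 * p) / ((2 : ℝ) ^ b) ^ (c * r) := by
  obtain ⟨κ', hκ'0, hκ'⟩ := mx_sum (r := r) hp 𝓧 ρ R T'
  set κ : Fin n → ℝ := fun i => ((T i).card + (T' i).card + 1) * 6 ^ (ρ i) * 2 ^ r with hκ
  have h6 : ∀ i, (1 : ℝ) ≤ 6 ^ (ρ i) := fun i => one_le_pow₀ (by norm_num)
  have h2r : (1 : ℝ) ≤ 2 ^ r := one_le_pow₀ (by norm_num)
  have hκ1 : ∀ i, 1 ≤ κ i := by
    intro i
    have h1 : (1 : ℝ) ≤ (T i).card + (T' i).card + 1 := by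
      have : (0 : ℝ) ≤ (T i).card := Nat.cast_nonneg _
      have : (0 : ℝ) ≤ (T' i).card := Nat.cast_nonneg _
      linarith
    exact one_le_mul_of_one_le_of_one_le (one_le_mul_of_one_le_of_one_le h1 (h6 i)) h2r
  have hbox : ∀ i, ∀ U : Finset (G i), (U.card : ℝ) ≤ (T i).card + (T' i).card + 1 →
      ∀ m N : ℕ, (2 * (N : ℝ) + 1) ≤ 6 * 2 ^ m →
        ((bx (R i) U N).card : ℝ) ≤ κ i * ((2 : ℝ) ^ m) ^ (ρ i) := by
    intro i U hU m N hN
    calc ((bx (R i) U N).card : ℝ) ≤ ((U.card * (2 * N + 1) ^ (ρ i) : ℕ) : ℝ) := by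
          exact_mod_cast mx_card (R i) U N
      _ = U.card * (2 * (N : ℝ) + 1) ^ (ρ i) := by push_cast; ring
      _ ≤ ((T i).card + (T' i).card + 1) * (6 * 2 ^ m) ^ (ρ i) := by
          gcongr
      _ = ((T i).card + (T' i).card + 1) * 6 ^ (ρ i) * 1 * ((2 : ℝ) ^ m) ^ (ρ i) := by
          rw [mul_pow]
          ring
      _ ≤ ((T i).card + (T' i).card + 1) * 6 ^ (ρ i) * 2 ^ r * ((2 : ℝ) ^ m) ^ (ρ i) := by
          gcongr
      _ = _ := by rw [hκ]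
  refine ⟨κ, κ', hκ1, hκ'0, fun m => ?_⟩
  have hm1 : (1 : ℝ) ≤ 2 ^ m := one_le_pow₀ (by norm_num)
  have hb2 : ∀ i, ((bx (R i) (T' i) (2 * 2 ^ m)).card : ℝ) ≤ κ i * ((2 : ℝ) ^ m) ^ (ρ i) := by
    intro i
    refine hbox i _ ?_ m _ ?_
    · have : (0 : ℝ) ≤ (T i).card := Nat.cast_nonneg _
      linarith
    · push_cast
      linarith
  refine ⟨?_, hb2, ?_⟩
  · intro i
    refine hbox i _ ?_ m _ ?_
    · have : (0 : ℝ) ≤ (T' i).card := Nat.cast_nonneg _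
      linarith
    · push_cast
      linarith
  intro Ω ω hω
  have hprod : ∀ F ∈ tup Ω p, 0 ≤ ∏ j, ω (F j) := fun F hF =>
    Finset.prod_nonneg fun j _ => hω.nonneg _ (mem_tup.mp hF j)
  let Bd : (Fin p → ι × ℝ) → ℕ → Prop := fun F b => MxBad p r 𝓧 ρ R T' F b
  let β : (Fin p → ι × ℝ) → ℕ := fun F =>
    if h : ∃ b, b ≤ m ∧ Bd F b then Nat.find h else m
  have hβ1 : ∀ F, (∃ b, b ≤ m ∧ Bd F b) → β F ≤ m ∧ Bd F (β F) ∧
      ∀ b < β F, ¬ Bd F b := by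
    intro F h
    have e : β F = Nat.find h := dif_pos h
    rw [e]
    refine ⟨(Nat.find_spec h).1, (Nat.find_spec h).2, fun b hb hbad => ?_⟩
    exact Nat.find_min h hb ⟨hb.le.trans (Nat.find_spec h).1, hbad⟩
  have hβ2 : ∀ F, ¬ (∃ b, b ≤ m ∧ Bd F b) → β F = m := fun F h => dif_neg h
  refine ⟨fun F => 1 / ((2 : ℝ) ^ (β F)) ^ r,
    (tup Ω p).filter (fun F => ∃ b, b ≤ m ∧ Bd F b), ?_, ?_, ?_, ?_⟩
  · intro F
    positivity
  · intro i F hF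
    show (cnt (𝓧 i).H 1 (bx (R i) (T' i) (2 * 2 ^ m)) F : ℝ) ≤
      κ i * ((2 : ℝ) ^ m) ^ (ρ i) * (1 / ((2 : ℝ) ^ (β F)) ^ r)
    have hTT : ((T' i).card : ℝ) ≤ (T i).card + (T' i).card + 1 := by
      have : (0 : ℝ) ≤ (T i).card := Nat.cast_nonneg _
      linarith
    by_cases hZ : ∃ b, b ≤ m ∧ Bd F b
    · obtain ⟨g1, g2, g3⟩ := hβ1 F hZ
      rcases Nat.eq_zero_or_pos (β F) with hz | hz
      · rw [hz, pow_zero, one_pow, div_one, mul_one]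
        refine le_trans ?_ (hb2 i)
        unfold cnt
        exact_mod_cast Finset.card_filter_le _ _
      · have h1 := mx_cnt hp 𝓧 ρ hρ R T' h0 i (b := β F - 1) (m := m) (by omega) F
          (g3 _ (by omega))
        refine h1.trans ?_
        have h2 : ((2 : ℝ) ^ (β F)) ^ r = ((2 : ℝ) ^ (β F - 1)) ^ r * 2 ^ r := by
          rw [← mul_pow, ← pow_succ]
          congr 2
          omega
        rw [h2]
        have hpos : (0 : ℝ) < ((2 : ℝ) ^ (β F - 1)) ^ r := by positivity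
        have h3 : κ i * ((2 : ℝ) ^ m) ^ (ρ i) * (1 / (((2 : ℝ) ^ (β F - 1)) ^ r * 2 ^ r)) =
            ((T i).card + (T' i).card + 1) * 6 ^ (ρ i) * ((2 : ℝ) ^ m) ^ (ρ i) *
              (1 / ((2 : ℝ) ^ (β F - 1)) ^ r) := by
          rw [hκ]
          field_simp
        rw [h3]
        gcongr
    · rw [hβ2 F hZ]
      have h1 := mx_cnt hp 𝓧 ρ hρ R T' h0 i (b := m) (m := m) le_rfl F
        (fun hbad => hZ ⟨m, le_rfl, hbad⟩)
      refine h1.trans ?_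
      have h3 : ((T' i).card : ℝ) * 6 ^ (ρ i) ≤ κ i := by
        calc ((T' i).card : ℝ) * 6 ^ (ρ i) = ((T' i).card : ℝ) * 6 ^ (ρ i) * 1 := by ring
          _ ≤ ((T i).card + (T' i).card + 1) * 6 ^ (ρ i) * 2 ^ r := by gcongr
          _ = κ i := by rw [hκ]
      gcongr
  · intro F hF hZ
    have h1 : ¬ ∃ b, b ≤ m ∧ Bd F b := fun h => hZ (Finset.mem_filter.mpr ⟨hF, h⟩)
    show 1 / ((2 : ℝ) ^ (β F)) ^ r ≤ 1 / ((2 : ℝ) ^ m) ^ r
    rw [hβ2 F h1]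
  · have h1 : ∀ F ∈ (tup Ω p).filter
        (fun F => F ∈ (tup Ω p).filter (fun F => ∃ b, b ≤ m ∧ Bd F b)),
        (∏ j, ω (F j)) * (1 / ((2 : ℝ) ^ (β F)) ^ r) ^ (c + 1) ≤
          ∑ b ∈ Finset.range (m + 1), if Bd F b then
            (∏ j, ω (F j)) * (1 / ((2 : ℝ) ^ b) ^ r) ^ (c + 1) else 0 := by
      intro F hF
      obtain ⟨hF1, hF2⟩ := Finset.mem_filter.mp hF
      obtain ⟨g1, g2, g3⟩ := hβ1 F (Finset.mem_filter.mp hF2).2
      have hp0 := hprod F hF1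
      have h4 := Finset.single_le_sum (s := Finset.range (m + 1))
        (f := fun b => if Bd F b then
            (∏ j, ω (F j)) * (1 / ((2 : ℝ) ^ b) ^ r) ^ (c + 1) else 0)
        (fun b _ => by
          show 0 ≤ (if Bd F b then (∏ j, ω (F j)) * (1 / ((2 : ℝ) ^ b) ^ r) ^ (c + 1) else 0)
          split_ifs
          · positivity
          · exact le_rfl)
        (Finset.mem_range.mpr (Nat.lt_succ_of_le g1))
      simp only [if_pos g2] at h4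
      exact h4
    calc ∑ F ∈ (tup Ω p).filter
          (fun F => F ∈ (tup Ω p).filter (fun F => ∃ b, b ≤ m ∧ Bd F b)),
          (∏ j, ω (F j)) * (1 / ((2 : ℝ) ^ (β F)) ^ r) ^ (c + 1)
        ≤ ∑ F ∈ (tup Ω p).filter
          (fun F => F ∈ (tup Ω p).filter (fun F => ∃ b, b ≤ m ∧ Bd F b)),
          ∑ b ∈ Finset.range (m + 1), (if Bd F b then
            (∏ j, ω (F j)) * (1 / ((2 : ℝ) ^ b) ^ r) ^ (c + 1) else 0) :=
          Finset.sum_le_sum h1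
      _ ≤ ∑ F ∈ tup Ω p, ∑ b ∈ Finset.range (m + 1), (if Bd F b then
            (∏ j, ω (F j)) * (1 / ((2 : ℝ) ^ b) ^ r) ^ (c + 1) else 0) := by
          apply Finset.sum_le_sum_of_subset_of_nonneg (Finset.filter_subset _ _)
          intro F hF _
          have hp0 := hprod F hF
          refine Finset.sum_nonneg fun b _ => ?_
          split_ifs
          · positivity
          · exact le_rfl
      _ = ∑ b ∈ Finset.range (m + 1), (∑ F ∈ (tup Ω p).filter (fun F => Bd F b),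
            ∏ j, ω (F j)) * (1 / ((2 : ℝ) ^ b) ^ r) ^ (c + 1) := by
          rw [Finset.sum_comm]
          refine Finset.sum_congr rfl fun b _ => ?_
          rw [Finset.sum_filter, Finset.sum_mul]
          refine Finset.sum_congr rfl fun F _ => ?_
          split_ifs
          · rfl
          · rw [zero_mul]
      _ ≤ ∑ b ∈ Finset.range (m + 1), (κ' * ((2 : ℝ) ^ b) ^ (r + 2 * p)) *
            (1 / ((2 : ℝ) ^ b) ^ r) ^ (c + 1) := by
          refine Finset.sum_le_sum fun b _ => ?_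
          exact mul_le_mul_of_nonneg_right (hκ' b Ω ω hω) (by positivity)
      _ = _ := by
          rw [Finset.mul_sum]
          refine Finset.sum_congr rfl fun b _ => ?_
          have hx : ((2 : ℝ) ^ b) ≠ 0 := by positivity
          generalize (2 : ℝ) ^ b = x at hx ⊢
          have h5 : r * (c + 1) = r + c * r := by ring
          rw [one_div, inv_pow, ← pow_mul, h5, pow_add, pow_add x r (c * r)]
          field_simp

end

end Pool.Agent.AG
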