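import Mathlib
import Pool.Agent.AG.Mb
import Pool.Agent.AG.Mx

/-! # Moments in boxes (module Mm) -/

set_option autoImplicit false

open Pool.Agent.H7.Vojta (HtSys box mem_box card_box)

namespace Pool.Agent.AG

/-- The sum that bounds the moments. -/
noncomputable def bsum (p s m : ℕ) : ℝ :=
  ∑ b ∈ Finset.range (m + 1), ((2 : ℝ) ^ b) ^ (2 * p) / ((2 : ℝ) ^ b) ^ s

lemma bsum_nonneg (p s m : ℕ) : 0 ≤ bsum p s m := Finset.sum_nonneg fun b _ => by positivity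

lemma last_le_bsum (p s m : ℕ) : ((2 : ℝ) ^ m) ^ (2 * p) / ((2 : ℝ) ^ m) ^ s ≤ bsum p s m :=
  Finset.single_le_sum (f := fun b => ((2 : ℝ) ^ b) ^ (2 * p) / ((2 : ℝ) ^ b) ^ s)
    (fun b _ => by positivity) (Finset.mem_range.mpr (Nat.lt_succ_self m))

lemma one_le_bsum (p s m : ℕ) : 1 ≤ bsum p s m := by
  have h := Finset.single_le_sum (f := fun b => ((2 : ℝ) ^ b) ^ (2 * p) / ((2 : ℝ) ^ b) ^ s)
    (fun b _ => by positivity) (Finset.mem_range.mpr (Nat.succ_pos m))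
  rw [pow_zero, one_pow, one_pow, div_one] at h
  exact h

section

variable {G : Type*} [AddCommGroup G]

/-- The translations of the differences. -/
noncomputable def dT (T : Finset G) : Finset G := by
  classical
  exact insert 0 ((T ×ˢ T).image fun q => q.1 - q.2)

lemma zero_mem_dT (T : Finset G) : (0 : G) ∈ dT T := by
  classical
  exact Finset.mem_insert_self _ _

lemma zero_mem_box (r M : ℕ) : (0 : Fin r → ℤ) ∈ box r M := by
  rw [mem_box]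
  intro i
  simp

lemma zero_mem_bx {ρ : ℕ} (R : Fin ρ → G) {T : Finset G} (hT : (0 : G) ∈ T) (M : ℕ) :
    (0 : G) ∈ bx R T M :=
  mem_bx.mpr ⟨0, hT, 0, zero_mem_box _ _, by simp⟩

lemma sub_mem_bx {ρ : ℕ} (R : Fin ρ → G) (T : Finset G) (M : ℕ) :
    ∀ x ∈ bx R T M, ∀ y ∈ bx R T M, x - y ∈ bx R (dT T) (2 * M) := by
  classical
  intro x hx y hy
  obtain ⟨s, hs, a, ha, rfl⟩ := mem_bx.mp hx
  obtain ⟨t, ht, b, hb, rfl⟩ := mem_bx.mp hy
  refine mem_bx.mpr ⟨s - t, ?_, a - b, ?_, ?_⟩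
  · exact Finset.mem_insert_of_mem (Finset.mem_image.mpr ⟨(s, t), Finset.mk_mem_product hs ht, rfl⟩)
  · rw [mem_box] at ha hb ⊢
    intro i
    have h1 := ha i
    have h2 := hb i
    rw [Pi.sub_apply]
    push_cast
    rw [abs_le] at h1 h2 ⊢
    constructor <;> linarith
  · simp only [Pi.sub_apply, sub_smul, Finset.sum_sub_distrib]
    abel

/-- Heights in boxes. -/
lemma exists_bx_height {ι : Type*} (𝓗 : HtSys G ι) {ρ : ℕ} (R : Fin ρ → G) (T : Finset G) :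
    ∃ C : ℝ, 1 ≤ C ∧ ∀ M : ℕ, 1 ≤ M → ∀ x ∈ bx R T M, 𝓗.h x ≤ C * (M : ℝ) ^ 2 := by
  classical
  have h1 := fun t => 𝓗.exists_height_le R (-t)
  choose C hC1 hC using h1
  have hC0 : ∀ t, 0 ≤ C t := fun t => by linarith [hC1 t]
  refine ⟨1 + ∑ t ∈ T, C t, by linarith [Finset.sum_nonneg fun t (_ : t ∈ T) => hC0 t],
    fun M hM x hx => ?_⟩
  obtain ⟨t, ht, a, ha, rfl⟩ := mem_bx.mp hx
  have h2 := (hC t M hM a ha).2
  rw [sub_neg_eq_add] at h2
  refine h2.trans ?_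
  apply mul_le_mul_of_nonneg_right _ (by positivity)
  have := Finset.single_le_sum (f := C) (fun t _ => hC0 t) ht
  linarith

end

section

variable {K : Type*} [Field K] {ι : Type*} {𝓟 : PlSys K ι}

open Classical in
theorem exists_box_moment [Nonempty ι] {p : ℕ} (hp : 1 ≤ p) {n D c r : ℕ} {G : Fin n → Type*}
    [∀ i, AddCommGroup (G i)] (𝓧 : ∀ i, XSys 𝓟 (G i)) {J : Type} [Finite J] (f : J → Ten K n D)
    (hf : BigC c f) (ρ : Fin n → ℕ) (hρ : ∀ i, r ≤ ρ i) (R : ∀ i, Fin (ρ i) → G i)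
    (T : ∀ i, Finset (G i)) :
    ∃ (C : ι → ℝ) (E : ℝ), IsCst C ∧ 1 ≤ E ∧ ∀ m : ℕ,
      (∀ P ∈ Fintype.piFinset (fun i => bx (R i) (T i) (2 ^ m)),
        ∀ i, (𝓧 i).H.h (P i) ≤ E * ((2 : ℝ) ^ m) ^ 2) ∧
      ((Fintype.piFinset (fun i => bx (R i) (T i) (2 ^ m))).card : ℝ) ≤
        E * ((2 : ℝ) ^ m) ^ (∑ i, ρ i) ∧
      (((Fintype.piFinset (fun i => bx (R i) (T i) (2 ^ m))).filter fun P =>
        ¬ ∃ j, tev (f j) (fun i => (𝓧 i).ξ (P i)) ≠ 0).card : ℝ) ≤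
        E * ((2 : ℝ) ^ m) ^ (∑ i, ρ i) / ((2 : ℝ) ^ m) ^ ((c + 1) * r) ∧
      ∀ (V : Finset ι) (S₀ : Finset (∀ i, G i)),
        S₀ ⊆ Fintype.piFinset (fun i => bx (R i) (T i) (2 ^ m)) →
        (∀ P ∈ S₀, ∃ j, tev (f j) (fun i => (𝓧 i).ξ (P i)) ≠ 0) →
        ∑ P ∈ S₀, (∑ v ∈ V, 𝓟.w v *
          max 0 (loc 𝓟 v f (fun i => (𝓧 i).ξ (P i)) - Real.log (C v))) ^ p ≤
          E * (((2 : ℝ) ^ m) ^ (∑ i, ρ i) * bsum p (c * r) m) := by
  obtain ⟨C, B, E, hC, hB1, hE0, hB⟩ := exists_claimB hp 𝓧 f hf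
  obtain ⟨Eb, hEb0, hbad⟩ := exists_bad_le 𝓧 f hf
  obtain ⟨κ, κ', hκ1, hκ'0, hX⟩ := exists_X (𝓟 := 𝓟) (r := r) hp 𝓧 ρ hρ R T (fun i => dT (T i))
    (fun i => zero_mem_dT _) c
  have hh1 := fun i => exists_bx_height (𝓧 i).H (R i) (T i)
  choose A hA1 hA using hh1
  have hh2 := fun i => exists_bx_height (𝓧 i).H (R i) (dT (T i))
  choose A' hA'1 hA' using hh2
  have hA0 : ∀ i, 0 ≤ A i := fun i => by linarith [hA1 i]
  have hA'0 : ∀ i, 0 ≤ A' i := fun i => by linarith [hA'1 i]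
  have hκ0 : ∀ i, 0 ≤ κ i := fun i => by linarith [hκ1 i]
  set C_h : ℝ := 1 + ∑ i, (A i + 4 * A' i) with hCh
  have hsum0 : 0 ≤ ∑ i, (A i + 4 * A' i) :=
    Finset.sum_nonneg fun i _ => by linarith [hA0 i, hA'0 i]
  have hCh1 : 1 ≤ C_h := by rw [hCh]; linarith
  have hCh0 : 0 ≤ C_h := by linarith
  have hle : ∀ i, A i + 4 * A' i ≤ C_h := fun i => by
    have := Finset.single_le_sum (f := fun i => A i + 4 * A' i)
      (fun i _ => by linarith [hA0 i, hA'0 i]) (Finset.mem_univ i)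
    rw [hCh]
    linarith
  set Pκ : ℝ := ∏ i, κ i with hPκ
  have hPκ0 : 0 ≤ Pκ := Finset.prod_nonneg fun i _ => hκ0 i
  have hB0 : 0 < B := by linarith
  refine ⟨C, C_h + Pκ + Eb * Pκ + (2 * B) ^ p * (E * Pκ * (C_h ^ p + κ')), hC, ?_, fun m => ?_⟩
  · have : 0 ≤ Pκ + Eb * Pκ + (2 * B) ^ p * (E * Pκ * (C_h ^ p + κ')) := by positivity
    linarith
  have hM1 : (1 : ℝ) ≤ (2 : ℝ) ^ m := one_le_pow₀ (by norm_num)
  have hM0 : (0 : ℝ) < (2 : ℝ) ^ m := by positivity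
  have hMn : 1 ≤ 2 ^ m := Nat.one_le_two_pow
  obtain ⟨hS, hD, hXm⟩ := hX m
  set 𝒮 := Fintype.piFinset (fun i => bx (R i) (T i) (2 ^ m)) with h𝒮
  set Etot : ℝ := C_h + Pκ + Eb * Pκ + (2 * B) ^ p * (E * Pκ * (C_h ^ p + κ')) with hEt
  have hprod : ∏ i, (κ i * ((2 : ℝ) ^ m) ^ (ρ i)) = Pκ * ((2 : ℝ) ^ m) ^ (∑ i, ρ i) := by
    rw [Finset.prod_mul_distrib, Finset.prod_pow_eq_pow_sum]
  have hSh : ∀ i, ∀ x ∈ bx (R i) (T i) (2 ^ m), (𝓧 i).H.h x ≤ C_h * ((2 : ℝ) ^ m) ^ 2 := by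
    intro i x hx
    have h1 := hA i (2 ^ m) hMn x hx
    push_cast at h1
    refine h1.trans (mul_le_mul_of_nonneg_right ?_ (by positivity))
    linarith [hle i, hA'0 i]
  have hDh : ∀ i, ∀ x ∈ bx (R i) (dT (T i)) (2 * 2 ^ m),
      (𝓧 i).H.h x ≤ C_h * ((2 : ℝ) ^ m) ^ 2 := by
    intro i x hx
    have h1 := hA' i (2 * 2 ^ m) (by omega) x hx
    push_cast at h1
    calc _ ≤ _ := h1
      _ = 4 * A' i * ((2 : ℝ) ^ m) ^ 2 := by ring
      _ ≤ _ := mul_le_mul_of_nonneg_right (by linarith [hle i, hA0 i]) (by positivity)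
  have hbs := bsum_nonneg p (c * r) m
  refine ⟨?_, ?_, ?_, ?_⟩
  · intro P hP i
    refine (hSh i _ (Fintype.mem_piFinset.mp hP i)).trans ?_
    apply mul_le_mul_of_nonneg_right _ (by positivity)
    have : 0 ≤ Pκ + Eb * Pκ + (2 * B) ^ p * (E * Pκ * (C_h ^ p + κ')) := by positivity
    rw [hEt]; linarith
  · calc (𝒮.card : ℝ) = ∏ i, ((bx (R i) (T i) (2 ^ m)).card : ℝ) := by
          rw [h𝒮, Fintype.card_piFinset, Nat.cast_prod]
      _ ≤ ∏ i, (κ i * ((2 : ℝ) ^ m) ^ (ρ i)) :=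
          Finset.prod_le_prod (fun i _ => Nat.cast_nonneg _) fun i _ => hS i
      _ = Pκ * ((2 : ℝ) ^ m) ^ (∑ i, ρ i) := hprod
      _ ≤ _ := by
          apply mul_le_mul_of_nonneg_right _ (by positivity)
          have : 0 ≤ Eb * Pκ + (2 * B) ^ p * (E * Pκ * (C_h ^ p + κ')) := by positivity
          rw [hEt]; linarith
  · have h1 := hbad (fun i => bx (R i) (T i) (2 ^ m)) (fun i => bx (R i) (dT (T i)) (2 * 2 ^ m))
      (fun i => κ i * ((2 : ℝ) ^ m) ^ (ρ i)) (1 / ((2 : ℝ) ^ m) ^ r)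
      (fun i => sub_mem_bx (R i) (T i) (2 ^ m)) hS (by positivity) (fun i => by
        rw [mul_one_div, le_div_iff₀ (by positivity), one_mul]
        calc ((2 : ℝ) ^ m) ^ r ≤ ((2 : ℝ) ^ m) ^ (ρ i) := pow_le_pow_right₀ hM1 (hρ i)
          _ ≤ _ := le_mul_of_one_le_left (by positivity) (hκ1 i))
    refine h1.trans ?_
    rw [hprod, div_pow, one_pow, ← pow_mul ((2 : ℝ) ^ m) r (c + 1), mul_comm r (c + 1),
      mul_one_div]
    apply div_le_div_of_nonneg_right _ (by positivity)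
    rw [← mul_assoc]
    apply mul_le_mul_of_nonneg_right _ (by positivity)
    have : 0 ≤ Pκ + (2 * B) ^ p * (E * Pκ * (C_h ^ p + κ')) := by positivity
    rw [hEt]; linarith
  · intro V S₀ hS₀ hS₀f
    obtain ⟨Ω, ω, hadm, hw⟩ := exists_weights 𝓟 V S₀
      (fun v P => max 0 (loc 𝓟 v f (fun i => (𝓧 i).ξ (P i)) - Real.log (C v)))
      (fun v P => le_max_left _ _) hB0
    obtain ⟨X, Z, hX0, hXc, hXx, hXs⟩ := hXm Ω ω hadm
    have hmain := hB Ω ω hadm (fun i => bx (R i) (T i) (2 ^ m))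
      (fun i => bx (R i) (dT (T i)) (2 * 2 ^ m)) (fun i => κ i * ((2 : ℝ) ^ m) ^ (ρ i)) X Z
      (1 / ((2 : ℝ) ^ m) ^ r) (C_h * ((2 : ℝ) ^ m) ^ 2)
      (fun i => sub_mem_bx (R i) (T i) (2 ^ m)) hS hD
      (fun i => zero_mem_bx (R i) (zero_mem_dT _) _) hX0 hXc hXx (by positivity) (fun i => by
        rw [mul_one_div, le_div_iff₀ (by positivity), one_mul]
        calc ((2 : ℝ) ^ m) ^ r ≤ ((2 : ℝ) ^ m) ^ (ρ i) := pow_le_pow_right₀ hM1 (hρ i)
          _ ≤ _ := le_mul_of_one_le_left (by positivity) (hκ1 i))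
      (one_le_mul_of_one_le_of_one_le hCh1 (one_le_pow₀ hM1)) hSh hDh
    rw [hprod] at hmain
    have hpt : ∀ P ∈ S₀, (∑ v ∈ V, 𝓟.w v *
        max 0 (loc 𝓟 v f (fun i => (𝓧 i).ξ (P i)) - Real.log (C v))) ^ p ≤
        (2 * B) ^ p *
          wsum Ω ω (fun o => cl 𝓟 o.1 f (fun i => (𝓧 i).ξ (P i)) < thr B C o) ^ p := by
      intro P hP
      rw [← mul_pow]
      apply pow_le_pow_left₀ (Finset.sum_nonneg fun v _ =>
        mul_nonneg (𝓟.w_nonneg v) (le_max_left _ _))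
      refine (hw P hP).trans (mul_le_mul_of_nonneg_left ?_ (by positivity))
      apply wsum_mono hadm.nonneg
      intro o ho hlt
      have ho2 := hadm.pos o ho
      have hcl : 0 < cl 𝓟 o.1 f (fun i => (𝓧 i).ξ (P i)) :=
        cl_pos o.1 f _ (fun i => zero_lt_one.trans_le ((𝓧 i).one_le_nm o.1 (P i))) (hS₀f P hP)
      have hBo : 0 ≤ B * o.2 := mul_nonneg hB0.le ho2
      have hlC := Real.log_nonneg (hC.1 o.1)
      rcases lt_max_iff.mp hlt with h1 | h1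
      · exact absurd h1 (not_lt.mpr hBo)
      · rw [loc_eq] at h1
        have h2 : B * o.2 + Real.log (C o.1) <
            max 0 (-Real.log (cl 𝓟 o.1 f (fun i => (𝓧 i).ξ (P i)))) := by linarith
        rcases lt_max_iff.mp h2 with h3 | h3
        · exact absurd h3 (not_lt.mpr (by linarith))
        · unfold thr
          rw [← Real.log_lt_iff_lt_exp hcl]
          linarith
    have hsub : S₀ ⊆ 𝒮.filter (fun P => ∃ j, tev (f j) (fun i => (𝓧 i).ξ (P i)) ≠ 0) :=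
      fun P hP => Finset.mem_filter.mpr ⟨hS₀ hP, hS₀f P hP⟩
    have hlast := last_le_bsum p (c * r) m
    calc _ ≤ ∑ P ∈ S₀, (2 * B) ^ p *
            wsum Ω ω (fun o => cl 𝓟 o.1 f (fun i => (𝓧 i).ξ (P i)) < thr B C o) ^ p :=
          Finset.sum_le_sum hpt
      _ = (2 * B) ^ p * ∑ P ∈ S₀,
            wsum Ω ω (fun o => cl 𝓟 o.1 f (fun i => (𝓧 i).ξ (P i)) < thr B C o) ^ p := by
          rw [Finset.mul_sum]
      _ ≤ (2 * B) ^ p * ∑ P ∈ 𝒮 with ∃ j, tev (f j) (fun i => (𝓧 i).ξ (P i)) ≠ 0,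
            wsum Ω ω (fun o => cl 𝓟 o.1 f (fun i => (𝓧 i).ξ (P i)) < thr B C o) ^ p := by
          apply mul_le_mul_of_nonneg_left _ (by positivity)
          apply Finset.sum_le_sum_of_subset_of_nonneg hsub
          intro P _ _
          exact pow_nonneg (wsum_nonneg hadm.nonneg _) _
      _ ≤ (2 * B) ^ p * (E * (Pκ * ((2 : ℝ) ^ m) ^ (∑ i, ρ i)) *
            ((C_h * ((2 : ℝ) ^ m) ^ 2) ^ p * (1 / ((2 : ℝ) ^ m) ^ r) ^ c +
              κ' * bsum p (c * r) m)) := by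
          apply mul_le_mul_of_nonneg_left _ (by positivity)
          refine hmain.trans (mul_le_mul_of_nonneg_left ?_ (by positivity))
          exact add_le_add le_rfl hXs
      _ ≤ (2 * B) ^ p * (E * (Pκ * ((2 : ℝ) ^ m) ^ (∑ i, ρ i)) *
            ((C_h ^ p + κ') * bsum p (c * r) m)) := by
          apply mul_le_mul_of_nonneg_left _ (by positivity)
          apply mul_le_mul_of_nonneg_left _ (by positivity)
          rw [add_mul (C_h ^ p)]
          apply add_le_add _ le_rfl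
          have e1 : (C_h * ((2 : ℝ) ^ m) ^ 2) ^ p * (1 / ((2 : ℝ) ^ m) ^ r) ^ c =
              C_h ^ p * (((2 : ℝ) ^ m) ^ (2 * p) / ((2 : ℝ) ^ m) ^ (c * r)) := by
            rw [mul_pow, ← pow_mul ((2 : ℝ) ^ m) 2 p, div_pow, one_pow, ← pow_mul _ r c,
              mul_comm r c]
            ring
          rw [e1]
          exact mul_le_mul_of_nonneg_left hlast (by positivity)
      _ = (2 * B) ^ p * (E * Pκ * (C_h ^ p + κ')) *
            (((2 : ℝ) ^ m) ^ (∑ i, ρ i) * bsum p (c * r) m) := by ring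
      _ ≤ _ := by
          apply mul_le_mul_of_nonneg_right _ (by positivity)
          have : 0 ≤ C_h + Pκ + Eb * Pκ := by positivity
          rw [hEt]; linarith

end

end Pool.Agent.AG
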