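import Mathlib
import Pool.Agent.AG.Mm
import Pool.Agent.AG.LD

/-! # Moments of the height with respect to `Y` (module Mh) -/

set_option autoImplicit false

open MvPolynomial WeierstrassCurve WeierstrassCurve.Affine
open Pool.Agent.GE (coords MultiHom DimLE wt)
open Pool.Agent.H7.Vojta (HtSys box mem_box exists_basis_mod_finite)

namespace Pool.Agent.AG

universe u

/-- The growth of the moments: `1`, `1 + log H` or `H ^ ((a - s) / 2)`. -/
noncomputable def gr (a s : ℕ) (H : ℝ) : ℝ :=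
  if a < s then 1 else if a = s then 1 + Real.log H else H ^ (((a : ℝ) - s) / 2)

lemma one_le_gr (a s : ℕ) {H : ℝ} (hH : 1 ≤ H) : 1 ≤ gr a s H := by
  unfold gr
  split_ifs with h1 h2
  · exact le_rfl
  · have := Real.log_nonneg hH
    linarith
  · apply Real.one_le_rpow hH
    have : (s : ℝ) ≤ a := by exact_mod_cast Nat.le_of_not_lt h1
    linarith

lemma bsum_le {p s m : ℕ} {Λ H : ℝ} (hΛ : 1 ≤ Λ) (hH : 1 ≤ H) (hM : (2 : ℝ) ^ m ≤ Λ * √H) :
    bsum p s m ≤ (4 + 4 * Real.log Λ + 2 * Λ ^ (2 * p)) * gr (2 * p) s H := by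
  have hlΛ : 0 ≤ Real.log Λ := Real.log_nonneg hΛ
  have hlH : 0 ≤ Real.log H := Real.log_nonneg hH
  have hH0 : 0 < H := by linarith
  have hΛp : 0 ≤ Λ ^ (2 * p) := by positivity
  have hg := one_le_gr (2 * p) s hH
  rcases lt_trichotomy (2 * p) s with h | h | h
  · have hgr : gr (2 * p) s H = 1 := by rw [gr, if_pos h]
    have h1 : bsum p s m ≤ 2 := by
      unfold bsum
      calc _ ≤ ∑ b ∈ Finset.range (m + 1), (1 / 2 : ℝ) ^ b := by
            refine Finset.sum_le_sum fun b _ => ?_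
            have h3 : (1 : ℝ) ≤ (2 : ℝ) ^ b := one_le_pow₀ (by norm_num)
            rw [div_le_iff₀ (by positivity), one_div, inv_pow, ← div_eq_inv_mul,
              le_div_iff₀ (by positivity), ← pow_succ]
            exact pow_le_pow_right₀ h3 (by omega)
        _ ≤ 2 := by
            have := geom_sum_eq (x := (1 / 2 : ℝ)) (by norm_num) (m + 1)
            rw [this]
            have h5 : (0 : ℝ) ≤ (1 / 2 : ℝ) ^ (m + 1) := by positivity
            rw [div_le_iff_of_neg (by norm_num)]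
            linarith
    rw [hgr]
    linarith
  · have hgr : gr (2 * p) s H = 1 + Real.log H := by
      rw [gr, if_neg (by omega), if_pos h]
    have h1 : bsum p s m = m + 1 := by
      unfold bsum
      rw [h]
      have : ∀ b ∈ Finset.range (m + 1), ((2 : ℝ) ^ b) ^ s / ((2 : ℝ) ^ b) ^ s = 1 :=
        fun b _ => div_self (by positivity)
      rw [Finset.sum_congr rfl this]
      simp
    have h2 : (m : ℝ) * Real.log 2 ≤ Real.log Λ + Real.log H / 2 := by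
      have h3 := Real.log_le_log (by positivity) hM
      rwa [Real.log_pow, Real.log_mul (by positivity) (by positivity), Real.log_sqrt hH0.le] at h3
    have h3 : (m : ℝ) ≤ 2 * Real.log Λ + Real.log H := by
      have := Real.log_two_gt_d9
      nlinarith [Nat.cast_nonneg (α := ℝ) m]
    rw [hgr, h1]
    nlinarith [mul_nonneg hlΛ hlH, mul_nonneg hΛp hlH]
  · have hgr : gr (2 * p) s H = H ^ ((((2 * p : ℕ) : ℝ) - s) / 2) := by
      rw [gr, if_neg (by omega), if_neg (by omega)]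
    obtain ⟨d, hd⟩ : ∃ d, 2 * p = s + (d + 1) := ⟨2 * p - s - 1, by omega⟩
    have h1 : bsum p s m ≤ 2 * ((2 : ℝ) ^ m) ^ (d + 1) := by
      unfold bsum
      have hx2 : (2 : ℝ) ≤ (2 : ℝ) ^ (d + 1) := by
        calc (2 : ℝ) = 2 ^ 1 := (pow_one _).symm
          _ ≤ _ := pow_le_pow_right₀ (by norm_num) (by omega)
      calc _ = ∑ b ∈ Finset.range (m + 1), ((2 : ℝ) ^ (d + 1)) ^ b := by
            refine Finset.sum_congr rfl fun b _ => ?_
            rw [hd, pow_add ((2 : ℝ) ^ b) s, mul_div_cancel_left₀ _ (by positivity), ← pow_mul,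
              ← pow_mul, mul_comm]
        _ = (((2 : ℝ) ^ (d + 1)) ^ (m + 1) - 1) / ((2 : ℝ) ^ (d + 1) - 1) :=
            geom_sum_eq (by linarith) _
        _ ≤ 2 * ((2 : ℝ) ^ (d + 1)) ^ m := by
            rw [div_le_iff₀ (by linarith), pow_succ]
            have h5 : (0 : ℝ) < ((2 : ℝ) ^ (d + 1)) ^ m := by positivity
            nlinarith
        _ = _ := by rw [← pow_mul, ← pow_mul, Nat.mul_comm (d + 1) m]
    have h2 : ((2 : ℝ) ^ m) ^ (d + 1) ≤ Λ ^ (2 * p) * H ^ ((((2 * p : ℕ) : ℝ) - s) / 2) := by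
      calc ((2 : ℝ) ^ m) ^ (d + 1) ≤ (Λ * √H) ^ (d + 1) :=
            pow_le_pow_left₀ (by positivity) hM _
        _ = Λ ^ (d + 1) * H ^ ((((2 * p : ℕ) : ℝ) - s) / 2) := by
            rw [mul_pow, Real.sqrt_eq_rpow, ← Real.rpow_natCast (H ^ (1 / 2 : ℝ)),
              ← Real.rpow_mul hH0.le, hd]
            congr 2
            push_cast
            ring
        _ ≤ _ := by
            apply mul_le_mul_of_nonneg_right _ (by positivity)
            exact pow_le_pow_right₀ hΛ (by omega)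
    rw [hgr]
    have h3 : 0 ≤ H ^ ((((2 * p : ℕ) : ℝ) - s) / 2) := by positivity
    nlinarith [mul_nonneg hlΛ h3]

section

variable {K : Type u} [Field K] {ι : Type*} {𝓟 : PlSys K ι}

variable {n : ℕ} (W : Fin n → Affine K) {t : ℕ}
  (F : Fin t → MvPolynomial (Fin n × Fin 3) K) (Dg : Fin t → Fin n → ℕ)

/-- The moments of the height with respect to `Y`. -/
theorem exists_moment [DecidableEq K] [Nonempty ι] {m' c : ℕ} (hmc : m' + c + 1 ≤ n)
    (𝓧 : ∀ i, XSys 𝓟 (W i).Point)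
    (hξ : ∀ i P, (𝓧 i).ξ P = P.xRep) (Γ : ∀ i, AddSubgroup (W i).Point)
    (hΓ : ∀ i, (Γ i).FG) {r : ℕ} (hrank : ∀ i, r ≤ Module.finrank ℤ (Γ i))
    (hF : ∀ j, MultiHom (F j) (Dg j)) (hdim : DimLE (centreIdeal W F) m') {p : ℕ} (hp : 1 ≤ p) :
    ∃ C : ℝ, 0 ≤ C ∧ ∀ H : ℝ, 1 ≤ H → ∀ S₀ : Finset (∀ i, (W i).Point),
      (∀ P ∈ S₀, (∀ i, P i ∈ Γ i) ∧ Off W F P ∧ ∑ i, (𝓧 i).H.h (P i) ≤ H) →
      (S₀.card : ℝ) ≤ C * H ^ (((∑ i, Module.finrank ℤ (Γ i) : ℕ) : ℝ) / 2) ∧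
      ∑ P ∈ S₀, max 0 (hY 𝓟 W F Dg P) ^ p ≤
        C * (H ^ (((∑ i, Module.finrank ℤ (Γ i) : ℕ) : ℝ) / 2) * gr (2 * p) (c * r) H) := by
  classical
  set ρ : Fin n → ℕ := fun i => Module.finrank ℤ (Γ i) with hρ
  -- the boxes
  have hb := fun i => exists_basis_mod_finite (Γ i) (hΓ i)
  choose R T hR hT using hb
  have hL := fun i => exists_box (𝓧 i) (R i) (hR i) (T i)
  choose L hL1 hL using hL
  -- the forms
  obtain ⟨D, N, f, hBig, hfI⟩ := exists_formsC hmc W (centreIdeal W F) hdim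
  obtain ⟨C₁, hC₁, hvalC⟩ := exists_common (ι := ι) (α := Fin N)
    (Φ := fun j v c => ∀ P : ∀ i, (W i).Point,
      hval 𝓟 v (f j) (fun i => (P i).xRep) ≤ c * closeness W F Dg P (𝓟.av v))
    (fun j v c c' h h1 P => (h1 P).trans (mul_le_mul_of_nonneg_right h
      (Real.iSup_nonneg fun j => div_nonneg ((𝓟.av v).nonneg _)
        (prod_coords_pos 𝓟 W v P _).le)))
    (fun j => exists_hval_le_closeness 𝓟 W F Dg hF (f j) (hfI j))
  obtain ⟨κ₁, hκ₁0, hκ₁⟩ := exists_sum_log_le 𝓟 hC₁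
  obtain ⟨C₂, E, hC₂, hE1, hbox⟩ := exists_box_moment (𝓟 := 𝓟) (r := r) hp 𝓧 f hBig ρ hrank R T
  obtain ⟨κ₂, hκ₂0, hκ₂⟩ := exists_sum_log_le 𝓟 hC₂
  obtain ⟨C₄, hC₄0, hclos⟩ := exists_sum_closeness_le 𝓟 W F Dg
  have hi₀ : Nonempty (Fin n) := ⟨⟨0, by omega⟩⟩
  set L₀ : ℝ := ∑ i, L i with hL₀
  have hLL₀ : ∀ i, L i ≤ L₀ := fun i => Finset.single_le_sum (f := L)
    (fun i _ => by linarith [hL1 i]) (Finset.mem_univ i)
  have hL₀1 : 1 ≤ L₀ := (hL1 hi₀.some).trans (hLL₀ _)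
  have hL₀0 : 0 < L₀ := by linarith
  have hE0 : 0 ≤ E := by linarith
  set ρs : ℕ := ∑ i, ρ i with hρs
  set b : ℝ := κ₁ + κ₂ with hb
  have hb0 : 0 ≤ b := add_nonneg hκ₁0 hκ₂0
  set Q : ℝ := C₄ * (n * E + 1) with hQ
  have hQ0 : 0 ≤ Q := by positivity
  set E₁ : ℝ := E + 2 ^ p * (b ^ p * E + E) + E * Q ^ p with hE₁
  have hE₁0 : 0 ≤ E₁ := by positivity
  set κ : ℝ := 4 + 4 * Real.log (2 * L₀) + 2 * (2 * L₀) ^ (2 * p) with hκ
  have hl2L : 0 ≤ Real.log (2 * L₀) := Real.log_nonneg (by linarith)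
  have hκ1 : 1 ≤ κ := by
    have : 0 ≤ (2 * L₀) ^ (2 * p) := by positivity
    rw [hκ]; linarith
  have hκ0 : 0 ≤ κ := by linarith
  refine ⟨E₁ * (2 * L₀) ^ ρs * κ, by positivity, ?_⟩
  intro H hH S₀ hS₀
  have hH0 : 0 < H := by linarith
  have hsH : 1 ≤ √H := by
    rw [Real.le_sqrt' one_pos]; linarith
  have hLs1 : 1 ≤ L₀ * √H := one_le_mul_of_one_le_of_one_le hL₀1 hsH
  -- the box
  obtain ⟨m₀, hm1, hm2⟩ := exists_nat_pow_near hLs1 (by norm_num : (1 : ℝ) < 2)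
  set m : ℕ := m₀ + 1 with hm
  have hML : L₀ * √H ≤ (2 : ℝ) ^ m := hm2.le
  have hMU : (2 : ℝ) ^ m ≤ 2 * L₀ * √H := by
    rw [hm, pow_succ]
    linarith
  have hM0 : (0 : ℝ) < (2 : ℝ) ^ m := by positivity
  have hM1 : (1 : ℝ) ≤ (2 : ℝ) ^ m := one_le_pow₀ (by norm_num)
  obtain ⟨hht, hcard, hbadc, hgoodm⟩ := hbox m
  set 𝒮 := Fintype.piFinset (fun i => bx (R i) (T i) (2 ^ m)) with h𝒮
  have hsub : S₀ ⊆ 𝒮 := by
    intro P hP
    obtain ⟨hPΓ, -, hPH⟩ := hS₀ P hP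
    rw [h𝒮, Fintype.mem_piFinset]
    intro i
    obtain ⟨a, s, hs, hPi⟩ := hT i (P i) (hPΓ i)
    have h1 : (𝓧 i).H.h (∑ j, a j • R i j + s) ≤ H := by
      rw [← hPi]
      exact (Finset.single_le_sum (f := fun i => (𝓧 i).H.h (P i))
        (fun i _ => (𝓧 i).H.h_nonneg _) (Finset.mem_univ i)).trans hPH
    have h2 := hL i H hH a s hs h1 (2 ^ m) (by
      push_cast
      refine le_trans ?_ hML
      exact mul_le_mul_of_nonneg_right (hLL₀ i) (Real.sqrt_nonneg _))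
    rw [hPi]
    exact mem_bx.mpr ⟨s, hs, a, h2, rfl⟩
  have hxi : ∀ P : ∀ i, (W i).Point, (fun i => (𝓧 i).ξ (P i)) = fun i => (P i).xRep := by
    intro P
    funext i
    exact hξ i (P i)
  have hMρ : ((2 : ℝ) ^ m) ^ ρs ≤ (2 * L₀) ^ ρs * H ^ ((ρs : ℝ) / 2) :=
    pow_le_rpow hH hM0.le hMU ρs
  have hbs := bsum_le (p := p) (s := c * r) (m := m) (Λ := 2 * L₀) (by linarith) hH hMU
  rw [← hκ] at hbs
  have hg := one_le_gr (2 * p) (c * r) hH
  have hS₀card : (S₀.card : ℝ) ≤ E * ((2 : ℝ) ^ m) ^ ρs := by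
    refine le_trans ?_ hcard
    exact_mod_cast Finset.card_le_card hsub
  refine ⟨?_, ?_⟩
  · calc (S₀.card : ℝ) ≤ E * ((2 : ℝ) ^ m) ^ ρs := hS₀card
      _ ≤ E₁ * ((2 * L₀) ^ ρs * H ^ ((ρs : ℝ) / 2)) := by
          apply mul_le_mul _ hMρ (by positivity) hE₁0
          have : 0 ≤ 2 ^ p * (b ^ p * E + E) + E * Q ^ p := by positivity
          rw [hE₁]; linarith
      _ ≤ E₁ * ((2 * L₀) ^ ρs * H ^ ((ρs : ℝ) / 2)) * κ :=
          le_mul_of_one_le_right (by positivity) hκ1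
      _ = _ := by ring
  -- the finite set of places
  have hVfin : (⋃ P ∈ (S₀ : Set (∀ i, (W i).Point)),
      {v | closeness W F Dg P (𝓟.av v) ≠ 1}).Finite :=
    Set.Finite.biUnion S₀.finite_toSet fun P hP => closeness_fin 𝓟 W F Dg P (hS₀ P hP).2.1
  set V := hVfin.toFinset with hVdef
  have hV : ∀ P ∈ S₀, ∀ v, closeness W F Dg P (𝓟.av v) ≠ 1 → v ∈ V := by
    intro P hP v hv
    rw [hVdef, Set.Finite.mem_toFinset, Set.mem_iUnion₂]
    exact ⟨P, hP, hv⟩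
  rw [← Finset.sum_filter_add_sum_filter_not S₀
    (fun P => ∃ j, tev (f j) (fun i => (𝓧 i).ξ (P i)) ≠ 0)]
  set good := S₀.filter (fun P => ∃ j, tev (f j) (fun i => (𝓧 i).ξ (P i)) ≠ 0) with hgooddef
  set bad := S₀.filter (fun P => ¬ ∃ j, tev (f j) (fun i => (𝓧 i).ξ (P i)) ≠ 0) with hbaddef
  have hbsn := bsum_nonneg p (c * r) m
  have hbs1 := one_le_bsum p (c * r) m
  set BS := bsum p (c * r) m with hBS
  -- good points
  have hgood : ∑ P ∈ good, max 0 (hY 𝓟 W F Dg P) ^ p ≤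
      2 ^ p * (b ^ p * E + E) * (((2 : ℝ) ^ m) ^ ρs * BS) := by
    have h1 : ∀ P ∈ good, max 0 (hY 𝓟 W F Dg P) ^ p ≤
        2 ^ p * (b ^ p + (∑ v ∈ V, 𝓟.w v *
          max 0 (loc 𝓟 v f (fun i => (𝓧 i).ξ (P i)) - Real.log (C₂ v))) ^ p) := by
      intro P hP
      obtain ⟨hPS, j, hj⟩ := Finset.mem_filter.mp hP
      have hX0 : 0 ≤ ∑ v ∈ V, 𝓟.w v *
          max 0 (loc 𝓟 v f (fun i => (𝓧 i).ξ (P i)) - Real.log (C₂ v)) :=
        Finset.sum_nonneg fun v _ => mul_nonneg (𝓟.w_nonneg v) (le_max_left _ _)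
      refine le_trans ?_ (add_pow_le' hb0 hX0 p)
      apply pow_le_pow_left₀ (le_max_left _ _)
      apply max_le (add_nonneg hb0 hX0)
      have hpt : ∀ v, -Real.log (closeness W F Dg P (𝓟.av v)) ≤ Real.log (C₁ v) +
          Real.log (C₂ v) +
          max 0 (loc 𝓟 v f (fun i => (𝓧 i).ξ (P i)) - Real.log (C₂ v)) := by
        intro v
        have hcl := closeness_pos 𝓟 W F Dg v P (hS₀ P hPS).2.1
        have hC0 := hC₁.pos v
        have hNe : Nonempty (Fin N) := ⟨j⟩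
        have h2 : cl 𝓟 v f (fun i => (𝓧 i).ξ (P i)) ≤
            C₁ v * closeness W F Dg P (𝓟.av v) := by
          apply ciSup_le
          intro j
          rw [hxi]
          exact hvalC j v P
        have h3 : 0 < cl 𝓟 v f (fun i => (𝓧 i).ξ (P i)) :=
          cl_pos v f _ (fun i => zero_lt_one.trans_le ((𝓧 i).one_le_nm v (P i))) ⟨j, hj⟩
        have h4 := Real.log_le_log h3 h2
        rw [Real.log_mul hC0.ne' hcl.ne'] at h4
        have h5 : -Real.log (cl 𝓟 v f (fun i => (𝓧 i).ξ (P i))) ≤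
            loc 𝓟 v f (fun i => (𝓧 i).ξ (P i)) := le_max_right _ _
        have h6 := le_max_right 0 (loc 𝓟 v f (fun i => (𝓧 i).ξ (P i)) - Real.log (C₂ v))
        linarith
      rw [hY_eq W F Dg P V (hV P hPS)]
      calc _ ≤ ∑ v ∈ V, 𝓟.w v * (Real.log (C₁ v) + Real.log (C₂ v) +
            max 0 (loc 𝓟 v f (fun i => (𝓧 i).ξ (P i)) - Real.log (C₂ v))) :=
            Finset.sum_le_sum fun v _ => mul_le_mul_of_nonneg_left (hpt v) (𝓟.w_nonneg v)
        _ = ∑ v ∈ V, 𝓟.w v * Real.log (C₁ v) + ∑ v ∈ V, 𝓟.w v * Real.log (C₂ v) +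
            ∑ v ∈ V, 𝓟.w v *
              max 0 (loc 𝓟 v f (fun i => (𝓧 i).ξ (P i)) - Real.log (C₂ v)) := by
            simp only [mul_add, Finset.sum_add_distrib]
        _ ≤ _ := add_le_add (add_le_add (hκ₁ V) (hκ₂ V)) le_rfl
    have h2 := hgoodm V good ((Finset.filter_subset _ _).trans hsub)
      (fun P hP => (Finset.mem_filter.mp hP).2)
    calc _ ≤ ∑ P ∈ good, 2 ^ p * (b ^ p + (∑ v ∈ V, 𝓟.w v *
          max 0 (loc 𝓟 v f (fun i => (𝓧 i).ξ (P i)) - Real.log (C₂ v))) ^ p) :=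
          Finset.sum_le_sum h1
      _ = 2 ^ p * (good.card * b ^ p + ∑ P ∈ good, (∑ v ∈ V, 𝓟.w v *
          max 0 (loc 𝓟 v f (fun i => (𝓧 i).ξ (P i)) - Real.log (C₂ v))) ^ p) := by
          rw [← Finset.mul_sum, Finset.sum_add_distrib, Finset.sum_const, nsmul_eq_mul]
      _ ≤ 2 ^ p * ((E * ((2 : ℝ) ^ m) ^ ρs) * b ^ p * BS + E * (((2 : ℝ) ^ m) ^ ρs * BS)) := by
          apply mul_le_mul_of_nonneg_left _ (by positivity)
          apply add_le_add _ h2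
          calc (good.card : ℝ) * b ^ p ≤ (E * ((2 : ℝ) ^ m) ^ ρs) * b ^ p := by
                apply mul_le_mul_of_nonneg_right _ (by positivity)
                refine le_trans ?_ hS₀card
                exact_mod_cast Finset.card_le_card (Finset.filter_subset _ _)
            _ ≤ _ := le_mul_of_one_le_right (by positivity) hbs1
      _ = _ := by ring
  -- bad points
  have hbad : ∑ P ∈ bad, max 0 (hY 𝓟 W F Dg P) ^ p ≤
      E * Q ^ p * (((2 : ℝ) ^ m) ^ ρs * BS) := by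
    have h1 : ∀ P ∈ bad, max 0 (hY 𝓟 W F Dg P) ^ p ≤ (Q * ((2 : ℝ) ^ m) ^ 2) ^ p := by
      intro P hP
      have hPS := (Finset.mem_filter.mp hP).1
      have hP𝒮 := hsub hPS
      have h2 := hclos P (fun i => (𝓧 i).H.h (P i)) (fun i => (𝓧 i).H.h_nonneg _)
        (fun i => by rw [← hξ]; exact (𝓧 i).ξ_fin (P i))
        (fun i V hV => by
          have := (𝓧 i).ht (P i) V (fun v hv => hV v (by rwa [← hξ]))
          rwa [hξ] at this)
        (hS₀ P hPS).2.1 V (hV P hPS)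
      rw [← hY_eq W F Dg P V (hV P hPS)] at h2
      have h3 : ∑ i, (𝓧 i).H.h (P i) ≤ n * E * ((2 : ℝ) ^ m) ^ 2 := by
        calc ∑ i, (𝓧 i).H.h (P i) ≤ ∑ _i : Fin n, E * ((2 : ℝ) ^ m) ^ 2 :=
              Finset.sum_le_sum fun i _ => hht P hP𝒮 i
          _ = _ := by
              rw [Finset.sum_const, Finset.card_univ, Fintype.card_fin, nsmul_eq_mul]
              ring
      apply pow_le_pow_left₀ (le_max_left _ _)
      apply max_le (by positivity)
      refine h2.trans ?_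
      have hM2 : (1 : ℝ) ≤ ((2 : ℝ) ^ m) ^ 2 := one_le_pow₀ hM1
      calc C₄ * (∑ i, (𝓧 i).H.h (P i) + 1) ≤
            C₄ * (n * E * ((2 : ℝ) ^ m) ^ 2 + ((2 : ℝ) ^ m) ^ 2) := by
            apply mul_le_mul_of_nonneg_left _ hC₄0
            linarith
        _ = _ := by rw [hQ]; ring
    have h2 : (bad.card : ℝ) ≤ E * ((2 : ℝ) ^ m) ^ ρs / ((2 : ℝ) ^ m) ^ (c * r) := by
      calc (bad.card : ℝ) ≤ ((𝒮.filter fun P =>
            ¬ ∃ j, tev (f j) (fun i => (𝓧 i).ξ (P i)) ≠ 0).card : ℝ) := by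
            exact_mod_cast Finset.card_le_card (Finset.filter_subset_filter _ hsub)
        _ ≤ E * ((2 : ℝ) ^ m) ^ ρs / ((2 : ℝ) ^ m) ^ ((c + 1) * r) := by
            refine le_trans (le_of_eq ?_) hbadc
            congr!
        _ ≤ _ := by
            apply div_le_div_of_nonneg_left (by positivity) (by positivity)
            exact pow_le_pow_right₀ hM1 (Nat.mul_le_mul_right _ (by omega))
    calc _ ≤ ∑ _P ∈ bad, (Q * ((2 : ℝ) ^ m) ^ 2) ^ p := Finset.sum_le_sum h1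
      _ = bad.card * (Q * ((2 : ℝ) ^ m) ^ 2) ^ p := by rw [Finset.sum_const, nsmul_eq_mul]
      _ ≤ (E * ((2 : ℝ) ^ m) ^ ρs / ((2 : ℝ) ^ m) ^ (c * r)) * (Q * ((2 : ℝ) ^ m) ^ 2) ^ p :=
          mul_le_mul_of_nonneg_right h2 (by positivity)
      _ = E * Q ^ p * (((2 : ℝ) ^ m) ^ ρs *
            (((2 : ℝ) ^ m) ^ (2 * p) / ((2 : ℝ) ^ m) ^ (c * r))) := by
          rw [mul_pow, ← pow_mul ((2 : ℝ) ^ m) 2 p]
          ring
      _ ≤ _ := by
          apply mul_le_mul_of_nonneg_left _ (by positivity)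
          exact mul_le_mul_of_nonneg_left (last_le_bsum p (c * r) m) (by positivity)
  calc _ ≤ 2 ^ p * (b ^ p * E + E) * (((2 : ℝ) ^ m) ^ ρs * BS) +
        E * Q ^ p * (((2 : ℝ) ^ m) ^ ρs * BS) := add_le_add hgood hbad
    _ ≤ E₁ * (((2 : ℝ) ^ m) ^ ρs * BS) := by
        rw [← add_mul]
        apply mul_le_mul_of_nonneg_right _ (by positivity)
        rw [hE₁]
        linarith
    _ ≤ E₁ * (((2 * L₀) ^ ρs * H ^ ((ρs : ℝ) / 2)) * (κ * gr (2 * p) (c * r) H)) := by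
        apply mul_le_mul_of_nonneg_left _ hE₁0
        exact mul_le_mul hMρ hbs hbsn (by positivity)
    _ = _ := by ring

end

end Pool.Agent.AG
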