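import Mathlib
import Pool.Agent.AG.Mh

/-! # The number of exceptions (module Me) -/

set_option autoImplicit false

open MvPolynomial WeierstrassCurve WeierstrassCurve.Affine
open Pool.Agent.GE (coords MultiHom DimLE wt)

namespace Pool.Agent.AG

universe u

/-- The exponent of the growth. -/
noncomputable def grE (a s : ℕ) : ℝ := if s < a then ((a : ℝ) - s) / 2 else 0

lemma gr_eq (a s : ℕ) (H : ℝ) : gr a s H = (if a = s then 1 + Real.log H else 1) * H ^ grE a s := by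
  unfold gr grE
  rcases lt_trichotomy a s with h | h | h
  · rw [if_pos h, if_neg (by omega), if_neg (by omega), Real.rpow_zero, one_mul]
  · rw [if_neg (by omega), if_pos h, if_pos h, if_neg (by omega), Real.rpow_zero, mul_one]
  · rw [if_neg (by omega), if_neg (by omega), if_neg (by omega), if_pos h, one_mul]

section

variable {K : Type u} [Field K] {ι : Type*} {𝓟 : PlSys K ι}

variable {n : ℕ} (W : Fin n → Affine K) {t : ℕ}
  (F : Fin t → MvPolynomial (Fin n × Fin 3) K) (Dg : Fin t → Fin n → ℕ)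

theorem exists_exceptions' [DecidableEq K] [Nonempty ι] {m c : ℕ} (hmc : m + c + 1 ≤ n)
    (𝓧 : ∀ i, XSys 𝓟 (W i).Point)
    (hξ : ∀ i P, (𝓧 i).ξ P = P.xRep) (Γ : ∀ i, AddSubgroup (W i).Point)
    (hΓ : ∀ i, (Γ i).FG) {r : ℕ} (hr : 1 ≤ r) (hrank : ∀ i, r ≤ Module.finrank ℤ (Γ i))
    (hF : ∀ j, MultiHom (F j) (Dg j)) (hdim : DimLE (centreIdeal W F) m) {p : ℕ} (hp : 1 ≤ p)
    {ε β : ℝ} (hε : 0 < ε) (hβ0 : 0 ≤ β) (hβ1 : β ≤ 1) :
    ∃ C : ℝ, 0 ≤ C ∧ ∀ H : ℝ, 1 ≤ H → (excSet W F Dg 𝓟 𝓧 Γ ε β H).Finite ∧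
      ((excSet W F Dg 𝓟 𝓧 Γ ε β H).ncard : ℝ) ≤
        C * (H ^ (((∑ i, Module.finrank ℤ (Γ i) : ℕ) : ℝ) / 2 - β * p) * gr (2 * p) (c * r) H) := by
  classical
  obtain ⟨C₁, hC₁0, hmom⟩ := exists_moment W F Dg hmc 𝓧 hξ Γ hΓ hrank hF hdim hp
  have hρge := sum_finrank_ge W hmc Γ hrank
  set ρ : ℕ := ∑ i, Module.finrank ℤ (Γ i) with hρ
  have hr1 : (1 : ℝ) ≤ r := by exact_mod_cast hr
  have hρr : ((c : ℝ) + 1) * r ≤ ρ := by exact_mod_cast hρge
  have hp1 : (1 : ℝ) ≤ p := by exact_mod_cast hp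
  have hp0 : (0 : ℝ) ≤ p := by linarith
  set e₀ : ℝ := (ρ : ℝ) / 2 - β * p with he₀
  set e : ℝ := e₀ + grE (2 * p) (c * r) with he
  set lg : ℝ → ℝ := fun H => if 2 * p = c * r then 1 + Real.log H else 1 with hlg
  set g : ℝ → ℝ := fun H => lg H * H ^ e with hg
  have hgeq : ∀ H : ℝ, 1 ≤ H → H ^ e₀ * gr (2 * p) (c * r) H = g H := by
    intro H hH
    have hH0 : 0 < H := by linarith
    have h1 : g H = lg H * H ^ (e₀ + grE (2 * p) (c * r)) := rfl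
    have h2 : lg H = if 2 * p = c * r then 1 + Real.log H else 1 := rfl
    rw [gr_eq, h1, Real.rpow_add hH0, h2]
    ring
  have he' : 1 / 6 ≤ e := by
    have hβp : β * p ≤ p := mul_le_of_le_one_left hp0 hβ1
    rw [he, he₀]
    unfold grE
    split_ifs with h
    · push_cast
      have : (((2 * p : ℕ) : ℝ)) = 2 * p := by push_cast; ring
      nlinarith
    · have h1 : ((2 * p : ℕ) : ℝ) ≤ ((c * r : ℕ) : ℝ) := by exact_mod_cast Nat.le_of_not_lt h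
      push_cast at h1
      nlinarith
  have hlg1 : ∀ H : ℝ, 1 ≤ H → 1 ≤ lg H := by
    intro H hH
    rw [hlg]
    simp only
    split_ifs
    · have := Real.log_nonneg hH
      linarith
    · exact le_rfl
  have hlgm : ∀ H : ℝ, 2 ≤ H → lg (H / 2) ≤ lg H := by
    intro H hH
    rw [hlg]
    simp only
    split_ifs
    · have : Real.log (H / 2) ≤ Real.log H := Real.log_le_log (by positivity) (by linarith)
      linarith
    · exact le_rfl
  have hg0 : ∀ H : ℝ, 1 ≤ H → 1 ≤ g H := fun H hH =>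
    one_le_mul_of_one_le_of_one_le (hlg1 H hH) (Real.one_le_rpow hH (by linarith))
  have hghalf : ∀ H : ℝ, 2 ≤ H → g (H / 2) ≤ (1 / 2 : ℝ) ^ (1 / 6 : ℝ) * g H := by
    intro H hH
    have hH0 : 0 < H := by linarith
    have h2 := half_rpow_le' hH0 he'
    have h3 := hlg1 H (by linarith)
    have h4 : 0 ≤ (H / 2) ^ e := by positivity
    calc g (H / 2) = lg (H / 2) * (H / 2) ^ e := rfl
      _ ≤ lg H * ((1 / 2 : ℝ) ^ (1 / 6 : ℝ) * H ^ e) :=
          mul_le_mul (hlgm H hH) h2 h4 (by linarith)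
      _ = _ := by rw [hg]; ring
  -- finiteness
  have hcardH : ∀ H : ℝ, 1 ≤ H → ∃ N : ℕ, (N : ℝ) ≤ C₁ * H ^ ((ρ : ℝ) / 2) ∧
      ∀ S₀ : Finset (∀ i, (W i).Point), (S₀ : Set (∀ i, (W i).Point)) ⊆
        excSet W F Dg 𝓟 𝓧 Γ ε β H → S₀.card ≤ N := by
    intro H hH
    have hH0 : 0 < H := by linarith
    refine ⟨⌊C₁ * H ^ ((ρ : ℝ) / 2)⌋₊, Nat.floor_le (by positivity), ?_⟩
    intro S₀ hS₀
    apply Nat.le_floor
    exact (hmom H hH S₀ (fun P hP => ⟨(hS₀ hP).1, (hS₀ hP).2.1, (hS₀ hP).2.2.1⟩)).1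
  have hfin : ∀ H : ℝ, 1 ≤ H → (excSet W F Dg 𝓟 𝓧 Γ ε β H).Finite := by
    intro H hH
    obtain ⟨N, -, hN⟩ := hcardH H hH
    by_contra hinf
    obtain ⟨T, hT, hTN⟩ := Set.Infinite.exists_subset_card_eq hinf (N + 1)
    have := hN T hT
    omega
  have hcard : ∀ H : ℝ, 1 ≤ H → ((excSet W F Dg 𝓟 𝓧 Γ ε β H).ncard : ℝ) ≤
      C₁ * H ^ ((ρ : ℝ) / 2) := by
    intro H hH
    obtain ⟨N, hN0, hN⟩ := hcardH H hH
    have h1 := hN (hfin H hH).toFinset (by simp)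
    rw [← Set.ncard_eq_toFinset_card _ (hfin H hH)] at h1
    exact (by exact_mod_cast h1 : ((excSet W F Dg 𝓟 𝓧 Γ ε β H).ncard : ℝ) ≤ N).trans hN0
  -- the step
  set εβ : ℝ := ε * (2 : ℝ) ^ (-β) with hεβ
  have hεβ0 : 0 < εβ := by positivity
  set C₂ : ℝ := C₁ / εβ ^ p with hC₂
  have hC₂0 : 0 ≤ C₂ := by positivity
  have hstep : ∀ H : ℝ, 2 ≤ H → ((excSet W F Dg 𝓟 𝓧 Γ ε β H).ncard : ℝ) ≤
      ((excSet W F Dg 𝓟 𝓧 Γ ε β (H / 2)).ncard : ℝ) + C₂ * g H := by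
    intro H hH
    have hH1 : 1 ≤ H := by linarith
    have hH0 : 0 < H := by linarith
    set Q : ℝ := εβ * H ^ β with hQ
    have hQ0 : 0 < Q := by positivity
    have hQ' : Q = ε * (H / 2) ^ β := by
      rw [hQ, hεβ, Real.div_rpow hH0.le (by norm_num), Real.rpow_neg (by norm_num)]
      field_simp
    set T : Finset (∀ i, (W i).Point) := (hfin H hH1).toFinset \
      (hfin (H / 2) (by linarith)).toFinset with hT
    have hTP : ∀ P ∈ T, ((∀ i, P i ∈ Γ i) ∧ Off W F P ∧ ∑ i, (𝓧 i).H.h (P i) ≤ H) ∧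
        Q ≤ hY 𝓟 W F Dg P := by
      intro P hP
      rw [hT, Finset.mem_sdiff, Set.Finite.mem_toFinset, Set.Finite.mem_toFinset] at hP
      obtain ⟨⟨h1, h2, h3, h4⟩, h5⟩ := hP
      refine ⟨⟨h1, h2, h3⟩, ?_⟩
      by_contra hlt
      apply h5
      refine ⟨h1, h2, ?_, h4⟩
      by_contra hlt'
      apply hlt
      rw [hQ']
      refine le_trans ?_ h4.le
      apply mul_le_mul_of_nonneg_left _ hε.le
      exact Real.rpow_le_rpow (by linarith) (not_le.mp hlt').le hβ0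
    have hm := (hmom H hH1 T (fun P hP => (hTP P hP).1)).2
    have hTc : (T.card : ℝ) * Q ^ p ≤
        C₁ * (H ^ ((ρ : ℝ) / 2) * gr (2 * p) (c * r) H) := by
      refine le_trans ?_ hm
      rw [← nsmul_eq_mul, ← Finset.sum_const]
      refine Finset.sum_le_sum fun P hP => ?_
      exact pow_le_pow_left₀ hQ0.le ((hTP P hP).2.trans (le_max_right _ _)) p
    have hsplit : (excSet W F Dg 𝓟 𝓧 Γ ε β H).ncard ≤
        (excSet W F Dg 𝓟 𝓧 Γ ε β (H / 2)).ncard + T.card := by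
      rw [Set.ncard_eq_toFinset_card _ (hfin H hH1),
        Set.ncard_eq_toFinset_card _ (hfin (H / 2) (by linarith)), hT]
      have := Finset.card_le_card_sdiff_add_card (s := (hfin H hH1).toFinset)
        (t := (hfin (H / 2) (by linarith)).toFinset)
      omega
    have hsplit' : ((excSet W F Dg 𝓟 𝓧 Γ ε β H).ncard : ℝ) ≤
        (excSet W F Dg 𝓟 𝓧 Γ ε β (H / 2)).ncard + T.card := by exact_mod_cast hsplit
    refine hsplit'.trans (add_le_add le_rfl ?_)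
    have hQp : Q ^ p = εβ ^ p * H ^ (β * p) := by
      rw [hQ, mul_pow, ← Real.rpow_natCast (H ^ β) p, ← Real.rpow_mul hH0.le]
    have h1 : C₂ * g H * Q ^ p = C₁ * (H ^ ((ρ : ℝ) / 2) * gr (2 * p) (c * r) H) := by
      rw [← hgeq H hH1, hQp, hC₂, he₀, Real.rpow_sub hH0]
      field_simp
    exact le_of_mul_le_mul_right (hTc.trans_eq h1.symm) (by positivity)
  set K₀ : ℝ := C₁ * 2 ^ ((ρ : ℝ) / 2) with hK₀
  have hK₀0 : 0 ≤ K₀ := by positivity
  have hq1 : (1 / 2 : ℝ) ^ (1 / 6 : ℝ) < 1 :=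
    Real.rpow_lt_one (by norm_num) (by norm_num) (by norm_num)
  have hq0 : 0 ≤ (1 / 2 : ℝ) ^ (1 / 6 : ℝ) := by positivity
  refine ⟨(K₀ + C₂) / (1 - (1 / 2 : ℝ) ^ (1 / 6 : ℝ)), ?_, fun H hH => ⟨hfin H hH, ?_⟩⟩
  · have : 0 < 1 - (1 / 2 : ℝ) ^ (1 / 6 : ℝ) := by linarith
    positivity
  · rw [hgeq H hH]
    refine halving (F := fun H => ((excSet W F Dg 𝓟 𝓧 Γ ε β H).ncard : ℝ)) (g := g) hq0 hq1
      hC₂0 hK₀0 hg0 hghalf hstep ?_ H hH
    intro H hH hH2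
    have h1 := hcard H hH
    have h2 : C₁ * H ^ ((ρ : ℝ) / 2) ≤ K₀ := by
      rw [hK₀]
      apply mul_le_mul_of_nonneg_left _ hC₁0
      exact Real.rpow_le_rpow (by linarith) hH2.le (by positivity)
    have h3 : 0 ≤ C₂ * g H := mul_nonneg hC₂0 (by linarith [hg0 H hH])
    linarith

end

end Pool.Agent.AG
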